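import Mathlib
import Pool.Agent.Work.MP_c629c8_al.CondA

/-!
# Abelian pro-Lie groups: definitions
-/

universe u v

namespace Pool.Agent.Work.MP_c629c8_al

open Topology

section lie

/-- `Q` is a finite-dimensional abelian Lie group: it has an open subgroup that is topologically
isomorphic to `ℝ^n × (ℝ/ℤ)^m`. -/
def IsAbLie (Q : Type u) [AddCommGroup Q] [TopologicalSpace Q] : Prop :=
  ∃ (n m : ℕ) (U : AddSubgroup Q), IsOpen (U : Set Q) ∧
    Nonempty (U ≃ₜ+ (Fin n → ℝ) × (Fin m → UnitAddCircle))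

/-- Every neighbourhood of zero of `G` contains a closed subgroup `N` for which `G / N` is a
finite-dimensional Lie group. A complete Hausdorff abelian group with this property is an abelian
pro-Lie group. -/
def ProLie (G : Type u) [AddCommGroup G] [TopologicalSpace G] : Prop :=
  ∀ W ∈ 𝓝 (0 : G), ∃ N : AddSubgroup G, IsClosed (N : Set G) ∧ (N : Set G) ⊆ W ∧ IsAbLie (G ⧸ N)

/-- `G` has enough characters, and it is an extension, by a compact group, of the product of a
power of the real line and a complete group with a basis at zero of open subgroups. -/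
def HasForm (G : Type u) [AddCommGroup G] [TopologicalSpace G] : Prop :=
  (∀ g : G, g ≠ 0 → ∃ χ : Dual G, χ g ≠ 0) ∧
  ∃ (J P : Type u) (_ : AddCommGroup P) (_ : TopologicalSpace P) (_ : NonarchimedeanAddGroup P)
    (_ : T2Space P) (π : G →ₜ+ (J → ℝ) × P), Function.Surjective π ∧ IsOpenMap π ∧
      IsCompact {g | π g = 0} ∧ LinComplete P

end lie

section dot

/-- the pairing of finitely supported vectors with vectors -/
noncomputable def dot {κ : Type u} (d : κ →₀ ℝ) (x : κ → ℝ) : ℝ := d.sum fun k a => a * x k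

variable {κ : Type u}

lemma dot_add (d : κ →₀ ℝ) (x y : κ → ℝ) : dot d (x + y) = dot d x + dot d y := by
  unfold dot Finsupp.sum
  rw [← Finset.sum_add_distrib]
  exact Finset.sum_congr rfl fun k _ => mul_add _ _ _

lemma dot_zero (d : κ →₀ ℝ) : dot d (0 : κ → ℝ) = 0 := by
  unfold dot Finsupp.sum
  exact Finset.sum_eq_zero fun k _ => mul_zero _

lemma dot_smul (d : κ →₀ ℝ) (t : ℝ) (x : κ → ℝ) : dot d (t • x) = t * dot d x := by
  unfold dot Finsupp.sum
  rw [Finset.mul_sum]
  exact Finset.sum_congr rfl fun k _ => by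
    show d k * (t * x k) = t * (d k * x k)
    ring

lemma dot_neg (d : κ →₀ ℝ) (x : κ → ℝ) : dot d (-x) = -dot d x := by
  have h := dot_smul d (-1) x
  rwa [neg_one_smul, neg_one_mul] at h

lemma dot_sub (d : κ →₀ ℝ) (x y : κ → ℝ) : dot d (x - y) = dot d x - dot d y := by
  rw [sub_eq_add_neg, dot_add, dot_neg, ← sub_eq_add_neg]

lemma add_dot (d e : κ →₀ ℝ) (x : κ → ℝ) : dot (d + e) x = dot d x + dot e x :=
  Finsupp.sum_add_index' (fun _ => zero_mul _) (fun _ _ _ => add_mul _ _ _)

lemma zero_dot (x : κ → ℝ) : dot (0 : κ →₀ ℝ) x = 0 := Finsupp.sum_zero_index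

lemma smul_dot (t : ℝ) (d : κ →₀ ℝ) (x : κ → ℝ) : dot (t • d) x = t * dot d x := by
  unfold dot
  rw [Finsupp.sum_smul_index' (fun _ => zero_mul _), Finsupp.mul_sum]
  exact Finset.sum_congr rfl fun k _ => by
    show t • d k * _ = t * (d k * _)
    rw [smul_eq_mul, mul_assoc]

lemma single_dot (k : κ) (a : ℝ) (x : κ → ℝ) : dot (Finsupp.single k a) x = a * x k :=
  Finsupp.sum_single_index (zero_mul _)

lemma dot_eq_sum (d : κ →₀ ℝ) (x : κ → ℝ) {F : Finset κ} (h : d.support ⊆ F) :
    dot d x = ∑ k ∈ F, d k * x k :=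
  Finsupp.sum_of_support_subset d h (fun k a => a * x k) (fun _ _ => zero_mul _)

lemma continuous_dot (d : κ →₀ ℝ) : Continuous (dot d : (κ → ℝ) → ℝ) := by
  unfold dot Finsupp.sum
  exact continuous_finsetSum _ fun k _ => continuous_const.mul (continuous_apply k)

/-- the pairing as a continuous homomorphism -/
noncomputable def dotHom (d : κ →₀ ℝ) : (κ → ℝ) →ₜ+ ℝ where
  toFun := dot d
  map_zero' := dot_zero d
  map_add' := dot_add d
  continuous_toFun := continuous_dot d

lemma dotHom_apply (d : κ →₀ ℝ) (x : κ → ℝ) : dotHom d x = dot d x := rfl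

/-- the quotient map to the circle -/
noncomputable def toCircle : ℝ →ₜ+ UnitAddCircle where
  toFun := fun t => (t : UnitAddCircle)
  map_zero' := rfl
  map_add' := fun _ _ => rfl
  continuous_toFun := AddCircle.continuous_mk' 1

lemma toCircle_apply (t : ℝ) : toCircle t = (t : UnitAddCircle) := rfl

/-- the character of `κ → ℝ` given by a finitely supported vector -/
noncomputable def dotChar (d : κ →₀ ℝ) : Dual (κ → ℝ) := toCircle.comp (dotHom d)

lemma dotChar_apply (d : κ →₀ ℝ) (x : κ → ℝ) : dotChar d x = ((dot d x : ℝ) : UnitAddCircle) := rfl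

open Classical in
/-- the coordinate vectors -/
noncomputable def ev (k : κ) : κ → ℝ := Pi.single k 1

lemma ev_self (k : κ) : ev k k = 1 := by
  classical
  unfold ev
  rw [Pi.single_eq_same]

lemma ev_of_ne {k j : κ} (h : j ≠ k) : ev k j = 0 := by
  classical
  unfold ev
  rw [Pi.single_eq_of_ne h]

lemma dot_ev (d : κ →₀ ℝ) (k : κ) : dot d (ev k) = d k := by
  classical
  rw [dot_eq_sum d (ev k) (F := insert k d.support) (Finset.subset_insert _ _),
    Finset.sum_eq_single_of_mem k (Finset.mem_insert_self _ _)]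
  · rw [ev_self, mul_one]
  · intro j _ hj
    rw [ev_of_ne hj, mul_zero]

end dot

section integral

variable {α : Type u} {P : Type v} [AddCommGroup P] [TopologicalSpace P]

/-- `H` is integral: for every `j` the `j`-th coordinate of `(x, y) ∈ H` is an integer if `y`
belongs to a suitable open subgroup -/
def Integral (H : AddSubgroup ((α → ℝ) × P)) : Prop :=
  ∀ j, ∃ N : OpenAddSubgroup P, ∀ x y, (x, y) ∈ H → y ∈ N → ((x j : ℝ) : UnitAddCircle) = 0

/-- the subgroup of all `(x, y)` with `x j = ψ j y` modulo the integers -/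
def graphB (ψ : α → Dual P) : AddSubgroup ((α → ℝ) × P) where
  carrier := {z | ∀ j, ψ j z.2 = ((z.1 j : ℝ) : UnitAddCircle)}
  zero_mem' := fun j => map_zero (ψ j)
  add_mem' := fun {a b} ha hb j => by
    show ψ j (a.2 + b.2) = (((a.1 j + b.1 j : ℝ)) : UnitAddCircle)
    rw [map_add, ha j, hb j, AddCircle.coe_add]
  neg_mem' := fun {a} ha j => by
    show ψ j (-a.2) = (((-a.1 j : ℝ)) : UnitAddCircle)
    rw [map_neg, ha j, AddCircle.coe_neg]

lemma mem_graphB {ψ : α → Dual P} {z : (α → ℝ) × P} :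
    z ∈ graphB ψ ↔ ∀ j, ψ j z.2 = ((z.1 j : ℝ) : UnitAddCircle) := Iff.rfl

end integral

section cover

variable {κ : Type u} {Y : Type v} [AddCommGroup Y] [TopologicalSpace Y]

/-- `Y` is generated by the image of `κ → ℝ` under `f` and the closed subgroup `Q`, with the
topology generated by the two, and `Q` meets the image in the image of the integral vectors -/
structure Cover (f : (κ → ℝ) →ₜ+ Y) (Q : AddSubgroup Y) : Prop where
  isClosed : IsClosed (Q : Set Y)
  gen : ∀ y : Y, ∃ x, ∃ q ∈ Q, f x + q = y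
  int : ∀ x, f x ∈ Q ↔ ∀ k, ((x k : ℝ) : UnitAddCircle) = 0
  nhds : ∀ U ∈ 𝓝 (0 : κ → ℝ), ∀ O ∈ 𝓝 (0 : Y), ∃ W ∈ 𝓝 (0 : Y), ∀ y ∈ W, ∃ x ∈ U, ∃ q ∈ Q,
    q ∈ O ∧ f x + q = y

lemma Cover.ev_mem {f : (κ → ℝ) →ₜ+ Y} {Q : AddSubgroup Y} (h : Cover f Q) (k : κ) :
    f (ev k) ∈ Q := by
  rw [h.int]
  intro j
  by_cases hj : j = k
  · subst hj
    rw [ev_self]
    exact AddCircle.coe_period 1
  · rw [ev_of_ne hj]
    rfl

end cover

end Pool.Agent.Work.MP_c629c8_al
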