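import Mathlib

/-!
# Closed subgroups of finite-dimensional spaces are separated by integral functionals
-/

universe u v

namespace Pool.Agent.Work.MP_c629c8_al

open Topology Filter

lemma coe_eq_zero_of_int (n : ℤ) : (((n : ℝ) : ℝ) : UnitAddCircle) = 0 :=
  (AddCircle.coe_eq_zero_iff 1).mpr ⟨n, by rw [zsmul_eq_mul, mul_one]⟩

lemma exists_int_of_coe_eq_zero {x : ℝ} (h : (x : UnitAddCircle) = 0) : ∃ n : ℤ, (n : ℝ) = x := by
  obtain ⟨n, hn⟩ := (AddCircle.coe_eq_zero_iff 1).mp h
  exact ⟨n, by rw [← hn, zsmul_eq_mul, mul_one]⟩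

/-- a point outside a discrete subgroup is separated from it by a functional which is integral
on the subgroup -/
theorem exists_functional_discrete {E : Type u} [NormedAddCommGroup E] [NormedSpace ℝ E]
    [FiniteDimensional ℝ E] (L : Submodule ℤ E) [DiscreteTopology L] {z : E} (hz : z ∉ L) :
    ∃ d : E →ₗ[ℝ] ℝ, (∀ g ∈ L, ((d g : ℝ) : UnitAddCircle) = 0) ∧
      ((d z : ℝ) : UnitAddCircle) ≠ 0 := by
  by_cases hzS : z ∈ Submodule.span ℝ (L : Set E)
  · let f := (Submodule.span ℝ (L : Set E)).subtype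
    let L₀ := L.comap (f.restrictScalars ℤ)
    have h_img : f '' L₀ = L := by
      rw [← LinearMap.coe_restrictScalars ℤ f, ← Submodule.map_coe (f.restrictScalars ℤ),
        Submodule.map_comap_eq_self]
      exact fun x hx ↦ LinearMap.mem_range.mpr ⟨⟨x, Submodule.subset_span hx⟩, rfl⟩
    have hd : DiscreteTopology L₀ := by
      refine DiscreteTopology.preimage_of_continuous_injective (L : Set E) ?_
        (Submodule.injective_subtype _)
      exact LinearMap.continuous_of_finiteDimensional f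
    have hl : IsZLattice ℝ L₀ := ⟨by
      rw [← (Submodule.map_injective_of_injective (Submodule.injective_subtype _)).eq_iff,
        Submodule.map_span, Submodule.map_top, Submodule.range_subtype, h_img]⟩
    let b := Module.Free.chooseBasis ℤ L₀
    let B := b.ofZLatticeBasis ℝ L₀
    have hB : ¬ ∀ i, B.repr ⟨z, hzS⟩ i ∈ Set.range (algebraMap ℤ ℝ) := by
      rw [← Module.Basis.mem_span_iff_repr_mem, b.ofZLatticeBasis_span ℝ]
      intro h
      exact hz h
    push Not at hB
    obtain ⟨i, hi⟩ := hB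
    obtain ⟨g, hg⟩ := LinearMap.exists_extend (B.coord i)
    have hg' : ∀ x : Submodule.span ℝ (L : Set E), g x = B.repr x i := fun x =>
      LinearMap.congr_fun hg x
    refine ⟨g, ?_, ?_⟩
    · intro x hx
      have hxS : x ∈ Submodule.span ℝ (L : Set E) := Submodule.subset_span hx
      have h1 := hg' ⟨x, hxS⟩
      have h2 := b.ofZLatticeBasis_repr_apply ℝ L₀ ⟨⟨x, hxS⟩, hx⟩ i
      have h3 : g x = ((b.repr ⟨⟨x, hxS⟩, hx⟩ i : ℤ) : ℝ) := h1.trans h2
      rw [h3]
      exact coe_eq_zero_of_int _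
    · intro h
      obtain ⟨n, hn⟩ := exists_int_of_coe_eq_zero h
      exact hi ⟨n, hn.trans (hg' ⟨z, hzS⟩)⟩
  · obtain ⟨g, hg, hgz⟩ := LinearMap.exists_extend_of_notMem
      (0 : Submodule.span ℝ (L : Set E) →ₗ[ℝ] ℝ) hzS (1 / 2 : ℝ)
    refine ⟨g, ?_, ?_⟩
    · intro x hx
      have h1 : g x = 0 := LinearMap.congr_fun hg ⟨x, Submodule.subset_span hx⟩
      rw [h1]
      rfl
    · intro h
      obtain ⟨n, hn⟩ := exists_int_of_coe_eq_zero h
      rw [hgz] at hn
      have h2 : ((2 * n : ℤ) : ℝ) = ((1 : ℤ) : ℝ) := by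
        push_cast
        linarith
      have h3 : 2 * n = 1 := by exact_mod_cast h2
      omega

/-- a closed subgroup without lines is discrete -/
theorem discreteTopology_of_no_line {E : Type u} [NormedAddCommGroup E] [NormedSpace ℝ E]
    [FiniteDimensional ℝ E] (Γ : AddSubgroup E) (hΓ : IsClosed (Γ : Set E))
    (h : ∀ v : E, (∀ t : ℝ, t • v ∈ Γ) → v = 0) : DiscreteTopology Γ := by
  rw [discreteTopology_iff_isOpen_singleton_zero, Metric.isOpen_singleton_iff]
  by_contra hc
  push Not at hc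
  have h1 : ∀ n : ℕ, ∃ y : Γ, dist y 0 < 1 / ((n : ℝ) + 1) ∧ y ≠ 0 := fun n =>
    hc _ (by positivity)
  choose y hy hy0 using h1
  have hn : ∀ n, 0 < ‖(y n : E)‖ := fun n => by
    rw [norm_pos_iff]
    intro h0
    exact hy0 n (Subtype.ext h0)
  have hys : ∀ n, ‖(y n : E)‖ < 1 / ((n : ℝ) + 1) := fun n => by
    have := hy n
    rwa [dist_zero_right] at this
  have hlim : Tendsto (fun n => ‖(y n : E)‖) atTop (𝓝 0) :=
    squeeze_zero (fun n => norm_nonneg _) (fun n => (hys n).le)
      tendsto_one_div_add_atTop_nhds_zero_nat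
  have hmem : ∀ n, (‖(y n : E)‖⁻¹ • (y n : E)) ∈ Metric.sphere (0 : E) 1 := fun n => by
    rw [mem_sphere_zero_iff_norm, norm_smul, norm_inv, norm_norm, inv_mul_cancel₀ (hn n).ne']
  obtain ⟨w, hw, φ, hφ, hφw⟩ := (isCompact_sphere (0 : E) 1).tendsto_subseq hmem
  have hw0 : w = 0 := by
    refine h w fun t => ?_
    have h2 : Tendsto (fun n => (⌊t / ‖(y (φ n) : E)‖⌋ : ℤ) • (y (φ n) : E)) atTop
        (𝓝 (t • w)) := by
      have h3 : Tendsto (fun n => (⌊t / ‖(y (φ n) : E)‖⌋ : ℝ) * ‖(y (φ n) : E)‖) atTop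
          (𝓝 t) := by
        have h4 : Tendsto (fun n => t - ‖(y (φ n) : E)‖) atTop (𝓝 t) := by
          have := (tendsto_const_nhds (x := t)).sub (hlim.comp hφ.tendsto_atTop)
          rwa [sub_zero] at this
        refine tendsto_of_tendsto_of_tendsto_of_le_of_le h4 tendsto_const_nhds ?_ ?_
        · intro n
          have h5 := Int.sub_one_lt_floor (t / ‖(y (φ n) : E)‖)
          have h6 := hn (φ n)
          have h7 : (t / ‖(y (φ n) : E)‖ - 1) * ‖(y (φ n) : E)‖ ≤
              (⌊t / ‖(y (φ n) : E)‖⌋ : ℝ) * ‖(y (φ n) : E)‖ :=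
            mul_le_mul_of_nonneg_right h5.le h6.le
          rw [sub_mul, one_mul, div_mul_cancel₀ _ h6.ne'] at h7
          exact h7
        · intro n
          have h5 := Int.floor_le (t / ‖(y (φ n) : E)‖)
          have h6 := hn (φ n)
          have h7 := mul_le_mul_of_nonneg_right h5 h6.le
          rwa [div_mul_cancel₀ _ h6.ne'] at h7
      have h8 := h3.smul hφw
      refine h8.congr fun n => ?_
      show ((⌊t / ‖(y (φ n) : E)‖⌋ : ℝ) * ‖(y (φ n) : E)‖) •
        (‖(y (φ n) : E)‖⁻¹ • (y (φ n) : E)) = _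
      rw [smul_smul, mul_assoc, mul_inv_cancel₀ (hn (φ n)).ne', mul_one]
      exact Int.cast_smul_eq_zsmul ℝ _ _
    exact hΓ.mem_of_tendsto h2 (Eventually.of_forall fun n => Γ.zsmul_mem (y (φ n)).2 _)
  rw [hw0, mem_sphere_zero_iff_norm, norm_zero] at hw
  exact zero_ne_one hw

/-- a point outside a closed subgroup of a finite-dimensional space is separated from it by a
functional which is integral on the subgroup -/
theorem exists_functional {E : Type u} [NormedAddCommGroup E] [NormedSpace ℝ E]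
    [FiniteDimensional ℝ E] (Γ : AddSubgroup E) (hΓ : IsClosed (Γ : Set E)) {z : E}
    (hz : z ∉ Γ) : ∃ d : E →ₗ[ℝ] ℝ, (∀ g ∈ Γ, ((d g : ℝ) : UnitAddCircle) = 0) ∧
      ((d z : ℝ) : UnitAddCircle) ≠ 0 := by
  let V : Submodule ℝ E :=
    { carrier := {v | ∀ t : ℝ, t • v ∈ Γ}
      zero_mem' := fun t => by
        rw [smul_zero]
        exact Γ.zero_mem
      add_mem' := fun {a b} ha hb t => by
        rw [smul_add]
        exact Γ.add_mem (ha t) (hb t)
      smul_mem' := fun c v hv t => by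
        rw [smul_smul]
        exact hv (t * c) }
  have hVΓ : ∀ v ∈ V, v ∈ Γ := fun v hv => by
    have := hv 1
    rwa [one_smul] at this
  obtain ⟨W, hW⟩ := V.exists_isCompl
  let pr := W.projectionOnto V hW.symm
  have hpr : ∀ x, x - (pr x : E) ∈ Γ := fun x => hVΓ _ (by
    rw [Submodule.coe_projectionOnto_apply, ← Submodule.projection_eq_self_sub_projection]
    exact Submodule.projection_apply_mem _ x)
  let Γ' : AddSubgroup W := Γ.comap W.subtype.toAddMonoidHom
  have hΓ' : IsClosed (Γ' : Set W) := hΓ.preimage continuous_subtype_val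
  have hd : DiscreteTopology Γ' := by
    refine discreteTopology_of_no_line Γ' hΓ' fun v hv => ?_
    have h1 : (v : E) ∈ V := fun t => hv t
    exact Subtype.ext (Submodule.disjoint_def.mp hW.disjoint _ h1 v.2)
  have hd' : DiscreteTopology (AddSubgroup.toIntSubmodule Γ') := hd
  have hz' : pr z ∉ AddSubgroup.toIntSubmodule Γ' := by
    intro h
    have h1 : (pr z : E) ∈ Γ := h
    have h2 := Γ.add_mem (hpr z) h1
    rw [sub_add_cancel] at h2
    exact hz h2
  obtain ⟨d, hd1, hd2⟩ := exists_functional_discrete (AddSubgroup.toIntSubmodule Γ') hz'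
  refine ⟨d.comp pr, fun g hg => hd1 _ ?_, hd2⟩
  have h1 := Γ.sub_mem hg (hpr g)
  rw [sub_sub_cancel] at h1
  exact h1

end Pool.Agent.Work.MP_c629c8_al
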