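import Mathlib
import Pool.Agent.Work.MP_c629c8_al.Vec.Defs
import Pool.Agent.Work.MP_c629c8_al.Vec.Rn

/-!
# Points of a compact group with prescribed values of characters
-/

universe u v w

namespace Pool.Agent.Work.MP_c629c8_al

open Topology

section

variable {C : Type u} [AddCommGroup C] [TopologicalSpace C] {D : Type v} [AddCommGroup D]

/-- the vectors whose classes modulo the integers are the values of finitely many characters at
a point -/
def liftImage (β : D →+ Dual C) (s : Finset D) : AddSubgroup (s → ℝ) where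
  carrier := {t | ∃ c : C, ∀ i : s, ((t i : ℝ) : UnitAddCircle) = β i c}
  zero_mem' := ⟨0, fun i => (map_zero (β i)).symm⟩
  add_mem' := by
    rintro a b ⟨c, hc⟩ ⟨c', hc'⟩
    refine ⟨c + c', fun i => ?_⟩
    show (((a i + b i : ℝ)) : UnitAddCircle) = _
    rw [map_add, AddCircle.coe_add, hc i, hc' i]
  neg_mem' := by
    rintro a ⟨c, hc⟩
    refine ⟨-c, fun i => ?_⟩
    show (((-a i : ℝ)) : UnitAddCircle) = _
    rw [map_neg, AddCircle.coe_neg, hc i]

lemma mem_liftImage {β : D →+ Dual C} {s : Finset D} {t : s → ℝ} :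
    t ∈ liftImage β s ↔ ∃ c : C, ∀ i : s, ((t i : ℝ) : UnitAddCircle) = β i c := Iff.rfl

lemma isClosed_liftImage [CompactSpace C] (β : D →+ Dual C) (s : Finset D) :
    IsClosed (liftImage β s : Set (s → ℝ)) := by
  have h1 : Continuous fun (c : C) (i : s) => β i c :=
    continuous_pi fun i => (β i).continuous_toFun
  have h2 : IsClosed (Set.range fun (c : C) (i : s) => β i c) := (isCompact_range h1).isClosed
  have h3 : Continuous fun (t : s → ℝ) (i : s) => ((t i : ℝ) : UnitAddCircle) :=
    continuous_pi fun i => (AddCircle.continuous_mk' 1).comp (continuous_apply i)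
  convert h2.preimage h3 using 1
  ext t
  constructor
  · rintro ⟨c, hc⟩
    exact ⟨c, funext fun i => (hc i).symm⟩
  · rintro ⟨c, hc⟩
    exact ⟨c, fun i => (congrFun hc i).symm⟩

lemma exists_point_finset [CompactSpace C] (β : D →+ Dual C) (Ψ : D →+ UnitAddCircle)
    (h : ∀ d, β d = 0 → Ψ d = 0) (s : Finset D) : ∃ c, ∀ d ∈ s, Ψ d = β d c := by
  classical
  have hz : ∀ i : s, ∃ x : ℝ, (x : UnitAddCircle) = Ψ i := fun i =>
    QuotientAddGroup.mk_surjective (Ψ i)
  choose z hz using hz
  by_cases hzm : z ∈ liftImage β s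
  · obtain ⟨c, hc⟩ := hzm
    exact ⟨c, fun d hd => by rw [← hz ⟨d, hd⟩, hc ⟨d, hd⟩]⟩
  exfalso
  obtain ⟨m, hm, hmz⟩ := exists_functional (liftImage β s) (isClosed_liftImage β s) hzm
  have hn : ∀ i : s, ∃ n : ℤ, (n : ℝ) = m (Pi.single i 1) := by
    intro i
    have h1 : (Pi.single i 1 : s → ℝ) ∈ liftImage β s := by
      refine ⟨0, fun j => ?_⟩
      rw [map_zero]
      by_cases hj : j = i
      · subst hj
        rw [Pi.single_eq_same]
        exact AddCircle.coe_period 1
      · rw [Pi.single_eq_of_ne hj]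
        rfl
    have h2 := hm _ h1
    rw [AddCircle.coe_eq_zero_iff] at h2
    obtain ⟨n, hn⟩ := h2
    exact ⟨n, by rw [← hn]; simp⟩
  choose n hn using hn
  have hmt : ∀ t : s → ℝ, ((m t : ℝ) : UnitAddCircle) = ∑ i, n i • ((t i : ℝ) : UnitAddCircle) := by
    intro t
    have h1 : m t = ∑ i, n i • t i := by
      conv_lhs => rw [pi_eq_sum_univ' t]
      rw [map_sum]
      refine Finset.sum_congr rfl fun i _ => ?_
      rw [map_smul, zsmul_eq_mul, hn i, smul_eq_mul, mul_comm]
    rw [h1]
    show toCircle (∑ i, n i • t i) = ∑ i, n i • toCircle (t i)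
    rw [map_sum]
    exact Finset.sum_congr rfl fun i _ => map_zsmul _ _ _
  have hβ : β (∑ i : s, n i • (i : D)) = 0 := by
    ext c
    choose t ht using fun i : s => (QuotientAddGroup.mk_surjective (β i c) :
      ∃ x : ℝ, (x : UnitAddCircle) = β i c)
    have h1 := hm t ⟨c, ht⟩
    rw [hmt] at h1
    have h2 : β (∑ i : s, n i • (i : D)) c = ∑ i : s, n i • β i c := by
      show etaHom C c (β (∑ i : s, n i • (i : D))) = ∑ i : s, n i • etaHom C c (β i)
      rw [map_sum, map_sum]
      exact Finset.sum_congr rfl fun i _ => by rw [map_zsmul, map_zsmul]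
    rw [h2]
    show _ = (0 : UnitAddCircle)
    rw [← h1]
    exact Finset.sum_congr rfl fun i _ => by rw [ht i]
  have hΨ := h _ hβ
  apply hmz
  rw [hmt, ← hΨ, map_sum]
  exact Finset.sum_congr rfl fun i _ => by rw [map_zsmul, hz i]

/-- A homomorphism that kills the kernel of a map from an abstract group to the characters of a
compact group is given by a point of that group. -/
theorem exists_point [IsTopologicalAddGroup C] [CompactSpace C] (β : D →+ Dual C)
    (Ψ : D →+ UnitAddCircle) (h : ∀ d, β d = 0 → Ψ d = 0) : ∃ c, ∀ d, Ψ d = β d c := by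
  have h1 : (Set.univ ∩ ⋂ d, {c | Ψ d = β d c}).Nonempty := by
    refine isCompact_univ.inter_iInter_nonempty _
      (fun d => isClosed_eq continuous_const (β d).continuous_toFun) fun s => ?_
    obtain ⟨c, hc⟩ := exists_point_finset β Ψ h s
    exact ⟨c, trivial, Set.mem_iInter₂.2 fun d hd => hc d hd⟩
  obtain ⟨c, -, hc⟩ := h1
  exact ⟨c, fun d => Set.mem_iInter.1 hc d⟩

end

end Pool.Agent.Work.MP_c629c8_al
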