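import Mathlib
import Pool.Agent.Work.MP_c629c8_al.Vec.Defs
import Pool.Agent.Work.MP_c629c8_al.Refl

/-!
# Covers: continuity of the evaluation map

Compact sets of characters of first countable groups are equicontinuous, and the evaluation map of
a group covered by `κ → ℝ`, `κ` countable, and a nonarchimedean subgroup with continuous evaluation
map is continuous.
-/

universe u v w

namespace Pool.Agent.Work.MP_c629c8_al

open Topology

/-- a continuous evaluation map gives equicontinuity -/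
theorem equi_of_eta_continuous {G : Type u} [AddCommGroup G] [TopologicalSpace G]
    (h : Continuous (eta G)) {E : Set (Dual G)} (hE : IsCompact E) {U : Set UnitAddCircle}
    (hU : IsOpen U) (h0 : (0 : UnitAddCircle) ∈ U) : ∀ᶠ x in 𝓝 (0 : G), ∀ χ ∈ E, χ x ∈ U := by
  let O : Set (Dual (Dual G)) := {ψ | Set.MapsTo ψ E U}
  have hO : IsOpen O := isOpen_induced (ContinuousMap.isOpen_setOfPred_mapsTo hE hU)
  have h1 : eta G 0 ∈ O := by
    intro χ _
    show χ 0 ∈ U
    rwa [map_zero]
  exact h.continuousAt.preimage_mem_nhds (hO.mem_nhds h1)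

/-- compact sets of characters of first countable groups are equicontinuous -/
theorem equi_of_firstCountable {G : Type u} [AddCommGroup G] [TopologicalSpace G]
    [IsTopologicalAddGroup G] [FirstCountableTopology G] {E : Set (Dual G)} (hE : IsCompact E)
    {U : Set UnitAddCircle} (hU : IsOpen U) (h0 : (0 : UnitAddCircle) ∈ U) :
    ∀ᶠ x in 𝓝 (0 : G), ∀ χ ∈ E, χ x ∈ U := by
  by_contra hcon
  obtain ⟨x, hx, hx'⟩ := Filter.exists_seq_forall_of_frequently (Filter.not_eventually.1 hcon)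
  have h1 : ∀ n, ∃ χ ∈ E, χ (x n) ∉ U := fun n => by
    have h := hx' n
    push Not at h
    exact h
  choose a ha ha' using h1
  obtain ⟨χ, -, hle⟩ := hE.ultrafilter_le_nhds (Ultrafilter.map a (Filter.hyperfilter ℕ)) (by
    rw [Ultrafilter.coe_map, Filter.le_principal_iff]
    exact Filter.mem_map.2 (Filter.univ_mem' ha))
  have h2 : Filter.Tendsto a (Filter.hyperfilter ℕ : Filter ℕ) (𝓝 χ) := hle
  have h3 := (((ContinuousAddMonoidHom.isInducing_toContinuousMap G
    UnitAddCircle).tendsto_nhds_iff).1 h2)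
  rw [ContinuousMap.tendsto_iff_forall_isCompact_tendstoUniformlyOn] at h3
  have hK : IsCompact (insert (0 : G) (Set.range x)) := hx.isCompact_insert_range
  have h4 := h3 _ hK
  have hx2 : Filter.Tendsto x (Filter.hyperfilter ℕ : Filter ℕ)
      (𝓝[insert (0 : G) (Set.range x)] 0) := by
    rw [tendsto_nhdsWithin_iff]
    refine ⟨hx.mono_left Nat.hyperfilter_le_atTop, Filter.Eventually.of_forall fun n => ?_⟩
    exact Set.mem_insert_of_mem _ ⟨n, rfl⟩
  have h5 := h4.tendsto_comp (x := (0 : G)) (χ.continuous_toFun.continuousWithinAt) hx2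
  have h6 : U ∈ 𝓝 (χ.toFun 0) := by
    have : (χ.toFun 0 : UnitAddCircle) = 0 := map_zero χ
    rw [this]
    exact hU.mem_nhds h0
  obtain ⟨n, hn⟩ := (h5.eventually h6).exists
  exact ha' n hn

section coverSec

variable {κ : Type u} {Y : Type v} [AddCommGroup Y] [TopologicalSpace Y] [IsTopologicalAddGroup Y]
  {f : (κ → ℝ) →ₜ+ Y} {Q : AddSubgroup Y}

theorem Cover.eta_continuous [Countable κ] (h : Cover f Q) [NonarchimedeanAddGroup Q]
    (hQ : Continuous (eta Q)) : Continuous (eta Y) := by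
  refine Pool.Agent.Work.MP_c629c8_al.eta_continuous fun E hE U hU h0 => ?_
  let res : Dual Y →ₜ+ Dual Q := ContinuousAddMonoidHom.compLeft UnitAddCircle
    (⟨Q.subtype, continuous_subtype_val⟩ : Q →ₜ+ Y)
  have hres : ∀ (χ : Dual Y) (q : Q), res χ q = χ q := fun _ _ => rfl
  have h1 := equi_of_eta_continuous hQ (hE.image res.continuous_toFun)
    (Metric.isOpen_ball (x := (0 : UnitAddCircle)) (ε := 1 / 4))
    (Metric.mem_ball_self (by norm_num))
  obtain ⟨O, hO⟩ := NonarchimedeanAddGroup.is_nonarchimedean _ h1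
  have hvan : ∀ χ ∈ E, ∀ q ∈ O, χ (q : Y) = 0 := by
    intro χ hχ q hq
    refine eq_zero_of_small fun j => ?_
    have h2 := hO (O.toAddSubgroup.nsmul_mem hq j) (res χ) ⟨χ, hχ, rfl⟩
    rw [mem_ball_zero_iff, map_nsmul, hres] at h2
    exact h2
  obtain ⟨O', hO', hOO'⟩ := mem_nhds_subtype (Q : Set Y) (0 : Q) (O : Set Q) |>.1 O.mem_nhds_zero
  let cf : Dual Y →ₜ+ Dual (κ → ℝ) := ContinuousAddMonoidHom.compLeft UnitAddCircle f
  have hcf : ∀ (χ : Dual Y) (x : κ → ℝ), cf χ x = χ (f x) := fun _ _ => rfl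
  have h3 := equi_of_firstCountable (hE.image cf.continuous_toFun) hU h0
  obtain ⟨W, hW, hWW⟩ := h.nhds _ h3 O' hO'
  filter_upwards [hW] with y hy χ hχ
  obtain ⟨x, hx, q, hqQ, hqO, rfl⟩ := hWW y hy
  have h4 : χ q = 0 := hvan χ hχ ⟨q, hqQ⟩ (hOO' hqO)
  rw [map_add, h4, add_zero, ← hcf]
  exact hx _ ⟨χ, hχ, rfl⟩

end coverSec

end Pool.Agent.Work.MP_c629c8_al
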