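import Mathlib
import Pool.Agent.Work.MP_c629c8_al.Vec.Defs
import Pool.Agent.Work.MP_c629c8_al.PiGood

/-!
# A proper homomorphism from a pro-Lie group
-/

universe u v w

namespace Pool.Agent.Work.MP_c629c8_al

open Topology Pointwise

set_option linter.unusedSectionVars false

section proper

variable {A : Type u} {B : Type v} [AddCommGroup A] [TopologicalSpace A] [IsTopologicalAddGroup A]
  [AddCommGroup B] [TopologicalSpace B] [IsTopologicalAddGroup B]

/-- the fibres of a homomorphism are translates of the kernel -/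
lemma isCompact_fibre (f : A →ₜ+ B) (hK : IsCompact {a | f a = 0}) (b : B) :
    IsCompact (f ⁻¹' {b}) := by
  by_cases h : ∃ a, f a = b
  · obtain ⟨a, rfl⟩ := h
    have : f ⁻¹' {f a} = (fun x => x + a) '' {x | f x = 0} := by
      ext y
      constructor
      · intro hy
        refine ⟨y - a, ?_, sub_add_cancel y a⟩
        show f (y - a) = 0
        have hy' : f y = f a := hy
        rw [map_sub, hy', sub_self]
      · rintro ⟨x, hx, rfl⟩
        have hx' : f x = 0 := hx
        show f (x + a) = f a
        rw [map_add, hx', zero_add]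
    rw [this]
    exact hK.image (continuous_id.add continuous_const)
  · have : f ⁻¹' {b} = ∅ := by
      ext y
      simp only [Set.mem_preimage, Set.mem_singleton_iff, Set.mem_empty_iff_false, iff_false]
      exact fun hy => h ⟨y, hy⟩
    rw [this]
    exact isCompact_empty

/-- an open surjective homomorphism with compact kernel is proper -/
theorem isProperMap_of_compact_ker (f : A →ₜ+ B) (hf : Function.Surjective f)
    (ho : IsOpenMap f) (hK : IsCompact {a | f a = 0}) : IsProperMap f := by
  rw [isProperMap_iff_isClosedMap_and_compact_fibers]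
  refine ⟨f.continuous_toFun, ?_, isCompact_fibre f hK⟩
  intro C hC
  have hq : IsQuotientMap f := ho.isQuotientMap f.continuous_toFun hf
  rw [← hq.isClosed_preimage]
  have : f ⁻¹' (f '' C) = C + {a | f a = 0} := by
    ext y
    constructor
    · rintro ⟨c, hc, hcy⟩
      refine ⟨c, hc, y - c, ?_, add_sub_cancel c y⟩
      show f (y - c) = 0
      rw [map_sub, hcy, sub_self]
    · rintro ⟨c, hc, k, hk, rfl⟩
      have hk' : f k = 0 := hk
      refine ⟨c, hc, ?_⟩
      show f c = f (c + k)
      rw [map_add, hk', add_zero]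
  rw [this]
  exact hC.add_right_of_isCompact hK

/-- a surjective proper homomorphism is open -/
theorem isOpenMap_of_isProperMap (f : A →ₜ+ B) (hf : Function.Surjective f)
    (hp : IsProperMap f) : IsOpenMap f := by
  have hq : IsQuotientMap f := hp.isClosedMap.isQuotientMap hp.continuous hf
  exact (AddMonoidHom.isOpenQuotientMap_of_isQuotientMap hq).isOpenMap

end proper

section divisible

/-- homomorphisms to a power of the real line extend -/
lemma exists_extension_real {A B : Type*} [AddCommGroup A] [AddCommGroup B] {n : ℕ} (f : A →+ B)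
    (hf : Function.Injective f) (g : A →+ (Fin n → ℝ)) :
    ∃ h : B →+ (Fin n → ℝ), ∀ a, h (f a) = g a := by
  have hd : DivisibleBy (Fin n → ℝ) ℤ :=
    { div := fun x k => ((k : ℝ)⁻¹) • x
      div_zero := fun x => by
        show (((0 : ℤ) : ℝ)⁻¹) • x = 0
        rw [Int.cast_zero, inv_zero, zero_smul]
      div_cancel := fun {k} x hk => by
        show k • (((k : ℝ)⁻¹) • x) = x
        have hk' : (k : ℝ) ≠ 0 := Int.cast_ne_zero.2 hk
        rw [← Int.cast_smul_eq_zsmul ℝ k, smul_smul, mul_inv_cancel₀ hk', one_smul] }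
  obtain ⟨h, hh⟩ := (Module.Baer.of_divisible (Fin n → ℝ)).extension_property_addMonoidHom
    f hf g
  exact ⟨h, fun a => DFunLike.congr_fun hh a⟩

end divisible

section lie

variable {Q : Type u} [AddCommGroup Q] [TopologicalSpace Q] [IsTopologicalAddGroup Q]

/-- a Lie group is a compact extension of the product of a vector group and a discrete group -/
theorem IsAbLie.exists_proper (h : IsAbLie Q) : ∃ (n : ℕ) (U : AddSubgroup Q)
    (f : Q →ₜ+ (Fin n → ℝ) × (Q ⧸ U)), IsOpen (U : Set Q) ∧ IsProperMap f := by
  obtain ⟨n, m, U, hU, ⟨e⟩⟩ := h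
  have hdisc : DiscreteTopology (Q ⧸ U) := QuotientAddGroup.discreteTopology hU
  -- the first component on `U`
  let g : U →+ (Fin n → ℝ) :=
    { toFun := fun x => (e x).1
      map_zero' := by rw [map_zero]; rfl
      map_add' := fun x y => by rw [map_add]; rfl }
  obtain ⟨φ, hφ⟩ := exists_extension_real U.subtype U.subtype_injective g
  have hφ' : ∀ x : U, φ x = (e x).1 := hφ
  have hcont : Continuous φ := by
    apply continuous_of_continuousAt_zero φ
    have h1 : Continuous fun x : U => φ x := by
      have : (fun x : U => φ x) = fun x : U => (e x).1 := funext hφ'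
      rw [this]
      exact continuous_fst.comp e.continuous
    have h2 : ContinuousAt (fun x : U => φ x) 0 := h1.continuousAt
    have h3 : 𝓝 ((0 : U) : Q) = Filter.map (Subtype.val : U → Q) (𝓝 (0 : U)) :=
      (hU.isOpenEmbedding_subtypeVal.map_nhds_eq (0 : U)).symm
    have h4 : ((0 : U) : Q) = 0 := rfl
    show Filter.Tendsto φ (𝓝 0) (𝓝 (φ 0))
    rw [← h4, h3, Filter.tendsto_map'_iff]
    exact h2
  let f : Q →ₜ+ (Fin n → ℝ) × (Q ⧸ U) :=
    { toFun := fun x => (φ x, QuotientAddGroup.mk x)
      map_zero' := by rw [map_zero]; rfl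
      map_add' := fun x y => by rw [map_add]; rfl
      continuous_toFun := hcont.prodMk QuotientAddGroup.continuous_mk }
  refine ⟨n, U, f, hU, ?_⟩
  have hf1 : ∀ x, f x = (φ x, QuotientAddGroup.mk x) := fun _ => rfl
  have hsurj : Function.Surjective f := by
    rintro ⟨x, q⟩
    obtain ⟨q, rfl⟩ := QuotientAddGroup.mk_surjective q
    refine ⟨q + (e.symm (x - φ q, 0) : U), ?_⟩
    rw [hf1, map_add, hφ']
    refine Prod.ext ?_ ?_
    · show φ q + (e (e.symm (x - φ q, 0))).1 = x
      rw [ContinuousAddEquiv.apply_symm_apply]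
      show φ q + (x - φ q) = x
      abel
    · show (QuotientAddGroup.mk (q + (e.symm (x - φ q, 0) : U)) : Q ⧸ U) = QuotientAddGroup.mk q
      rw [QuotientAddGroup.mk_add_of_mem]
      exact (e.symm (x - φ q, 0) : U).2
  have hopen : IsOpenMap f := by
    rw [IsTopologicalAddGroup.isOpenMap_iff_nhds_zero]
    intro W hW
    rw [Filter.mem_map] at hW
    have h0 : (fun x : U => f x) ⁻¹' W ∈ 𝓝 (0 : U) := by
      have : Filter.Tendsto (Subtype.val : U → Q) (𝓝 0) (𝓝 0) :=
        continuous_subtype_val.continuousAt
      exact this hW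
    have h1 : (fun z : (Fin n → ℝ) × (Fin m → UnitAddCircle) => f (e.symm z : U)) ⁻¹' W ∈
        𝓝 (0 : (Fin n → ℝ) × (Fin m → UnitAddCircle)) := by
      have : Filter.Tendsto e.symm (𝓝 0) (𝓝 0) := by
        have hc : Continuous (fun z : (Fin n → ℝ) × (Fin m → UnitAddCircle) => e.symm z) :=
          e.symm.continuous
        have hc0 := hc.tendsto 0
        rwa [map_zero] at hc0
      exact this h0
    have h2 : (0 : (Fin n → ℝ) × (Fin m → UnitAddCircle)) = (0, 0) := rfl
    rw [h2, nhds_prod_eq, Filter.mem_prod_iff] at h1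
    obtain ⟨V, hV, T, hT, hVT⟩ := h1
    have h3 : (0 : (Fin n → ℝ) × (Q ⧸ U)) = (0, 0) := rfl
    rw [h3, nhds_prod_eq, Filter.mem_prod_iff]
    refine ⟨V, hV, {0}, (isOpen_discrete _).mem_nhds rfl, ?_⟩
    rintro ⟨x, q⟩ ⟨hx, hq⟩
    have hq' : q = 0 := hq
    have h4 := hVT (Set.mk_mem_prod hx (mem_of_mem_nhds hT))
    have h5 : f ((e.symm (x, 0) : U) : Q) = (x, q) := by
      rw [hf1, hφ', ContinuousAddEquiv.apply_symm_apply, hq']
      refine Prod.ext rfl ?_
      show (QuotientAddGroup.mk ((e.symm (x, 0) : U) : Q) : Q ⧸ U) = 0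
      rw [QuotientAddGroup.eq_zero_iff]
      exact (e.symm (x, 0) : U).2
    rw [← h5]
    exact h4
  refine isProperMap_of_compact_ker f hsurj hopen ?_
  have : {a | f a = 0} = (fun t : Fin m → UnitAddCircle => ((e.symm (0, t) : U) : Q)) ''
      Set.univ := by
    ext a
    constructor
    · intro ha
      have ha' : f a = 0 := ha
      rw [hf1] at ha'
      have h1 : φ a = 0 := congrArg Prod.fst ha'
      have h2 : (QuotientAddGroup.mk a : Q ⧸ U) = 0 := congrArg Prod.snd ha'
      rw [QuotientAddGroup.eq_zero_iff] at h2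
      refine ⟨(e ⟨a, h2⟩).2, trivial, ?_⟩
      have h3 : (e ⟨a, h2⟩).1 = 0 := by
        rw [← hφ']
        exact h1
      have h4 : ((0 : Fin n → ℝ), (e ⟨a, h2⟩).2) = e ⟨a, h2⟩ := Prod.ext h3.symm rfl
      show ((e.symm (0, (e ⟨a, h2⟩).2) : U) : Q) = a
      rw [h4, ContinuousAddEquiv.symm_apply_apply]
    · rintro ⟨t, -, rfl⟩
      show f ((e.symm (0, t) : U) : Q) = 0
      rw [hf1, hφ', ContinuousAddEquiv.apply_symm_apply]
      refine Prod.ext rfl ?_
      show (QuotientAddGroup.mk ((e.symm (0, t) : U) : Q) : Q ⧸ U) = 0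
      rw [QuotientAddGroup.eq_zero_iff]
      exact (e.symm (0, t) : U).2
  rw [this]
  exact isCompact_univ.image (continuous_subtype_val.comp (e.symm.continuous.comp
    (continuous_const.prodMk continuous_id)))

end lie

section prolie

/-- the closed subgroups with a Lie group as quotient -/
def LieIdx (G : Type u) [AddCommGroup G] [TopologicalSpace G] : Type u :=
  {N : AddSubgroup G // IsClosed (N : Set G) ∧ IsAbLie (G ⧸ N)}

variable {G : Type u} [AddCommGroup G] [UniformSpace G] [IsUniformAddGroup G] [CompleteSpace G]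
  [T2Space G]

/-- the map to the product of the Lie quotients -/
def toLie (G : Type u) [AddCommGroup G] [TopologicalSpace G] [IsTopologicalAddGroup G] :
    G →ₜ+ (∀ i : LieIdx G, G ⧸ i.1) where
  toFun g _ := QuotientAddGroup.mk g
  map_zero' := rfl
  map_add' _ _ := rfl
  continuous_toFun := continuous_pi fun _ => QuotientAddGroup.continuous_mk

theorem isClosedEmbedding_toLie (h : ProLie G) : IsClosedEmbedding (toLie G) := by
  have hcl : ∀ i : LieIdx G, IsClosed (i.1 : Set G) := fun i => i.2.1
  have hT : ∀ i : LieIdx G, T2Space (G ⧸ i.1) := fun i => by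
    have := hcl i
    infer_instance
  have hind : IsInducing (toLie G) := by
    rw [IsTopologicalAddGroup.isInducing_iff_nhds_zero]
    refine le_antisymm ?_ ?_
    · rw [← Filter.tendsto_iff_comap]
      have := (toLie G).continuous_toFun.tendsto 0
      have h0 : (toLie G).toFun 0 = 0 := map_zero (toLie G)
      rwa [h0] at this
    · intro W hW
      obtain ⟨W', hW', hWW⟩ := exists_nhds_zero_half hW
      obtain ⟨N, hN, hNW, hL⟩ := h W' hW'
      let i : LieIdx G := ⟨N, hN, hL⟩
      rw [Filter.mem_comap]
      refine ⟨(fun z : ∀ i : LieIdx G, G ⧸ i.1 => z i) ⁻¹'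
        ((fun g : G => (QuotientAddGroup.mk g : G ⧸ i.1)) '' W'), ?_, ?_⟩
      · have h1 : (fun g : G => (QuotientAddGroup.mk g : G ⧸ i.1)) '' W' ∈
            𝓝 ((0 : ∀ i : LieIdx G, G ⧸ i.1) i) := by
          have : ((0 : ∀ i : LieIdx G, G ⧸ i.1) i) = (QuotientAddGroup.mk (0 : G) : G ⧸ i.1) := rfl
          rw [this]
          exact (QuotientAddGroup.isOpenMap_coe (N := i.1)).image_mem_nhds hW'
        exact (continuous_apply i).continuousAt h1
      · rintro g ⟨w, hw, hwg⟩
        have hwg' : (QuotientAddGroup.mk w : G ⧸ i.1) = QuotientAddGroup.mk g := hwg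
        rw [QuotientAddGroup.eq] at hwg'
        have h2 := hWW w hw (-w + g) (hNW hwg')
        rwa [add_neg_cancel_left] at h2
  have hemb : IsEmbedding (toLie G) := by
    refine ⟨hind, ?_⟩
    exact hind.injective
  let _ : UniformSpace (∀ i : LieIdx G, G ⧸ i.1) :=
    IsTopologicalAddGroup.rightUniformSpace _
  have : IsUniformAddGroup (∀ i : LieIdx G, G ⧸ i.1) := isUniformAddGroup_of_addCommGroup
  exact (AddMonoidHom.isUniformEmbedding_of_isEmbedding hemb).isClosedEmbedding

/-- A pro-Lie group has a proper homomorphism into the product of a power of the real line and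
a product of discrete groups. -/
theorem ProLie.exists_proper (h : ProLie G) :
    ∃ (J P : Type u) (_ : AddCommGroup P) (_ : TopologicalSpace P) (_ : NonarchimedeanAddGroup P)
      (_ : T2Space P) (Φ : G →ₜ+ (J → ℝ) × P), LinComplete P ∧ IsProperMap Φ := by
  choose n U f hU hf using fun i : LieIdx G => i.2.2.exists_proper
  have hdisc : ∀ i : LieIdx G, DiscreteTopology ((G ⧸ i.1) ⧸ U i) := fun i =>
    QuotientAddGroup.discreteTopology (hU i)
  let J : Type u := Σ i : LieIdx G, Fin (n i)
  let P : Type u := ∀ i : LieIdx G, (G ⧸ i.1) ⧸ U i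
  have h0 : IsProperMap (toLie G) := (isClosedEmbedding_toLie h).isProperMap
  have h1 : IsProperMap (fun (z : ∀ i : LieIdx G, G ⧸ i.1) i => f i (z i)) :=
    IsProperMap.pi_map hf
  let Ψ : (∀ i : LieIdx G, (Fin (n i) → ℝ) × ((G ⧸ i.1) ⧸ U i)) ≃ₜ (J → ℝ) × P :=
    { toFun := fun z => (fun s => (z s.1).1 s.2, fun i => (z i).2)
      invFun := fun w i => (fun k => w.1 ⟨i, k⟩, w.2 i)
      left_inv := fun z => rfl
      right_inv := fun w => rfl
      continuous_toFun := by
        refine Continuous.prodMk ?_ ?_
        · exact continuous_pi fun s => (continuous_apply s.2).comp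
            (continuous_fst.comp (continuous_apply s.1))
        · exact continuous_pi fun i => continuous_snd.comp (continuous_apply i)
      continuous_invFun := by
        refine continuous_pi fun i => Continuous.prodMk ?_ ?_
        · exact continuous_pi fun k => (continuous_apply _).comp continuous_fst
        · exact (continuous_apply i).comp continuous_snd }
  have h2 : IsProperMap Ψ := Ψ.isClosedEmbedding.isProperMap
  let Φ : G →ₜ+ (J → ℝ) × P :=
    { toFun := fun g => Ψ (fun i => f i (toLie G g i))
      map_zero' := by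
        have : (fun i => f i (toLie G (0 : G) i)) = 0 := by
          funext i
          rw [map_zero]
          exact map_zero (f i)
        rw [this]
        rfl
      map_add' := fun a b => by
        have : (fun i => f i (toLie G (a + b) i)) =
            (fun i => f i (toLie G a i)) + (fun i => f i (toLie G b i)) := by
          funext i
          rw [map_add]
          exact map_add (f i) _ _
        rw [this]
        rfl
      continuous_toFun := (h2.comp (h1.comp h0)).continuous }
  have hT : T2Space P := inferInstanceAs (T2Space (∀ i : LieIdx G, (G ⧸ i.1) ⧸ U i))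
  refine ⟨J, P, inferInstanceAs (AddCommGroup (∀ i : LieIdx G, (G ⧸ i.1) ⧸ U i)),
    inferInstanceAs (TopologicalSpace (∀ i : LieIdx G, (G ⧸ i.1) ⧸ U i)),
    instNonarchPi, hT, Φ, linComplete_pi, ?_⟩
  exact h2.comp (h1.comp h0)

end prolie

end Pool.Agent.Work.MP_c629c8_al
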