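import Mathlib
import Pool.Agent.Work.MP_c629c8_al.Vec.Defs

/-!
# Characters of powers of the real line
-/

universe u v

namespace Pool.Agent.Work.MP_c629c8_al

open Topology

/-- representatives of smallest absolute value -/
lemma exists_circle_rep (t : UnitAddCircle) : ∃ x : ℝ, (x : UnitAddCircle) = t ∧ |x| = ‖t‖ := by
  obtain ⟨x, hx, hxt⟩ : ∃ x : ℝ, |x| ≤ 1 / 2 ∧ (x : UnitAddCircle) = t := by
    obtain ⟨x, rfl⟩ := QuotientAddGroup.mk_surjective t
    refine ⟨x - round x, abs_sub_round x, ?_⟩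
    have : ((round x : ℝ) : UnitAddCircle) = 0 := by
      rw [AddCircle.coe_eq_zero_iff]
      exact ⟨round x, by simp⟩
    rw [AddCircle.coe_sub, this, sub_zero]
  refine ⟨x, hxt, ?_⟩
  rw [← hxt, eq_comm, AddCircle.norm_coe_eq_abs_iff]
  · simpa using hx
  · norm_num

/-- numbers that differ by less than one and agree modulo the integers are equal -/
lemma eq_of_coe_eq {x y : ℝ} (h : (x : UnitAddCircle) = y) (h1 : |x - y| < 1) : x = y := by
  have h2 : ((x - y : ℝ) : UnitAddCircle) = 0 := by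
    rw [AddCircle.coe_sub, h, sub_self]
  rw [AddCircle.coe_eq_zero_iff] at h2
  obtain ⟨n, hn⟩ := h2
  simp only [zsmul_eq_mul, mul_one] at hn
  rw [← hn] at h1
  have h3 : |n| < 1 := by exact_mod_cast h1
  rw [Int.abs_lt_one_iff] at h3
  rw [h3, Int.cast_zero] at hn
  linarith

/-- the characters of the real line -/
lemma exists_mul_of_dual (χ : Dual ℝ) : ∃ r : ℝ, ∀ t : ℝ, χ t = ((r * t : ℝ) : UnitAddCircle) := by
  have hc : Continuous χ := χ.continuous_toFun
  have h0 : ∀ᶠ t in 𝓝 (0 : ℝ), ‖χ t‖ < 1 / 4 := by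
    have h1 : ContinuousAt (fun t => ‖χ t‖) 0 := hc.norm.continuousAt
    have h2 : ‖χ 0‖ < 1 / 4 := by
      rw [map_zero, norm_zero]
      norm_num
    exact h1.eventually_lt continuousAt_const h2
  obtain ⟨ε, hε, hs⟩ := Metric.eventually_nhds_iff.1 h0
  obtain ⟨a, ha, haε⟩ : ∃ a : ℝ, 0 < a ∧ a < ε := ⟨ε / 2, by linarith, by linarith⟩
  have hpow : ∀ n : ℕ, 0 < a / 2 ^ n ∧ a / 2 ^ n ≤ a := by
    intro n
    refine ⟨by positivity, div_le_self ha.le ?_⟩
    exact one_le_pow₀ (by norm_num)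
  have hsm : ∀ n : ℕ, ‖χ (a / 2 ^ n)‖ < 1 / 4 := by
    intro n
    apply hs
    rw [Real.dist_eq, sub_zero, abs_of_pos (hpow n).1]
    exact (hpow n).2.trans_lt haε
  obtain ⟨s, hs1, hs2⟩ := exists_circle_rep (χ a)
  have hs3 : |s| < 1 / 4 := by
    rw [hs2]
    simpa using hsm 0
  have key : ∀ n : ℕ, χ (a / 2 ^ n) = ((s / 2 ^ n : ℝ) : UnitAddCircle) := by
    intro n
    induction n with
    | zero => simp [hs1]
    | succ n ih =>
      obtain ⟨w, hw1, hw2⟩ := exists_circle_rep (χ (a / 2 ^ (n + 1)))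
      have h1 : χ (a / 2 ^ (n + 1)) + χ (a / 2 ^ (n + 1)) = χ (a / 2 ^ n) := by
        rw [← map_add]
        congr 1
        rw [pow_succ]
        field_simp
        ring
      have h2 : ((w + w : ℝ) : UnitAddCircle) = ((s / 2 ^ n : ℝ) : UnitAddCircle) := by
        rw [AddCircle.coe_add, hw1, h1, ih]
      have h3 : |w| < 1 / 4 := by
        rw [hw2]
        exact hsm (n + 1)
      have h4 : |s / 2 ^ n| < 1 / 4 := by
        rw [abs_div, abs_of_pos (by positivity : (0 : ℝ) < 2 ^ n)]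
        refine lt_of_le_of_lt (div_le_self (abs_nonneg s) ?_) hs3
        exact one_le_pow₀ (by norm_num)
      have h5 : |w + w - s / 2 ^ n| < 1 := by
        rw [abs_lt] at h3 h4 ⊢
        constructor <;> linarith [h3.1, h3.2, h4.1, h4.2]
      have h6 := eq_of_coe_eq h2 h5
      rw [← hw1]
      congr 1
      rw [pow_succ]
      field_simp at h6 ⊢
      linarith
  have hψ : ∀ x y : ℝ, χ (x + y) - (((s / a) * (x + y) : ℝ) : UnitAddCircle) =
      (χ x - (((s / a) * x : ℝ) : UnitAddCircle)) + (χ y - (((s / a) * y : ℝ) : UnitAddCircle)) := by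
    intro x y
    rw [map_add, mul_add, AddCircle.coe_add]
    abel
  let ψ : ℝ →+ UnitAddCircle := AddMonoidHom.mk' (fun t => χ t - (((s / a) * t : ℝ) : UnitAddCircle))
    hψ
  have hψc : Continuous ψ := by
    refine hc.sub ?_
    exact (AddCircle.continuous_mk' 1).comp (continuous_const.mul continuous_id)
  have hker : ψ.ker = ⊤ := by
    have hd : Dense (ψ.ker : Set ℝ) := by
      refine AddSubgroup.dense_of_not_isolated_zero _ fun δ hδ => ?_
      obtain ⟨n, hn⟩ := pow_unbounded_of_one_lt (a / δ) (one_lt_two : (1 : ℝ) < 2)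
      refine ⟨a / 2 ^ n, ?_, (hpow n).1, ?_⟩
      · rw [AddMonoidHom.mem_ker]
        show χ (a / 2 ^ n) - (((s / a) * (a / 2 ^ n) : ℝ) : UnitAddCircle) = 0
        rw [key n]
        have : s / a * (a / 2 ^ n) = s / 2 ^ n := by
          field_simp
        rw [this, sub_self]
      · rw [div_lt_iff₀ hδ] at hn
        rw [div_lt_iff₀ (by positivity)]
        linarith
    have hcl : IsClosed (ψ.ker : Set ℝ) := isClosed_singleton.preimage hψc
    rw [← SetLike.coe_set_eq, ← hcl.closure_eq, hd.closure_eq]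
    rfl
  refine ⟨s / a, fun t => ?_⟩
  have h1 : t ∈ ψ.ker := by
    rw [hker]
    trivial
  exact sub_eq_zero.1 (AddMonoidHom.mem_ker.1 h1)

/-- a neighbourhood of zero of a power contains the vectors that vanish at finitely many places -/
lemma exists_finset_of_nhds {κ : Type u} {U : Set (κ → ℝ)} (hU : U ∈ 𝓝 (0 : κ → ℝ)) :
    ∃ F : Finset κ, ∀ x : κ → ℝ, (∀ k ∈ F, x k = 0) → x ∈ U := by
  rw [nhds_pi, Filter.mem_pi] at hU
  obtain ⟨I, hI, t, ht, hs⟩ := hU
  refine ⟨hI.toFinset, fun x hx => hs fun k hk => ?_⟩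
  rw [hx k (hI.mem_toFinset.2 hk)]
  exact mem_of_mem_nhds (ht k)

/-- a character of a power of the real line vanishes on the vectors that vanish at finitely many
places -/
lemma exists_finset_of_dual {κ : Type u} (χ : Dual (κ → ℝ)) :
    ∃ F : Finset κ, ∀ x : κ → ℝ, (∀ k ∈ F, x k = 0) → χ x = 0 := by
  obtain ⟨U, hU, h⟩ := exists_nhds_vanish χ
  obtain ⟨F, hF⟩ := exists_finset_of_nhds hU
  let S : AddSubgroup (κ → ℝ) :=
    { carrier := {x | ∀ k ∈ F, x k = 0}
      zero_mem' := fun _ _ => rfl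
      add_mem' := fun {x y} hx hy k hk => by
        show x k + y k = 0
        rw [hx k hk, hy k hk, add_zero]
      neg_mem' := fun {x} hx k hk => by
        show -x k = 0
        rw [hx k hk, neg_zero] }
  exact ⟨F, fun x hx => h S (fun y hy => hF y hy) x hx⟩

theorem exists_dot_of_dual {κ : Type u} (χ : Dual (κ → ℝ)) : ∃ r : κ →₀ ℝ, χ = dotChar r := by
  classical
  obtain ⟨F, hF⟩ := exists_finset_of_dual χ
  have h1 : ∀ k : κ, ∃ r : ℝ, ∀ t : ℝ, χ (t • ev k) = ((r * t : ℝ) : UnitAddCircle) := by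
    intro k
    exact exists_mul_of_dual ⟨⟨⟨fun t : ℝ => χ (t • ev k), by
      show χ ((0 : ℝ) • ev k) = 0
      rw [zero_smul, map_zero]⟩, fun x y => by
      show χ ((x + y) • ev k) = χ (x • ev k) + χ (y • ev k)
      rw [add_smul, map_add]⟩, χ.continuous_toFun.comp (continuous_id.smul continuous_const)⟩
  choose r hr using h1
  refine ⟨Finsupp.onFinset F (fun k => if k ∈ F then r k else 0) fun k hk => ?_, ?_⟩
  · by_contra h
    exact hk (if_neg h)
  ext x
  rw [dotChar_apply, dot_eq_sum _ x (F := F) Finsupp.support_onFinset_subset]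
  have h2 : x = ∑ k ∈ F, x k • ev k + (x - ∑ k ∈ F, x k • ev k) := by abel
  have h3 : χ (x - ∑ k ∈ F, x k • ev k) = 0 := by
    apply hF
    intro j hj
    rw [Pi.sub_apply, Finset.sum_apply, Finset.sum_eq_single_of_mem j hj, Pi.smul_apply, ev_self,
      smul_eq_mul, mul_one, sub_self]
    intro k _ hk
    rw [Pi.smul_apply, ev_of_ne hk.symm, smul_zero]
  have h4 : χ x = ∑ k ∈ F, ((r k * x k : ℝ) : UnitAddCircle) := by
    conv_lhs => rw [h2]
    rw [map_add, h3, add_zero, map_sum]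
    exact Finset.sum_congr rfl fun k _ => hr k (x k)
  rw [h4]
  have h5 : ((∑ k ∈ F, (Finsupp.onFinset F (fun k => if k ∈ F then r k else 0) (fun k hk => by
      by_contra h
      exact hk (if_neg h))) k * x k : ℝ) : UnitAddCircle) =
      ∑ k ∈ F, (((Finsupp.onFinset F (fun k => if k ∈ F then r k else 0) (fun k hk => by
      by_contra h
      exact hk (if_neg h))) k * x k : ℝ) : UnitAddCircle) :=
    map_sum (QuotientAddGroup.mk' (AddSubgroup.zmultiples (1 : ℝ))) _ _
  rw [h5]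
  refine Finset.sum_congr rfl fun k hk => ?_
  rw [Finsupp.onFinset_apply, if_pos hk]

section coverSec

variable {κ : Type u} {Y : Type v} [AddCommGroup Y] [TopologicalSpace Y]
  {f : (κ → ℝ) →ₜ+ Y} {Q : AddSubgroup Y}

/-- an open subgroup of `Q` contains the images of the integral vectors that vanish at finitely many
places -/
lemma Cover.exists_finset (h : Cover f Q) {O : Set Q} (hO : O ∈ 𝓝 (0 : Q)) :
    ∃ F : Finset κ, ∀ x (hx : ∀ k, ((x k : ℝ) : UnitAddCircle) = 0), (∀ k ∈ F, x k = 0) →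
      (⟨f x, (h.int x).2 hx⟩ : Q) ∈ O := by
  rw [mem_nhds_induced] at hO
  obtain ⟨U, hU, hs⟩ := hO
  have h1 : f ⁻¹' U ∈ 𝓝 (0 : κ → ℝ) := by
    apply f.continuous_toFun.continuousAt.preimage_mem_nhds
    have h2 : f.toFun 0 = ((0 : Q) : Y) := by
      show f 0 = _
      rw [map_zero]
      rfl
    rw [h2]
    exact hU
  obtain ⟨F, hF⟩ := exists_finset_of_nhds h1
  exact ⟨F, fun x hx h0 => hs (hF x h0)⟩

theorem Cover.exists_rep (h : Cover f Q) [NonarchimedeanAddGroup Q] (χ : Dual Q) :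
    ∃ r : κ →₀ ℝ, (∀ k, ((r k : ℝ) : UnitAddCircle) = χ ⟨f (ev k), h.ev_mem k⟩) ∧
      ∀ k, |r k| = ‖χ ⟨f (ev k), h.ev_mem k⟩‖ := by
  obtain ⟨V, hV⟩ := exists_open_ker χ
  obtain ⟨F, hF⟩ := h.exists_finset V.mem_nhds_zero
  have h1 : ∀ k : κ, ∃ r : ℝ, (r : UnitAddCircle) = χ ⟨f (ev k), h.ev_mem k⟩ ∧
      |r| = ‖χ ⟨f (ev k), h.ev_mem k⟩‖ := fun k => exists_circle_rep _
  choose r hr1 hr2 using h1
  refine ⟨Finsupp.onFinset F r fun k hk => ?_, fun k => hr1 k, fun k => hr2 k⟩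
  by_contra hkF
  apply hk
  have h2 : χ ⟨f (ev k), h.ev_mem k⟩ = 0 := by
    apply hV
    refine hF (ev k) ((h.int _).1 (h.ev_mem k)) fun j hj => ev_of_ne ?_
    rintro rfl
    exact hkF hj
  have h3 := hr2 k
  rw [h2, norm_zero, abs_eq_zero] at h3
  exact h3

end coverSec

end Pool.Agent.Work.MP_c629c8_al
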