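import Mathlib
import Pool.Agent.Work.MP_c629c8_al.Vec.Chars

/-!
# Gluing characters of a group that is covered by a power of the real line and a closed subgroup
-/

universe u v

namespace Pool.Agent.Work.MP_c629c8_al

open Topology

section coverSec

variable {κ : Type u} {Y : Type v} [AddCommGroup Y] [TopologicalSpace Y]
  {f : (κ → ℝ) →ₜ+ Y} {Q : AddSubgroup Y}

/-- an integral vector is an integral combination of coordinate vectors, up to a vector that
vanishes at finitely many given places -/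
lemma Cover.char_integral (h : Cover f Q) [NonarchimedeanAddGroup Q] (χ : Dual Q) (r : κ →₀ ℝ)
    (hr : ∀ k, ((r k : ℝ) : UnitAddCircle) = χ ⟨f (ev k), h.ev_mem k⟩) (x : κ → ℝ)
    (hx : ∀ k, ((x k : ℝ) : UnitAddCircle) = 0) :
    χ ⟨f x, (h.int x).2 hx⟩ = ((dot r x : ℝ) : UnitAddCircle) := by
  classical
  obtain ⟨V, hV⟩ := exists_open_ker χ
  obtain ⟨F, hF⟩ := h.exists_finset V.mem_nhds_zero
  let Z : AddSubgroup (κ → ℝ) :=
    { carrier := {x | ∀ k, ((x k : ℝ) : UnitAddCircle) = 0}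
      zero_mem' := fun _ => rfl
      add_mem' := fun {x y} hx hy k => by
        show ((x k + y k : ℝ) : UnitAddCircle) = 0
        rw [AddCircle.coe_add, hx k, hy k, add_zero]
      neg_mem' := fun {x} hx k => by
        show ((-x k : ℝ) : UnitAddCircle) = 0
        rw [AddCircle.coe_neg, hx k, neg_zero] }
  let g : Z →+ UnitAddCircle := AddMonoidHom.mk'
    (fun z => χ ⟨f z, (h.int z).2 z.2⟩ - ((dot r (z : κ → ℝ) : ℝ) : UnitAddCircle)) (by
      intro a b
      have h1 : χ ⟨f ((a + b : Z) : κ → ℝ), (h.int _).2 (a + b).2⟩ =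
          χ ⟨f a, (h.int a).2 a.2⟩ + χ ⟨f b, (h.int b).2 b.2⟩ := by
        rw [← map_add]
        congr 1
        apply Subtype.ext
        show f ((a : κ → ℝ) + b) = f a + f b
        rw [map_add]
      show χ ⟨f ((a + b : Z) : κ → ℝ), (h.int _).2 (a + b).2⟩ -
        ((dot r (((a + b : Z)) : κ → ℝ) : ℝ) : UnitAddCircle) = _
      rw [h1, AddSubgroup.coe_add, dot_add, AddCircle.coe_add]
      abel)
  have hgdef : ∀ z : Z, g z = χ ⟨f z, (h.int z).2 z.2⟩ -
    ((dot r (z : κ → ℝ) : ℝ) : UnitAddCircle) := fun _ => rfl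
  have hev : ∀ k, ev k ∈ Z := fun k => (h.int _).1 (h.ev_mem k)
  have hg1 : ∀ k, g ⟨ev k, hev k⟩ = 0 := by
    intro k
    rw [hgdef]
    show χ ⟨f (ev k), _⟩ - ((dot r (ev k) : ℝ) : UnitAddCircle) = 0
    rw [dot_ev, hr k, sub_self]
  have hg2 : ∀ z : Z, (∀ k ∈ F ∪ r.support, (z : κ → ℝ) k = 0) → g z = 0 := by
    intro z hz
    have h1 : χ ⟨f z, (h.int z).2 z.2⟩ = 0 :=
      hV _ (hF z z.2 fun k hk => hz k (Finset.mem_union_left _ hk))
    have h2 : dot r (z : κ → ℝ) = 0 := by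
      unfold dot Finsupp.sum
      refine Finset.sum_eq_zero fun k hk => ?_
      show r k * (z : κ → ℝ) k = 0
      rw [hz k (Finset.mem_union_right _ hk), mul_zero]
    rw [hgdef, h1, h2]
    simp
  have hn : ∀ k, ∃ n : ℤ, (n : ℝ) = x k := by
    intro k
    obtain ⟨n, hn⟩ := (AddCircle.coe_eq_zero_iff _).1 (hx k)
    exact ⟨n, by simpa using hn⟩
  choose n hn using hn
  let z : Z := ⟨x, hx⟩
  let s : Z := ∑ k ∈ F ∪ r.support, n k • (⟨ev k, hev k⟩ : Z)
  have hs : ∀ j, (s : κ → ℝ) j = ∑ k ∈ F ∪ r.support, (n k : ℝ) * ev k j := by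
    intro j
    have h1 : (s : κ → ℝ) = ∑ k ∈ F ∪ r.support, n k • (ev k : κ → ℝ) := by
      show ((∑ k ∈ F ∪ r.support, n k • (⟨ev k, hev k⟩ : Z) : Z) : κ → ℝ) = _
      rw [AddSubgroup.val_finsetSum]
      rfl
    rw [h1, Finset.sum_apply]
    refine Finset.sum_congr rfl fun k _ => ?_
    rw [Pi.smul_apply, zsmul_eq_mul]
  have h3 : g (z - s) = 0 := by
    apply hg2
    intro j hj
    show x j - (s : κ → ℝ) j = 0
    rw [hs, Finset.sum_eq_single_of_mem j hj, ev_self, mul_one, hn, sub_self]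
    intro k _ hk
    rw [ev_of_ne hk.symm, mul_zero]
  have h4 : g s = 0 := by
    show g (∑ k ∈ F ∪ r.support, n k • (⟨ev k, hev k⟩ : Z)) = 0
    rw [map_sum]
    refine Finset.sum_eq_zero fun k _ => ?_
    rw [map_zsmul, hg1, smul_zero]
  have h5 : g z = 0 := by
    have : z = (z - s) + s := by abel
    rw [this, map_add, h3, h4, add_zero]
  rw [hgdef] at h5
  exact sub_eq_zero.1 h5

variable [IsTopologicalAddGroup Y]

theorem Cover.glue (h : Cover f Q) [NonarchimedeanAddGroup Q]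
    (χ : Dual Q) (r : κ →₀ ℝ)
    (hr : ∀ k, ((r k : ℝ) : UnitAddCircle) = χ ⟨f (ev k), h.ev_mem k⟩) :
    ∃ ξ : Dual Y, ∀ x (q : Q), ξ (f x + q) = ((dot r x : ℝ) : UnitAddCircle) + χ q := by
  let φ : (κ → ℝ) × Q →+ Y := f.toAddMonoidHom.coprod Q.subtype
  have hφ : ∀ x (q : Q), φ (x, q) = f x + q := fun _ _ => rfl
  have hφs : Function.Surjective φ := by
    intro y
    obtain ⟨x, q, hq, hy⟩ := h.gen y
    exact ⟨(x, ⟨q, hq⟩), hy⟩
  let Θ : (κ → ℝ) × Q →+ UnitAddCircle :=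
    (dotChar r).toAddMonoidHom.coprod χ.toAddMonoidHom
  have hΘ : ∀ x (q : Q), Θ (x, q) = ((dot r x : ℝ) : UnitAddCircle) + χ q := fun _ _ => rfl
  have hker : φ.ker ≤ Θ.ker := by
    rintro ⟨x, q⟩ hxq
    rw [AddMonoidHom.mem_ker, hφ] at hxq
    rw [AddMonoidHom.mem_ker, hΘ]
    have h1 : f x = -(q : Y) := eq_neg_of_add_eq_zero_left hxq
    have h2 : f x ∈ Q := by
      rw [h1]
      exact Q.neg_mem q.2
    have h3 := (h.int x).1 h2
    rw [← h.char_integral χ r hr x h3, ← map_add]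
    have h4 : (⟨f x, (h.int x).2 h3⟩ : Q) + q = 0 := Subtype.ext hxq
    rw [h4, map_zero]
  let ξ : Y →+ UnitAddCircle := φ.liftOfSurjective hφs ⟨Θ, hker⟩
  have hξ : ∀ x (q : Q), ξ (f x + q) = ((dot r x : ℝ) : UnitAddCircle) + χ q := by
    intro x q
    rw [← hφ, ← hΘ]
    exact AddMonoidHom.liftOfRightInverse_comp_apply _ _ _ _ _
  have hc : Continuous ξ := by
    apply continuous_of_continuousAt_zero ξ
    rw [ContinuousAt, map_zero, Metric.tendsto_nhds]
    intro ε hε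
    have hU : {x : κ → ℝ | ‖((dot r x : ℝ) : UnitAddCircle)‖ < ε / 2} ∈ 𝓝 (0 : κ → ℝ) := by
      have h1 : ContinuousAt (fun x : κ → ℝ => ‖dotChar r x‖) 0 :=
        (dotChar r).continuous_toFun.norm.continuousAt
      have h2 : ‖dotChar r (0 : κ → ℝ)‖ < ε / 2 := by
        rw [map_zero, norm_zero]
        linarith
      exact h1.eventually_lt continuousAt_const h2
    have hO : {q : Q | ‖χ q‖ < ε / 2} ∈ 𝓝 (0 : Q) := by
      have h1 : ContinuousAt (fun q : Q => ‖χ q‖) 0 := χ.continuous_toFun.norm.continuousAt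
      have h2 : ‖χ (0 : Q)‖ < ε / 2 := by
        rw [map_zero, norm_zero]
        linarith
      exact h1.eventually_lt continuousAt_const h2
    rw [mem_nhds_induced] at hO
    obtain ⟨O, hO1, hO2⟩ := hO
    obtain ⟨W, hW, hWs⟩ := h.nhds _ hU O hO1
    filter_upwards [hW] with y hy
    obtain ⟨x, hx, q, hq, hqO, hxy⟩ := hWs y hy
    rw [dist_zero_right]
    have h3 : ξ y = ((dot r x : ℝ) : UnitAddCircle) + χ ⟨q, hq⟩ := by
      rw [← hξ, hxy]
    rw [h3]
    have h4 : ‖χ ⟨q, hq⟩‖ < ε / 2 := hO2 (show (⟨q, hq⟩ : Q) ∈ Subtype.val ⁻¹' O from hqO)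
    have h5 : ‖((dot r x : ℝ) : UnitAddCircle)‖ < ε / 2 := hx
    calc ‖((dot r x : ℝ) : UnitAddCircle) + χ ⟨q, hq⟩‖
        ≤ ‖((dot r x : ℝ) : UnitAddCircle)‖ + ‖χ ⟨q, hq⟩‖ := norm_add_le _ _
      _ < ε := by linarith
  exact ⟨⟨ξ, hc⟩, hξ⟩

theorem Cover.exists_extension (h : Cover f Q) [NonarchimedeanAddGroup Q] (χ : Dual Q) :
    ∃ ξ : Dual Y, ∀ q : Q, ξ q = χ q := by
  obtain ⟨r, hr, -⟩ := h.exists_rep χ
  obtain ⟨ξ, hξ⟩ := h.glue χ r hr
  refine ⟨ξ, fun q => ?_⟩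
  have h1 := hξ 0 q
  rw [map_zero, zero_add, dot_zero] at h1
  rw [h1]
  simp

theorem Cover.exists_theta (h : Cover f Q) [NonarchimedeanAddGroup Q] (k : κ) :
    ∃ ξ : Dual Y, ∀ x, ∀ q ∈ Q, ξ (f x + q) = ((x k : ℝ) : UnitAddCircle) := by
  classical
  obtain ⟨ξ, hξ⟩ := h.glue (0 : Dual Q) (Finsupp.single k 1) (by
    intro j
    show _ = (0 : UnitAddCircle)
    by_cases hj : j = k
    · subst hj
      rw [Finsupp.single_eq_same]
      exact AddCircle.coe_period 1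
    · rw [Finsupp.single_eq_of_ne hj]
      rfl)
  refine ⟨ξ, fun x q hq => ?_⟩
  have h1 := hξ x ⟨q, hq⟩
  rw [single_dot, one_mul] at h1
  rw [h1]
  exact add_zero _

theorem Cover.eta_injective (h : Cover f Q) [NonarchimedeanAddGroup Q]
    (hQ : Function.Injective (eta Q)) : Function.Injective (eta Y) := by
  have : Function.Injective (etaHom Y) := by
    rw [injective_iff_map_eq_zero]
    intro y hy
    have hy' : ∀ ξ : Dual Y, ξ y = 0 := fun ξ => by
      have h1 : etaHom Y y ξ = (0 : Dual (Dual Y)) ξ := by rw [hy]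
      exact h1
    obtain ⟨x, q, hq, rfl⟩ := h.gen y
    have h1 : ∀ k, ((x k : ℝ) : UnitAddCircle) = 0 := by
      intro k
      obtain ⟨ξ, hξ⟩ := h.exists_theta k
      rw [← hξ x q hq]
      exact hy' ξ
    have h2 : f x + q ∈ Q := Q.add_mem ((h.int x).2 h1) hq
    have h3 : (⟨f x + q, h2⟩ : Q) = 0 := by
      apply hQ
      apply ContinuousAddMonoidHom.ext
      intro χ
      obtain ⟨ξ, hξ⟩ := h.exists_extension χ
      show χ ⟨f x + q, h2⟩ = χ 0
      rw [← hξ, map_zero]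
      exact hy' ξ
    exact congrArg Subtype.val h3
  exact this

end coverSec

end Pool.Agent.Work.MP_c629c8_al
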