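import Mathlib
import Pool.Agent.Work.MP_c629c8_al.Vec.Glue
import Pool.Agent.Work.MP_c629c8_al.Vec.Chars

/-!
# The evaluation map of a covered group is surjective
-/

universe u v

namespace Pool.Agent.Work.MP_c629c8_al

open Topology

namespace SurjAux

section nhds

variable {G : Type u} [AddCommGroup G] [TopologicalSpace G]

/-- neighbourhoods of zero in the dual group -/
lemma hasBasis_nhds_zero : (𝓝 (0 : Dual G)).HasBasis
    (fun Ki : Set G × ℝ => IsCompact Ki.1 ∧ 0 < Ki.2)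
    fun Ki => {χ | ∀ x ∈ Ki.1, ‖χ x‖ < Ki.2} := by
  rw [(ContinuousAddMonoidHom.isInducing_toContinuousMap G UnitAddCircle).nhds_eq_comap]
  have h1 := (Metric.nhds_basis_ball (x := (0 : UnitAddCircle))).nhds_continuousMapConst (X := G)
  have h2 := h1.comap (ContinuousAddMonoidHom.toContinuousMap : Dual G → C(G, UnitAddCircle))
  refine h2.to_hasBasis' ?_ ?_
  · rintro ⟨K, i⟩ hKi
    refine ⟨⟨K, i⟩, hKi, fun χ hχ => ?_⟩
    intro x hx
    rw [mem_ball_zero_iff]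
    exact hχ x hx
  · rintro ⟨K, i⟩ hKi
    refine Filter.mem_of_superset (h2.mem_of_mem (i := (K, i)) hKi) fun χ hχ x hx => ?_
    have := hχ hx
    rw [mem_ball_zero_iff] at this
    exact this

lemma exists_of_mem_nhds {W : Set (Dual G)} (hW : W ∈ 𝓝 (0 : Dual G)) :
    ∃ C : Set G, IsCompact C ∧ ∃ δ : ℝ, 0 < δ ∧ ∀ χ : Dual G, (∀ x ∈ C, ‖χ x‖ < δ) → χ ∈ W := by
  obtain ⟨⟨C, δ⟩, ⟨hC, hδ⟩, h⟩ := hasBasis_nhds_zero.mem_iff.1 hW
  exact ⟨C, hC, δ, hδ, fun χ hχ => h hχ⟩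

lemma mem_nhds {C : Set G} (hC : IsCompact C) {δ : ℝ} (hδ : 0 < δ) :
    {χ : Dual G | ∀ x ∈ C, ‖χ x‖ < δ} ∈ 𝓝 (0 : Dual G) :=
  hasBasis_nhds_zero.mem_of_mem (i := (C, δ)) ⟨hC, hδ⟩

end nhds

section sums

variable {κ : Type u}

/-- sums of small positive numbers whose partial sums are small modulo the integers -/
lemma sum_lt (r : κ → ℝ) {d : ℝ} (hd0 : 0 < d) (hd : d ≤ 1 / 4) (A : Finset κ)
    (h0 : ∀ k ∈ A, 0 ≤ r k) (h1 : ∀ k ∈ A, r k < d)
    (h : ∀ B ⊆ A, ‖((∑ k ∈ B, r k : ℝ) : UnitAddCircle)‖ < d) : ∑ k ∈ A, r k < d := by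
  classical
  have key : ∀ B : Finset κ, B ⊆ A → ∑ k ∈ B, r k < d := by
    intro B
    induction B using Finset.induction_on with
    | empty =>
      intro _
      simpa using hd0
    | insert k B hk ih =>
      intro hB
      have h2 := ih ((Finset.subset_insert k B).trans hB)
      have h3 := h1 k (hB (Finset.mem_insert_self k B))
      have h4 : 0 ≤ ∑ j ∈ insert k B, r j :=
        Finset.sum_nonneg fun j hj => h0 j (hB hj)
      have h5 := h _ hB
      have h6 : ∑ j ∈ insert k B, r j < 2 * d := by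
        rw [Finset.sum_insert hk]
        linarith
      rw [(AddCircle.norm_coe_eq_abs_iff (p := (1 : ℝ)) one_ne_zero).2, abs_of_nonneg h4] at h5
      · exact h5
      · rw [abs_of_nonneg h4, abs_one]
        linarith
  exact key A subset_rfl

open Classical in
/-- the indicator vector of a finite set -/
noncomputable def ind (B : Finset κ) : κ → ℝ := fun k => if k ∈ B then 1 else 0

lemma ind_mem (B : Finset κ) (k : κ) : ind B k ∈ ({0, 1} : Set ℝ) := by
  unfold ind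
  split_ifs
  · exact Or.inr rfl
  · exact Or.inl rfl

lemma dot_ind (r : κ →₀ ℝ) (B : Finset κ) : dot r (ind B) = ∑ k ∈ B, r k := by
  classical
  rw [dot_eq_sum r (ind B) (F := r.support ∪ B) Finset.subset_union_left]
  have h1 : ∀ k ∈ r.support ∪ B, r k * ind B k = if k ∈ B then r k else 0 := by
    intro k _
    unfold ind
    split_ifs
    · exact mul_one _
    · exact mul_zero _
  rw [Finset.sum_congr rfl h1, Finset.sum_ite_mem, Finset.inter_eq_right.2
    Finset.subset_union_right]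

/-- the pairing with a vector of the unit cube -/
lemma dot_lt (r : κ →₀ ℝ) {d : ℝ} (hd0 : 0 < d) (hd : d ≤ 1 / 4) (h1 : ∀ k, r k < d)
    (h : ∀ B : Finset κ, ‖((∑ k ∈ B, r k : ℝ) : UnitAddCircle)‖ < d) {x : κ → ℝ}
    (hx0 : ∀ k, 0 ≤ x k) (hx1 : ∀ k, x k ≤ 1) : dot r x < d := by
  have h2 := sum_lt r hd0 hd (r.support.filter fun k => 0 ≤ r k)
    (fun k hk => (Finset.mem_filter.1 hk).2) (fun k _ => h1 k) (fun B _ => h B)
  refine lt_of_le_of_lt ?_ h2
  rw [dot_eq_sum r x subset_rfl, Finset.sum_filter]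
  refine Finset.sum_le_sum fun k _ => ?_
  split_ifs with hk
  · exact mul_le_of_le_one_right hk (hx1 k)
  · exact mul_nonpos_of_nonpos_of_nonneg (not_le.1 hk).le (hx0 k)

lemma abs_dot_lt (r : κ →₀ ℝ) {d : ℝ} (hd0 : 0 < d) (hd : d ≤ 1 / 4) (h1 : ∀ k, |r k| < d)
    (h : ∀ B : Finset κ, ‖((∑ k ∈ B, r k : ℝ) : UnitAddCircle)‖ < d) {x : κ → ℝ}
    (hx0 : ∀ k, 0 ≤ x k) (hx1 : ∀ k, x k ≤ 1) : |dot r x| < d := by
  rw [abs_lt]
  constructor
  · have h2 := dot_lt (-r) hd0 hd (fun k => by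
      rw [Finsupp.neg_apply]
      exact lt_of_le_of_lt (neg_le_abs _) (h1 k)) (fun B => by
      have h3 : ∑ k ∈ B, (-r) k = -∑ k ∈ B, r k := by
        rw [← Finset.sum_neg_distrib]
        rfl
      rw [h3, AddCircle.coe_neg, norm_neg]
      exact h B) hx0 hx1
    have h4 : dot (-r) x = -dot r x := by
      have := smul_dot (-1) r x
      rwa [neg_one_smul, neg_one_mul] at this
    rw [h4] at h2
    linarith
  · exact dot_lt r hd0 hd (fun k => lt_of_le_of_lt (le_abs_self _) (h1 k)) h hx0 hx1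

lemma norm_coe_le_abs (t : ℝ) : ‖((t : ℝ) : UnitAddCircle)‖ ≤ |t| := by
  rw [AddCircle.norm_eq, inv_one, one_mul, mul_one]
  have h2 := round_le t 0
  simpa using h2

end sums

end SurjAux

section coverSec

open SurjAux

variable {κ : Type u} {Y : Type v} [AddCommGroup Y] [TopologicalSpace Y] [IsTopologicalAddGroup Y]
  {f : (κ → ℝ) →ₜ+ Y} {Q : AddSubgroup Y}

omit [IsTopologicalAddGroup Y] in
/-- a character of the dual group that kills the coordinate characters kills all characters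
that vanish on `Q` -/
lemma Cover.kill (h : Cover f Q) (θ : κ → Dual Y)
    (hθ : ∀ k x, ∀ q ∈ Q, θ k (f x + q) = ((x k : ℝ) : UnitAddCircle)) (Ψ : Dual (Dual Y))
    (hΨ : ∀ k, Ψ (θ k) = 0) (ξ : Dual Y) (hξ : ∀ q ∈ Q, ξ q = 0) : Ψ ξ = 0 := by
  obtain ⟨r, hr⟩ := exists_dot_of_dual (ξ.comp f)
  have h1 : ∀ k, ((r k : ℝ) : UnitAddCircle) = 0 := by
    intro k
    have h2 := DFunLike.congr_fun hr (ev k)
    rw [dotChar_apply, dot_ev] at h2
    rw [← h2]
    exact hξ _ (h.ev_mem k)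
  have h2 : ∀ k, ∃ n : ℤ, (n : ℝ) = r k := by
    intro k
    obtain ⟨n, hn⟩ := (AddCircle.coe_eq_zero_iff (1 : ℝ)).1 (h1 k)
    exact ⟨n, by simpa using hn⟩
  choose n hn using h2
  have h3 : ξ = ∑ k ∈ r.support, n k • θ k := by
    refine ContinuousAddMonoidHom.ext fun y => ?_
    obtain ⟨x, q, hq, rfl⟩ := h.gen y
    have h4 : (∑ k ∈ r.support, n k • θ k) (f x + q) =
        ∑ k ∈ r.support, n k • θ k (f x + q) := by
      have h5 := map_sum (eta Y (f x + q)) (fun k => n k • θ k) r.support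
      rw [eta_apply] at h5
      rw [h5]
      refine Finset.sum_congr rfl fun k _ => ?_
      rw [map_zsmul]
      rfl
    have h6 : ξ (f x) = ((dot r x : ℝ) : UnitAddCircle) := DFunLike.congr_fun hr x
    rw [h4, map_add, hξ q hq, add_zero, h6, dot_eq_sum r x subset_rfl]
    have h7 := map_sum toCircle (fun k => r k * x k) r.support
    rw [toCircle_apply] at h7
    rw [h7]
    refine Finset.sum_congr rfl fun k _ => ?_
    rw [hθ k x q hq, toCircle_apply, ← hn k, ← AddCircle.coe_zsmul, zsmul_eq_mul]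
  rw [h3, map_sum]
  exact Finset.sum_eq_zero fun k _ => by rw [map_zsmul, hΨ, smul_zero]

omit [IsTopologicalAddGroup Y] in
/-- every element is the sum of an element of `Q` and of the image of a vector of the unit cube -/
lemma Cover.exists_cube (h : Cover f Q) (y : Y) : ∃ x : κ → ℝ, (∀ k, 0 ≤ x k) ∧ (∀ k, x k ≤ 1) ∧
    ∃ q ∈ Q, f x + q = y := by
  obtain ⟨x, q, hq, rfl⟩ := h.gen y
  refine ⟨fun k => Int.fract (x k), fun k => Int.fract_nonneg _, fun k => (Int.fract_lt_one _).le,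
    f (x - fun k => Int.fract (x k)) + q, Q.add_mem ((h.int _).2 fun k => ?_) hq, ?_⟩
  · rw [Pi.sub_apply, Int.self_sub_fract, AddCircle.coe_eq_zero_iff]
    exact ⟨⌊x k⌋, by simp⟩
  · rw [← add_assoc, ← map_add, add_sub_cancel]

/-- small characters of `Q` have small extensions -/
lemma Cover.exists_small_extension (h : Cover f Q) [NonarchimedeanAddGroup Q] {C : Set Y}
    (hC : IsCompact C) {δ : ℝ} (hδ : 0 < δ) : ∀ᶠ χ in 𝓝 (0 : Dual Q), ∃ ξ : Dual Y,
      (∀ q : Q, ξ q = χ q) ∧ ∀ c ∈ C, ‖ξ c‖ < δ := by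
  obtain ⟨d, hd0, hd, hdδ⟩ : ∃ d : ℝ, 0 < d ∧ d ≤ 1 / 4 ∧ 2 * d ≤ δ :=
    ⟨min (1 / 4) (δ / 2), lt_min (by norm_num) (by linarith), min_le_left _ _, by
      have := min_le_right (1 / 4) (δ / 2)
      linarith⟩
  have hK1 : IsCompact ((fun p : Y × (κ → ℝ) => p.1 - f p.2) '' (C ×ˢ Set.Icc 0 1)) :=
    (hC.prod isCompact_Icc).image (continuous_fst.sub (f.continuous_toFun.comp continuous_snd))
  have hK2 : IsCompact (f '' (Set.pi Set.univ fun _ : κ => ({0, 1} : Set ℝ))) :=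
    (isCompact_univ_pi fun _ => (Set.toFinite _).isCompact).image f.continuous_toFun
  have hC1 := h.isClosed.isClosedEmbedding_subtypeVal.isCompact_preimage hK1
  have hC2 := h.isClosed.isClosedEmbedding_subtypeVal.isCompact_preimage hK2
  filter_upwards [mem_nhds hC1 hd0, mem_nhds hC2 hd0] with χ hχ1 hχ2
  obtain ⟨r, hr, hr2⟩ := h.exists_rep χ
  obtain ⟨ξ, hξ⟩ := h.glue χ r hr
  have hξQ : ∀ q : Q, ξ q = χ q := by
    intro q
    have h1 := hξ 0 q
    rwa [map_zero, zero_add, dot_zero, AddCircle.coe_zero, zero_add] at h1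
  refine ⟨ξ, hξQ, fun c hc => ?_⟩
  -- partial sums
  have hsum : ∀ B : Finset κ, ‖((∑ k ∈ B, r k : ℝ) : UnitAddCircle)‖ < d := by
    intro B
    have hm : f (ind B) ∈ Q := by
      rw [h.int]
      intro k
      rcases ind_mem B k with h0 | h0
      · rw [h0]
        rfl
      · rw [h0]
        exact AddCircle.coe_period 1
    have h1 := hξ (ind B) 0
    have h2 := hξQ ⟨f (ind B), hm⟩
    rw [map_zero, add_zero, dot_ind] at h1
    have h3 : f (ind B) + ((0 : Q) : Y) = f (ind B) := add_zero _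
    rw [h3] at h1
    rw [← h1]
    show ‖ξ ((⟨f (ind B), hm⟩ : Q) : Y)‖ < d
    rw [h2]
    exact hχ2 _ ⟨ind B, fun k _ => ind_mem B k, rfl⟩
  have hrk : ∀ k, |r k| < d := by
    intro k
    rw [hr2 k]
    refine hχ2 _ ⟨ev k, fun j _ => ?_, rfl⟩
    by_cases hj : j = k
    · subst hj
      rw [ev_self]
      exact Or.inr rfl
    · rw [ev_of_ne hj]
      exact Or.inl rfl
  obtain ⟨x, hx0, hx1, q, hq, rfl⟩ := h.exists_cube c
  have h4 := abs_dot_lt r hd0 hd hrk hsum hx0 hx1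
  have h5 : ‖χ ⟨q, hq⟩‖ < d := by
    refine hχ1 _ ⟨(f x + q, x), ⟨hc, fun k => hx0 k, fun k => hx1 k⟩, ?_⟩
    show f x + q - f x = q
    rw [add_sub_cancel_left]
  have h6 := hξ x ⟨q, hq⟩
  have h7 : ξ (f x + q) = ((dot r x : ℝ) : UnitAddCircle) + χ ⟨q, hq⟩ := h6
  rw [h7]
  calc ‖((dot r x : ℝ) : UnitAddCircle) + χ ⟨q, hq⟩‖
      ≤ ‖((dot r x : ℝ) : UnitAddCircle)‖ + ‖χ ⟨q, hq⟩‖ := norm_add_le _ _
    _ ≤ |dot r x| + ‖χ ⟨q, hq⟩‖ := by gcongr; exact norm_coe_le_abs _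
    _ < d + d := add_lt_add h4 h5
    _ ≤ δ := by linarith

/-- the evaluation map of a covered group is surjective if that of `Q` is -/
theorem Cover.eta_surjective [T2Space Y] (h : Cover f Q) [NonarchimedeanAddGroup Q]
    (hQ : Function.Surjective (eta Q)) : Function.Surjective (eta Y) := by
  intro Ψ
  choose θ hθ using h.exists_theta
  choose x hx using fun k => QuotientAddGroup.mk_surjective (Ψ (θ k))
  have hsub : ∃ Ψ' : Dual (Dual Y), ∀ ξ, Ψ' ξ = Ψ ξ - ξ (f x) :=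
    ⟨Ψ - eta Y (f x), fun _ => by
      rw [sub_eq_add_neg, sub_eq_add_neg]
      rfl⟩
  obtain ⟨Ψ', hΨ'⟩ := hsub
  have hθ0 : ∀ k, Ψ' (θ k) = 0 := by
    intro k
    have h1 : θ k (f x) = ((x k : ℝ) : UnitAddCircle) := by
      have h2 := hθ k x 0 Q.zero_mem
      rwa [add_zero] at h2
    rw [hΨ', h1, ← hx k]
    exact sub_self _
  have hker := h.kill θ hθ Ψ' hθ0
  have hker2 : ∀ ξ ξ' : Dual Y, (∀ q ∈ Q, ξ q = ξ' q) → Ψ' ξ = Ψ' ξ' := by
    intro ξ ξ' hξ
    have h1 := hker (ξ + -ξ') (fun q hq => by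
      show ξ q + -ξ' q = 0
      rw [hξ q hq, add_neg_cancel])
    rw [map_add, map_neg, add_neg_eq_zero] at h1
    exact h1
  choose ext hext using h.exists_extension
  -- the induced homomorphism
  let Φ : Dual Q →+ UnitAddCircle :=
    { toFun := fun χ => Ψ' (ext χ)
      map_zero' := hker _ fun q hq => hext 0 ⟨q, hq⟩
      map_add' := fun χ χ' => by
        rw [← map_add]
        refine hker2 _ _ fun q hq => ?_
        show ext (χ + χ') ((⟨q, hq⟩ : Q) : Y) = ext χ ((⟨q, hq⟩ : Q) : Y) +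
          ext χ' ((⟨q, hq⟩ : Q) : Y)
        rw [hext, hext, hext]
        rfl }
  have hΦ : ∀ χ (ξ : Dual Y), (∀ q : Q, ξ q = χ q) → Φ χ = Ψ' ξ := by
    intro χ ξ hξ
    refine hker2 _ _ fun q hq => ?_
    exact (hext χ ⟨q, hq⟩).trans (hξ ⟨q, hq⟩).symm
  have hcont : Continuous Φ := by
    apply continuous_of_continuousAt_zero Φ
    rw [ContinuousAt, map_zero]
    intro W hW
    rw [Filter.mem_map]
    have h1 : Ψ' ⁻¹' W ∈ 𝓝 (0 : Dual Y) := by
      apply Ψ'.continuous_toFun.continuousAt.preimage_mem_nhds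
      have h2 : Ψ'.toFun 0 = 0 := map_zero Ψ'
      rw [h2]
      exact hW
    obtain ⟨C, hC, δ, hδ, hCδ⟩ := exists_of_mem_nhds h1
    filter_upwards [h.exists_small_extension hC hδ] with χ hχ
    obtain ⟨ξ, hξ1, hξ2⟩ := hχ
    rw [Set.mem_preimage, hΦ χ ξ hξ1]
    exact hCδ ξ hξ2
  obtain ⟨q, hq⟩ := hQ ⟨Φ, hcont⟩
  refine ⟨f x + q, ContinuousAddMonoidHom.ext fun ξ => ?_⟩
  let χ : Dual Q := ξ.comp ⟨Q.subtype, continuous_subtype_val⟩
  have h1 : Φ χ = Ψ' ξ := hΦ χ ξ fun _ => rfl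
  have h2 : χ q = Φ χ := DFunLike.congr_fun hq χ
  have h3 : χ q = ξ q := rfl
  rw [eta_apply, map_add, ← h3, h2, h1, hΨ', add_sub_cancel]

end coverSec

end Pool.Agent.Work.MP_c629c8_al
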