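import Mathlib
import Pool.Agent.Work.MP_c629c8_al.Transfer

/-!
# Reflexivity under topological isomorphisms
-/

universe u v w

namespace Pool.Agent.Work.MP_c629c8_al

open Topology

section congr

variable {A : Type u} {B : Type v} [AddCommGroup A] [TopologicalSpace A] [AddCommGroup B]
  [TopologicalSpace B]

/-- the dual of a homomorphism -/
noncomputable def dualMap (f : A →ₜ+ B) : Dual B →ₜ+ Dual A :=
  ContinuousAddMonoidHom.compLeft UnitAddCircle f

lemma dualMap_apply (f : A →ₜ+ B) (χ : Dual B) (a : A) : dualMap f χ a = χ (f a) := rfl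

/-- the dual of an isomorphism -/
noncomputable def dualHomeo (f : A →ₜ+ B) (g : B →ₜ+ A) (hfg : ∀ b, f (g b) = b)
    (hgf : ∀ a, g (f a) = a) : Dual B ≃ₜ Dual A where
  toFun := dualMap f
  invFun := dualMap g
  left_inv χ := ContinuousAddMonoidHom.ext fun b => by
    rw [dualMap_apply, dualMap_apply, hfg]
  right_inv χ := ContinuousAddMonoidHom.ext fun a => by
    rw [dualMap_apply, dualMap_apply, hgf]
  continuous_toFun := (dualMap f).continuous_toFun
  continuous_invFun := (dualMap g).continuous_toFun

theorem IsReflexive.of_iso (f : A →ₜ+ B) (g : B →ₜ+ A) (hfg : ∀ b, f (g b) = b)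
    (hgf : ∀ a, g (f a) = a) (h : IsReflexive A) : IsReflexive B := by
  have h1 : eta B = (dualHomeo (dualMap f) (dualMap g)
      (fun χ => ContinuousAddMonoidHom.ext fun a => by
        rw [dualMap_apply, dualMap_apply, hgf])
      (fun χ => ContinuousAddMonoidHom.ext fun b => by
        rw [dualMap_apply, dualMap_apply, hfg])) ∘ eta A ∘ g := by
    funext b
    apply ContinuousAddMonoidHom.ext
    intro χ
    show χ b = dualMap f χ (g b)
    rw [dualMap_apply, hfg]
  have hg : IsHomeomorph g := by
    rw [isHomeomorph_iff_exists_inverse]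
    exact ⟨g.continuous_toFun, f, hfg, hgf, f.continuous_toFun⟩
  unfold IsReflexive
  rw [h1]
  exact (Homeomorph.isHomeomorph _).comp (h.comp hg)

theorem IsReflexive.congr (e : A ≃ₜ+ B) (h : IsReflexive A) : IsReflexive B :=
  h.of_iso (⟨e.toAddEquiv.toAddMonoidHom, e.continuous_toFun⟩ : A →ₜ+ B)
    (⟨e.toAddEquiv.symm.toAddMonoidHom, e.continuous_invFun⟩ : B →ₜ+ A)
    (fun b => e.toAddEquiv.apply_symm_apply b) (fun a => e.toAddEquiv.symm_apply_apply a)

end congr

section quotient

variable {G : Type u} {G' : Type v} [AddCommGroup G] [TopologicalSpace G]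
  [AddCommGroup G'] [TopologicalSpace G']

/-- the quotient by the kernel of an open surjective homomorphism -/
noncomputable def quotIso [IsTopologicalAddGroup G] (f : G →ₜ+ G') (hf : Function.Surjective f)
    (hfo : IsOpenMap f) (H : AddSubgroup G) (hH : ∀ g, g ∈ H ↔ f g = 0) : G ⧸ H ≃ₜ+ G' := by
  let F : G ⧸ H →+ G' := QuotientAddGroup.lift H f.toAddMonoidHom (fun g hg => (hH g).1 hg)
  have hF : ∀ g, F (QuotientAddGroup.mk g) = f g := fun g => rfl
  have hFc : Continuous F := continuous_quot_lift _ f.continuous_toFun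
  have hFi : Function.Injective F := by
    rw [injective_iff_map_eq_zero]
    intro a ha
    obtain ⟨x, rfl⟩ := QuotientAddGroup.mk_surjective a
    rw [QuotientAddGroup.eq_zero_iff, hH]
    exact ha
  have hFs : Function.Surjective F := fun b => by
    obtain ⟨x, rfl⟩ := hf b
    exact ⟨QuotientAddGroup.mk x, rfl⟩
  have hFo : IsOpenMap F := by
    intro W hW
    have h1 : F '' W = f '' ((QuotientAddGroup.mk : G → G ⧸ H) ⁻¹' W) := by
      ext b
      constructor
      · rintro ⟨a, ha, rfl⟩
        obtain ⟨x, rfl⟩ := QuotientAddGroup.mk_surjective a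
        exact ⟨x, ha, rfl⟩
      · rintro ⟨x, hx, rfl⟩
        exact ⟨QuotientAddGroup.mk x, hx, rfl⟩
    rw [h1]
    exact hfo _ (hW.preimage continuous_quot_mk)
  let e : G ⧸ H ≃+ G' := AddEquiv.ofBijective F ⟨hFi, hFs⟩
  have hec : Continuous e.symm := by
    rw [continuous_def]
    intro W hW
    have : e.symm ⁻¹' W = F '' W := by
      ext b
      constructor
      · intro hb
        exact ⟨e.symm b, hb, e.apply_symm_apply b⟩
      · rintro ⟨a, ha, rfl⟩
        show e.symm (e a) ∈ W
        rwa [e.symm_apply_apply]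
    rw [this]
    exact hFo W hW
  exact { e with
    continuous_toFun := hFc
    continuous_invFun := hec }

lemma quotIso_mk [IsTopologicalAddGroup G] (f : G →ₜ+ G') (hf : Function.Surjective f)
    (hfo : IsOpenMap f) (H : AddSubgroup G) (hH : ∀ g, g ∈ H ↔ f g = 0) (g : G) :
    quotIso f hf hfo H hH (QuotientAddGroup.mk g) = f g := rfl

theorem isReflexive_quotient_of [IsTopologicalAddGroup G] (f : G →ₜ+ G')
    (hf : Function.Surjective f) (hfo : IsOpenMap f) (H : AddSubgroup G)
    (hH : ∀ g, g ∈ H ↔ f g = 0) (h : IsReflexive G') : IsReflexive (G ⧸ H) :=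
  h.congr (quotIso f hf hfo H hH).symm

theorem isReflexive_of_quotient [IsTopologicalAddGroup G] (f : G →ₜ+ G')
    (hf : Function.Surjective f) (hfo : IsOpenMap f) (H : AddSubgroup G)
    (hH : ∀ g, g ∈ H ↔ f g = 0) (h : IsReflexive (G ⧸ H)) : IsReflexive G' :=
  h.congr (quotIso f hf hfo H hH)

end quotient

section subgroup

variable {A : Type u} {G : Type v} [AddCommGroup A] [TopologicalSpace A]
  [AddCommGroup G] [TopologicalSpace G]

/-- the range of an embedding -/
noncomputable def subIso (f : A →ₜ+ G) (hf : IsEmbedding f) (H : AddSubgroup G)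
    (hH : ∀ g, g ∈ H ↔ ∃ a, f a = g) : A ≃ₜ+ H := by
  let F : A →+ H := f.toAddMonoidHom.codRestrict H (fun a => (hH _).2 ⟨a, rfl⟩)
  have hF : ∀ a, (F a : G) = f a := fun a => rfl
  have hFi : Function.Injective F := fun a b hab =>
    hf.injective (by rw [← hF, ← hF, hab])
  have hFs : Function.Surjective F := fun b => by
    obtain ⟨a, ha⟩ := (hH b).1 b.2
    exact ⟨a, Subtype.ext ha⟩
  let e : A ≃+ H := AddEquiv.ofBijective F ⟨hFi, hFs⟩
  have hFc : Continuous F := f.continuous_toFun.subtype_mk _
  have hec : Continuous e.symm := by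
    rw [hf.isInducing.continuous_iff]
    have : (f ∘ e.symm) = fun b : H => (b : G) := by
      funext b
      show f (e.symm b) = b
      rw [← hF]
      exact congrArg Subtype.val (e.apply_symm_apply b)
    rw [this]
    exact continuous_subtype_val
  exact { e with
    continuous_toFun := hFc
    continuous_invFun := hec }

theorem isReflexive_subgroup_of (f : A →ₜ+ G) (hf : IsEmbedding f) (H : AddSubgroup G)
    (hH : ∀ g, g ∈ H ↔ ∃ a, f a = g) (h : IsReflexive A) : IsReflexive H :=
  h.congr (subIso f hf H hH)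

end subgroup

end Pool.Agent.Work.MP_c629c8_al
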