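import Mathlib
import Pool.Agent.Work.MP_c629c8_al.Vec.Surj
import Pool.Agent.Work.MP_c629c8_al.Vec.Cont
import Pool.Agent.Work.MP_c629c8_al.Vec.Tr
import Pool.Agent.Work.MP_c629c8_al.Vec.PL0

/-!
# Open subgroups and reflexivity

The restriction of characters to an open subgroup is surjective and open and has a compact kernel;
a group is reflexive if and only if some (every) open subgroup is reflexive.
-/

universe u v w

namespace Pool.Agent.Work.MP_c629c8_al

open Topology

namespace OpenSubAux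

/-- homomorphisms to the circle extend, with a common kernel allowed -/
lemma exists_extension_of_ker {A B : Type*} [AddCommGroup A] [AddCommGroup B] (f : A →+ B)
    (g : A →+ UnitAddCircle) (h : ∀ a, f a = 0 → g a = 0) :
    ∃ k : B →+ UnitAddCircle, ∀ a, k (f a) = g a := by
  let f' : A ⧸ f.ker →+ B := QuotientAddGroup.kerLift f
  let g' : A ⧸ f.ker →+ UnitAddCircle := QuotientAddGroup.lift f.ker g fun a ha => h a ha
  obtain ⟨k, hk⟩ := exists_extension f' (QuotientAddGroup.kerLift_injective f) g'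
  exact ⟨k, fun a => hk (QuotientAddGroup.mk a)⟩

/-- gluing of two homomorphisms to the circle -/
lemma exists_glue {A B C : Type*} [AddCommGroup A] [AddCommGroup B] [AddCommGroup C]
    (f : A →+ C) (g : B →+ C) (φ : A →+ UnitAddCircle) (ψ : B →+ UnitAddCircle)
    (h : ∀ a b, f a + g b = 0 → φ a + ψ b = 0) :
    ∃ k : C →+ UnitAddCircle, ∀ a b, k (f a + g b) = φ a + ψ b := by
  obtain ⟨k, hk⟩ := exists_extension_of_ker (f.coprod g) (φ.coprod ψ) fun p hp => h p.1 p.2 hp
  exact ⟨k, fun a b => hk (a, b)⟩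

/-- a homomorphism is continuous if its restriction to an open subgroup is -/
lemma continuous_of_restrict {Y : Type*} [AddCommGroup Y] [TopologicalSpace Y]
    [IsTopologicalAddGroup Y] {U : AddSubgroup Y} (hU : IsOpen (U : Set Y))
    (φ : Y →+ UnitAddCircle) (h : Continuous fun x : U => φ x) : Continuous φ := by
  apply continuous_of_continuousAt_zero φ
  have h2 : ContinuousAt (fun x : U => φ x) 0 := h.continuousAt
  have h3 : 𝓝 ((0 : U) : Y) = Filter.map (Subtype.val : U → Y) (𝓝 (0 : U)) :=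
    (hU.isOpenEmbedding_subtypeVal.map_nhds_eq (0 : U)).symm
  have h4 : ((0 : U) : Y) = 0 := rfl
  show Filter.Tendsto φ (𝓝 0) (𝓝 (φ 0))
  rw [← h4, h3, Filter.tendsto_map'_iff]
  exact h2

section polar

variable {G : Type u} [AddCommGroup G] [TopologicalSpace G]

/-- a criterion for the evaluation map to be open -/
lemma isOpenMap_of_polar [IsTopologicalAddGroup G] (hs : Function.Surjective (eta G))
    (h : ∀ W ∈ 𝓝 (0 : G), ∃ E : Set (Dual G), IsCompact E ∧ ∃ δ : ℝ, 0 < δ ∧
      ∀ y, (∀ χ ∈ E, ‖χ y‖ < δ) → y ∈ W) : IsOpenMap (eta G) := by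
  have h1 : IsOpenMap (etaHom G) := by
    rw [IsTopologicalAddGroup.isOpenMap_iff_nhds_zero]
    intro W hW
    rw [Filter.mem_map] at hW
    obtain ⟨E, hE, δ, hδ, hW'⟩ := h _ hW
    filter_upwards [SurjAux.mem_nhds hE hδ] with Ψ hΨ
    obtain ⟨y, rfl⟩ := hs Ψ
    exact hW' y hΨ
  exact h1

/-- neighbourhoods of zero are determined by compact sets of characters -/
lemma exists_polar (hi : Function.Injective (eta G)) (ho : IsOpenMap (eta G)) {W : Set G}
    (hW : W ∈ 𝓝 (0 : G)) : ∃ E : Set (Dual G), IsCompact E ∧ ∃ δ : ℝ, 0 < δ ∧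
      ∀ y, (∀ χ ∈ E, ‖χ y‖ < δ) → y ∈ W := by
  have h0 : eta G 0 = 0 := map_zero (etaHom G)
  have h1 : eta G '' W ∈ 𝓝 (0 : Dual (Dual G)) := by
    rw [← h0]
    exact ho.image_mem_nhds hW
  obtain ⟨E, hE, δ, hδ, h⟩ := SurjAux.exists_of_mem_nhds h1
  refine ⟨E, hE, δ, hδ, fun y hy => ?_⟩
  obtain ⟨w, hw, hwy⟩ := h (eta G y) hy
  rwa [← hi hwy]

end polar

section discrete

/-- restriction of characters of a discrete group to a subgroup is an open map -/
lemma isOpenMap_restrict_discrete {A : Type u} [AddCommGroup A] [TopologicalSpace A]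
    [DiscreteTopology A] (R : AddSubgroup A) :
    IsOpenMap (dualMap (⟨R.subtype, continuous_subtype_val⟩ : R →ₜ+ A)) := by
  have hs : Function.Surjective (dualMap (⟨R.subtype, continuous_subtype_val⟩ : R →ₜ+ A)) := by
    intro ψ
    obtain ⟨k, hk⟩ := exists_extension R.subtype R.subtype_injective ψ.toAddMonoidHom
    exact ⟨⟨k, continuous_of_discreteTopology⟩, ContinuousAddMonoidHom.ext hk⟩
  have hp : IsProperMap (dualMap (⟨R.subtype, continuous_subtype_val⟩ : R →ₜ+ A)) :=
    (dualMap (⟨R.subtype, continuous_subtype_val⟩ : R →ₜ+ A)).continuous_toFun.isProperMap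
  exact isOpenMap_of_isProperMap _ hs hp

end discrete

end OpenSubAux

section opensub

open OpenSubAux

variable {Y : Type u} [AddCommGroup Y] [TopologicalSpace Y]

/-- the inclusion of a subgroup -/
def subHom (H : AddSubgroup Y) : H →ₜ+ Y := ⟨H.subtype, continuous_subtype_val⟩

lemma subHom_apply (H : AddSubgroup Y) (h : H) : subHom H h = h := rfl

variable [IsTopologicalAddGroup Y]

lemma restrict_surjective (U : AddSubgroup Y) (hU : IsOpen (U : Set Y)) :
    Function.Surjective (dualMap (subHom U)) := by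
  intro ψ
  obtain ⟨k, hk⟩ := exists_extension U.subtype U.subtype_injective ψ.toAddMonoidHom
  have h1 : Continuous fun x : U => k x := by
    have : (fun x : U => k x) = ψ := funext hk
    rw [this]
    exact ψ.continuous_toFun
  exact ⟨⟨k, continuous_of_restrict hU k h1⟩, ContinuousAddMonoidHom.ext hk⟩

lemma restrict_ker_compact (U : AddSubgroup Y) (hU : IsOpen (U : Set Y)) :
    IsCompact {χ : Dual Y | dualMap (subHom U) χ = 0} := by
  let N : OpenAddSubgroup Y := ⟨U, hU⟩
  have h1 : {χ : Dual Y | dualMap (subHom U) χ = 0} = Set.range (pull N) := by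
    ext χ
    constructor
    · intro hχ
      obtain ⟨χ', hχ'⟩ := exists_pull N χ fun x hx =>
        DFunLike.congr_fun (show dualMap (subHom U) χ = 0 from hχ) (⟨x, hx⟩ : U)
      exact ⟨χ', hχ'⟩
    · rintro ⟨χ', rfl⟩
      refine ContinuousAddMonoidHom.ext fun x => ?_
      show pull N χ' (x : Y) = 0
      rw [pull_apply]
      have : (QuotientAddGroup.mk (x : Y) : Y ⧸ (N : AddSubgroup Y)) = 0 :=
        (QuotientAddGroup.eq_zero_iff _).2 x.2
      rw [this, map_zero]
  have hd : DiscreteTopology (Y ⧸ (N : AddSubgroup Y)) := QuotientAddGroup.discreteTopology hU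
  rw [h1]
  exact isCompact_range (pull N).continuous_toFun

lemma restrict_isOpenMap (U : AddSubgroup Y) (hU : IsOpen (U : Set Y)) :
    IsOpenMap (dualMap (subHom U)) := by
  rw [IsTopologicalAddGroup.isOpenMap_iff_nhds_zero]
  intro W' hW'
  rw [Filter.mem_map] at hW'
  obtain ⟨E, hE, ε, hε, hEW⟩ := SurjAux.exists_of_mem_nhds hW'
  -- finitely many cosets
  obtain ⟨F, hF⟩ : ∃ F : Finset Y, ∀ x ∈ E, ∃ a ∈ F, x - a ∈ U := by
    obtain ⟨F, -, hF⟩ := hE.elim_nhds_subcover (fun a => (fun x => x - a) ⁻¹' (U : Set Y))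
      (fun a _ => (continuous_id.sub continuous_const).continuousAt.preimage_mem_nhds (by
        show (U : Set Y) ∈ 𝓝 (a - a)
        rw [sub_self]
        exact hU.mem_nhds U.zero_mem))
    refine ⟨F, fun x hx => ?_⟩
    obtain ⟨a, ha, hxa⟩ := Set.mem_iUnion₂.1 (hF hx)
    exact ⟨a, ha, hxa⟩
  -- the relations between the representatives modulo `U`
  let π : (F → ℤ) →+ Y :=
    { toFun := fun n => ∑ i, n i • (i : Y)
      map_zero' := Finset.sum_eq_zero fun i _ => zero_zsmul _
      map_add' := fun a b => by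
        rw [← Finset.sum_add_distrib]
        exact Finset.sum_congr rfl fun i _ => add_zsmul _ _ _ }
  let R : AddSubgroup (F → ℤ) := U.comap π
  have hρ := isOpenMap_restrict_discrete R
  classical
  have hπe : ∀ i : F, π (Pi.single i 1) = i := by
    intro i
    show ∑ j, (Pi.single i 1 : F → ℤ) j • (j : Y) = i
    rw [Finset.sum_eq_single_of_mem i (Finset.mem_univ i)]
    · rw [Pi.single_eq_same, one_zsmul]
    · intro j _ hj
      rw [Pi.single_eq_of_ne hj, zero_zsmul]
  have hS : (Set.range fun i : F => (Pi.single i 1 : F → ℤ)).Finite := Set.finite_range _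
  have hρ0 := hρ.image_mem_nhds (SurjAux.mem_nhds hS.isCompact (half_pos hε))
  rw [map_zero] at hρ0
  obtain ⟨B, hB, δ, hδ, hBW⟩ := SurjAux.exists_of_mem_nhds hρ0
  -- the compact set in `U`
  have hK1 : ∀ a : Y, IsCompact ((fun u : U => (u : Y) + a) ⁻¹' E) := by
    intro a
    have hcl : IsClosed (U : Set Y) := AddSubgroup.isClosed_of_isOpen U hU
    have h1 : IsCompact ((fun x => x - a) '' E) :=
      hE.image (continuous_id.sub continuous_const)
    have h2 := hcl.isClosedEmbedding_subtypeVal.isCompact_preimage h1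
    have h3 : (fun u : U => (u : Y) + a) ⁻¹' E =
        (Subtype.val : U → Y) ⁻¹' ((fun x => x - a) '' E) := by
      refine Set.ext fun u => ⟨fun hu => ⟨_, hu, add_sub_cancel_right _ _⟩, ?_⟩
      rintro ⟨x, hx, hxu⟩
      show (u : Y) + a ∈ E
      have hxu' : x - a = u := hxu
      rw [← hxu', sub_add_cancel]
      exact hx
    rw [h3]
    exact h2
  have hK2 : IsCompact (⋃ a ∈ F, (fun u : U => (u : Y) + a) ⁻¹' E) :=
    F.isCompact_biUnion fun a _ => hK1 a
  let τ : R → U := fun n => ⟨π (n : F → ℤ), n.2⟩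
  have hτ : Continuous τ := continuous_of_discreteTopology
  have hK3 : IsCompact (τ '' B) := hB.image hτ
  filter_upwards [SurjAux.mem_nhds hK2 (half_pos hε), SurjAux.mem_nhds hK3 hδ] with φ hφ1 hφ2
  -- the restriction to the relations
  let φ' : Dual R := ⟨φ.toAddMonoidHom.comp
    { toFun := τ
      map_zero' := Subtype.ext (π.map_zero)
      map_add' := fun a b => Subtype.ext (π.map_add (a : F → ℤ) (b : F → ℤ)) }, continuous_of_discreteTopology⟩
  have hφ' : ∀ n : R, φ' n = φ (τ n) := fun _ => rfl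
  obtain ⟨ψ, hψ1, hψ2⟩ := hBW φ' fun n hn => hφ2 _ ⟨n, hn, rfl⟩
  have hψR : ∀ n : R, ψ n = φ (τ n) := fun n => DFunLike.congr_fun hψ2 n
  -- gluing
  have hglue : ∀ (u : U) (n : F → ℤ), U.subtype u + π n = 0 →
      φ.toAddMonoidHom u + ψ.toAddMonoidHom n = 0 := by
    intro u n h0
    have h0' : (u : Y) + π n = 0 := h0
    have h1 : (u : Y) = -π n := eq_neg_of_add_eq_zero_left h0'
    have hn : n ∈ R := by
      show π n ∈ U
      have h4 := u.2
      rw [h1] at h4
      exact (neg_mem_iff (H := U)).1 h4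
    have h2 : ψ n = φ (τ ⟨n, hn⟩) := hψR ⟨n, hn⟩
    have h3 : u + τ ⟨n, hn⟩ = 0 := Subtype.ext h0'
    show φ u + ψ n = 0
    rw [h2, ← map_add, h3, map_zero]
  obtain ⟨k, hk⟩ := exists_glue U.subtype π φ.toAddMonoidHom ψ.toAddMonoidHom hglue
  have hk' : ∀ (u : U) (n : F → ℤ), k (u + π n) = φ u + ψ n := fun u n => hk u n
  have hkU : ∀ u : U, k u = φ u := by
    intro u
    have := hk' u 0
    rwa [map_zero, map_zero, add_zero, add_zero] at this
  have hkc : Continuous fun x : U => k x := by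
    have : (fun x : U => k x) = φ := funext hkU
    rw [this]
    exact φ.continuous_toFun
  let χ : Dual Y := ⟨k, continuous_of_restrict hU k hkc⟩
  have hχφ : dualMap (subHom U) χ = φ := ContinuousAddMonoidHom.ext hkU
  rw [← hχφ]
  refine hEW χ fun x hx => ?_
  obtain ⟨a, ha, hxa⟩ := hF x hx
  have h1 := hk' ⟨x - a, hxa⟩ (Pi.single ⟨a, ha⟩ 1)
  rw [hπe] at h1
  have h2 : ((⟨x - a, hxa⟩ : U) : Y) + ((⟨a, ha⟩ : F) : Y) = x := sub_add_cancel x a
  rw [h2] at h1
  have h3 : χ x = φ ⟨x - a, hxa⟩ + ψ (Pi.single ⟨a, ha⟩ 1) := h1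
  have h4 : ‖φ ⟨x - a, hxa⟩‖ < ε / 2 := by
    refine hφ1 _ (Set.mem_iUnion₂.2 ⟨a, ha, ?_⟩)
    show (x - a) + a ∈ E
    rw [sub_add_cancel]
    exact hx
  have h5 : ‖ψ (Pi.single ⟨a, ha⟩ 1)‖ < ε / 2 := hψ1 _ ⟨⟨a, ha⟩, rfl⟩
  rw [h3]
  calc ‖φ ⟨x - a, hxa⟩ + ψ (Pi.single ⟨a, ha⟩ 1)‖
      ≤ ‖φ ⟨x - a, hxa⟩‖ + ‖ψ (Pi.single ⟨a, ha⟩ 1)‖ := norm_add_le _ _
    _ < ε / 2 + ε / 2 := add_lt_add h4 h5
    _ = ε := add_halves ε

/-- restriction of characters to an open subgroup is surjective, open, with compact kernel -/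
theorem restrict_open (U : AddSubgroup Y) (hU : IsOpen (U : Set Y)) :
    Function.Surjective (dualMap (subHom U)) ∧ IsOpenMap (dualMap (subHom U)) ∧
      IsCompact {χ : Dual Y | dualMap (subHom U) χ = 0} :=
  ⟨restrict_surjective U hU, restrict_isOpenMap U hU, restrict_ker_compact U hU⟩

lemma restrict_isProperMap (U : AddSubgroup Y) (hU : IsOpen (U : Set Y)) :
    IsProperMap (dualMap (subHom U)) :=
  isProperMap_of_compact_ker _ (restrict_surjective U hU) (restrict_isOpenMap U hU)
    (restrict_ker_compact U hU)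

/-- an element killed by all characters that vanish on `U` belongs to `U` -/
lemma mem_of_ker (U : AddSubgroup Y) (hU : IsOpen (U : Set Y)) {y : Y}
    (h : ∀ χ : Dual Y, dualMap (subHom U) χ = 0 → χ y = 0) : y ∈ U := by
  by_contra hy
  obtain ⟨χ, hχ1, hχ2⟩ := exists_dual_ne_zero (⟨U, hU⟩ : OpenAddSubgroup Y) (x := y) hy
  exact hχ2 (h χ (ContinuousAddMonoidHom.ext fun x => hχ1 x x.2))

theorem isReflexive_of_open_subgroup (U : AddSubgroup Y) (hU : IsOpen (U : Set Y))
    (h : IsReflexive U) : IsReflexive Y := by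
  have hrs := restrict_surjective U hU
  have hro := restrict_isOpenMap U hU
  have hrp := restrict_isProperMap U hU
  have hinj : Function.Injective (eta Y) := by
    have h1 : Function.Injective (etaHom Y) := by
      rw [injective_iff_map_eq_zero]
      intro y hy
      have hy' : ∀ χ : Dual Y, χ y = 0 := fun χ => DFunLike.congr_fun hy χ
      have hyU : y ∈ U := mem_of_ker U hU fun χ _ => hy' χ
      have h2 : eta U ⟨y, hyU⟩ = eta U 0 := by
        refine ContinuousAddMonoidHom.ext fun φ => ?_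
        obtain ⟨χ, rfl⟩ := hrs φ
        show χ y = χ 0
        rw [hy', map_zero]
      exact congrArg Subtype.val (h.bijective.injective h2)
    exact h1
  have hsurj : Function.Surjective (eta Y) := by
    intro Ψ
    let N : OpenAddSubgroup Y := ⟨U, hU⟩
    have hdisc : DiscreteTopology (Y ⧸ (N : AddSubgroup Y)) :=
      QuotientAddGroup.discreteTopology hU
    obtain ⟨d, hd⟩ := eta_surjective_of_discrete (D := Y ⧸ (N : AddSubgroup Y))
      (Ψ.comp (pull N))
    obtain ⟨y, rfl⟩ := QuotientAddGroup.mk_surjective d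
    have hker : ∀ χ : Dual Y, dualMap (subHom U) χ = 0 → Ψ χ = χ y := by
      intro χ hχ
      obtain ⟨χ', rfl⟩ := exists_pull N χ fun x hx =>
        DFunLike.congr_fun hχ (⟨x, hx⟩ : U)
      exact (DFunLike.congr_fun hd χ').symm
    -- the difference factors through the restriction
    obtain ⟨Φ, hΦ'⟩ := exists_extension_of_ker (dualMap (subHom U)).toAddMonoidHom
      (Ψ.toAddMonoidHom - (eta Y y).toAddMonoidHom) (fun χ hχ => by
        show Ψ χ - χ y = 0
        rw [hker χ hχ, sub_self])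
    have hΦ : ∀ χ : Dual Y, Φ (dualMap (subHom U) χ) = Ψ χ - χ y := hΦ'
    have hΦc : Continuous Φ := by
      have hq : IsQuotientMap (dualMap (subHom U)) :=
        hro.isQuotientMap (dualMap (subHom U)).continuous_toFun hrs
      rw [hq.continuous_iff]
      have h2 : Φ ∘ (dualMap (subHom U)) = fun χ => Ψ χ - eta Y y χ := funext hΦ
      rw [h2]
      exact Ψ.continuous_toFun.sub (eta Y y).continuous_toFun
    obtain ⟨u, hu⟩ := h.bijective.surjective (⟨Φ, hΦc⟩ : Dual (Dual U))
    refine ⟨y + u, ContinuousAddMonoidHom.ext fun χ => ?_⟩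
    have h2 : (dualMap (subHom U) χ) u = Φ (dualMap (subHom U) χ) :=
      DFunLike.congr_fun hu (dualMap (subHom U) χ)
    rw [hΦ] at h2
    have h3 : χ (u : Y) = Ψ χ - χ y := h2
    rw [eta_apply, map_add, h3, add_sub_cancel]
  refine ⟨?_, ?_, hinj, hsurj⟩
  · apply eta_continuous
    intro E hE V hV h0
    have h1 := equi_of_eta_continuous h.continuous
      (hE.image (dualMap (subHom U)).continuous_toFun) hV h0
    have h3 : 𝓝 (0 : Y) = Filter.map (Subtype.val : U → Y) (𝓝 (0 : U)) :=
      (hU.isOpenEmbedding_subtypeVal.map_nhds_eq (0 : U)).symm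
    rw [h3, Filter.eventually_map]
    filter_upwards [h1] with u hu χ hχ
    exact hu _ ⟨χ, hχ, rfl⟩
  · apply isOpenMap_of_polar hsurj
    intro W hW
    have h1 : (Subtype.val : U → Y) ⁻¹' W ∈ 𝓝 (0 : U) :=
      continuous_subtype_val.continuousAt.preimage_mem_nhds hW
    obtain ⟨E, hE, δ, hδ, hEW⟩ := exists_polar h.bijective.injective h.isOpenMap h1
    refine ⟨dualMap (subHom U) ⁻¹' (insert 0 E), hrp.isCompact_preimage (hE.insert 0),
      min δ (1 / 4), lt_min hδ (by norm_num), fun y hy => ?_⟩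
    have hyU : y ∈ U := by
      refine mem_of_ker U hU fun χ hχ => eq_zero_of_small fun j => ?_
      have h2 := hy (j • χ) (Or.inl (by
        rw [map_nsmul, hχ]
        exact nsmul_zero j))
      rw [dual_nsmul_apply] at h2
      exact h2.trans_le (min_le_right _ _)
    exact hEW ⟨y, hyU⟩ fun φ hφ => by
      obtain ⟨χ, rfl⟩ := hrs φ
      exact (hy χ (Or.inr hφ)).trans_le (min_le_left _ _)

theorem IsReflexive.open_subgroup (h : IsReflexive Y) (U : AddSubgroup Y)
    (hU : IsOpen (U : Set Y)) : IsReflexive U := by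
  have hrs := restrict_surjective U hU
  have hrp := restrict_isProperMap U hU
  have hinj : Function.Injective (eta U) := by
    intro u v huv
    have h1 : eta Y u = eta Y v := by
      refine ContinuousAddMonoidHom.ext fun χ => ?_
      exact DFunLike.congr_fun huv (dualMap (subHom U) χ)
    exact Subtype.ext (h.bijective.injective h1)
  have hsurj : Function.Surjective (eta U) := by
    intro Φ
    obtain ⟨y, hy⟩ := h.bijective.surjective (Φ.comp (dualMap (subHom U)))
    have hy' : ∀ χ : Dual Y, χ y = Φ (dualMap (subHom U) χ) := fun χ => DFunLike.congr_fun hy χ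
    have hyU : y ∈ U := mem_of_ker U hU fun χ hχ => by rw [hy', hχ, map_zero]
    refine ⟨⟨y, hyU⟩, ContinuousAddMonoidHom.ext fun φ => ?_⟩
    obtain ⟨χ, rfl⟩ := hrs φ
    exact hy' χ
  refine ⟨?_, ?_, hinj, hsurj⟩
  · apply eta_continuous
    intro E hE V hV h0
    have h1 := equi_of_eta_continuous h.continuous (hrp.isCompact_preimage hE) hV h0
    have h2 : Filter.Tendsto (Subtype.val : U → Y) (𝓝 0) (𝓝 0) :=
      continuous_subtype_val.continuousAt
    filter_upwards [h2.eventually h1] with u hu φ hφ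
    obtain ⟨χ, rfl⟩ := hrs φ
    exact hu χ hφ
  · apply isOpenMap_of_polar hsurj
    intro W hW
    have h3 : 𝓝 (0 : Y) = Filter.map (Subtype.val : U → Y) (𝓝 (0 : U)) :=
      (hU.isOpenEmbedding_subtypeVal.map_nhds_eq (0 : U)).symm
    have h1 : (Subtype.val : U → Y) '' W ∈ 𝓝 (0 : Y) := by
      rw [h3]
      exact Filter.image_mem_map hW
    obtain ⟨E, hE, δ, hδ, hEW⟩ := exists_polar h.bijective.injective h.isOpenMap h1
    refine ⟨dualMap (subHom U) '' E, hE.image (dualMap (subHom U)).continuous_toFun, δ, hδ,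
      fun u hu => ?_⟩
    have hu' : ∀ χ ∈ E, ‖χ (u : Y)‖ < δ := fun χ hχ =>
      hu (dualMap (subHom U) χ) (Set.mem_image_of_mem _ hχ)
    obtain ⟨w, hw, hwu⟩ := hEW (u : Y) hu'
    rwa [← Subtype.ext hwu]

end opensub

end Pool.Agent.Work.MP_c629c8_al
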