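import Mathlib
import Pool.Agent.Work.MP_c629c8_al.Vec.OpenSub
import Pool.Agent.Work.MP_c629c8_al.Vec.PL0
import Pool.Agent.Work.MP_c629c8_al.Vec.LemF

/-!
# Quotients of reflexive groups by compact subgroups
-/

universe u v

namespace Pool.Agent.Work.MP_c629c8_al

open Topology

namespace CompQ

section compq

variable {Y : Type u} {Z : Type v} [AddCommGroup Y] [TopologicalSpace Y]
  [IsTopologicalAddGroup Y] [AddCommGroup Z] [TopologicalSpace Z] [IsTopologicalAddGroup Z]

omit [IsTopologicalAddGroup Y] [IsTopologicalAddGroup Z] in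
/-- characters that vanish on the kernel of an open surjective homomorphism factor through it -/
lemma exists_dualMap_eq (p : Y →ₜ+ Z) (hp : Function.Surjective p) (hpo : IsOpenMap p)
    (χ : Dual Y) (hχ : ∀ y, p y = 0 → χ y = 0) : ∃ ζ : Dual Z, dualMap p ζ = χ := by
  have hker : ∀ a b, p a = p b → χ a = χ b := by
    intro a b hab
    have h1 : p (a - b) = 0 := by rw [map_sub, hab, sub_self]
    have h2 := hχ _ h1
    rwa [map_sub, sub_eq_zero] at h2
  choose s hs using hp
  let f : Z →+ UnitAddCircle :=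
    { toFun := fun z => χ (s z)
      map_zero' := by
        apply hχ
        rw [hs]
      map_add' := fun a b => by
        rw [← map_add]
        apply hker
        rw [map_add, hs, hs, hs] }
  have hf : ∀ y, f (p y) = χ y := fun y => hker _ _ (hs (p y))
  have hq : IsQuotientMap p := hpo.isQuotientMap p.continuous_toFun fun z => ⟨s z, hs z⟩
  have hfc : Continuous f := by
    rw [hq.continuous_iff]
    have : (f ∘ p) = fun y => χ y := funext hf
    rw [this]
    exact χ.continuous_toFun
  exact ⟨⟨f, hfc⟩, ContinuousAddMonoidHom.ext hf⟩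

omit [IsTopologicalAddGroup Y] in
/-- the characters that vanish on a compact subgroup form an open subgroup -/
lemma isOpen_annihilator {C : AddSubgroup Y} (hC : IsCompact (C : Set Y)) :
    IsOpen {χ : Dual Y | ∀ c ∈ C, χ c = 0} := by
  have h1 : IsOpen {χ : Dual Y | Set.MapsTo χ (C : Set Y) (Metric.ball 0 (1 / 4))} :=
    isOpen_induced (ContinuousMap.isOpen_setOfPred_mapsTo hC Metric.isOpen_ball)
  have h2 : {χ : Dual Y | Set.MapsTo χ (C : Set Y) (Metric.ball 0 (1 / 4))} =
      {χ : Dual Y | ∀ c ∈ C, χ c = 0} := by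
    ext χ
    constructor
    · intro hχ c hc
      refine eq_zero_of_small fun j => ?_
      have h3 := hχ (C.nsmul_mem hc j)
      rw [mem_ball_zero_iff, map_nsmul] at h3
      exact h3
    · intro hχ c hc
      have hχ' : χ c = 0 := hχ c hc
      show χ c ∈ _
      rw [hχ']
      exact Metric.mem_ball_self (by norm_num)
  rw [← h2]
  exact h1

/-- the dual of an open surjective homomorphism with compact kernel is an embedding -/
lemma isEmbedding_dualMap (p : Y →ₜ+ Z) (hp : Function.Surjective p) (hpo : IsOpenMap p)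
    (hK : IsCompact {y | p y = 0}) : IsEmbedding (dualMap p) := by
  have hprop : IsProperMap p := isProperMap_of_compact_ker p hp hpo hK
  have hinj : Function.Injective (dualMap p) := by
    intro χ χ' h
    refine ContinuousAddMonoidHom.ext fun z => ?_
    obtain ⟨y, rfl⟩ := hp z
    exact DFunLike.congr_fun h y
  refine ⟨?_, hinj⟩
  rw [IsTopologicalAddGroup.isInducing_iff_nhds_zero]
  refine le_antisymm ?_ ?_
  · rw [← Filter.tendsto_iff_comap]
    have := (dualMap p).continuous_toFun.tendsto 0
    have h0 : (dualMap p).toFun 0 = 0 := map_zero (dualMap p)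
    rwa [h0] at this
  · intro W hW
    rw [(ContinuousAddMonoidHom.isInducing_toContinuousMap Z UnitAddCircle).nhds_eq_comap] at hW
    have h1 := (Metric.nhds_basis_ball (x := (0 : UnitAddCircle))).nhds_continuousMapConst (X := Z)
    have h2 := h1.comap (ContinuousAddMonoidHom.toContinuousMap : Dual Z → C(Z, UnitAddCircle))
    obtain ⟨⟨K, i⟩, ⟨hK, hi⟩, hKW⟩ := h2.mem_iff.1 hW
    rw [Filter.mem_comap]
    refine ⟨{χ : Dual Y | Set.MapsTo χ (p ⁻¹' K) (Metric.ball 0 i)}, ?_, ?_⟩
    · have h3 : IsOpen {χ : Dual Y | Set.MapsTo χ (p ⁻¹' K) (Metric.ball 0 i)} :=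
        isOpen_induced (ContinuousMap.isOpen_setOfPred_mapsTo (hprop.isCompact_preimage hK)
          Metric.isOpen_ball)
      refine h3.mem_nhds ?_
      intro y _
      exact Metric.mem_ball_self hi
    · intro χ hχ
      apply hKW
      intro z hz
      obtain ⟨y, rfl⟩ := hp z
      exact hχ hz

end compq

end CompQ

open CompQ

/-- quotients of reflexive groups by compact subgroups are reflexive -/
theorem IsReflexive.of_compact_ker {Y : Type u} {Z : Type v} [AddCommGroup Y]
    [TopologicalSpace Y] [IsTopologicalAddGroup Y] [AddCommGroup Z]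
    [TopologicalSpace Z] [IsTopologicalAddGroup Z] (h : IsReflexive Y) (p : Y →ₜ+ Z)
    (hp : Function.Surjective p) (hpo : IsOpenMap p) (hK : IsCompact {y | p y = 0}) :
    IsReflexive Z := by
  let C : AddSubgroup Y := p.toAddMonoidHom.ker
  have hC : ∀ y, y ∈ C ↔ p y = 0 := fun y => Iff.rfl
  have hCc : IsCompact (C : Set Y) := hK
  have hemb := isEmbedding_dualMap p hp hpo hK
  -- the annihilator of the kernel
  let A : AddSubgroup (Dual Y) := (dualMap p).toAddMonoidHom.range
  have hA : ∀ χ : Dual Y, χ ∈ A ↔ ∀ c ∈ C, χ c = 0 := by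
    intro χ
    constructor
    · rintro ⟨ζ, rfl⟩ c hc
      show ζ (p c) = 0
      rw [(hC c).1 hc, map_zero]
    · intro hχ
      obtain ⟨ζ, hζ⟩ := exists_dualMap_eq p hp hpo χ hχ
      exact ⟨ζ, hζ⟩
  have hAo : IsOpen (A : Set (Dual Y)) := by
    have h1 : (A : Set (Dual Y)) = {χ : Dual Y | ∀ c ∈ C, χ c = 0} := Set.ext hA
    rw [h1]
    exact isOpen_annihilator hCc
  have hopen : IsOpenEmbedding (dualMap p) := ⟨hemb, by
    have h1 : Set.range (dualMap p) = (A : Set (Dual Y)) := rfl
    rw [h1]
    exact hAo⟩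
  -- naturality
  have hnat : eta Z ∘ p = dualMap (dualMap p) ∘ eta Y := rfl
  have hq : IsQuotientMap p := hpo.isQuotientMap p.continuous_toFun hp
  have hsurj : Function.Surjective (eta Z) := by
    intro Φ
    obtain ⟨Ψ, hΨ⟩ := exists_extension (dualMap p).toAddMonoidHom hemb.injective Φ.toAddMonoidHom
    have hΨc : Continuous Ψ := by
      apply continuous_of_continuousAt_zero Ψ
      have h0 : dualMap p 0 = 0 := map_zero (dualMap p)
      have h1 : 𝓝 (0 : Dual Y) = Filter.map (dualMap p) (𝓝 0) := by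
        rw [← h0, hopen.map_nhds_eq, h0]
      show Filter.Tendsto Ψ (𝓝 0) (𝓝 (Ψ 0))
      rw [h1, Filter.tendsto_map'_iff, map_zero]
      have h2 : (Ψ ∘ dualMap p) = fun ζ => Φ ζ := funext hΨ
      rw [h2]
      have h3 := Φ.continuous_toFun.tendsto 0
      have h4 : Φ.toFun 0 = 0 := map_zero Φ
      rwa [h4] at h3
    obtain ⟨y, hy⟩ := h.bijective.2 ⟨Ψ, hΨc⟩
    refine ⟨p y, ContinuousAddMonoidHom.ext fun ζ => ?_⟩
    show ζ (p y) = Φ ζ
    have h1 : dualMap p ζ y = Ψ (dualMap p ζ) := DFunLike.congr_fun hy (dualMap p ζ)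
    have h2 : Ψ (dualMap p ζ) = Φ ζ := hΨ ζ
    rw [← h2, ← h1]
    rfl
  have hinj : Function.Injective (eta Z) := by
    have : Function.Injective (etaHom Z) := by
      rw [injective_iff_map_eq_zero]
      intro z hz
      obtain ⟨y, rfl⟩ := hp z
      have hz' : ∀ ζ : Dual Z, ζ (p y) = 0 := fun ζ => DFunLike.congr_fun hz ζ
      have : CompactSpace C := isCompact_iff_compactSpace.1 hCc
      let res : Dual Y →+ Dual C := (dualMap (subHom C)).toAddMonoidHom
      obtain ⟨c, hc⟩ := exists_point res (etaHom Y y).toAddMonoidHom (by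
        intro χ hχ
        have h1 : ∀ c ∈ C, χ c = 0 := fun c hc => DFunLike.congr_fun hχ (⟨c, hc⟩ : C)
        obtain ⟨ζ, hζ⟩ := (hA χ).2 h1
        show χ y = 0
        rw [← hζ]
        exact hz' ζ)
      have h2 : y = c := h.bijective.1 (ContinuousAddMonoidHom.ext fun χ => hc χ)
      rw [h2]
      exact c.2
    exact this
  refine ⟨?_, ?_, hinj, hsurj⟩
  · rw [hq.continuous_iff, hnat]
    exact (dualMap (dualMap p)).continuous_toFun.comp h.continuous
  · -- the restriction to the annihilator is open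
    have h1 := (restrict_open A hAo).2.1
    let e : Dual Z ≃ₜ+ A := subIso (dualMap p) hemb A (fun χ => Iff.rfl)
    have he : ∀ ζ, (e ζ : Dual Y) = dualMap p ζ := fun ζ => rfl
    let e1 : Dual Z →ₜ+ A := ⟨e.toAddEquiv.toAddMonoidHom, e.continuous_toFun⟩
    let e2 : A →ₜ+ Dual Z := ⟨e.toAddEquiv.symm.toAddMonoidHom, e.continuous_invFun⟩
    let E : Dual A ≃ₜ Dual (Dual Z) := dualHomeo e1 e2 (fun b => e.toAddEquiv.apply_symm_apply b)
      (fun a => e.toAddEquiv.symm_apply_apply a)
    have h2 : (dualMap (dualMap p) : Dual (Dual Y) → Dual (Dual Z)) =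
        E ∘ dualMap (subHom A) := rfl
    have h3 : IsOpenMap (eta Z ∘ p) := by
      rw [hnat, h2]
      exact (E.isOpenMap.comp h1).comp h.isOpenMap
    intro W hW
    have h4 : eta Z '' W = (eta Z ∘ p) '' (p ⁻¹' W) := by
      rw [Set.image_comp, Set.image_preimage_eq W hp]
    rw [h4]
    exact h3 _ (hW.preimage p.continuous_toFun)

end Pool.Agent.Work.MP_c629c8_al
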