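import Pool.Agent.Work.MP_c629c8_al.Vec.Defs
import Pool.Agent.Work.MP_c629c8_al.CondA

/-!
# The condition (A): images and products
-/

universe u v w

namespace Pool.Agent.Work.MP_c629c8_al

open Topology

set_option linter.unusedVariables false in
/-- The condition (A) passes to open continuous images. -/
theorem condA_of_surjective {G : Type u} {G' : Type v} [AddCommGroup G] [TopologicalSpace G]
    [AddCommGroup G'] [TopologicalSpace G'] (f : G →ₜ+ G') (hf : Function.Surjective f)
    (hfo : IsOpenMap f) (h : CondA G) : CondA G' := by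
  obtain ⟨U, hU, hUo, hN⟩ := h
  refine ⟨fun n => (U n).map f.toAddMonoidHom, fun m n hmn => AddSubgroup.map_mono (hU hmn),
    fun n => hfo _ (hUo n), fun N' hN' => ?_⟩
  obtain ⟨n, hn⟩ := hN (N'.comap f.toAddMonoidHom) (hN'.preimage f.continuous_toFun)
  refine ⟨n, ?_⟩
  let g0 : U n →+ (U n).map f.toAddMonoidHom :=
    (f.toAddMonoidHom.comp (U n).subtype).codRestrict _ fun x => ⟨x, x.2, rfl⟩
  let g : (U n ⧸ (N'.comap f.toAddMonoidHom).addSubgroupOf (U n)) →+
      ((U n).map f.toAddMonoidHom ⧸ N'.addSubgroupOf ((U n).map f.toAddMonoidHom)) :=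
    QuotientAddGroup.map _ _ g0 (fun x hx => hx)
  refine isArtinian_of_surjective _ g.toIntLinearMap ?_
  intro b
  obtain ⟨⟨_, x, hx, rfl⟩, rfl⟩ := QuotientAddGroup.mk_surjective b
  exact ⟨QuotientAddGroup.mk ⟨x, hx⟩, rfl⟩

section

variable {I : Type u} {L : I → Type v} [∀ i, AddCommGroup (L i)]
  [∀ i, TopologicalSpace (L i)]

/-- An open subgroup of a product contains a box of open subgroups. -/
theorem exists_box' {W : AddSubgroup (∀ i, L i)} (hW : IsOpen (W : Set (∀ i, L i))) :
    ∃ (F : Finset I) (N : ∀ i, AddSubgroup (L i)), (∀ i, IsOpen (N i : Set (L i))) ∧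
      box F N ≤ W := by
  classical
  have h0 : (W : Set (∀ i, L i)) ∈ 𝓝 (0 : ∀ i, L i) := hW.mem_nhds W.zero_mem
  rw [nhds_pi, Filter.mem_pi] at h0
  obtain ⟨F, hF, t, ht, hsub⟩ := h0
  refine ⟨hF.toFinset, fun i => W.comap (AddMonoidHom.single L i),
    fun i => hW.preimage (continuous_single i), fun x hx => ?_⟩
  rw [mem_box] at hx
  have h1 : x = (x - ∑ i ∈ hF.toFinset, Pi.single i (x i)) +
      ∑ i ∈ hF.toFinset, Pi.single i (x i) := (sub_add_cancel _ _).symm
  rw [h1]
  refine W.add_mem (hsub fun i hi => ?_) (W.sum_mem fun i hi => hx i hi)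
  have h2 : (x - ∑ i ∈ hF.toFinset, Pi.single i (x i)) i = 0 := by
    rw [Pi.sub_apply, Finset.sum_apply, Finset.sum_eq_single_of_mem i (by simpa using hi)
      (fun j _ hj => Pi.single_eq_of_ne hj.symm _), Pi.single_eq_same, sub_self]
  rw [h2]
  exact mem_of_mem_nhds (ht i)

/-- Products of groups with the condition (A). -/
theorem condA_pi' (hA : ∀ i, CondA (L i)) (hE : {i | ¬ ArtinianQuotients (L i)}.Countable) :
    CondA (∀ i, L i) := by
  classical
  choose U hU1 hU2 hU3 using hA
  -- an increasing sequence of finite sets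
  obtain ⟨Fs, hmono, hFs⟩ : ∃ Fs : ℕ → Finset I, Monotone Fs ∧
      ∀ i, ¬ ArtinianQuotients (L i) → ∃ n, i ∈ Fs n := by
    rcases Set.eq_empty_or_nonempty {i | ¬ ArtinianQuotients (L i)} with he | hne
    · refine ⟨fun _ => ∅, fun _ _ _ => le_refl _, fun i hi => ?_⟩
      have : i ∈ {i | ¬ ArtinianQuotients (L i)} := hi
      rw [he] at this
      exact absurd this (Set.notMem_empty i)
    · obtain ⟨e, he⟩ := hE.exists_eq_range hne
      refine ⟨fun n => (Finset.range (n + 1)).image e, fun m n hmn =>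
        Finset.image_subset_image (Finset.range_mono (Nat.succ_le_succ hmn)), fun i hi => ?_⟩
      have : i ∈ {i | ¬ ArtinianQuotients (L i)} := hi
      rw [he] at this
      obtain ⟨n, rfl⟩ := this
      exact ⟨n, Finset.mem_image.2 ⟨n, Finset.self_mem_range_succ n, rfl⟩⟩
  refine ⟨fun n => box (Fs n) (fun i => U i n), ?_, fun n => isOpen_box fun i => hU2 i n, ?_⟩
  · intro m n hmn x hx i hi
    exact hU1 i hmn (hx i (hmono hmn hi))
  · intro M hM
    obtain ⟨F, N, hN1, hN2⟩ := exists_box' hM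
    -- a common `n`
    have h1 : ∀ i, ∃ n, IsArtinian ℤ (U i n ⧸ (N i).addSubgroupOf (U i n)) ∧
        (¬ ArtinianQuotients (L i) → i ∈ Fs n) := by
      intro i
      obtain ⟨n, hn⟩ := hU3 i (N i) (hN1 i)
      by_cases hi : ArtinianQuotients (L i)
      · exact ⟨n, hn, fun h => absurd hi h⟩
      · obtain ⟨n', hn'⟩ := hFs i hi
        exact ⟨max n n', isArtinian_mono (hU1 i (le_max_left _ _)) le_rfl hn,
          fun _ => hmono (le_max_right _ _) hn'⟩
    choose ν hν1 hν2 using h1
    refine ⟨F.sup ν, ?_⟩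
    set n := F.sup ν with hn
    -- the two parts of `F`
    let F1 : Finset I := F.filter (fun i => i ∈ Fs n)
    let F2 : Finset I := F.filter (fun i => i ∉ Fs n)
    have hart1 : ∀ i : F1, IsArtinian ℤ (U i n ⧸ (N i).addSubgroupOf (U i n)) := fun i =>
      isArtinian_mono (hU1 i (Finset.le_sup (Finset.mem_filter.1 i.2).1)) le_rfl (hν1 i)
    have hart2 : ∀ i : F2, IsArtinian ℤ (L i ⧸ (N i)) := fun i => by
      obtain ⟨hi1, hi2⟩ := Finset.mem_filter.1 i.2
      have h2 : ArtinianQuotients (L i) := by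
        by_contra hcon
        exact hi2 (hmono (Finset.le_sup hi1) (hν2 i hcon))
      exact h2 (N i) (hN1 i)
    let P := (∀ i : F1, U i n ⧸ (N i).addSubgroupOf (U i n)) × (∀ i : F2, L i ⧸ (N i))
    have hP : IsArtinian ℤ P := inferInstance
    -- the map
    let f0 : box (Fs n) (fun i => U i n) →+ P :=
      { toFun := fun x =>
          (fun i => QuotientAddGroup.mk ⟨(x : ∀ i, L i) i, x.2 i (Finset.mem_filter.1 i.2).2⟩,
            fun i => QuotientAddGroup.mk ((x : ∀ i, L i) i))
        map_zero' := rfl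
        map_add' := fun _ _ => rfl }
    -- its kernel is contained in `M`
    have hker : ∀ x, f0 x = 0 → (x : ∀ i, L i) ∈ M := by
      intro x hx
      apply hN2
      intro i hi
      by_cases hi2 : i ∈ Fs n
      · have h3 := congrFun (congrArg Prod.fst hx) ⟨i, Finset.mem_filter.2 ⟨hi, hi2⟩⟩
        have h4 : (QuotientAddGroup.mk ⟨(x : ∀ i, L i) i, x.2 i hi2⟩ :
            U i n ⧸ (N i).addSubgroupOf (U i n)) = 0 := h3
        rw [QuotientAddGroup.eq_zero_iff] at h4
        exact h4
      · have h3 := congrFun (congrArg Prod.snd hx) ⟨i, Finset.mem_filter.2 ⟨hi, hi2⟩⟩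
        have h4 : (QuotientAddGroup.mk ((x : ∀ i, L i) i) : L i ⧸ N i) = 0 := h3
        rw [QuotientAddGroup.eq_zero_iff] at h4
        exact h4
    -- the quotient of the range
    have hQ : IsArtinian ℤ f0.range :=
      isArtinian_of_injective f0.range.subtype.toIntLinearMap Subtype.val_injective
    have hQ2 : IsArtinian ℤ (box (Fs n) (fun i => U i n) ⧸ f0.ker) :=
      isArtinian_of_linearEquiv
        (QuotientAddGroup.quotientKerEquivRange f0).symm.toIntLinearEquiv
    let g : (box (Fs n) (fun i => U i n) ⧸ f0.ker) →+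
        (box (Fs n) (fun i => U i n) ⧸ M.addSubgroupOf (box (Fs n) (fun i => U i n))) :=
      QuotientAddGroup.map _ _ (AddMonoidHom.id _) (fun x hx => hker x hx)
    refine isArtinian_of_surjective _ g.toIntLinearMap ?_
    intro b
    obtain ⟨x, rfl⟩ := QuotientAddGroup.mk_surjective b
    exact ⟨QuotientAddGroup.mk x, rfl⟩

end

end Pool.Agent.Work.MP_c629c8_al
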