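import Mathlib
import Pool.Agent.Work.MP_c629c8_al.Vec.Tr

/-!
# Factors of reflexive and of strongly reflexive groups
-/

universe u v

namespace Pool.Agent.Work.MP_c629c8_al

open Topology

section factor

variable {A : Type u} {B : Type v} [AddCommGroup A] [TopologicalSpace A]
  [AddCommGroup B] [TopologicalSpace B]

/-- the second inclusion -/
def inrHom (A : Type u) (B : Type v) [AddCommGroup A] [TopologicalSpace A]
    [AddCommGroup B] [TopologicalSpace B] : B →ₜ+ A × B where
  toFun := fun b => (0, b)
  map_zero' := rfl
  map_add' := fun x y => by rw [Prod.mk_add_mk, add_zero]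
  continuous_toFun := continuous_const.prodMk continuous_id

/-- the second projection -/
def sndHom (A : Type u) (B : Type v) [AddCommGroup A] [TopologicalSpace A]
    [AddCommGroup B] [TopologicalSpace B] : A × B →ₜ+ B where
  toFun := fun z => z.2
  map_zero' := rfl
  map_add' := fun _ _ => rfl
  continuous_toFun := continuous_snd

lemma sndHom_inrHom (b : B) : sndHom A B (inrHom A B b) = b := rfl

theorem IsReflexive.snd {A : Type u} {B : Type v} [AddCommGroup A] [TopologicalSpace A]
    [AddCommGroup B] [TopologicalSpace B] (h : IsReflexive (A × B)) : IsReflexive B := by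
  unfold IsReflexive at h ⊢
  obtain ⟨hc, θ, hθ1, hθ2, hθc⟩ := isHomeomorph_iff_exists_inverse.1 h
  have n1 : ∀ b, eta (A × B) (inrHom A B b) = dualMap (dualMap (inrHom A B)) (eta B b) := fun b => by
    apply ContinuousAddMonoidHom.ext
    intro χ
    rfl
  have n2 : ∀ z, eta B (sndHom A B z) = dualMap (dualMap (sndHom A B)) (eta (A × B) z) := fun z => by
    apply ContinuousAddMonoidHom.ext
    intro χ
    rfl
  have n3 : ∀ Φ : Dual (Dual B),
      dualMap (dualMap (sndHom A B)) (dualMap (dualMap (inrHom A B)) Φ) = Φ := fun Φ => by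
    apply ContinuousAddMonoidHom.ext
    intro χ
    rw [dualMap_apply, dualMap_apply]
    congr 1
  have e1 : eta B = fun b => dualMap (dualMap (sndHom A B)) (eta (A × B) (inrHom A B b)) := by
    funext b
    rw [n1, n3]
  rw [isHomeomorph_iff_exists_inverse]
  refine ⟨?_, fun Φ => sndHom A B (θ (dualMap (dualMap (inrHom A B)) Φ)), fun b => ?_, fun Φ => ?_,
    ?_⟩
  · rw [e1]
    exact (dualMap (dualMap (sndHom A B))).continuous_toFun.comp
      (hc.comp (inrHom A B).continuous_toFun)
  · show sndHom A B (θ (dualMap (dualMap (inrHom A B)) (eta B b))) = b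
    rw [← n1, hθ1]
    rfl
  · show eta B (sndHom A B (θ (dualMap (dualMap (inrHom A B)) Φ))) = Φ
    rw [n2, hθ2, n3]
  · exact (sndHom A B).continuous_toFun.comp
      (hθc.comp (dualMap (dualMap (inrHom A B))).continuous_toFun)

theorem StronglyReflexive.snd {A : Type u} {B : Type v} [AddCommGroup A] [TopologicalSpace A]
    [IsTopologicalAddGroup A] [AddCommGroup B] [TopologicalSpace B] [IsTopologicalAddGroup B]
    (h : StronglyReflexive (A × B)) : StronglyReflexive B := by
  intro H hH
  let K : AddSubgroup (A × B) := H.comap (AddMonoidHom.snd A B)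
  have hK : IsClosed (K : Set (A × B)) := hH.preimage continuous_snd
  obtain ⟨h1, h2⟩ := h K hK
  constructor
  · let f : A × H →ₜ+ A × B :=
      { toFun := fun w => (w.1, (w.2 : B))
        map_zero' := rfl
        map_add' := fun _ _ => rfl
        continuous_toFun := continuous_fst.prodMk (continuous_subtype_val.comp continuous_snd) }
    have hf : IsEmbedding f := IsEmbedding.id.prodMap IsEmbedding.subtypeVal
    have hfK : ∀ g, g ∈ K ↔ ∃ a, f a = g := by
      intro g
      constructor
      · intro hg
        exact ⟨(g.1, ⟨g.2, hg⟩), rfl⟩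
      · rintro ⟨a, rfl⟩
        exact a.2.2
    have h3 : IsReflexive (A × H) := h1.congr (subIso f hf K hfK).symm
    exact h3.snd
  · let f : A × B →ₜ+ B ⧸ H :=
      { toFun := fun w => QuotientAddGroup.mk w.2
        map_zero' := rfl
        map_add' := fun _ _ => rfl
        continuous_toFun := continuous_quot_mk.comp continuous_snd }
    refine isReflexive_of_quotient f (fun q => ?_) ?_ K (fun g => ?_) h2
    · obtain ⟨b, rfl⟩ := QuotientAddGroup.mk_surjective q
      exact ⟨(0, b), rfl⟩
    · exact (QuotientAddGroup.isOpenMap_coe (N := H)).comp isOpenMap_snd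
    · exact (QuotientAddGroup.eq_zero_iff g.2).symm

end factor

end Pool.Agent.Work.MP_c629c8_al
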