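import Mathlib
import Pool.Agent.Work.MP_c629c8_al.Vec.Surj
import Pool.Agent.Work.MP_c629c8_al.Vec.Cont
import Pool.Agent.Work.MP_c629c8_al.Vec.Tr
import Pool.Agent.Work.MP_c629c8_al.Vec.PL0
import Pool.Agent.Work.MP_c629c8_al.Vec.LemF

/-!
# Reflexivity of extensions by compact groups
-/

universe u v w

namespace Pool.Agent.Work.MP_c629c8_al

open Topology

namespace LemC

section

variable {Y : Type u} {Z : Type v} [AddCommGroup Y] [TopologicalSpace Y]
  [IsTopologicalAddGroup Y] [AddCommGroup Z] [TopologicalSpace Z] [IsTopologicalAddGroup Z]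
  (p : Y →ₜ+ Z)

/-- the kernel -/
def kerP : AddSubgroup Y := p.toAddMonoidHom.ker

omit [IsTopologicalAddGroup Y] [IsTopologicalAddGroup Z] in
lemma mem_kerP {y : Y} : y ∈ kerP p ↔ p y = 0 := Iff.rfl

omit [IsTopologicalAddGroup Y] [IsTopologicalAddGroup Z] in
lemma compactSpace_kerP (hK : IsCompact {y | p y = 0}) : CompactSpace (kerP p) :=
  isCompact_iff_compactSpace.1 hK

/-- the restriction of characters to the kernel -/
noncomputable def res : Dual Y →ₜ+ Dual (kerP p) :=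
  dualMap (⟨(kerP p).subtype, continuous_subtype_val⟩ : kerP p →ₜ+ Y)

omit [IsTopologicalAddGroup Y] [IsTopologicalAddGroup Z] in
lemma res_apply (χ : Dual Y) (c : kerP p) : res p χ c = χ c := rfl

variable {p}

omit [IsTopologicalAddGroup Z] in
lemma res_surjective (hK : IsCompact {y | p y = 0})
    (hsep : ∀ y, p y = 0 → y ≠ 0 → ∃ χ : Dual Y, χ y ≠ 0) : Function.Surjective (res p) := by
  have := compactSpace_kerP p hK
  by_contra hcon
  unfold Function.Surjective at hcon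
  push Not at hcon
  obtain ⟨χ₀, hχ₀⟩ := hcon
  let R : AddSubgroup (Dual (kerP p)) := (res p).toAddMonoidHom.range
  have h1 : (QuotientAddGroup.mk χ₀ : Dual (kerP p) ⧸ R) ≠ 0 := by
    rw [Ne, QuotientAddGroup.eq_zero_iff]
    rintro ⟨ξ, hξ⟩
    exact hχ₀ ξ hξ
  obtain ⟨g, hg⟩ := exists_char_ne_zero h1
  obtain ⟨c, hc⟩ := exists_point (C := kerP p) (AddMonoidHom.id (Dual (kerP p)))
    (g.comp (QuotientAddGroup.mk' R)) (fun d hd => by
      have hd' : d = 0 := hd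
      rw [hd', map_zero])
  have h2 : (c : Y) = 0 := by
    by_contra hne
    obtain ⟨χ, hχ⟩ := hsep c c.2 hne
    apply hχ
    have h3 : g (QuotientAddGroup.mk (res p χ)) = res p χ c := hc (res p χ)
    have h4 : (QuotientAddGroup.mk (res p χ) : Dual (kerP p) ⧸ R) = 0 := by
      rw [QuotientAddGroup.eq_zero_iff]
      exact ⟨χ, rfl⟩
    rw [h4, map_zero, res_apply] at h3
    exact h3.symm
  apply hg
  have h3 : g (QuotientAddGroup.mk χ₀) = χ₀ c := hc χ₀
  have h4 : c = 0 := Subtype.ext h2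
  rw [h3, h4, map_zero]

omit [IsTopologicalAddGroup Y] [IsTopologicalAddGroup Z] in
/-- characters that vanish on the kernel come from the quotient -/
lemma exists_dual (hp : Function.Surjective p) (hpo : IsOpenMap p) (χ : Dual Y)
    (h : ∀ y, p y = 0 → χ y = 0) : ∃ ζ : Dual Z, dualMap p ζ = χ := by
  let ζ : Z →+ UnitAddCircle := (p.toAddMonoidHom).liftOfSurjective hp
    ⟨χ.toAddMonoidHom, fun y hy => h y hy⟩
  have h1 : ∀ y, ζ (p y) = χ y := fun y =>
    AddMonoidHom.liftOfRightInverse_comp_apply _ _ _ _ _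
  have hc : Continuous ζ := by
    have hq : IsQuotientMap p := hpo.isQuotientMap p.continuous_toFun hp
    rw [hq.continuous_iff]
    have : ζ ∘ p = χ := funext h1
    rw [this]
    exact χ.continuous_toFun
  exact ⟨⟨ζ, hc⟩, ContinuousAddMonoidHom.ext h1⟩

/-- the dual of a proper open surjective homomorphism is an embedding -/
lemma isInducing_dualMap (hp : Function.Surjective p) (hpo : IsOpenMap p)
    (hK : IsCompact {y | p y = 0}) : IsInducing (dualMap p) := by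
  have hprop := isProperMap_of_compact_ker p hp hpo hK
  rw [IsTopologicalAddGroup.isInducing_iff_nhds_zero]
  refine le_antisymm ?_ ?_
  · rw [← Filter.tendsto_iff_comap]
    have := (dualMap p).continuous_toFun.tendsto 0
    have h0 : (dualMap p).toFun 0 = 0 := map_zero (dualMap p)
    rwa [h0] at this
  · intro W hW
    obtain ⟨K, hK', δ, hδ, h⟩ := SurjAux.exists_of_mem_nhds hW
    rw [Filter.mem_comap]
    refine ⟨_, SurjAux.mem_nhds (hprop.isCompact_preimage hK') hδ, ?_⟩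
    intro ζ hζ
    refine h ζ fun z hz => ?_
    obtain ⟨y, rfl⟩ := hp z
    exact hζ y hz

lemma eta_injective (hsep : ∀ y, p y = 0 → y ≠ 0 → ∃ χ : Dual Y, χ y ≠ 0)
    (hZ : Function.Injective (eta Z)) : Function.Injective (eta Y) := by
  have : Function.Injective (etaHom Y) := by
    rw [injective_iff_map_eq_zero]
    intro y hy
    have hy' : ∀ ξ : Dual Y, ξ y = 0 := fun ξ => by
      have h1 : etaHom Y y ξ = (0 : Dual (Dual Y)) ξ := by rw [hy]
      exact h1
    have h1 : p y = 0 := by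
      apply hZ
      apply ContinuousAddMonoidHom.ext
      intro ζ
      show ζ (p y) = ζ 0
      rw [map_zero]
      exact hy' (dualMap p ζ)
    by_contra hne
    obtain ⟨χ, hχ⟩ := hsep y h1 hne
    exact hχ (hy' χ)
  exact this

lemma eta_surjective (hp : Function.Surjective p) (hpo : IsOpenMap p)
    (hK : IsCompact {y | p y = 0})
    (hsep : ∀ y, p y = 0 → y ≠ 0 → ∃ χ : Dual Y, χ y ≠ 0)
    (hZ : Function.Surjective (eta Z)) : Function.Surjective (eta Y) := by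
  have := compactSpace_kerP p hK
  intro Φ
  obtain ⟨z, hz⟩ := hZ (dualMap (dualMap p) Φ)
  obtain ⟨y₀, rfl⟩ := hp z
  have hz' : ∀ ζ : Dual Z, Φ (dualMap p ζ) = ζ (p y₀) := fun ζ =>
    (DFunLike.congr_fun hz ζ).symm
  let Φ' : Dual Y →+ UnitAddCircle := Φ.toAddMonoidHom - (eta Y y₀).toAddMonoidHom
  have hΦ' : ∀ χ, Φ' χ = Φ χ - χ y₀ := fun _ => rfl
  have hr := res_surjective hK hsep
  let Ψ : Dual (kerP p) →+ UnitAddCircle := (res p).toAddMonoidHom.liftOfSurjective hr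
    ⟨Φ', fun χ hχ => by
      have h1 : ∀ y, p y = 0 → χ y = 0 := fun y hy => by
        have h2 : res p χ ⟨y, hy⟩ = (0 : Dual (kerP p)) ⟨y, hy⟩ := by
          have h3 : res p χ = 0 := hχ
          rw [h3]
        exact h2
      obtain ⟨ζ, rfl⟩ := exists_dual hp hpo χ h1
      rw [AddMonoidHom.mem_ker, hΦ', hz']
      exact sub_self _⟩
  have hΨ : ∀ χ, Ψ (res p χ) = Φ' χ := fun χ =>
    AddMonoidHom.liftOfRightInverse_comp_apply _ _ _ _ _
  obtain ⟨c, hc⟩ := exists_point (C := kerP p) (AddMonoidHom.id (Dual (kerP p))) Ψ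
    (fun d hd => by
      have hd' : d = 0 := hd
      rw [hd', map_zero])
  refine ⟨y₀ + c, ContinuousAddMonoidHom.ext fun χ => ?_⟩
  show χ (y₀ + c) = Φ χ
  have h1 : Ψ (res p χ) = res p χ c := hc (res p χ)
  rw [hΨ, hΦ', res_apply] at h1
  rw [map_add, ← h1]
  abel

lemma eta_continuous (hp : Function.Surjective p) (hpo : IsOpenMap p)
    (hK : IsCompact {y | p y = 0}) (hZ : Continuous (eta Z)) : Continuous (eta Y) := by
  refine Pool.Agent.Work.MP_c629c8_al.eta_continuous fun E hE U hU h0 => ?_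
  obtain ⟨V, hVo, hV0, hVV⟩ := exists_open_nhds_zero_half (hU.mem_nhds h0)
  -- the annihilator of the kernel is open
  let A : AddSubgroup (Dual Y) :=
    { carrier := {χ | ∀ y, p y = 0 → χ y = 0}
      zero_mem' := fun _ _ => rfl
      add_mem' := fun {a b} ha hb y hy => by
        show a y + b y = 0
        rw [ha y hy, hb y hy, add_zero]
      neg_mem' := fun {a} ha y hy => by
        show -(a y) = 0
        rw [ha y hy, neg_zero] }
  have hA : IsOpen (A : Set (Dual Y)) := by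
    refine A.isOpen_of_mem_nhds (g := 0) ?_
    refine Filter.mem_of_superset (SurjAux.mem_nhds hK (δ := 1 / 4) (by norm_num)) ?_
    intro χ hχ y hy
    refine eq_zero_of_small fun j => ?_
    rw [← map_nsmul]
    refine hχ (j • y) ?_
    show p (j • y) = 0
    rw [map_nsmul, hy, smul_zero]
  have hAc : IsClosed (A : Set (Dual Y)) := A.isClosed_of_isOpen hA
  obtain ⟨t, ht, htE⟩ := hE.elim_nhds_subcover (fun χ => {ξ : Dual Y | ξ - χ ∈ A}) (by
    intro χ _
    have h1 : IsOpen {ξ : Dual Y | ξ - χ ∈ A} := hA.preimage (continuous_id.sub continuous_const)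
    refine h1.mem_nhds ?_
    show χ - χ ∈ A
    rw [sub_self]
    exact A.zero_mem)
  have key : ∀ χ ∈ t, ∀ᶠ x in 𝓝 (0 : Y), χ x ∈ V ∧ ∀ ξ ∈ E, ξ - χ ∈ A → (ξ - χ) x ∈ V := by
    intro χ _
    have h1 : ∀ᶠ x in 𝓝 (0 : Y), χ x ∈ V := by
      have : ContinuousAt χ 0 := χ.continuous_toFun.continuousAt
      refine this (hVo.mem_nhds ?_)
      rwa [map_zero]
    have h2 : IsCompact (((fun ξ => ξ - χ) '' E) ∩ (A : Set (Dual Y))) :=
      (hE.image (continuous_id.sub continuous_const)).inter_right hAc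
    have h3 : IsCompact (dualMap p ⁻¹' (((fun ξ => ξ - χ) '' E) ∩ (A : Set (Dual Y)))) := by
      rw [(isInducing_dualMap hp hpo hK).isCompact_preimage_iff]
      · exact h2
      · rintro ξ ⟨-, hξ⟩
        exact exists_dual hp hpo ξ hξ
    have h4 := equi_of_eta_continuous hZ h3 hVo hV0
    have h5 : Filter.Tendsto p (𝓝 0) (𝓝 0) := by
      have := p.continuous_toFun.tendsto 0
      have h6 : p.toFun 0 = 0 := map_zero p
      rwa [h6] at this
    filter_upwards [h1, h5.eventually h4] with x hx1 hx2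
    refine ⟨hx1, fun ξ hξ hξA => ?_⟩
    obtain ⟨ζ, hζ⟩ := exists_dual hp hpo (ξ - χ) hξA
    rw [← hζ, dualMap_apply]
    refine hx2 ζ ?_
    rw [Set.mem_preimage, hζ]
    exact ⟨⟨ξ, hξ, rfl⟩, hξA⟩
  have key2 : ∀ᶠ x in 𝓝 (0 : Y), ∀ χ ∈ t, χ x ∈ V ∧ ∀ ξ ∈ E, ξ - χ ∈ A → (ξ - χ) x ∈ V :=
    (Finset.eventually_all t).2 key
  filter_upwards [key2] with x hx ξ hξ
  obtain ⟨χ, hχ, hξχ⟩ : ∃ χ ∈ t, ξ - χ ∈ A := by
    have := htE hξ
    simpa using this
  obtain ⟨h1, h2⟩ := hx χ hχ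
  have h3 := hVV _ (h2 ξ hξ hξχ) _ h1
  have h4 : (ξ - χ) x + χ x = ξ x := by
    show ξ x - χ x + χ x = ξ x
    abel
  rwa [h4] at h3

omit [IsTopologicalAddGroup Y] [IsTopologicalAddGroup Z] in
lemma exists_finset (hK : IsCompact {y | p y = 0})
    (hsep : ∀ y, p y = 0 → y ≠ 0 → ∃ χ : Dual Y, χ y ≠ 0) {V : Set Y} (hV : IsOpen V)
    (h0 : (0 : Y) ∈ V) : ∃ (s : Finset (Dual Y)) (m : ℝ), 0 < m ∧
      ∀ c, p c = 0 → ∑ χ ∈ s, ‖χ c‖ < m → c ∈ V := by
  have hK' : IsCompact ({y | p y = 0} \ V) := hK.diff hV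
  obtain ⟨t, ht⟩ := hK'.elim_finite_subcover (fun χ : Dual Y => {y | χ y ≠ 0}) (by
    intro χ
    exact isOpen_compl_singleton.preimage χ.continuous_toFun) (by
    rintro y ⟨hy, hyV⟩
    have hne : y ≠ 0 := by
      rintro rfl
      exact hyV h0
    obtain ⟨χ, hχ⟩ := hsep y hy hne
    exact Set.mem_iUnion.2 ⟨χ, hχ⟩)
  rcases ({y | p y = 0} \ V).eq_empty_or_nonempty with he | hne
  · refine ⟨∅, 1, one_pos, fun c hc _ => ?_⟩
    by_contra hcV
    have : c ∈ {y | p y = 0} \ V := ⟨hc, hcV⟩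
    rw [he] at this
    exact this
  · have hc : Continuous fun y : Y => ∑ χ ∈ t, ‖χ y‖ :=
      continuous_finsetSum _ fun χ _ => χ.continuous_toFun.norm
    obtain ⟨c₀, hc₀, hmin⟩ := hK'.exists_isMinOn hne hc.continuousOn
    refine ⟨t, ∑ χ ∈ t, ‖χ c₀‖, ?_, fun c hc hlt => ?_⟩
    · obtain ⟨χ, hχ, hχ2⟩ : ∃ χ ∈ t, χ c₀ ≠ 0 := by
        have := ht hc₀
        simpa using this
      exact Finset.sum_pos' (fun _ _ => norm_nonneg _) ⟨χ, hχ, norm_pos_iff.2 hχ2⟩
    · by_contra hcV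
      exact absurd hlt (not_lt.2 (hmin ⟨hc, hcV⟩))

lemma eta_isOpenMap (hp : Function.Surjective p) (hpo : IsOpenMap p)
    (hK : IsCompact {y | p y = 0})
    (hsep : ∀ y, p y = 0 → y ≠ 0 → ∃ χ : Dual Y, χ y ≠ 0) (hZ : IsReflexive Z)
    (hs : Function.Surjective (eta Y)) : IsOpenMap (eta Y) := by
  have : IsOpenMap (etaHom Y) := by
    rw [IsTopologicalAddGroup.isOpenMap_iff_nhds_zero]
    intro W hW
    rw [Filter.mem_map] at hW
    obtain ⟨V, hVo, hV0, hVV⟩ := exists_open_nhds_zero_half hW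
    obtain ⟨s, m, hm, hsm⟩ := exists_finset hK hsep hVo hV0
    have hc : Continuous fun y : Y => ∑ χ ∈ s, ‖χ y‖ :=
      continuous_finsetSum _ fun χ _ => χ.continuous_toFun.norm
    have hV1 : {y : Y | ∑ χ ∈ s, ‖χ y‖ < m / 2} ∩ V ∈ 𝓝 (0 : Y) := by
      refine Filter.inter_mem ?_ (hVo.mem_nhds hV0)
      refine (isOpen_lt hc continuous_const).mem_nhds ?_
      show ∑ χ ∈ s, ‖χ (0 : Y)‖ < m / 2
      have : ∑ χ ∈ s, ‖χ (0 : Y)‖ = 0 := Finset.sum_eq_zero fun χ _ => by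
        rw [map_zero, norm_zero]
      rw [this]
      linarith
    have hV2 : p '' ({y : Y | ∑ χ ∈ s, ‖χ y‖ < m / 2} ∩ V) ∈ 𝓝 (0 : Z) := by
      have := hpo.image_mem_nhds hV1
      rwa [map_zero] at this
    have hV3 : eta Z '' (p '' ({y : Y | ∑ χ ∈ s, ‖χ y‖ < m / 2} ∩ V)) ∈
        𝓝 (0 : Dual (Dual Z)) := by
      have := hZ.isOpenMap.image_mem_nhds hV2
      have h0 : eta Z 0 = 0 := map_zero (etaHom Z)
      rwa [h0] at this
    obtain ⟨E, hE, δ, hδ, hEδ⟩ := SurjAux.exists_of_mem_nhds hV3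
    have hδ2 : 0 < min δ (m / (2 * (s.card + 1))) := lt_min hδ (by positivity)
    refine Filter.mem_of_superset (SurjAux.mem_nhds (C := dualMap p '' E ∪ (s : Set (Dual Y)))
      ((hE.image (dualMap p).continuous_toFun).union s.finite_toSet.isCompact) hδ2) ?_
    intro Φ hΦ
    obtain ⟨y, rfl⟩ := hs Φ
    have hy0 : ∀ χ ∈ dualMap p '' E ∪ (s : Set (Dual Y)),
        ‖eta Y y χ‖ < min δ (m / (2 * (s.card + 1))) := hΦ
    have hy1 : ∀ ζ ∈ E, ‖eta Z (p y) ζ‖ < δ := by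
      intro ζ hζ
      have h : ‖eta Y y (dualMap p ζ)‖ < min δ (m / (2 * (s.card + 1))) :=
        hy0 (dualMap p ζ) (Or.inl ⟨ζ, hζ, rfl⟩)
      have h' : eta Y y (dualMap p ζ) = eta Z (p y) ζ := rfl
      rw [h'] at h
      exact h.trans_le (min_le_left _ _)
    have hy2 : ∀ χ ∈ s, ‖χ y‖ < m / (2 * (s.card + 1)) := by
      intro χ hχ
      have h : ‖eta Y y χ‖ < min δ (m / (2 * (s.card + 1))) := hy0 χ (Or.inr hχ)
      rw [eta_apply] at h
      exact h.trans_le (min_le_right _ _)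
    have h2 : eta Z (p y) ∈ eta Z '' (p '' ({y : Y | ∑ χ ∈ s, ‖χ y‖ < m / 2} ∩ V)) :=
      hEδ (eta Z (p y)) hy1
    obtain ⟨-, ⟨w, ⟨hw1, hw2⟩, rfl⟩, hwy⟩ := h2
    have h3 : p w = p y := hZ.injective hwy
    have h4 : p (y - w) = 0 := by
      rw [map_sub, h3, sub_self]
    have hw1' : ∑ χ ∈ s, ‖χ w‖ < m / 2 := hw1
    have h5 : ∑ χ ∈ s, ‖χ y‖ ≤ m / 2 := by
      calc ∑ χ ∈ s, ‖χ y‖ ≤ ∑ _χ ∈ s, m / (2 * ((s.card : ℝ) + 1)) :=
            Finset.sum_le_sum fun χ hχ => (hy2 χ hχ).le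
        _ = s.card * (m / (2 * ((s.card : ℝ) + 1))) := by
            rw [Finset.sum_const, nsmul_eq_mul]
        _ ≤ m / 2 := by
            rw [← mul_div_assoc, div_le_div_iff₀ (by positivity) (by norm_num)]
            nlinarith
    have h6 : ∑ χ ∈ s, ‖χ (y - w)‖ < m := by
      calc ∑ χ ∈ s, ‖χ (y - w)‖ ≤ ∑ χ ∈ s, (‖χ y‖ + ‖χ w‖) :=
            Finset.sum_le_sum fun χ _ => by
              rw [map_sub]
              exact norm_sub_le _ _
        _ = ∑ χ ∈ s, ‖χ y‖ + ∑ χ ∈ s, ‖χ w‖ := Finset.sum_add_distrib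
        _ < m := by linarith
    have h7 : y - w ∈ V := hsm _ h4 h6
    have h8 := hVV w hw2 (y - w) h7
    rw [add_sub_cancel] at h8
    exact h8
  exact this

end

end LemC

theorem isReflexive_of_compact_ker {Y : Type u} {Z : Type v} [AddCommGroup Y]
    [TopologicalSpace Y] [IsTopologicalAddGroup Y] [T2Space Y] [AddCommGroup Z]
    [TopologicalSpace Z] [IsTopologicalAddGroup Z] (p : Y →ₜ+ Z) (hp : Function.Surjective p)
    (hpo : IsOpenMap p) (hK : IsCompact {y | p y = 0})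
    (hsep : ∀ y, p y = 0 → y ≠ 0 → ∃ χ : Dual Y, χ y ≠ 0) (hZ : IsReflexive Z) :
    IsReflexive Y := by
  have hs := LemC.eta_surjective hp hpo hK hsep hZ.surjective
  exact ⟨LemC.eta_continuous hp hpo hK hZ.continuous,
    LemC.eta_isOpenMap hp hpo hK hsep hZ hs,
    LemC.eta_injective hsep hZ.injective, hs⟩

end Pool.Agent.Work.MP_c629c8_al
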