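import Mathlib
import Pool.Agent.Work.MP_c629c8_al.Vec.Defs

/-!
# Integral subgroups and the groups `graphB ψ`
-/

universe u v

namespace Pool.Agent.Work.MP_c629c8_al

open Topology

section graphb

variable {α : Type u} {P : Type v} [AddCommGroup P] [TopologicalSpace P]
  [NonarchimedeanAddGroup P]

theorem Integral.exists_chars {H : AddSubgroup ((α → ℝ) × P)} (hI : Integral H) :
    ∃ ψ : α → Dual P, H ≤ graphB ψ := by
  have key : ∀ j, ∃ χ : Dual P, ∀ z ∈ H, χ z.2 = ((z.1 j : ℝ) : UnitAddCircle) := by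
    intro j
    obtain ⟨N, hN⟩ := hI j
    -- the second coordinate modulo `N`
    let f : H →+ P ⧸ (N : AddSubgroup P) :=
      (QuotientAddGroup.mk' (N : AddSubgroup P)).comp
        ((AddMonoidHom.snd (α → ℝ) P).comp H.subtype)
    -- the `j`-th coordinate modulo the integers
    let g : H →+ UnitAddCircle :=
      { toFun := fun z => ((z.1.1 j : ℝ) : UnitAddCircle)
        map_zero' := rfl
        map_add' := fun _ _ => rfl }
    have hfg : f.ker ≤ g.ker := by
      intro z hz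
      have h1 : (QuotientAddGroup.mk z.1.2 : P ⧸ (N : AddSubgroup P)) = 0 := hz
      rw [QuotientAddGroup.eq_zero_iff] at h1
      exact hN z.1.1 z.1.2 z.2 h1
    obtain ⟨h, hh⟩ := exists_extension (QuotientAddGroup.kerLift f)
      (QuotientAddGroup.kerLift_injective f) (QuotientAddGroup.lift f.ker g hfg)
    have hV : ∀ v ∈ N, h.comp (QuotientAddGroup.mk' (N : AddSubgroup P)) v = 0 := by
      intro v hv
      have : (QuotientAddGroup.mk v : P ⧸ (N : AddSubgroup P)) = 0 := by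
        rwa [QuotientAddGroup.eq_zero_iff]
      show h (QuotientAddGroup.mk v) = 0
      rw [this, map_zero]
    refine ⟨⟨h.comp (QuotientAddGroup.mk' (N : AddSubgroup P)),
      continuous_of_open_ker _ N hV⟩, fun z hz => ?_⟩
    exact hh (QuotientAddGroup.mk (⟨z, hz⟩ : H))
  choose ψ hψ using key
  exact ⟨ψ, fun z hz j => hψ j z hz⟩

theorem isClosed_graphB (ψ : α → Dual P) : IsClosed (graphB ψ : Set ((α → ℝ) × P)) := by
  have h : (graphB ψ : Set ((α → ℝ) × P)) =
      ⋂ j, {z | ψ j z.2 = ((z.1 j : ℝ) : UnitAddCircle)} := by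
    ext z
    rw [Set.mem_iInter]
    exact Iff.rfl
  rw [h]
  refine isClosed_iInter fun j => isClosed_eq ?_ ?_
  · exact (ψ j).continuous_toFun.comp continuous_snd
  · exact toCircle.continuous_toFun.comp ((continuous_apply j).comp continuous_fst)

theorem integral_graphB (ψ : α → Dual P) : Integral (graphB ψ) := by
  intro j
  obtain ⟨N, hN⟩ := exists_open_ker (ψ j)
  refine ⟨N, fun x y hxy hy => ?_⟩
  have h := hxy j
  rw [← h]
  exact hN y hy

/-- the map into the quotient -/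
noncomputable def toQuot (H : AddSubgroup ((α → ℝ) × P)) : (α → ℝ) →ₜ+ ((α → ℝ) × P) ⧸ H where
  toFun x := QuotientAddGroup.mk (x, 0)
  map_zero' := rfl
  map_add' x y := by
    rw [← QuotientAddGroup.mk_add, Prod.mk_add_mk, add_zero]
  continuous_toFun := continuous_quot_mk.comp (continuous_id.prodMk continuous_const)

lemma toQuot_apply (H : AddSubgroup ((α → ℝ) × P)) (x : α → ℝ) :
    toQuot H x = QuotientAddGroup.mk (x, 0) := rfl

lemma mk_mem_map_graphB (ψ : α → Dual P) {H : AddSubgroup ((α → ℝ) × P)} (hH : H ≤ graphB ψ)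
    (z : (α → ℝ) × P) :
    (QuotientAddGroup.mk z : ((α → ℝ) × P) ⧸ H) ∈ (graphB ψ).map (QuotientAddGroup.mk' H) ↔
      z ∈ graphB ψ := by
  constructor
  · rintro ⟨w, hw, hwz⟩
    have h1 : (QuotientAddGroup.mk w : ((α → ℝ) × P) ⧸ H) = QuotientAddGroup.mk z := hwz
    rw [QuotientAddGroup.eq] at h1
    have h2 := (graphB ψ).add_mem hw (hH h1)
    rwa [add_neg_cancel_left] at h2
  · exact fun hz => ⟨z, hz, rfl⟩

theorem cover_quotient (ψ : α → Dual P) {H : AddSubgroup ((α → ℝ) × P)} (hH : H ≤ graphB ψ) :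
    Cover (toQuot H) ((graphB ψ).map (QuotientAddGroup.mk' H)) where
  isClosed := by
    have hq : IsQuotientMap (QuotientAddGroup.mk : (α → ℝ) × P → ((α → ℝ) × P) ⧸ H) :=
      isQuotientMap_quot_mk
    rw [← hq.isClosed_preimage]
    have : (QuotientAddGroup.mk : (α → ℝ) × P → ((α → ℝ) × P) ⧸ H) ⁻¹'
        ((graphB ψ).map (QuotientAddGroup.mk' H) : Set (((α → ℝ) × P) ⧸ H)) =
        (graphB ψ : Set ((α → ℝ) × P)) := by
      ext z
      exact mk_mem_map_graphB ψ hH z
    rw [this]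
    exact isClosed_graphB ψ
  gen := by
    intro y
    obtain ⟨⟨x, y⟩, rfl⟩ := QuotientAddGroup.mk_surjective y
    have hx : ∀ j, ∃ t : ℝ, (t : UnitAddCircle) = ψ j y := fun j =>
      QuotientAddGroup.mk_surjective (ψ j y)
    choose x' hx' using hx
    refine ⟨x - x', QuotientAddGroup.mk (x', y), ?_, ?_⟩
    · rw [mk_mem_map_graphB ψ hH]
      exact fun j => (hx' j).symm
    · rw [toQuot_apply, ← QuotientAddGroup.mk_add, Prod.mk_add_mk, sub_add_cancel, zero_add]
  int := by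
    intro x
    rw [toQuot_apply, mk_mem_map_graphB ψ hH]
    constructor
    · intro h k
      have h1 : ψ k 0 = ((x k : ℝ) : UnitAddCircle) := h k
      rw [← h1, map_zero]
    · intro h k
      show ψ k 0 = ((x k : ℝ) : UnitAddCircle)
      rw [h k, map_zero]
  nhds := by
    intro U hU O hO
    have hq : Continuous (QuotientAddGroup.mk : (α → ℝ) × P → ((α → ℝ) × P) ⧸ H) :=
      continuous_quot_mk
    have h1 : (QuotientAddGroup.mk : (α → ℝ) × P → ((α → ℝ) × P) ⧸ H) ⁻¹' O ∈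
        𝓝 ((0 : α → ℝ), (0 : P)) := hq.continuousAt.preimage_mem_nhds hO
    rw [nhds_prod_eq, Filter.mem_prod_iff] at h1
    obtain ⟨U₁, hU₁, V, hV, hUV⟩ := h1
    rw [nhds_pi, Filter.mem_pi] at hU hU₁
    obtain ⟨I, hI, t, ht, htU⟩ := hU
    obtain ⟨I₁, hI₁, t₁, ht₁, htU₁⟩ := hU₁
    -- the neighbourhood
    have hW : (I.pi t ×ˢ (V ∩ ⋂ j ∈ I ∪ I₁, {y | ψ j y = 0}) : Set ((α → ℝ) × P)) ∈
        𝓝 (0 : (α → ℝ) × P) := by
      refine prod_mem_nhds ?_ (Filter.inter_mem hV ?_)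
      · exact set_pi_mem_nhds hI fun j _ => ht j
      · rw [Filter.biInter_mem (hI.union hI₁)]
        intro j _
        obtain ⟨N, hN⟩ := exists_open_ker (ψ j)
        exact Filter.mem_of_superset N.mem_nhds_zero hN
    refine ⟨QuotientAddGroup.mk '' (I.pi t ×ˢ (V ∩ ⋂ j ∈ I ∪ I₁, {y | ψ j y = 0})),
      QuotientAddGroup.isOpenMap_coe.image_mem_nhds hW, ?_⟩
    rintro _ ⟨⟨x, y⟩, ⟨hx, hyV, hy⟩, rfl⟩
    have hy' : ∀ j ∈ I ∪ I₁, ψ j y = 0 := by
      intro j hj
      have := Set.mem_iInter₂.1 hy j hj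
      exact this
    have hrep : ∀ j, ∃ s : ℝ, (s : UnitAddCircle) = ψ j y ∧ (j ∈ I ∪ I₁ → s = 0) := by
      intro j
      by_cases hj : j ∈ I ∪ I₁
      · refine ⟨0, ?_, fun _ => rfl⟩
        rw [hy' j hj]
        rfl
      · obtain ⟨s, hs⟩ := QuotientAddGroup.mk_surjective (ψ j y)
        exact ⟨s, hs, fun h => (hj h).elim⟩
    choose x' hx' hx0 using hrep
    refine ⟨x - x', htU fun j hj => ?_, QuotientAddGroup.mk (x', y), ?_, ?_, ?_⟩
    · show x j - x' j ∈ t j
      rw [hx0 j (Or.inl hj), sub_zero]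
      exact hx j hj
    · rw [mk_mem_map_graphB ψ hH]
      exact fun j => (hx' j).symm
    · have h2 : ((x', y) : (α → ℝ) × P) ∈ U₁ ×ˢ V := by
        refine ⟨htU₁ fun j hj => ?_, hyV⟩
        show x' j ∈ t₁ j
        rw [hx0 j (Or.inr hj)]
        exact mem_of_mem_nhds (ht₁ j)
      exact hUV h2
    · rw [toQuot_apply, ← QuotientAddGroup.mk_add, Prod.mk_add_mk, sub_add_cancel, zero_add]

end graphb

end Pool.Agent.Work.MP_c629c8_al
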