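import Mathlib
import Pool.Agent.Work.MP_c629c8_al.Vec.Defs

/-!
# Integral subgroups of `ℝ^α × P`
-/

universe u v

namespace Pool.Agent.Work.MP_c629c8_al

open Topology

section artcond

/-- the minimal condition on subgroups, pulled back along a homomorphism -/
lemma artCond_of_comap {X : Type u} {X' : Type v} [AddCommGroup X] [AddCommGroup X']
    (f : X →+ X') {S T : AddSubgroup X} {S' T' : AddSubgroup X'} (h : ArtCond S' T')
    (hT : ∀ t ∈ T, f t ∈ T') (hS : ∀ t ∈ T, f t ∈ S' → t ∈ S) : ArtCond S T := by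
  intro C hC hCT
  obtain ⟨B', ⟨B₁, hB₁, rfl⟩, hmin⟩ := h ((fun B => B.map f) '' C) (hC.image _) (by
    rintro _ ⟨B, hB, rfl⟩ _ ⟨b, hb, rfl⟩
    exact hT b (hCT B hB hb))
  refine ⟨B₁, hB₁, fun B hB hle b hb => ?_⟩
  have h1 := hmin (B.map f) ⟨B, hB, rfl⟩ (AddSubgroup.map_mono hle) ⟨b, hb, rfl⟩
  obtain ⟨_, ⟨c, hc, rfl⟩, p, hp, hcp⟩ := AddSubgroup.mem_sup.1 h1
  refine AddSubgroup.mem_sup.2 ⟨c, hc, b - c, ?_, add_sub_cancel c b⟩
  apply hS (b - c) (T.sub_mem (hCT B₁ hB₁ hb) (hCT B hB hc))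
  rw [map_sub, ← hcp, add_sub_cancel_left]
  exact hp

lemma artCond_inf {X : Type u} [AddCommGroup X] {N V W : AddSubgroup X} (h : ArtCond (V ⊓ N) V)
    (hW : W ≤ V) : ArtCond (W ⊓ N) W :=
  artCond_of_comap (AddMonoidHom.id X) h (fun _ ht => hW ht) fun _ ht ht' => ⟨ht, ht'.2⟩

end artcond

section integ

variable {α : Type u} {P : Type v} [AddCommGroup P]

/-- the elements `(x, y)` of `H` with `x j = 0` for `j ∈ F` and `y ∈ N` -/
def slice (H : AddSubgroup ((α → ℝ) × P)) (F : Set α) (N : AddSubgroup P) : AddSubgroup H where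
  carrier := {h | (∀ j ∈ F, (h : (α → ℝ) × P).1 j = 0) ∧ (h : (α → ℝ) × P).2 ∈ N}
  zero_mem' := ⟨fun _ _ => rfl, N.zero_mem⟩
  add_mem' := fun {a b} ha hb => ⟨fun j hj => by
    show (a : (α → ℝ) × P).1 j + (b : (α → ℝ) × P).1 j = 0
    rw [ha.1 j hj, hb.1 j hj, add_zero], N.add_mem ha.2 hb.2⟩
  neg_mem' := fun {a} ha => ⟨fun j hj => by
    show -(a : (α → ℝ) × P).1 j = 0
    rw [ha.1 j hj, neg_zero], N.neg_mem ha.2⟩

lemma mem_slice {H : AddSubgroup ((α → ℝ) × P)} {F : Set α} {N : AddSubgroup P} {h : H} :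
    h ∈ slice H F N ↔ (∀ j ∈ F, (h : (α → ℝ) × P).1 j = 0) ∧ (h : (α → ℝ) × P).2 ∈ N := Iff.rfl

lemma slice_le {H : AddSubgroup ((α → ℝ) × P)} {F F' : Set α} {N N' : AddSubgroup P} (h : F ⊆ F')
    (h' : N' ≤ N) : slice H F' N' ≤ slice H F N := fun _ hx => ⟨fun j hj => hx.1 j (h hj), h' hx.2⟩

/-- the coordinates in `F` are integers on the elements of `H` with second component in `N` -/
def IntOn (H : AddSubgroup ((α → ℝ) × P)) (F : Set α) (N : AddSubgroup P) : Prop :=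
  ∀ j ∈ F, ∀ x y, (x, y) ∈ H → y ∈ N → ((x j : ℝ) : UnitAddCircle) = 0

lemma IntOn.mono {H : AddSubgroup ((α → ℝ) × P)} {F : Set α} {N N' : AddSubgroup P}
    (h : IntOn H F N) (hN : N' ≤ N) : IntOn H F N' :=
  fun j hj x y hxy hy => h j hj x y hxy (hN hy)

lemma eq_zero_of_coe_of_abs_lt {t : ℝ} (h : (t : UnitAddCircle) = 0) (ht : |t| < 1) : t = 0 := by
  obtain ⟨n, hn⟩ := (AddCircle.coe_eq_zero_iff (1 : ℝ)).1 h
  rw [zsmul_eq_mul, mul_one] at hn
  rw [← hn] at ht ⊢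
  have h1 : |n| < 1 := by exact_mod_cast ht
  rw [Int.abs_lt_one_iff.1 h1, Int.cast_zero]

variable [TopologicalSpace P]

lemma intOn_of_le {H : AddSubgroup ((α → ℝ) × P)}
    {Nj : α → OpenAddSubgroup P} (hNj : ∀ j x y, (x, y) ∈ H → y ∈ Nj j →
      ((x j : ℝ) : UnitAddCircle) = 0) {F : Finset α} {N : OpenAddSubgroup P}
    (hN : N ≤ F.inf Nj) : IntOn H (F : Set α) (N : AddSubgroup P) :=
  fun j hj x y hxy hy => hNj j x y hxy ((hN.trans (Finset.inf_le hj)) hy)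

variable [NonarchimedeanAddGroup P]

lemma isOpen_slice {H : AddSubgroup ((α → ℝ) × P)} {F : Finset α} {N : OpenAddSubgroup P}
    (h : IntOn H (F : Set α) (N : AddSubgroup P)) :
    IsOpen (slice H (F : Set α) (N : AddSubgroup P) : Set H) := by
  apply AddSubgroup.isOpen_of_mem_nhds (g := 0)
  have h1 : IsOpen {h : H | (∀ j ∈ F, |(h : (α → ℝ) × P).1 j| < 1) ∧
      (h : (α → ℝ) × P).2 ∈ N} := by
    have h2 : {h : H | (∀ j ∈ F, |(h : (α → ℝ) × P).1 j| < 1) ∧ (h : (α → ℝ) × P).2 ∈ N} =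
        (⋂ j ∈ F, {h : H | |(h : (α → ℝ) × P).1 j| < 1}) ∩
          (fun h : H => (h : (α → ℝ) × P).2) ⁻¹' (N : Set P) := by
      ext h
      simp
    rw [h2]
    refine (isOpen_biInter_finset fun j _ => ?_).inter
      (N.isOpen.preimage (continuous_snd.comp continuous_subtype_val))
    exact isOpen_lt (continuous_abs.comp ((continuous_apply j).comp
      (continuous_fst.comp continuous_subtype_val))) continuous_const
  refine Filter.mem_of_superset (h1.mem_nhds ⟨fun j _ => ?_, N.zero_mem⟩) ?_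
  · show |(0 : ℝ)| < 1
    rw [abs_zero]
    exact zero_lt_one
  · rintro h' ⟨h3, h4⟩
    refine ⟨fun j hj => ?_, h4⟩
    exact eq_zero_of_coe_of_abs_lt (h j hj _ _ h'.2 h4) (h3 j hj)

lemma exists_box_le {W : Set ((α → ℝ) × P)} (hW : W ∈ 𝓝 (0 : (α → ℝ) × P)) :
    ∃ (F : Finset α) (N : OpenAddSubgroup P), ∀ t : (α → ℝ) × P, (∀ j ∈ F, t.1 j = 0) →
      t.2 ∈ N → t ∈ W := by
  have hW' : W ∈ 𝓝 ((0 : α → ℝ), (0 : P)) := hW
  rw [mem_nhds_prod_iff] at hW'
  obtain ⟨S, hS, V, hV, hSV⟩ := hW'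
  rw [nhds_pi, Filter.mem_pi] at hS
  obtain ⟨F, hF, t, ht, hsub⟩ := hS
  obtain ⟨N, hN⟩ := NonarchimedeanAddGroup.is_nonarchimedean V hV
  refine ⟨hF.toFinset, N, fun s hs hs2 => hSV ⟨hsub fun j hj => ?_, hN hs2⟩⟩
  rw [hs j (by simpa using hj)]
  exact mem_of_mem_nhds (ht j)

lemma exists_slice_subset {H : AddSubgroup ((α → ℝ) × P)}
    (Nj : α → OpenAddSubgroup P) {W : Set H} (hW : W ∈ 𝓝 (0 : H)) :
    ∃ (F : Finset α) (N : OpenAddSubgroup P), N ≤ F.inf Nj ∧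
      (slice H (F : Set α) (N : AddSubgroup P) : Set H) ⊆ W := by
  rw [nhds_subtype, Filter.mem_comap] at hW
  obtain ⟨W', hW', hsub⟩ := hW
  obtain ⟨F, N, hN⟩ := exists_box_le hW'
  exact ⟨F, N ⊓ F.inf Nj, inf_le_right, fun h hh => hsub (hN _ hh.1 hh.2.1)⟩

theorem Integral.nonarchimedean {H : AddSubgroup ((α → ℝ) × P)} (hI : Integral H) :
    NonarchimedeanAddGroup H := by
  choose Nj hNj using hI
  exact
    { is_nonarchimedean := fun W hW => by
        obtain ⟨F, N, hN, hsub⟩ := exists_slice_subset Nj hW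
        exact ⟨⟨slice H (F : Set α) (N : AddSubgroup P), isOpen_slice (intOn_of_le hNj hN)⟩,
          hsub⟩ }

theorem Integral.linComplete {H : AddSubgroup ((α → ℝ) × P)} (hI : Integral H)
    (hH : IsClosed (H : Set ((α → ℝ) × P))) (hP : LinComplete P) : LinComplete H := by
  classical
  choose Nj hNj using hI
  intro x hx
  -- the slices
  have hex : ∀ (F : Finset α) (N : OpenAddSubgroup P), N ≤ F.inf Nj →
      ∃ S : OpenAddSubgroup H, (S : AddSubgroup H) = slice H (F : Set α) (N : AddSubgroup P) :=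
    fun F N hN => ⟨⟨slice H (F : Set α) (N : AddSubgroup P), isOpen_slice (intOn_of_le hNj hN)⟩,
      rfl⟩
  have hex0 : ∀ N : OpenAddSubgroup P, ∃ S : OpenAddSubgroup H,
      (S : AddSubgroup H) = slice H ((∅ : Finset α) : Set α) (N : AddSubgroup P) := fun N =>
    hex ∅ N (by rw [Finset.inf_empty]; exact le_top)
  choose T hT using hex0
  have hex1 : ∀ j : α, ∃ S : OpenAddSubgroup H,
      (S : AddSubgroup H) = slice H (({j} : Finset α) : Set α) (Nj j : AddSubgroup P) := fun j =>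
    hex {j} (Nj j) (by rw [Finset.inf_singleton])
  choose S hS using hex1
  have hTm : ∀ {N : OpenAddSubgroup P} {h : H}, h ∈ T N ↔ (h : (α → ℝ) × P).2 ∈ N := by
    intro N h
    rw [← OpenAddSubgroup.mem_toAddSubgroup, hT, mem_slice]
    simp
  have hSm : ∀ {j : α} {h : H}, h ∈ S j → (h : (α → ℝ) × P).1 j = 0 := by
    intro j h hh
    rw [← OpenAddSubgroup.mem_toAddSubgroup, hS, mem_slice] at hh
    exact hh.1 j (by simp)
  -- the two components of the limit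
  obtain ⟨y₂, hy₂⟩ := hP (fun N => (x (T N) : (α → ℝ) × P).2) (by
    intro N M hMN
    have h1 : T M ≤ T N := fun h hh => hTm.2 (hMN (hTm.1 hh))
    exact hTm.1 (hx (T N) (T M) h1))
  let y : (α → ℝ) × P := (fun j => (x (S j) : (α → ℝ) × P).1 j, y₂)
  have key : ∀ (F : Finset α) (N : OpenAddSubgroup P) (R : OpenAddSubgroup H),
      (R : AddSubgroup H) = slice H (F : Set α) (N : AddSubgroup P) →
      (∀ j ∈ F, (y - (x R : (α → ℝ) × P)).1 j = 0) ∧ (y - (x R : (α → ℝ) × P)).2 ∈ N := by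
    intro F N R hR
    have hRm : ∀ {h : H}, h ∈ R ↔ (∀ j ∈ (F : Set α), (h : (α → ℝ) × P).1 j = 0) ∧
        (h : (α → ℝ) × P).2 ∈ (N : AddSubgroup P) := by
      intro h
      rw [← OpenAddSubgroup.mem_toAddSubgroup, hR, mem_slice]
    constructor
    · intro j hj
      have h1 := (hRm.1 (hx R (R ⊓ S j) inf_le_left)).1 j hj
      have h2 := hSm (hx (S j) (R ⊓ S j) inf_le_right)
      have h3 : (x (R ⊓ S j) : (α → ℝ) × P).1 j - (x R : (α → ℝ) × P).1 j = 0 := h1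
      have h4 : (x (R ⊓ S j) : (α → ℝ) × P).1 j - (x (S j) : (α → ℝ) × P).1 j = 0 := h2
      show (x (S j) : (α → ℝ) × P).1 j - (x R : (α → ℝ) × P).1 j = 0
      linarith
    · have h1 : R ≤ T N := fun h hh => hTm.2 (hRm.1 hh).2
      have h2 : (x R : (α → ℝ) × P).2 - (x (T N) : (α → ℝ) × P).2 ∈ N :=
        hTm.1 (hx (T N) R h1)
      have h3 := N.sub_mem (hy₂ N) h2
      rw [sub_sub_sub_cancel_right] at h3
      exact h3
  -- the limit belongs to `H`
  have hyH : y ∈ H := by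
    have h1 : y ∈ closure (H : Set ((α → ℝ) × P)) := by
      rw [mem_closure_iff_nhds]
      intro W hW
      have hW0 : (fun t => y - t) ⁻¹' W ∈ 𝓝 (0 : (α → ℝ) × P) := by
        have hc : Continuous (fun t : (α → ℝ) × P => y - t) := continuous_const.sub continuous_id
        apply hc.continuousAt.preimage_mem_nhds
        show W ∈ 𝓝 (y - 0)
        rw [sub_zero]
        exact hW
      obtain ⟨F, N, hN⟩ := exists_box_le hW0
      obtain ⟨R, hR⟩ := hex F (N ⊓ F.inf Nj) inf_le_right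
      obtain ⟨h2, h3⟩ := key F _ R hR
      have h4 := hN _ h2 h3.1
      have h5 : y - (y - (x R : (α → ℝ) × P)) ∈ W := h4
      rw [sub_sub_cancel] at h5
      exact ⟨_, h5, (x R).2⟩
    rwa [hH.closure_eq] at h1
  refine ⟨⟨y, hyH⟩, fun N₀ => ?_⟩
  obtain ⟨F, N, hN, hsub⟩ := exists_slice_subset Nj N₀.mem_nhds_zero
  obtain ⟨R, hR⟩ := hex F N hN
  have hRm : ∀ {h : H}, h ∈ R ↔ h ∈ slice H (F : Set α) (N : AddSubgroup P) := by
    intro h
    rw [← OpenAddSubgroup.mem_toAddSubgroup, hR]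
  have h1 : (⟨y, hyH⟩ : H) - x R ∈ N₀ := by
    apply hsub
    exact key F N R hR
  have h2 : x R - x N₀ ∈ N₀ := hx N₀ R (fun h hh => hsub (hRm.1 hh))
  have h3 := N₀.add_mem h1 h2
  rwa [sub_add_sub_cancel] at h3

theorem Integral.exists_goodSeq [Countable α] {H : AddSubgroup ((α → ℝ) × P)} (hI : Integral H)
    (hP : CondA P) : ∃ U : ℕ → OpenAddSubgroup H, GoodSeq H U := by
  classical
  choose Nj hNj using hI
  obtain ⟨V, hV, hV2⟩ := hP.exists_goodSeq
  obtain ⟨e, he⟩ := Countable.exists_injective_nat α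
  -- an increasing sequence of finite sets
  let Fs : ℕ → Finset α := fun n => ((Set.finite_Iic n).preimage he.injOn).toFinset
  have hFm : ∀ n j, j ∈ Fs n ↔ e j ≤ n := by
    intro n j
    simp [Fs]
  have hmono : Monotone Fs := fun m n hmn j hj => (hFm n j).2 (((hFm m j).1 hj).trans hmn)
  refine ⟨fun n => ⟨slice H (Fs n : Set α) ((V n ⊓ (Fs n).inf Nj : OpenAddSubgroup P) :
    AddSubgroup P), isOpen_slice (intOn_of_le hNj inf_le_right)⟩, ?_, ?_⟩
  · intro m n hmn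
    have h3 : (Fs n).inf Nj ≤ (Fs m).inf Nj := Finset.inf_mono (hmono hmn)
    exact slice_le (fun j hj => hmono hmn hj) (fun z hz => ⟨hV hmn hz.1, h3 hz.2⟩)
  · intro M
    obtain ⟨F, N, hN, hsub⟩ := exists_slice_subset Nj M.mem_nhds_zero
    obtain ⟨n, hn⟩ := hV2 N
    let m := max n (F.sup e)
    refine ⟨m, ?_⟩
    have hFm' : F ⊆ Fs m := fun j hj => (hFm m j).2 ((Finset.le_sup hj).trans (le_max_right _ _))
    have h1 : ArtCond (((V m ⊓ (Fs m).inf Nj : OpenAddSubgroup P) : AddSubgroup P) ⊓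
        (N : AddSubgroup P)) ((V m ⊓ (Fs m).inf Nj : OpenAddSubgroup P) : AddSubgroup P) := by
      refine artCond_inf hn ?_
      exact inf_le_left.trans (hV (le_max_left _ _))
    refine artCond_of_comap ((AddMonoidHom.snd (α → ℝ) P).comp H.subtype) h1
      (fun t ht => ht.2) fun t ht ht' => ⟨ht, ?_⟩
    apply hsub
    exact ⟨fun j hj => ht.1 j (hFm' hj), ht'.2⟩

end integ

end Pool.Agent.Work.MP_c629c8_al
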