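import Pool.Agent.Work.MP_c629c8_al.Vec.Coord
import Pool.Agent.Work.MP_c629c8_al.Vec.GraphB
import Pool.Agent.Work.MP_c629c8_al.Vec.Integ
import Pool.Agent.Work.MP_c629c8_al.Vec.Glue

/-!
# Characters of closed subgroups of `ℝ^J × P` extend
-/

universe u v w

namespace Pool.Agent.Work.MP_c629c8_al

open Topology

/-- characters of subgroups of nonarchimedean groups extend -/
theorem exists_extension_nonarch {B : Type u} [AddCommGroup B] [TopologicalSpace B]
    [NonarchimedeanAddGroup B] (H : AddSubgroup B) (ξ : Dual H) :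
    ∃ χ : Dual B, ∀ h : H, χ h = ξ h := by
  obtain ⟨V, hV⟩ := exists_open_ker ξ
  obtain ⟨U, hU, hUV⟩ : ∃ U ∈ 𝓝 (0 : B), (Subtype.val : H → B) ⁻¹' U ⊆ (V : Set H) := by
    have h1 : (V : Set H) ∈ 𝓝 (0 : H) := V.isOpen.mem_nhds V.zero_mem
    rw [nhds_subtype, Filter.mem_comap] at h1
    obtain ⟨U, hU, h⟩ := h1
    exact ⟨U, hU, h⟩
  obtain ⟨W, hW⟩ := NonarchimedeanAddGroup.is_nonarchimedean U hU
  let S : AddSubgroup H := (W : AddSubgroup B).comap H.subtype
  have hS : ∀ h ∈ S, ξ h = 0 := fun h hh => hV h (hUV (hW hh))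
  let f : H ⧸ S →+ B ⧸ (W : AddSubgroup B) :=
    QuotientAddGroup.map S (W : AddSubgroup B) H.subtype le_rfl
  have hf : Function.Injective f := by
    rw [injective_iff_map_eq_zero]
    intro a ha
    obtain ⟨h, rfl⟩ := QuotientAddGroup.mk_surjective a
    have h1 : (QuotientAddGroup.mk (h : B) : B ⧸ (W : AddSubgroup B)) = 0 := ha
    rw [QuotientAddGroup.eq_zero_iff] at h1
    rw [QuotientAddGroup.eq_zero_iff]
    exact h1
  let g : H ⧸ S →+ UnitAddCircle := QuotientAddGroup.lift S ξ.toAddMonoidHom hS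
  obtain ⟨h', hh'⟩ := exists_extension f hf g
  refine ⟨⟨h'.comp (QuotientAddGroup.mk' (W : AddSubgroup B)),
    continuous_of_open_ker _ W fun x hx => ?_⟩, fun h => ?_⟩
  · rw [AddMonoidHom.comp_apply, QuotientAddGroup.mk'_apply, (QuotientAddGroup.eq_zero_iff x).2 hx,
      map_zero]
  · exact hh' (QuotientAddGroup.mk h)

section self

variable {α : Type u} {P : Type v} [AddCommGroup P] [TopologicalSpace P]
  [NonarchimedeanAddGroup P]

/-- the inclusion of the vector part -/
noncomputable def inclVec (α : Type u) (P : Type v) [AddCommGroup P] [TopologicalSpace P] :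
    (α → ℝ) →ₜ+ (α → ℝ) × P where
  toFun x := (x, 0)
  map_zero' := rfl
  map_add' x y := by rw [Prod.mk_add_mk, add_zero]
  continuous_toFun := continuous_id.prodMk continuous_const

theorem cover_self (ψ : α → Dual P) : Cover (inclVec α P) (graphB ψ) where
  isClosed := isClosed_graphB ψ
  gen y := by
    have h1 : ∀ j, ∃ r : ℝ, (r : UnitAddCircle) = ψ j y.2 := fun j =>
      QuotientAddGroup.mk_surjective (ψ j y.2)
    choose r hr using h1
    refine ⟨y.1 - r, (r, y.2), fun j => (hr j).symm, ?_⟩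
    show ((y.1 - r, (0 : P)) : (α → ℝ) × P) + (r, y.2) = y
    rw [Prod.mk_add_mk, sub_add_cancel, zero_add]
  int x := by
    constructor
    · intro h k
      have := h k
      exact (this.symm.trans (map_zero (ψ k)))
    · intro h k
      show ψ k 0 = _
      rw [map_zero]
      exact (h k).symm
  nhds := by
    classical
    intro U hU O hO
    rw [show (0 : (α → ℝ) × P) = (0, 0) from rfl, nhds_prod_eq, Filter.mem_prod_iff] at hO
    obtain ⟨A, hA, N, hN, hAN⟩ := hO
    obtain ⟨F, hF⟩ : ∃ F : Finset α, ∀ x : α → ℝ, (∀ j ∈ F, x j = 0) → x ∈ A := by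
      rw [nhds_pi, Filter.mem_pi'] at hA
      obtain ⟨F, t, ht, h⟩ := hA
      refine ⟨F, fun x hx => h fun j hj => ?_⟩
      rw [hx j hj]
      exact mem_of_mem_nhds (ht j)
    obtain ⟨F', t, ht, hF'⟩ := Filter.mem_pi'.1 (by rwa [nhds_pi] at hU)
    choose V hV using fun j => exists_open_ker (ψ j)
    refine ⟨{x | ∀ j ∈ F ∪ F', x j ∈ t j} ×ˢ (N ∩ {y | ∀ j ∈ F ∪ F', y ∈ V j}), ?_, ?_⟩
    · rw [show (0 : (α → ℝ) × P) = (0, 0) from rfl]
      refine prod_mem_nhds ?_ (Filter.inter_mem hN ?_)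
      · have := set_pi_mem_nhds (F ∪ F').finite_toSet (s := t) (x := (0 : α → ℝ)) fun j _ => ht j
        exact this
      · have h2 : ∀ᶠ y : P in 𝓝 0, ∀ j ∈ F ∪ F', y ∈ V j :=
          (Filter.eventually_all_finset _).2 fun j _ => (V j).isOpen.mem_nhds (V j).zero_mem
        exact h2
    · rintro ⟨x, y⟩ ⟨hx, hyN, hy⟩
      have h1 : ∀ j, ∃ r : ℝ, (r : UnitAddCircle) = ψ j y := fun j =>
        QuotientAddGroup.mk_surjective (ψ j y)
      choose r hr using h1
      let r' : α → ℝ := fun j => if j ∈ F ∪ F' then 0 else r j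
      have hr' : ∀ j, ((r' j : ℝ) : UnitAddCircle) = ψ j y := by
        intro j
        by_cases hj : j ∈ F ∪ F'
        · show (((if j ∈ F ∪ F' then (0 : ℝ) else r j) : ℝ) : UnitAddCircle) = _
          rw [if_pos hj, hV j y (hy j hj)]
          rfl
        · show (((if j ∈ F ∪ F' then (0 : ℝ) else r j) : ℝ) : UnitAddCircle) = _
          rw [if_neg hj, hr j]
      have h0 : ∀ j ∈ F ∪ F', r' j = 0 := fun j hj => if_pos hj
      refine ⟨x - r', ?_, (r', y), fun j => (hr' j).symm, hAN ⟨hF r' fun j hj =>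
        h0 j (Finset.mem_union_left _ hj), hyN⟩, ?_⟩
      · refine hF' fun j hj => ?_
        rw [Pi.sub_apply, h0 j (Finset.mem_union_right _ hj), sub_zero]
        exact hx j (Finset.mem_union_right _ hj)
      · show ((x - r', (0 : P)) : (α → ℝ) × P) + (r', y) = (x, y)
        rw [Prod.mk_add_mk, sub_add_cancel, zero_add]

theorem Integral.exists_extension {H : AddSubgroup ((α → ℝ) × P)} (hI : Integral H)
    (ξ : Dual H) : ∃ χ : Dual ((α → ℝ) × P), ∀ h : H, χ h = ξ h := by
  obtain ⟨ψ, hψ⟩ := hI.exists_chars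
  have hna : NonarchimedeanAddGroup (graphB ψ) := (integral_graphB ψ).nonarchimedean
  let H' : AddSubgroup (graphB ψ) := H.addSubgroupOf (graphB ψ)
  let ξ' : Dual H' :=
    { toFun := fun h => ξ ⟨h.1.1, h.2⟩
      map_zero' := map_zero ξ
      map_add' := fun a b => map_add ξ ⟨a.1.1, a.2⟩ ⟨b.1.1, b.2⟩
      continuous_toFun := ξ.continuous_toFun.comp
        ((continuous_subtype_val.comp continuous_subtype_val).subtype_mk _) }
  obtain ⟨χ, hχ⟩ := exists_extension_nonarch H' ξ'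
  obtain ⟨Ξ, hΞ⟩ := (cover_self ψ).exists_extension χ
  refine ⟨Ξ, fun h => ?_⟩
  calc Ξ h.1 = χ ⟨h.1, hψ h.2⟩ := hΞ ⟨h.1, hψ h.2⟩
    _ = ξ h := hχ ⟨⟨h.1, hψ h.2⟩, h.2⟩

end self

theorem exists_extension_vec {J : Type u} {P : Type v} [AddCommGroup P] [TopologicalSpace P]
    [NonarchimedeanAddGroup P] (L : AddSubgroup ((J → ℝ) × P))
    (hL : IsClosed (L : Set ((J → ℝ) × P))) (ξ : Dual L) :
    ∃ χ : Dual ((J → ℝ) × P), ∀ l : L, χ l = ξ l := by
  obtain ⟨α, β, e, L', hI, -, hmem, -⟩ := exists_coord L hL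
  have h1 : ∀ z : (β → ℝ) × ((α → ℝ) × P), z.2 ∈ L' → e.symm z ∈ L := by
    intro z hz
    rw [hmem, ContinuousAddEquiv.apply_symm_apply]
    exact hz
  let ξ₁ : Dual (β → ℝ) :=
    { toFun := fun b => ξ ⟨e.symm (b, 0), h1 _ L'.zero_mem⟩
      map_zero' := by
        have : (⟨e.symm (0, 0), h1 _ L'.zero_mem⟩ : L) = 0 := Subtype.ext (map_zero e.symm)
        rw [this, map_zero]
      map_add' := fun b b' => by
        rw [← map_add]
        congr 1
        apply Subtype.ext
        show e.symm (b + b', 0) = e.symm (b, 0) + e.symm (b', 0)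
        rw [← map_add, Prod.mk_add_mk, add_zero]
      continuous_toFun := ξ.continuous_toFun.comp ((e.symm.continuous_toFun.comp
        (continuous_id.prodMk continuous_const)).subtype_mk _) }
  let ξ₂ : Dual L' :=
    { toFun := fun h => ξ ⟨e.symm (0, h), h1 _ h.2⟩
      map_zero' := by
        have : (⟨e.symm (0, ((0 : L') : (α → ℝ) × P)), h1 _ (0 : L').2⟩ : L) = 0 :=
          Subtype.ext (map_zero e.symm)
        rw [this, map_zero]
      map_add' := fun b b' => by
        rw [← map_add]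
        congr 1
        apply Subtype.ext
        show e.symm (0, ((b + b' : L') : (α → ℝ) × P)) = e.symm (0, b) + e.symm (0, b')
        rw [← map_add, Prod.mk_add_mk, add_zero]
        rfl
      continuous_toFun := ξ.continuous_toFun.comp ((e.symm.continuous_toFun.comp
        (continuous_const.prodMk continuous_subtype_val)).subtype_mk _) }
  obtain ⟨χ, hχ⟩ := hI.exists_extension ξ₂
  refine ⟨⟨⟨⟨fun g => ξ₁ (e g).1 + χ (e g).2, ?_⟩, ?_⟩, ?_⟩, fun l => ?_⟩
  · show ξ₁ (e 0).1 + χ (e 0).2 = 0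
    rw [map_zero e]
    show ξ₁ 0 + χ 0 = 0
    rw [map_zero, map_zero, add_zero]
  · intro a b
    show ξ₁ (e (a + b)).1 + χ (e (a + b)).2 = (ξ₁ (e a).1 + χ (e a).2) + (ξ₁ (e b).1 + χ (e b).2)
    rw [map_add e, Prod.fst_add, Prod.snd_add, map_add, map_add]
    abel
  · exact (ξ₁.continuous_toFun.comp (continuous_fst.comp e.continuous_toFun)).add
      (χ.continuous_toFun.comp (continuous_snd.comp e.continuous_toFun))
  · show ξ₁ (e l).1 + χ (e l).2 = ξ l
    have h2 : (e (l : (J → ℝ) × P)).2 ∈ L' := (hmem _).1 l.2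
    have h3 : χ (e l).2 = ξ₂ ⟨(e l).2, h2⟩ := hχ ⟨(e l).2, h2⟩
    rw [h3]
    show ξ _ + ξ _ = ξ l
    rw [← map_add]
    congr 1
    apply Subtype.ext
    show e.symm ((e (l : (J → ℝ) × P)).1, 0) + e.symm (0, (e (l : (J → ℝ) × P)).2) = l
    rw [← map_add, Prod.mk_add_mk, add_zero, zero_add]
    exact ContinuousAddEquiv.symm_apply_apply e _

end Pool.Agent.Work.MP_c629c8_al
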