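import Mathlib
import Pool.Agent.Work.MP_c629c8_al.Vec.Defs
import Pool.Agent.Work.MP_c629c8_al.Vec.Rn

/-!
# Coordinates adapted to a closed subgroup of `ℝ^J × P`
-/

universe u v

namespace Pool.Agent.Work.MP_c629c8_al

open Topology

section lin

variable {κ : Type u} {κ' : Type v}

/-- the pairing is linear in the first variable -/
noncomputable def dotL (x : κ → ℝ) : (κ →₀ ℝ) →ₗ[ℝ] ℝ where
  toFun d := dot d x
  map_add' d e := add_dot d e x
  map_smul' t d := smul_dot t d x

lemma dotL_apply (x : κ → ℝ) (d : κ →₀ ℝ) : dotL x d = dot d x := rfl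

lemma dot_lin (L : (κ →₀ ℝ) →ₗ[ℝ] (κ' →₀ ℝ)) (d : κ →₀ ℝ) (y : κ' → ℝ) :
    dot d (fun k => dot (L (Finsupp.single k 1)) y) = dot (L d) y := by
  have h : dotL (fun k => dot (L (Finsupp.single k 1)) y) = dotL y ∘ₗ L := by
    refine Finsupp.lhom_ext' fun k => LinearMap.ext_ring ?_
    show dot (Finsupp.single k 1) (fun k => dot (L (Finsupp.single k 1)) y) =
      dot (L (Finsupp.single k 1)) y
    rw [single_dot, one_mul]
  exact LinearMap.congr_fun h d

end lin

section coord

variable {J : Type u} {P : Type v} [AddCommGroup P] [TopologicalSpace P]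
  [NonarchimedeanAddGroup P]

theorem exists_dot (H : AddSubgroup ((J → ℝ) × P)) (hH : IsClosed (H : Set ((J → ℝ) × P)))
    {z : J → ℝ} (hz : (z, (0 : P)) ∉ H) : ∃ (N : OpenAddSubgroup P) (d : J →₀ ℝ),
      (∀ x y, (x, y) ∈ H → y ∈ N → ((dot d x : ℝ) : UnitAddCircle) = 0) ∧
      ((dot d z : ℝ) : UnitAddCircle) ≠ 0 := by
  classical
  have h1 : ((H : Set ((J → ℝ) × P)))ᶜ ∈ 𝓝 (z, (0 : P)) := hH.isOpen_compl.mem_nhds hz
  rw [mem_nhds_prod_iff] at h1
  obtain ⟨U, hU, V, hV, hUV⟩ := h1
  obtain ⟨N, hN⟩ := NonarchimedeanAddGroup.is_nonarchimedean V hV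
  rw [nhds_pi, Filter.mem_pi'] at hU
  obtain ⟨F, W, hW, hWU⟩ := hU
  -- the image in the finite product
  let r : (J → ℝ) →ₗ[ℝ] (F → ℝ) := LinearMap.funLeft ℝ ℝ ((↑) : F → J)
  have hr : ∀ x k, r x k = x k := fun _ _ => rfl
  let Γ₀ : AddSubgroup (F → ℝ) := AddSubgroup.map
    (r.toAddMonoidHom.comp (AddMonoidHom.fst (J → ℝ) P))
    (H ⊓ N.toAddSubgroup.comap (AddMonoidHom.snd (J → ℝ) P))
  have hΓ₀ : ∀ x y, (x, y) ∈ H → y ∈ N → r x ∈ Γ₀ := fun x y h h' =>
    ⟨(x, y), ⟨h, h'⟩, rfl⟩
  have hz' : r z ∉ Γ₀.topologicalClosure := by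
    intro h
    have h2 : r z ∈ closure (Γ₀ : Set (F → ℝ)) := h
    rw [mem_closure_iff_nhds] at h2
    have h3 : Set.pi Set.univ (fun k : F => W k) ∈ 𝓝 (r z) :=
      set_pi_mem_nhds Set.finite_univ fun k _ => hW k
    obtain ⟨w, hw1, hw2⟩ := h2 _ h3
    obtain ⟨⟨x, y⟩, ⟨hx, hy⟩, rfl⟩ := hw2
    have h4 : x ∈ U := hWU fun k hk => hw1 ⟨k, hk⟩ (Set.mem_univ _)
    exact hUV (Set.mk_mem_prod h4 (hN hy)) hx
  obtain ⟨d, hd1, hd2⟩ := exists_functional Γ₀.topologicalClosure
    (AddSubgroup.isClosed_topologicalClosure Γ₀) hz'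
  let d' : J →₀ ℝ := ∑ k : F, Finsupp.single (k : J) (d (Pi.single k 1))
  have hd' : ∀ x, dot d' x = d (r x) := by
    intro x
    rw [LinearMap.pi_apply_eq_sum_univ d (r x), ← dotL_apply, map_sum]
    refine Finset.sum_congr rfl fun k _ => ?_
    rw [dotL_apply, single_dot, hr, smul_eq_mul, mul_comm]
    congr 2
    funext j
    rw [Pi.single_apply]
    congr 1
    exact propext eq_comm
  refine ⟨N, d', fun x y h h' => ?_, ?_⟩
  · rw [hd']
    exact hd1 _ (AddSubgroup.le_topologicalClosure Γ₀ (hΓ₀ x y h h'))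
  · rw [hd']
    exact hd2

/-- the vectors which are integral on the elements of `H` with small second component -/
def intDual (H : AddSubgroup ((J → ℝ) × P)) : Set (J →₀ ℝ) :=
  {d | ∃ N : OpenAddSubgroup P, ∀ x y, (x, y) ∈ H → y ∈ N → ((dot d x : ℝ) : UnitAddCircle) = 0}

/-- the coordinate isomorphism given by a basis -/
noncomputable def coordEquiv {α : Type u} {β : Type u} (B : Module.Basis (α ⊕ β) ℝ (J →₀ ℝ)) :
    ((J → ℝ) × P) ≃ₜ+ (β → ℝ) × ((α → ℝ) × P) where
  toFun g := (fun j => dot (B (Sum.inr j)) g.1, (fun i => dot (B (Sum.inl i)) g.1, g.2))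
  invFun g := (fun k => dot (B.repr (Finsupp.single k 1)) (Sum.elim g.2.1 g.1), g.2.2)
  left_inv g := by
    have h : (Sum.elim (fun i => dot (B (Sum.inl i)) g.1) fun j => dot (B (Sum.inr j)) g.1) =
        fun i => dot (B.repr.symm (Finsupp.single i 1)) g.1 := by
      funext i
      rw [Module.Basis.repr_symm_single_one]
      cases i <;> rfl
    refine Prod.ext ?_ rfl
    funext k
    show dot (B.repr (Finsupp.single k 1)) (Sum.elim (fun i => dot (B (Sum.inl i)) g.1)
      fun j => dot (B (Sum.inr j)) g.1) = g.1 k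
    rw [h]
    have h1 := dot_lin B.repr.symm.toLinearMap (B.repr (Finsupp.single k 1)) g.1
    rw [LinearEquiv.coe_coe, LinearEquiv.symm_apply_apply, single_dot, one_mul] at h1
    exact h1
  right_inv g := by
    have h : ∀ i, dot (B i) (fun k => dot (B.repr (Finsupp.single k 1)) (Sum.elim g.2.1 g.1)) =
        Sum.elim g.2.1 g.1 i := by
      intro i
      have h1 := dot_lin B.repr.toLinearMap (B i) (Sum.elim g.2.1 g.1)
      rw [LinearEquiv.coe_coe, Module.Basis.repr_self, single_dot, one_mul] at h1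
      exact h1
    exact Prod.ext (funext fun j => h (Sum.inr j)) (Prod.ext (funext fun i => h (Sum.inl i)) rfl)
  map_add' g g' := by
    refine Prod.ext ?_ (Prod.ext ?_ rfl)
    · funext j
      exact dot_add _ _ _
    · funext j
      exact dot_add _ _ _
  continuous_toFun := by
    refine Continuous.prodMk ?_ (Continuous.prodMk ?_ continuous_snd)
    · exact continuous_pi fun j => (continuous_dot _).comp continuous_fst
    · exact continuous_pi fun j => (continuous_dot _).comp continuous_fst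
  continuous_invFun := by
    have h : Continuous fun g : (β → ℝ) × ((α → ℝ) × P) => Sum.elim g.2.1 g.1 := by
      refine continuous_pi fun i => ?_
      cases i with
      | inl i => exact (continuous_apply i).comp (continuous_fst.comp continuous_snd)
      | inr i => exact (continuous_apply i).comp continuous_fst
    refine Continuous.prodMk ?_ (continuous_snd.comp continuous_snd)
    exact continuous_pi fun k => (continuous_dot _).comp h

omit [NonarchimedeanAddGroup P] in
lemma coordEquiv_fst {α : Type u} {β : Type u} (B : Module.Basis (α ⊕ β) ℝ (J →₀ ℝ))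
    (g : (J → ℝ) × P) (j : β) : (coordEquiv B g).1 j = dot (B (Sum.inr j)) g.1 := rfl

omit [NonarchimedeanAddGroup P] in
lemma coordEquiv_snd {α : Type u} {β : Type u} (B : Module.Basis (α ⊕ β) ℝ (J →₀ ℝ))
    (g : (J → ℝ) × P) (i : α) : (coordEquiv B g).2.1 i = dot (B (Sum.inl i)) g.1 := rfl

omit [NonarchimedeanAddGroup P] in
lemma coordEquiv_snd_snd {α : Type u} {β : Type u} (B : Module.Basis (α ⊕ β) ℝ (J →₀ ℝ))
    (g : (J → ℝ) × P) : (coordEquiv B g).2.2 = g.2 := rfl

theorem exists_coord (H : AddSubgroup ((J → ℝ) × P)) (hH : IsClosed (H : Set ((J → ℝ) × P))) :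
    ∃ (α β : Type u) (e : ((J → ℝ) × P) ≃ₜ+ (β → ℝ) × ((α → ℝ) × P))
      (H' : AddSubgroup ((α → ℝ) × P)), Integral H' ∧ IsClosed (H' : Set ((α → ℝ) × P)) ∧
      (∀ g, g ∈ H ↔ (e g).2 ∈ H') ∧ (Countable J → Countable α ∧ Countable β) := by
  classical
  obtain ⟨b, hbD, hspan, hb⟩ := exists_linearIndependent ℝ (intDual H)
  have hb' : LinearIndepOn ℝ id b := hb
  let α : Type u := b
  let β : Type u := (hb'.extend (Set.subset_univ b) \ b : Set (J →₀ ℝ))
  let B : Module.Basis (α ⊕ β) ℝ (J →₀ ℝ) := (Module.Basis.extend hb').reindex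
    (Equiv.Set.sumDiffSubset (hb'.subset_extend (Set.subset_univ b))).symm
  have hB : ∀ i : α, B (Sum.inl i) = (i : J →₀ ℝ) := by
    intro i
    rw [Module.Basis.reindex_apply, Equiv.symm_symm, Module.Basis.extend_apply_self,
      Equiv.Set.sumDiffSubset_apply_inl]
  let e : ((J → ℝ) × P) ≃ₜ+ (β → ℝ) × ((α → ℝ) × P) := coordEquiv B
  let s : ((α → ℝ) × P) →+ (J → ℝ) × P :=
    (e.symm : (β → ℝ) × ((α → ℝ) × P) ≃+ (J → ℝ) × P).toAddMonoidHom.comp
      (AddMonoidHom.inr (β → ℝ) ((α → ℝ) × P))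
  have hs : ∀ w, s w = e.symm (0, w) := fun _ => rfl
  have hsc : Continuous s := e.symm.continuous.comp (continuous_const.prodMk continuous_id)
  have hes : ∀ w, e (s w) = (0, w) := fun w => e.apply_symm_apply (0, w)
  refine ⟨α, β, e, H.comap s, ?_, hH.preimage hsc, ?_, ?_⟩
  · intro j
    obtain ⟨N, hN⟩ := hbD j.2
    refine ⟨N, fun x y h hy => ?_⟩
    have h1 : (e (s (x, y))).2 = (x, y) := by rw [hes]
    have h2 : dot (B (Sum.inl j)) (s (x, y)).1 = x j := by
      rw [← coordEquiv_snd]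
      exact congrFun (congrArg Prod.fst h1) j
    have h3 : (s (x, y)).2 = y := by
      rw [← coordEquiv_snd_snd B]
      exact congrArg Prod.snd h1
    rw [hB] at h2
    rw [← h2]
    exact hN (s (x, y)).1 (s (x, y)).2 h (by rw [h3]; exact hy)
  · intro g
    have h1 : (e (s (e g).2)).2 = (e g).2 := by rw [hes]
    -- the difference has coordinates zero on `α`
    have h2 : ∀ i : α, dot (B (Sum.inl i)) (g - s (e g).2).1 = 0 := by
      intro i
      have h3 : dot (B (Sum.inl i)) (s (e g).2).1 = dot (B (Sum.inl i)) g.1 :=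
        congrFun (congrArg Prod.fst h1) i
      rw [Prod.fst_sub, dot_sub, h3, sub_self]
    have h4 : (g - s (e g).2).2 = 0 := by
      have h3 : (s (e g).2).2 = g.2 :=
        (congrArg Prod.snd h1 : (e (s (e g).2)).2.2 = (e g).2.2)
      rw [Prod.snd_sub, h3, sub_self]
    have h5 : ∀ d ∈ intDual H, dot d (g - s (e g).2).1 = 0 := by
      intro d hd
      have h6 : d ∈ Submodule.span ℝ b := by
        rw [hspan]
        exact Submodule.subset_span hd
      have h7 : Submodule.span ℝ b ≤ LinearMap.ker (dotL (g - s (e g).2).1) := by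
        rw [Submodule.span_le]
        intro d' hd'
        have h8 := h2 ⟨d', hd'⟩
        rw [hB] at h8
        exact h8
      exact h7 h6
    have h6 : g - s (e g).2 ∈ H := by
      have h7 : ((g - s (e g).2).1, (0 : P)) ∈ H := by
        by_contra h8
        obtain ⟨N, d, hd1, hd2⟩ := exists_dot H hH h8
        apply hd2
        rw [h5 d ⟨N, hd1⟩]
        rfl
      rw [← h4] at h7
      exact h7
    show g ∈ H ↔ s (e g).2 ∈ H
    constructor
    · intro h
      have := H.sub_mem h h6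
      rwa [sub_sub_cancel] at this
    · intro h
      have := H.add_mem h6 h
      rwa [sub_add_cancel] at this
  · intro hJ
    have e' : (α ⊕ β) ≃ J := B.indexEquiv (Finsupp.basisSingleOne (R := ℝ))
    have : Countable (α ⊕ β) := e'.countable_iff.mpr hJ
    exact ⟨(Sum.inl_injective : Function.Injective (Sum.inl : α → α ⊕ β)).countable,
      (Sum.inr_injective : Function.Injective (Sum.inr : β → α ⊕ β)).countable⟩

end coord

end Pool.Agent.Work.MP_c629c8_al
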