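import Mathlib
import Pool.Agent.Work.MP_c629c8_al.Basic

/-!
# The characters that are small on a neighbourhood of zero form a compact set
-/

namespace Pool.Agent.Work.MP_c629c8_al

open Topology

section polar

variable {G : Type*} [AddCommGroup G] [TopologicalSpace G]

omit [TopologicalSpace G] in
/-- `f` is very small at `x` if `f` is small at the first multiples of `x` -/
lemma OM.norm_lt_of_multiples {f : G →+ UnitAddCircle} {x : G} {m : ℕ} {r : ℝ} (hr : r ≤ 1 / 4)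
    (h : ∀ j ≤ m, ‖f (j • x)‖ < r) : m * ‖f x‖ < r :=
  nsmul_small hr m fun j hj => by
    rw [← map_nsmul]
    exact h j hj

lemma OM.eventually_multiples [IsTopologicalAddGroup G] {W : Set G} (hW : W ∈ 𝓝 (0 : G)) (m : ℕ) :
    ∀ᶠ x in 𝓝 (0 : G), ∀ j ≤ m, j • x ∈ W := by
  have h1 : ∀ j : ℕ, ∀ᶠ x in 𝓝 (0 : G), j • x ∈ W := fun j =>
    (continuous_nsmul j).continuousAt.preimage_mem_nhds (by rwa [smul_zero])
  have h2 : ∀ᶠ x in 𝓝 (0 : G), ∀ j ∈ Finset.range (m + 1), j • x ∈ W :=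
    (Finset.eventually_all _).2 fun j _ => h1 j
  filter_upwards [h2] with x hx j hj using hx j (Finset.mem_range.2 (by omega))

lemma OM.equicontinuous_polar [IsTopologicalAddGroup G] {W : Set G} (hW : W ∈ 𝓝 (0 : G)) {c : ℝ}
    (hc : c < 1 / 4) : Equicontinuous
      (fun (f : {f : G →+ UnitAddCircle | ∀ w ∈ W, ‖f w‖ ≤ c}) => (f.1 : G → UnitAddCircle)) := by
  refine equicontinuous_of_equicontinuousAt_zero
    (fun (f : {f : G →+ UnitAddCircle | ∀ w ∈ W, ‖f w‖ ≤ c}) => f.1) ?_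
  rw [Metric.equicontinuousAt_iff_right]
  intro ε hε
  obtain ⟨m, hm⟩ := exists_nat_gt (1 / ε)
  filter_upwards [OM.eventually_multiples hW m] with x hx f
  have h1 : (m : ℝ) * ‖f.1 x‖ < 1 / 4 :=
    OM.norm_lt_of_multiples le_rfl fun j hj => (f.2 _ (hx j hj)).trans_lt hc
  rw [div_lt_iff₀ hε] at hm
  show dist (f.1 0) (f.1 x) < ε
  rw [map_zero, dist_zero_left]
  by_contra hcon
  push Not at hcon
  have h2 : (m : ℝ) * ε ≤ m * ‖f.1 x‖ := mul_le_mul_of_nonneg_left hcon (Nat.cast_nonneg m)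
  linarith

/-- the characters that are small on a neighbourhood of zero form a compact set -/
theorem isCompact_polar [IsTopologicalAddGroup G] {W : Set G} (hW : W ∈ 𝓝 (0 : G)) {c : ℝ}
    (hc : c < 1 / 4) : IsCompact {χ : Dual G | ∀ w ∈ W, ‖χ w‖ ≤ c} := by
  have h := OM.equicontinuous_polar hW hc
  let S1 : Set (G →+ UnitAddCircle) := {f | ∀ w ∈ W, ‖f w‖ ≤ c}
  let S2 : Set (Dual G) := {χ | ∀ w ∈ W, ‖χ w‖ ≤ c}
  let S3 : Set C(G, UnitAddCircle) := ContinuousAddMonoidHom.toContinuousMap '' S2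
  let S4 : Set (G → UnitAddCircle) := ContinuousMap.toFun '' S3
  have hS4 : S4 = (fun f : G →+ UnitAddCircle => (f : G → UnitAddCircle)) '' S1 := by
    ext g
    constructor
    · rintro ⟨-, ⟨χ, hχ, rfl⟩, rfl⟩
      exact ⟨χ.toAddMonoidHom, hχ, rfl⟩
    · rintro ⟨f, hf, rfl⟩
      exact ⟨_, ⟨⟨f, h.continuous ⟨f, hf⟩⟩, hf, rfl⟩, rfl⟩
  have h3 : Equicontinuous ((↑) : S3 → G → UnitAddCircle) := by
    rw [equicontinuous_iff_range, ← Set.image_eq_range] at h ⊢
    have h4 : (fun a : C(G, UnitAddCircle) => (a : G → UnitAddCircle)) '' S3 = S4 := rfl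
    rw [h4, hS4]
    exact h
  have h5 : S4 = {g | ∀ w ∈ W, ‖g w‖ ≤ c} ∩
      Set.range (fun f : G →+ UnitAddCircle => (f : G → UnitAddCircle)) := by
    rw [hS4]
    ext g
    constructor
    · rintro ⟨f, hf, rfl⟩
      exact ⟨hf, f, rfl⟩
    · rintro ⟨hg, f, rfl⟩
      exact ⟨f, hg, rfl⟩
  have h6 : IsClosed S4 := by
    rw [h5]
    refine IsClosed.inter ?_ (AddMonoidHom.isClosed_range_coe G UnitAddCircle)
    have : {g : G → UnitAddCircle | ∀ w ∈ W, ‖g w‖ ≤ c} = ⋂ w ∈ W, {g | ‖g w‖ ≤ c} := by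
      ext g
      simp
    rw [this]
    exact isClosed_biInter fun w _ =>
      isClosed_le (continuous_norm.comp (continuous_apply w)) continuous_const
  exact (ContinuousAddMonoidHom.isInducing_toContinuousMap G UnitAddCircle).isCompact_iff.mpr
    (ArzelaAscoli.isCompact_of_equicontinuous S3 h6.isCompact h3)

end polar

end Pool.Agent.Work.MP_c629c8_al
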