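import Mathlib
import Pool.Agent.Work.MP_c629c8_al.Vec.Defs
import Pool.Agent.Work.MP_c629c8_al.Vec.Polar
import Pool.Agent.Work.MP_c629c8_al.Vec.Glue
import Pool.Agent.Work.MP_c629c8_al.Refl

/-!
# The evaluation map of a covered group is open
-/

universe u v

namespace Pool.Agent.Work.MP_c629c8_al

open Topology

lemma OM.circle_norm_le (t : ℝ) : ‖((t : ℝ) : UnitAddCircle)‖ ≤ |t| := by
  rw [UnitAddCircle.norm_eq]
  have := round_le t 0
  simpa using this

lemma OM.circle_norm_le_half (t : UnitAddCircle) : ‖t‖ ≤ 1 / 2 := by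
  obtain ⟨x, rfl⟩ := QuotientAddGroup.mk_surjective t
  have h : ‖((x : ℝ) : UnitAddCircle)‖ = |x - round x| := UnitAddCircle.norm_eq
  exact h.le.trans (abs_sub_round x)

/-- the basic neighbourhoods of zero in a power of the real line -/
lemma OM.exists_realBox {κ : Type u} {U : Set (κ → ℝ)} (hU : U ∈ 𝓝 (0 : κ → ℝ)) :
    ∃ (F : Finset κ) (ε : ℝ), 0 < ε ∧ ∀ x : κ → ℝ, (∀ k ∈ F, |x k| < ε) → x ∈ U := by
  rw [nhds_pi, Filter.mem_pi] at hU
  obtain ⟨I, hI, t, ht, hIt⟩ := hU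
  have h1 : ∀ᶠ ε in 𝓝[>] (0 : ℝ), ∀ i ∈ I, Metric.ball 0 ε ⊆ t i := by
    rw [Filter.eventually_all_finite hI]
    intro i _
    obtain ⟨δ, hδ, hδt⟩ := Metric.mem_nhds_iff.1 (ht i)
    filter_upwards [Ioo_mem_nhdsGT hδ] with ε hε
    exact (Metric.ball_subset_ball hε.2.le).trans hδt
  obtain ⟨ε, h2, hε⟩ := (h1.and self_mem_nhdsWithin).exists
  refine ⟨hI.toFinset, ε, hε, fun x hx => hIt fun i hi => h2 i hi ?_⟩
  rw [mem_ball_zero_iff, Real.norm_eq_abs]
  exact hx i (hI.mem_toFinset.2 hi)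

lemma OM.realBox_mem_nhds {κ : Type u} (F : Finset κ) {ε : ℝ} (hε : 0 < ε) :
    {x : κ → ℝ | ∀ k ∈ F, |x k| < ε} ∈ 𝓝 (0 : κ → ℝ) := by
  have : ∀ᶠ x in 𝓝 (0 : κ → ℝ), ∀ k ∈ F, |x k| < ε := by
    rw [Finset.eventually_all]
    intro k _
    have h1 : Continuous fun x : κ → ℝ => |x k| := (continuous_apply k).abs
    refine h1.continuousAt.eventually_lt continuousAt_const ?_
    show |(0 : ℝ)| < ε
    rwa [abs_zero]
  exact this

lemma OM.abs_dot_le {κ : Type u} {r : κ →₀ ℝ} {F : Finset κ} (hF : r.support ⊆ F)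
    (hr : ∀ k, |r k| ≤ 1 / 2) {x : κ → ℝ} {δ : ℝ} (hx : ∀ k ∈ F, |x k| ≤ δ) :
    |dot r x| ≤ F.card * (1 / 2 * δ) := by
  rw [dot_eq_sum r x hF]
  refine (Finset.abs_sum_le_sum_abs _ _).trans ?_
  refine (Finset.sum_le_card_nsmul F _ (1 / 2 * δ) fun k hk => ?_).trans_eq (nsmul_eq_mul _ _)
  rw [abs_mul]
  exact mul_le_mul (hr k) (hx k hk) (abs_nonneg _) (by norm_num)

section

variable {κ : Type u} {Y : Type v} [AddCommGroup Y] [TopologicalSpace Y] [IsTopologicalAddGroup Y]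
  {f : (κ → ℝ) →ₜ+ Y} {Q : AddSubgroup Y}

/-- the quasi-convexity of the neighbourhoods of zero of a covered group -/
lemma Cover.exists_quasi (h : Cover f Q) [NonarchimedeanAddGroup Q] {V : Set Y}
    (hV : V ∈ 𝓝 (0 : Y)) : ∃ W ∈ 𝓝 (0 : Y), ∀ y : Y,
      (∀ χ : Dual Y, (∀ w ∈ W, ‖χ w‖ ≤ 1 / 8) → ‖χ y‖ < 1 / 8) →
      ∃ a ∈ V, ∃ b ∈ V, a + b = y := by
  classical
  have hf0 : f 0 = 0 := map_zero f
  have hfc : Continuous f := f.continuous_toFun
  obtain ⟨F₁, ε, hε, hF₁⟩ := OM.exists_realBox (U := f ⁻¹' V)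
    (hfc.continuousAt.preimage_mem_nhds (by rwa [hf0]))
  obtain ⟨O, hO⟩ := NonarchimedeanAddGroup.is_nonarchimedean ((↑) ⁻¹' V : Set Q)
    (continuous_subtype_val.continuousAt.preimage_mem_nhds (by simpa using hV))
  obtain ⟨O', hO', hOO'⟩ : ∃ O' ∈ 𝓝 (0 : Y), ∀ q : Q, (q : Y) ∈ O' → q ∈ O := by
    obtain ⟨O', hO', h1⟩ := (mem_nhds_subtype (Q : Set Y) (0 : Q) (O : Set Q)).1 O.mem_nhds_zero
    exact ⟨O', hO', fun q hq => h1 hq⟩
  obtain ⟨F₂, ε₂, hε₂, hF₂⟩ := OM.exists_realBox (U := f ⁻¹' O')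
    (hfc.continuousAt.preimage_mem_nhds (by rwa [hf0]))
  let F := F₁ ∪ F₂
  have hint : ∀ u : κ → ℝ, (∀ k, ((u k : ℝ) : UnitAddCircle) = 0) → (hu : f u ∈ Q) →
      (∀ k ∈ F, u k = 0) → (⟨f u, hu⟩ : Q) ∈ O := by
    intro u _ hu hF
    apply hOO'
    refine hF₂ u fun k hk => ?_
    rw [hF k (Finset.mem_union_right _ hk), abs_zero]
    exact hε₂
  obtain ⟨M, hM⟩ := exists_nat_gt (1 / ε + F.card + 1)
  have hε' : 0 < 1 / ε := by positivity
  have hFc : (0 : ℝ) ≤ F.card := Nat.cast_nonneg _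
  have hM0 : (0 : ℝ) < M := by linarith
  have hM1 : 1 / ε < M := by linarith
  have hM2 : (F.card : ℝ) ≤ M := by linarith
  let δ : ℝ := 1 / (8 * M)
  have hδ : 0 < δ := by positivity
  have hMδ : M * δ = 1 / 8 := by
    show (M : ℝ) * (1 / (8 * M)) = 1 / 8
    field_simp
  have hδε : δ < ε := by
    rw [div_lt_iff₀ hε] at hM1
    show 1 / (8 * (M : ℝ)) < ε
    rw [div_lt_iff₀ (by positivity)]
    nlinarith
  have hFδ : F.card * (1 / 2 * δ) ≤ 1 / 16 := by
    have : (F.card : ℝ) * δ ≤ M * δ := mul_le_mul_of_nonneg_right hM2 hδ.le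
    linarith
  obtain ⟨W, hW, hWc⟩ := h.nhds _ (OM.realBox_mem_nhds F hδ) O' hO'
  refine ⟨W, hW, fun y hy => ?_⟩
  obtain ⟨x, q, hq, hxq⟩ := h.gen y
  -- the coordinates of `x` in `F` are nearly integral
  have h1 : ∀ k ∈ F, ‖((x k : ℝ) : UnitAddCircle)‖ < δ := by
    intro k hk
    obtain ⟨θ, hθ⟩ := h.exists_theta k
    have h2 : ∀ m ≤ M, ‖m • ((x k : ℝ) : UnitAddCircle)‖ < 1 / 8 := by
      intro m hm
      have h3 := hy (m • θ) (by
        intro w hw
        obtain ⟨x', hx', q', hq', -, rfl⟩ := hWc w hw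
        rw [dual_nsmul_apply, hθ x' q' hq', ← AddCircle.coe_nsmul]
        refine (OM.circle_norm_le _).trans ?_
        rw [nsmul_eq_mul, abs_mul, Nat.abs_cast, ← hMδ]
        exact mul_le_mul (by exact_mod_cast hm) (hx' k hk).le (abs_nonneg _) hM0.le)
      rwa [dual_nsmul_apply, ← hxq, hθ x q hq] at h3
    have h4 := nsmul_small (by norm_num) M h2
    rw [← hMδ] at h4
    exact lt_of_mul_lt_mul_left h4 hM0.le
  let u : κ → ℝ := fun k => if k ∈ F then (round (x k) : ℝ) else 0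
  have hu : ∀ k, ((u k : ℝ) : UnitAddCircle) = 0 := by
    intro k
    by_cases hk : k ∈ F
    · have : u k = (round (x k) : ℝ) := if_pos hk
      rw [this, AddCircle.coe_eq_zero_iff]
      exact ⟨round (x k), by simp⟩
    · have : u k = 0 := if_neg hk
      rw [this]
      rfl
  have hfu : f u ∈ Q := (h.int u).2 hu
  have hxu : ∀ k ∈ F, |(x - u) k| < δ := by
    intro k hk
    have h2 := h1 k hk
    rw [UnitAddCircle.norm_eq] at h2
    have : u k = (round (x k) : ℝ) := if_pos hk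
    rw [Pi.sub_apply, this]
    exact h2
  have hyq : f (x - u) + (f u + q) = y := by
    rw [map_sub, ← hxq]
    abel
  have hq' : f u + q ∈ Q := Q.add_mem hfu hq
  have hxV : f (x - u) ∈ V := hF₁ (x - u) fun k hk =>
    (hxu k (Finset.mem_union_left _ hk)).trans hδε
  have hqO : (⟨f u + q, hq'⟩ : Q) ∈ O := by
    by_contra hcon
    obtain ⟨χ, hχ1, hχ2⟩ := exists_dual_ne_zero O hcon
    obtain ⟨j, hj⟩ := exists_large_nsmul hχ2
    have hχO : ∀ v ∈ O, (j • χ) v = 0 := by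
      intro v hv
      rw [dual_nsmul_apply, hχ1 v hv, smul_zero]
    obtain ⟨r, hr1, hr2⟩ := h.exists_rep (j • χ)
    obtain ⟨ξ, hξ⟩ := h.glue (j • χ) r hr1
    have hr3 : r.support ⊆ F := by
      intro k hk
      by_contra hkF
      rw [Finsupp.mem_support_iff] at hk
      apply hk
      rw [← abs_eq_zero, hr2, hχO _ (hint (ev k) ?_ (h.ev_mem k) ?_), norm_zero]
      · intro i
        by_cases hi : i = k
        · subst hi
          rw [ev_self]
          exact AddCircle.coe_period 1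
        · rw [ev_of_ne hi]
          rfl
      · intro i hi
        exact ev_of_ne fun hik => hkF (hik ▸ hi)
    have hr4 : ∀ k, |r k| ≤ 1 / 2 := fun k => (hr2 k).le.trans (OM.circle_norm_le_half _)
    have h2 := hy ξ (by
      intro w hw
      obtain ⟨x', hx', q', hq', hq'O, rfl⟩ := hWc w hw
      have h3 : ξ (f x' + q') = ((dot r x' : ℝ) : UnitAddCircle) + (j • χ) ⟨q', hq'⟩ :=
        hξ x' ⟨q', hq'⟩
      rw [h3, hχO _ (hOO' _ hq'O), add_zero]
      refine (OM.circle_norm_le _).trans ((OM.abs_dot_le hr3 hr4 fun k hk => (hx' k hk).le).trans ?_)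
      linarith)
    have h3 : ξ y = ((dot r (x - u) : ℝ) : UnitAddCircle) + (j • χ) ⟨f u + q, hq'⟩ := by
      rw [← hyq]
      exact hξ (x - u) ⟨f u + q, hq'⟩
    have h4 : (j • χ) ⟨f u + q, hq'⟩ = ξ y - ((dot r (x - u) : ℝ) : UnitAddCircle) := by
      rw [h3]
      abel
    have h5 : ‖(j • χ) ⟨f u + q, hq'⟩‖ < 1 / 4 := by
      rw [h4]
      refine (norm_sub_le _ _).trans_lt ?_
      have h6 := (OM.circle_norm_le (dot r (x - u))).trans
        (OM.abs_dot_le hr3 hr4 fun k hk => (hxu k hk).le)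
      linarith
    rw [dual_nsmul_apply] at h5
    linarith
  exact ⟨f (x - u), hxV, f u + q, hO hqO, hyq⟩

theorem Cover.eta_isOpenMap [T2Space Y] (h : Cover f Q) [NonarchimedeanAddGroup Q]
    (hs : Function.Surjective (eta Y)) : IsOpenMap (eta Y) := by
  have : IsOpenMap (etaHom Y) := by
    rw [IsTopologicalAddGroup.isOpenMap_iff_nhds_zero]
    intro W₀ hW₀
    rw [Filter.mem_map] at hW₀
    obtain ⟨V, hV, hVW⟩ := exists_nhds_zero_half hW₀
    obtain ⟨W, hW, hWy⟩ := h.exists_quasi hV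
    let E : Set (Dual Y) := {χ | ∀ w ∈ W, ‖χ w‖ ≤ 1 / 8}
    have hE : IsCompact E := isCompact_polar hW (by norm_num)
    let O : Set (Dual (Dual Y)) := {ψ | Set.MapsTo ψ E (Metric.ball 0 (1 / 8))}
    have hO : IsOpen O := isOpen_induced
      (ContinuousMap.isOpen_setOfPred_mapsTo hE Metric.isOpen_ball)
    have h0 : (0 : Dual (Dual Y)) ∈ O := by
      intro χ _
      show (0 : UnitAddCircle) ∈ _
      exact Metric.mem_ball_self (by norm_num)
    refine Filter.mem_of_superset (hO.mem_nhds h0) ?_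
    intro ψ hψ
    obtain ⟨y, rfl⟩ := hs ψ
    obtain ⟨a, ha, b, hb, rfl⟩ := hWy y (fun χ hχ => by
      have := hψ (show χ ∈ E from hχ)
      rwa [mem_ball_zero_iff] at this)
    exact hVW a ha b hb
  exact this

end

end Pool.Agent.Work.MP_c629c8_al
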