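import Mathlib
import Pool.Agent.Work.MP_c629c8_al.Vec.Defs
import Pool.Agent.Work.MP_c629c8_al.Vec.Glue
import Pool.Agent.Work.MP_c629c8_al.Vec.Surj
import Pool.Agent.Work.MP_c629c8_al.Vec.Cont
import Pool.Agent.Work.MP_c629c8_al.Vec.OpenM

/-!
# A group covered by a power of the real line and a reflexive group is reflexive
-/

universe u v

namespace Pool.Agent.Work.MP_c629c8_al

section

variable {κ : Type u} {Y : Type v} [AddCommGroup Y] [TopologicalSpace Y] [IsTopologicalAddGroup Y]
  {f : (κ → ℝ) →ₜ+ Y} {Q : AddSubgroup Y}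

theorem Cover.isReflexive [T2Space Y] [Countable κ] (h : Cover f Q) [NonarchimedeanAddGroup Q]
    (hQ : IsReflexive Q) : IsReflexive Y where
  continuous := h.eta_continuous hQ.continuous
  isOpenMap := h.eta_isOpenMap (h.eta_surjective hQ.bijective.2)
  bijective := ⟨h.eta_injective hQ.bijective.1, h.eta_surjective hQ.bijective.2⟩

end

end Pool.Agent.Work.MP_c629c8_al
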