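import Mathlib
import Pool.Agent.Work.MP_c629c8_al.Vec.Defs

/-!
# Good groups and open surjective homomorphisms
-/

universe u v

namespace Pool.Agent.Work.MP_c629c8_al

open Topology

section push

variable {X : Type u} {X' : Type v} [AddCommGroup X] [TopologicalSpace X]
  [AddCommGroup X'] [TopologicalSpace X']

/-- the image of an open subgroup under an open homomorphism -/
def pushOpen (f : X →+ X') (hfo : IsOpenMap f) (N : OpenAddSubgroup X) : OpenAddSubgroup X' where
  toAddSubgroup := (N : AddSubgroup X).map f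
  isOpen' := hfo _ N.isOpen

lemma mem_pushOpen {f : X →+ X'} {hfo : IsOpenMap f} {N : OpenAddSubgroup X} {y : X'} :
    y ∈ pushOpen f hfo N ↔ ∃ x ∈ N, f x = y := Iff.rfl

theorem nonarchimedean_of_open [NonarchimedeanAddGroup X] [IsTopologicalAddGroup X']
    (f : X →+ X') (hfc : Continuous f) (hfo : IsOpenMap f) : NonarchimedeanAddGroup X' where
  is_nonarchimedean := fun W hW => by
    have h : f ⁻¹' W ∈ 𝓝 (0 : X) := hfc.continuousAt.preimage_mem_nhds (by rwa [map_zero])
    obtain ⟨N, hN⟩ := NonarchimedeanAddGroup.is_nonarchimedean _ h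
    refine ⟨pushOpen f hfo N, ?_⟩
    rintro _ ⟨x, hx, rfl⟩
    exact hN hx

theorem goodSeq_push (f : X →+ X') (hfc : Continuous f) (hfo : IsOpenMap f)
    {U : ℕ → OpenAddSubgroup X} (hU : GoodSeq X U) :
    GoodSeq X' (fun n => pushOpen f hfo (U n)) := by
  refine ⟨?_, fun M => ?_⟩
  · rintro m n hmn _ ⟨x, hx, rfl⟩
    exact ⟨x, hU.1 hmn hx, rfl⟩
  obtain ⟨n, hn⟩ := hU.2 (M.comap f hfc)
  refine ⟨n, fun S hS hSU => ?_⟩
  obtain ⟨_, ⟨B₁, hB₁, rfl⟩, hmin⟩ := hn
    ((fun B => B.comap f ⊓ (U n : AddSubgroup X)) '' S) (hS.image _) (by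
    rintro _ ⟨B, hB, rfl⟩
    exact inf_le_right)
  refine ⟨B₁, hB₁, fun B hB hle => ?_⟩
  have h1 := hmin _ ⟨B, hB, rfl⟩ (inf_le_inf_right _ (AddSubgroup.comap_mono hle))
  intro b hb
  obtain ⟨u, hu, rfl⟩ := hSU B₁ hB₁ hb
  obtain ⟨v, hv, p, hp, hvp⟩ := AddSubgroup.mem_sup.1 (h1 ⟨hb, hu⟩)
  refine AddSubgroup.mem_sup.2 ⟨f v, hv.1, f p, ⟨⟨p, hp.1, rfl⟩, hp.2⟩, ?_⟩
  rw [← map_add, hvp]

theorem linComplete_of_bijective (f : X →+ X') (hfc : Continuous f) (hfo : IsOpenMap f)
    (hf : Function.Bijective f) (hX : LinComplete X) : LinComplete X' := by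
  intro x hx
  choose s hs using hf.2
  obtain ⟨y, hy⟩ := hX (fun M => s (x (pushOpen f hfo M))) (by
    intro N M hMN
    have h1 : pushOpen f hfo M ≤ pushOpen f hfo N := by
      rintro _ ⟨z, hz, rfl⟩
      exact ⟨z, hMN hz, rfl⟩
    obtain ⟨z, hz, hz2⟩ := hx _ _ h1
    have h2 : s (x (pushOpen f hfo M)) - s (x (pushOpen f hfo N)) = z := by
      apply hf.1
      rw [map_sub, hs, hs]
      exact hz2.symm
    show s (x (pushOpen f hfo M)) - s (x (pushOpen f hfo N)) ∈ N
    rw [h2]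
    exact hz)
  refine ⟨f y, fun N => ?_⟩
  have h1 : pushOpen f hfo (N.comap f hfc) = N := by
    ext t
    constructor
    · rintro ⟨z, hz, rfl⟩
      exact hz
    · intro ht
      exact ⟨s t, by show f (s t) ∈ N; rwa [hs], hs t⟩
  have h2 := hy (N.comap f hfc)
  rw [h1] at h2
  have h3 : f (y - s (x N)) ∈ N := h2
  rwa [map_sub, hs] at h3

/-- Open continuous images of good groups are good. -/
theorem good_of_open [NonarchimedeanAddGroup X] (f : X →+ X') (hfc : Continuous f)
    (hfo : IsOpenMap f) (hf : Function.Surjective f) (hX : LinComplete X)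
    {U : ℕ → OpenAddSubgroup X} (hU : GoodSeq X U) : LinComplete X' := by
  let g : X ⧸ f.ker →+ X' := QuotientAddGroup.lift f.ker f (fun _ h => h)
  have hg : ∀ x : X, g (QuotientAddGroup.mk x) = f x := fun x => rfl
  refine linComplete_of_bijective g ?_ ?_ ⟨?_, ?_⟩ (linComplete_quotient f.ker hX hU)
  · exact continuous_quot_lift _ hfc
  · intro O hO
    have h1 : g '' O = f '' ((QuotientAddGroup.mk : X → X ⧸ f.ker) ⁻¹' O) := by
      ext t
      constructor
      · rintro ⟨q, hq, rfl⟩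
        obtain ⟨x, rfl⟩ := QuotientAddGroup.mk_surjective q
        exact ⟨x, hq, rfl⟩
      · rintro ⟨x, hx, rfl⟩
        exact ⟨_, hx, rfl⟩
    rw [h1]
    exact hfo _ (hO.preimage continuous_quot_mk)
  · intro a b hab
    obtain ⟨x, rfl⟩ := QuotientAddGroup.mk_surjective a
    obtain ⟨y, rfl⟩ := QuotientAddGroup.mk_surjective b
    rw [hg, hg] at hab
    rw [QuotientAddGroup.eq]
    show f (-x + y) = 0
    rw [map_add, map_neg, hab, neg_add_cancel]
  · intro t
    obtain ⟨x, rfl⟩ := hf t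
    exact ⟨QuotientAddGroup.mk x, rfl⟩

end push

section restrict

variable {X : Type u} [AddCommGroup X] [TopologicalSpace X] [IsTopologicalAddGroup X]

/-- the map from a subgroup to its image in the quotient -/
def toImage (B H : AddSubgroup X) : B →+ B.map (QuotientAddGroup.mk' H) where
  toFun b := ⟨QuotientAddGroup.mk' H b, ⟨b, b.2, rfl⟩⟩
  map_zero' := rfl
  map_add' _ _ := rfl

omit [TopologicalSpace X] [IsTopologicalAddGroup X] in
lemma toImage_surjective (B H : AddSubgroup X) : Function.Surjective (toImage B H) := by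
  rintro ⟨_, b, hb, rfl⟩
  exact ⟨⟨b, hb⟩, rfl⟩

omit [IsTopologicalAddGroup X] in
lemma continuous_toImage (B H : AddSubgroup X) : Continuous (toImage B H) :=
  (continuous_quot_mk.comp continuous_subtype_val).subtype_mk _

lemma isOpenMap_toImage {B H : AddSubgroup X} (hBH : H ≤ B) : IsOpenMap (toImage B H) := by
  rintro _ ⟨V, hV, rfl⟩
  refine ⟨(QuotientAddGroup.mk : X → X ⧸ H) '' V, QuotientAddGroup.isOpenMap_coe V hV, ?_⟩
  ext q
  constructor
  · rintro ⟨v, hv, hvq⟩
    obtain ⟨b, rfl⟩ := toImage_surjective B H q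
    have h1 : (QuotientAddGroup.mk v : X ⧸ H) = QuotientAddGroup.mk (b : X) := hvq
    rw [QuotientAddGroup.eq] at h1
    have h2 : v ∈ B := by
      have := B.sub_mem b.2 (hBH h1)
      rwa [neg_add_eq_sub, sub_sub_cancel] at this
    exact ⟨⟨v, h2⟩, hv, Subtype.ext hvq⟩
  · rintro ⟨b, hb, rfl⟩
    exact ⟨b, hb, rfl⟩

end restrict

end Pool.Agent.Work.MP_c629c8_al
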