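import Mathlib
import Pool.Agent.Work.MP_c629c8_al.Vec.GoodTr
import Pool.Agent.Work.MP_c629c8_al.Vec.Integ
import Pool.Agent.Work.MP_c629c8_al.Vec.GraphB

/-!
# The image of the graph in the quotient is good
-/

universe u v

namespace Pool.Agent.Work.MP_c629c8_al

open Topology

section graphb

variable {α : Type u} {P : Type v} [AddCommGroup P] [TopologicalSpace P]
  [NonarchimedeanAddGroup P]

/-- the image of `graphB ψ` in the quotient is good -/
theorem good_image [Countable α] (ψ : α → Dual P) {H : AddSubgroup ((α → ℝ) × P)}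
    (hH : H ≤ graphB ψ) (hP : LinComplete P) (hA : CondA P) :
    NonarchimedeanAddGroup ((graphB ψ).map (QuotientAddGroup.mk' H)) ∧
    LinComplete ((graphB ψ).map (QuotientAddGroup.mk' H)) ∧
    ∃ U : ℕ → OpenAddSubgroup ((graphB ψ).map (QuotientAddGroup.mk' H)), GoodSeq _ U := by
  have hI := integral_graphB ψ
  have hc := isClosed_graphB ψ
  have := hI.nonarchimedean
  obtain ⟨U, hU⟩ := hI.exists_goodSeq hA
  have h1 := continuous_toImage (graphB ψ) H
  have h2 := isOpenMap_toImage hH
  have h3 := toImage_surjective (graphB ψ) H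
  exact ⟨nonarchimedean_of_open (toImage (graphB ψ) H) h1 h2,
    good_of_open (toImage (graphB ψ) H) h1 h2 h3 (hI.linComplete hc hP) hU,
    _, goodSeq_push (toImage (graphB ψ) H) h1 h2 hU⟩

end graphb

end Pool.Agent.Work.MP_c629c8_al
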