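import Pool.Agent.Work.MP_c629c8_al.Vec.Tr
import Pool.Agent.Work.MP_c629c8_al.Vec.Coord
import Pool.Agent.Work.MP_c629c8_al.Vec.Integ
import Pool.Agent.Work.MP_c629c8_al.Vec.GraphB
import Pool.Agent.Work.MP_c629c8_al.Vec.GoodImage
import Pool.Agent.Work.MP_c629c8_al.Vec.CoverRefl

/-!
# Products of a countable power of the real line and a good linear group are strongly reflexive
-/

universe u v w

namespace Pool.Agent.Work.MP_c629c8_al

open Topology

section iso

variable {A : Type u} {B : Type v} [AddCommGroup A] [TopologicalSpace A] [AddCommGroup B]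
  [TopologicalSpace B]

/-- a group that is isomorphic to a nonarchimedean group is nonarchimedean -/
theorem nonarchimedean_of_iso [NonarchimedeanAddGroup A] [IsTopologicalAddGroup B]
    (e : A ≃ₜ+ B) : NonarchimedeanAddGroup B :=
  NonarchimedeanAddGroup.nonarchimedean_of_emb e.toAddEquiv.toAddMonoidHom
    e.toHomeomorph.isOpenEmbedding

end iso

section cov

variable {β : Type u} {Z : Type v} [AddCommGroup Z] [TopologicalSpace Z]

variable (β Z) in
/-- the inclusion of the first factor -/
def fstIncl : (β → ℝ) →ₜ+ (β → ℝ) × Z where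
  toFun x := (x, 0)
  map_zero' := rfl
  map_add' x y := by
    rw [Prod.mk_add_mk, add_zero]
  continuous_toFun := continuous_id.prodMk continuous_const

variable (β Z) in
/-- the pairs with an integral first component -/
def intFst : AddSubgroup ((β → ℝ) × Z) where
  carrier := {z | ∀ k, ((z.1 k : ℝ) : UnitAddCircle) = 0}
  zero_mem' := fun _ => rfl
  add_mem' := fun {a b} ha hb k => by
    show (((a.1 k + b.1 k : ℝ)) : UnitAddCircle) = 0
    rw [AddCircle.coe_add, ha k, hb k, add_zero]
  neg_mem' := fun {a} ha k => by
    show (((-a.1 k : ℝ)) : UnitAddCircle) = 0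
    rw [AddCircle.coe_neg, ha k, neg_zero]

lemma mem_intFst {z : (β → ℝ) × Z} :
    z ∈ intFst β Z ↔ ∀ k, ((z.1 k : ℝ) : UnitAddCircle) = 0 := Iff.rfl

theorem isClosed_intFst : IsClosed (intFst β Z : Set ((β → ℝ) × Z)) := by
  have h : (intFst β Z : Set ((β → ℝ) × Z)) =
      ⋂ k, {z : (β → ℝ) × Z | ((z.1 k : ℝ) : UnitAddCircle) = 0} := by
    ext z
    rw [Set.mem_iInter]
    rfl
  rw [h]
  refine isClosed_iInter fun k => isClosed_eq ?_ continuous_const
  exact (AddCircle.continuous_mk' 1).comp ((continuous_apply k).comp continuous_fst)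

theorem cover_fst [IsTopologicalAddGroup Z] : Cover (fstIncl β Z) (intFst β Z) where
  isClosed := isClosed_intFst
  gen := fun y => ⟨y.1, (0, y.2), fun _ => rfl, by
    show (y.1, (0 : Z)) + (0, y.2) = y
    rw [Prod.mk_add_mk, add_zero, zero_add]⟩
  int := fun _ => Iff.rfl
  nhds := fun U hU O hO => by
    refine ⟨{y | y.1 ∈ U ∧ ((0 : β → ℝ), y.2) ∈ O}, ?_, fun y hy => ?_⟩
    · refine Filter.inter_mem ?_ ?_
      · exact continuous_fst.continuousAt.preimage_mem_nhds (by exact hU)
      · have hc : Continuous fun y : (β → ℝ) × Z => ((0 : β → ℝ), y.2) :=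
          continuous_const.prodMk continuous_snd
        exact hc.continuousAt.preimage_mem_nhds (by exact hO)
    · refine ⟨y.1, hy.1, (0, y.2), fun _ => rfl, hy.2, ?_⟩
      show (y.1, (0 : Z)) + (0, y.2) = y
      rw [Prod.mk_add_mk, add_zero, zero_add]

end cov

section sub

variable {α β : Type u} {P : Type v} [AddCommGroup P] [TopologicalSpace P]

/-- the elements of the product of an integral part and `H'`, with the two index sets joined -/
def joinH (β : Type u) (H' : AddSubgroup ((α → ℝ) × P)) :
    AddSubgroup ((β ⊕ α → ℝ) × P) where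
  carrier := {z | (∀ k : β, ((z.1 (Sum.inl k) : ℝ) : UnitAddCircle) = 0) ∧
    ((fun k => z.1 (Sum.inr k), z.2) : (α → ℝ) × P) ∈ H'}
  zero_mem' := ⟨fun _ => rfl, H'.zero_mem⟩
  add_mem' := fun {a b} ha hb => ⟨fun k => by
    show (((a.1 (Sum.inl k) + b.1 (Sum.inl k) : ℝ)) : UnitAddCircle) = 0
    rw [AddCircle.coe_add, ha.1 k, hb.1 k, add_zero], H'.add_mem ha.2 hb.2⟩
  neg_mem' := fun {a} ha => ⟨fun k => by
    show (((-a.1 (Sum.inl k) : ℝ)) : UnitAddCircle) = 0
    rw [AddCircle.coe_neg, ha.1 k, neg_zero], H'.neg_mem ha.2⟩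

theorem isClosed_joinH {H' : AddSubgroup ((α → ℝ) × P)}
    (hH : IsClosed (H' : Set ((α → ℝ) × P))) :
    IsClosed (joinH β H' : Set ((β ⊕ α → ℝ) × P)) := by
  have h : (joinH β H' : Set ((β ⊕ α → ℝ) × P)) =
      (⋂ k : β, {z : (β ⊕ α → ℝ) × P | ((z.1 (Sum.inl k) : ℝ) : UnitAddCircle) = 0}) ∩
      (fun z : (β ⊕ α → ℝ) × P => ((fun k => z.1 (Sum.inr k), z.2) : (α → ℝ) × P)) ⁻¹' H' := by
    ext z
    rw [Set.mem_inter_iff, Set.mem_iInter]
    rfl
  rw [h]
  refine IsClosed.inter (isClosed_iInter fun k => isClosed_eq ?_ continuous_const)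
    (hH.preimage ?_)
  · exact (AddCircle.continuous_mk' 1).comp ((continuous_apply (Sum.inl k)).comp continuous_fst)
  · exact (continuous_pi fun k => (continuous_apply (Sum.inr k)).comp continuous_fst).prodMk
      continuous_snd

theorem integral_joinH [IsTopologicalAddGroup P] {H' : AddSubgroup ((α → ℝ) × P)}
    (hI : Integral H') : Integral (joinH β H') := by
  intro j
  rcases j with j | j
  · exact ⟨⊤, fun x y h _ => h.1 j⟩
  · obtain ⟨N, hN⟩ := hI j
    exact ⟨N, fun x y h hy => hN _ y h.2 hy⟩

/-- the join is isomorphic to the subgroup of the product -/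
def joinIso (H' : AddSubgroup ((α → ℝ) × P)) : joinH β H' ≃ₜ+ intFst β H' where
  toFun z := ⟨(fun k => z.1.1 (Sum.inl k), ⟨(fun k => z.1.1 (Sum.inr k), z.1.2), z.2.2⟩), z.2.1⟩
  invFun w := ⟨(Sum.elim w.1.1 w.1.2.1.1, w.1.2.1.2), ⟨fun k => w.2 k, w.1.2.2⟩⟩
  left_inv z := by
    refine Subtype.ext (Prod.ext (funext fun k => ?_) rfl)
    rcases k with k | k <;> rfl
  right_inv w := rfl
  map_add' z w := rfl
  continuous_toFun := by
    refine Continuous.subtype_mk (Continuous.prodMk ?_ (Continuous.subtype_mk
      (Continuous.prodMk ?_ ?_) _)) _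
    · exact continuous_pi fun k =>
        (continuous_apply (Sum.inl k)).comp (continuous_fst.comp continuous_subtype_val)
    · exact continuous_pi fun k =>
        (continuous_apply (Sum.inr k)).comp (continuous_fst.comp continuous_subtype_val)
    · exact continuous_snd.comp continuous_subtype_val
  continuous_invFun := by
    refine Continuous.subtype_mk (Continuous.prodMk (continuous_pi fun k => ?_) ?_) _
    · rcases k with k | k
      · exact (continuous_apply k).comp (continuous_fst.comp continuous_subtype_val)
      · exact (continuous_apply k).comp (continuous_fst.comp (continuous_subtype_val.comp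
          (continuous_snd.comp continuous_subtype_val)))
    · exact continuous_snd.comp (continuous_subtype_val.comp
        (continuous_snd.comp continuous_subtype_val))

end sub

section vecrefl

variable {J : Type u} {P : Type v} [AddCommGroup P] [TopologicalSpace P]
  [NonarchimedeanAddGroup P] [T2Space P]

/-- the product of a countable power of the real line and a closed integral subgroup -/
theorem isReflexive_prod_integral {α β : Type u} [Countable α] [Countable β]
    (hP : LinComplete P) (hA : CondA P) {H' : AddSubgroup ((α → ℝ) × P)} (hI : Integral H')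
    (hH : IsClosed (H' : Set ((α → ℝ) × P))) : IsReflexive ((β → ℝ) × H') := by
  have hI2 : Integral (joinH β H') := integral_joinH hI
  have hna : NonarchimedeanAddGroup (joinH β H') := hI2.nonarchimedean
  obtain ⟨U, hU⟩ := hI2.exists_goodSeq hA
  have hr : IsReflexive (joinH β H') :=
    isReflexive_of_good (hI2.linComplete (isClosed_joinH hH) hP) hU
  have hna2 : NonarchimedeanAddGroup (intFst β H') := nonarchimedean_of_iso (joinIso H')
  exact (cover_fst (β := β) (Z := H')).isReflexive (hr.congr (joinIso H'))

/-- the quotient by a closed integral subgroup -/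
theorem isReflexive_quotient_integral {α : Type u} [Countable α]
    (hP : LinComplete P) (hA : CondA P) {H' : AddSubgroup ((α → ℝ) × P)} (hI : Integral H')
    (hH : IsClosed (H' : Set ((α → ℝ) × P))) : IsReflexive (((α → ℝ) × P) ⧸ H') := by
  obtain ⟨ψ, hψ⟩ := hI.exists_chars
  obtain ⟨h1, h2, U, hU⟩ := good_image ψ hψ hP hA
  have hT : T2Space (((α → ℝ) × P) ⧸ H') := by
    have : IsClosed (H' : Set ((α → ℝ) × P)) := hH
    infer_instance
  exact (cover_quotient ψ hψ).isReflexive (isReflexive_of_good h2 hU)

theorem stronglyReflexive_vec [Countable J] (hP : LinComplete P) (hA : CondA P) :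
    StronglyReflexive ((J → ℝ) × P) := by
  intro H hH
  obtain ⟨α, β, e, H', hI, hH', hmem, hc⟩ := exists_coord H hH
  obtain ⟨hα, hβ⟩ := hc inferInstance
  constructor
  · let f : H →ₜ+ (β → ℝ) × H' :=
      { toFun := fun g => ((e g.1).1, ⟨(e g.1).2, (hmem g.1).1 g.2⟩)
        map_zero' := by
          refine Prod.ext ?_ (Subtype.ext ?_)
          · show (e 0).1 = 0
            rw [map_zero]
            rfl
          · show (e 0).2 = 0
            rw [map_zero]
            rfl
        map_add' := fun a b => by
          refine Prod.ext ?_ (Subtype.ext ?_)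
          · show (e (a.1 + b.1)).1 = (e a.1).1 + (e b.1).1
            rw [map_add]
            rfl
          · show (e (a.1 + b.1)).2 = (e a.1).2 + (e b.1).2
            rw [map_add]
            rfl
        continuous_toFun := by
          have h1 : Continuous fun g : H => e g.1 := e.continuous_toFun.comp continuous_subtype_val
          exact (continuous_fst.comp h1).prodMk ((continuous_snd.comp h1).subtype_mk _) }
    have hsymm : ∀ z : (β → ℝ) × H', e.symm (z.1, z.2.1) ∈ H := fun z => by
      rw [hmem, ContinuousAddEquiv.apply_symm_apply]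
      exact z.2.2
    let g : (β → ℝ) × H' →ₜ+ H :=
      { toFun := fun z => ⟨e.symm (z.1, z.2.1), hsymm z⟩
        map_zero' := by
          refine Subtype.ext ?_
          show e.symm (0 : (β → ℝ) × ((α → ℝ) × P)) = 0
          rw [map_zero]
        map_add' := fun a b => by
          refine Subtype.ext ?_
          show e.symm ((a.1, a.2.1) + (b.1, b.2.1)) = e.symm (a.1, a.2.1) + e.symm (b.1, b.2.1)
          rw [map_add]
        continuous_toFun := by
          refine Continuous.subtype_mk (e.symm.continuous_toFun.comp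
            (continuous_fst.prodMk (continuous_subtype_val.comp continuous_snd))) _ }
    refine IsReflexive.of_iso g f (fun a => ?_) (fun z => ?_)
      (isReflexive_prod_integral hP hA hI hH')
    · refine Subtype.ext ?_
      show e.symm ((e a.1).1, (e a.1).2) = a.1
      exact e.symm_apply_apply a.1
    · refine Prod.ext ?_ (Subtype.ext ?_)
      · show (e (e.symm (z.1, z.2.1))).1 = z.1
        rw [ContinuousAddEquiv.apply_symm_apply]
      · show (e (e.symm (z.1, z.2.1))).2 = z.2.1
        rw [ContinuousAddEquiv.apply_symm_apply]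
  · let q : ((α → ℝ) × P) →+ ((α → ℝ) × P) ⧸ H' := QuotientAddGroup.mk' H'
    let f : ((J → ℝ) × P) →ₜ+ ((α → ℝ) × P) ⧸ H' :=
      { toFun := fun g => q (e g).2
        map_zero' := by
          show q (e 0).2 = 0
          rw [map_zero]
          exact map_zero q
        map_add' := fun a b => by
          show q (e (a + b)).2 = q (e a).2 + q (e b).2
          rw [map_add, Prod.snd_add, map_add]
        continuous_toFun :=
          continuous_quot_mk.comp (continuous_snd.comp e.continuous_toFun) }
    refine isReflexive_quotient_of f ?_ ?_ H (fun g => ?_)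
      (isReflexive_quotient_integral hP hA hI hH')
    · intro y
      obtain ⟨x, rfl⟩ := QuotientAddGroup.mk_surjective y
      refine ⟨e.symm (0, x), ?_⟩
      show q (e (e.symm (0, x))).2 = q x
      rw [ContinuousAddEquiv.apply_symm_apply]
    · exact (QuotientAddGroup.isOpenMap_coe (N := H')).comp
        (isOpenMap_snd.comp e.toHomeomorph.isOpenMap)
    · rw [hmem]
      exact (QuotientAddGroup.eq_zero_iff _).symm

end vecrefl

end Pool.Agent.Work.MP_c629c8_al
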