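import Mathlib
import Pool.Agent.Work.MP_c629c8_al.Vec.VecRefl
import Pool.Agent.Work.MP_c629c8_al.Vec.LemF
import Pool.Agent.Work.MP_c629c8_al.Vec.LemC
import Pool.Agent.Work.MP_c629c8_al.Vec.VecExt
import Pool.Agent.Work.MP_c629c8_al.Vec.Tr

/-!
# Extensions by compact groups
-/

universe u v w

namespace Pool.Agent.Work.MP_c629c8_al

open Topology

section factor

variable {A : Type u} {B : Type v} [AddCommGroup A] [TopologicalSpace A]
  [IsTopologicalAddGroup A] [AddCommGroup B] [TopologicalSpace B]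

/-- characters that vanish on the kernel of an open surjective homomorphism -/
lemma exists_factor (p : A →ₜ+ B) (hp : Function.Surjective p) (hpo : IsOpenMap p) (χ : Dual A)
    (h : ∀ a, p a = 0 → χ a = 0) : ∃ ξ : Dual B, ∀ a, ξ (p a) = χ a := by
  let H : AddSubgroup A := p.toAddMonoidHom.ker
  have hH : ∀ g, g ∈ H ↔ p g = 0 := fun g => Iff.rfl
  let e := quotIso p hp hpo H hH
  let χ' : A ⧸ H →ₜ+ UnitAddCircle :=
    ⟨QuotientAddGroup.lift H χ.toAddMonoidHom (fun a ha => h a ha),
      continuous_quot_lift _ χ.continuous_toFun⟩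
  refine ⟨χ'.comp (⟨e.toAddEquiv.symm.toAddMonoidHom, e.continuous_invFun⟩ : B →ₜ+ A ⧸ H),
    fun a => ?_⟩
  show χ' (e.toAddEquiv.symm (p a)) = χ a
  have h1 : e.toAddEquiv.symm (p a) = QuotientAddGroup.mk a :=
    e.toAddEquiv.symm_apply_apply (QuotientAddGroup.mk a)
  rw [h1]
  rfl

omit [IsTopologicalAddGroup A] in
/-- closed surjective homomorphisms are open -/
lemma isOpenMap_of_closed [IsTopologicalAddGroup A] (p : A →ₜ+ B) (hp : Function.Surjective p)
    (hpc : IsClosedMap p) : IsOpenMap p := by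
  intro W hW
  -- the saturation of `W` is open
  have h1 : IsOpen (p ⁻¹' (p '' W)) := by
    have : p ⁻¹' (p '' W) = ⋃ k ∈ {k | p k = 0}, (fun a => a + k) ⁻¹' W := by
      ext a
      simp only [Set.mem_preimage, Set.mem_image, Set.mem_iUnion]
      constructor
      · rintro ⟨w, hw, hwa⟩
        refine ⟨w - a, ?_, ?_⟩
        · show p (w - a) = 0
          rw [map_sub, hwa, sub_self]
        · rw [add_sub_cancel]
          exact hw
      · rintro ⟨k, hk, hka⟩
        refine ⟨a + k, hka, ?_⟩
        rw [map_add, hk, add_zero]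
    rw [this]
    exact isOpen_biUnion fun k _ => hW.preimage (continuous_id.add continuous_const)
  have h2 : p '' W = (p '' (p ⁻¹' (p '' W))ᶜ)ᶜ := by
    ext b
    obtain ⟨a, rfl⟩ := hp b
    constructor
    · rintro hb ⟨c, hc, hcb⟩
      apply hc
      show p c ∈ p '' W
      rw [hcb]
      exact hb
    · intro hb
      by_contra hcon
      exact hb ⟨a, hcon, rfl⟩
  rw [h2]
  exact (hpc _ h1.isClosed_compl).isOpen_compl

/-- open surjective homomorphisms with compact kernel are closed -/
lemma isClosedMap_of_compact_ker (p : A →ₜ+ B) (hp : Function.Surjective p)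
    (hpo : IsOpenMap p) (hK : IsCompact {a | p a = 0}) : IsClosedMap p := by
  let H : AddSubgroup A := p.toAddMonoidHom.ker
  have hH : ∀ g, g ∈ H ↔ p g = 0 := fun g => Iff.rfl
  let e := quotIso p hp hpo H hH
  have h1 : IsClosedMap (QuotientAddGroup.mk : A → A ⧸ H) :=
    QuotientAddGroup.isClosedMap_coe (H := H) hK
  have h2 : IsClosedMap e := e.toHomeomorph.isClosedMap
  have h3 : (p : A → B) = e ∘ (QuotientAddGroup.mk : A → A ⧸ H) := rfl
  rw [h3]
  exact h2.comp h1

end factor

/-- extensions of strongly reflexive groups by compact groups -/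
theorem stronglyReflexive_of_vec {G : Type u} {J : Type v} {P : Type w} [AddCommGroup G]
    [TopologicalSpace G] [IsTopologicalAddGroup G] [T2Space G] [AddCommGroup P]
    [TopologicalSpace P] [NonarchimedeanAddGroup P]
    (π : G →ₜ+ (J → ℝ) × P) (hπ : Function.Surjective π) (hπo : IsOpenMap π)
    (hK : IsCompact {g | π g = 0}) (hsep : ∀ g, π g = 0 → g ≠ 0 → ∃ χ : Dual G, χ g ≠ 0)
    (hvec : StronglyReflexive ((J → ℝ) × P)) : StronglyReflexive G := by
  intro H hH
  have hπc : IsClosedMap π := isClosedMap_of_compact_ker π hπ hπo hK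
  let L : AddSubgroup ((J → ℝ) × P) := H.map π.toAddMonoidHom
  have hmemL : ∀ z, z ∈ L ↔ ∃ g ∈ H, π g = z := fun z => Iff.rfl
  have hL : IsClosed (L : Set ((J → ℝ) × P)) := hπc _ hH
  have hsr := hvec L hL
  -- the map of the subgroup
  let p₁ : H →ₜ+ L :=
    { toFun := fun h => ⟨π h, h, h.2, rfl⟩
      map_zero' := Subtype.ext (map_zero π)
      map_add' := fun a b => Subtype.ext (map_add π (a : G) (b : G))
      continuous_toFun := (π.continuous_toFun.comp continuous_subtype_val).subtype_mk _ }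
  have hp₁ : ∀ h : H, ((p₁ h : L) : (J → ℝ) × P) = π h := fun h => rfl
  have hp₁s : Function.Surjective p₁ := by
    rintro ⟨z, hz⟩
    obtain ⟨g, hg, rfl⟩ := (hmemL z).1 hz
    exact ⟨⟨g, hg⟩, rfl⟩
  have hp₁c : IsClosedMap p₁ := by
    intro C hC
    have h1 : IsClosed (π '' (Subtype.val '' C)) :=
      hπc _ (hH.isClosedEmbedding_subtypeVal.isClosedMap _ hC)
    have h2 : p₁ '' C = Subtype.val ⁻¹' (π '' (Subtype.val '' C)) := by
      ext z
      constructor
      · rintro ⟨h, hh, rfl⟩
        exact ⟨h, ⟨h, hh, rfl⟩, rfl⟩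
      · rintro ⟨_, ⟨h, hh, rfl⟩, hz⟩
        exact ⟨h, hh, Subtype.ext hz⟩
    rw [h2]
    exact h1.preimage continuous_subtype_val
  have hp₁o : IsOpenMap p₁ := isOpenMap_of_closed p₁ hp₁s hp₁c
  refine ⟨?_, ?_⟩
  · refine isReflexive_of_compact_ker p₁ hp₁s hp₁o ?_ ?_ hsr.1
    · have h1 : {h : H | p₁ h = 0} = Subtype.val ⁻¹' {g | π g = 0} := by
        ext h
        exact Subtype.ext_iff
      rw [h1]
      exact hH.isClosedEmbedding_subtypeVal.isCompact_preimage hK
    · intro h h1 h2
      obtain ⟨χ, hχ⟩ := hsep h (congrArg Subtype.val h1) (fun h3 => h2 (Subtype.ext h3))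
      exact ⟨χ.comp ⟨H.subtype, continuous_subtype_val⟩, hχ⟩
  · have hT2 : T2Space (G ⧸ H) := by
      have : IsClosed (H : Set G) := hH
      infer_instance
    let p₂ : G ⧸ H →ₜ+ ((J → ℝ) × P) ⧸ L :=
      { toAddMonoidHom := QuotientAddGroup.map H L π.toAddMonoidHom (fun g hg => ⟨g, hg, rfl⟩)
        continuous_toFun := by
          apply continuous_quot_lift
          exact (continuous_quot_mk (r := QuotientAddGroup.leftRel L)).comp π.continuous_toFun }
    have hp₂ : ∀ g, p₂ (QuotientAddGroup.mk g) = QuotientAddGroup.mk (π g) := fun g => rfl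
    have hp₂s : Function.Surjective p₂ := by
      intro z
      obtain ⟨z, rfl⟩ := QuotientAddGroup.mk_surjective z
      obtain ⟨g, rfl⟩ := hπ z
      exact ⟨QuotientAddGroup.mk g, rfl⟩
    have hp₂o : IsOpenMap p₂ := by
      intro W hW
      have h1 : p₂ '' W = QuotientAddGroup.mk '' (π '' ((QuotientAddGroup.mk : G → G ⧸ H) ⁻¹' W)) := by
        ext b
        constructor
        · rintro ⟨a, ha, rfl⟩
          obtain ⟨x, rfl⟩ := QuotientAddGroup.mk_surjective a
          exact ⟨π x, ⟨x, ha, rfl⟩, rfl⟩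
        · rintro ⟨_, ⟨x, hx, rfl⟩, rfl⟩
          exact ⟨QuotientAddGroup.mk x, hx, rfl⟩
      rw [h1]
      apply QuotientAddGroup.isOpenMap_coe
      apply hπo
      exact hW.preimage continuous_quot_mk
    have hker : ∀ q, p₂ q = 0 → ∃ k, π k = 0 ∧ QuotientAddGroup.mk k = q := by
      intro q hq
      obtain ⟨g, rfl⟩ := QuotientAddGroup.mk_surjective q
      rw [hp₂, QuotientAddGroup.eq_zero_iff, hmemL] at hq
      obtain ⟨h, hh, hhg⟩ := hq
      refine ⟨g - h, by rw [map_sub, hhg, sub_self], ?_⟩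
      rw [QuotientAddGroup.mk_sub, (QuotientAddGroup.eq_zero_iff h).2 hh, sub_zero]
    refine isReflexive_of_compact_ker p₂ hp₂s hp₂o ?_ ?_ hsr.2
    · have h1 : {q | p₂ q = 0} = (QuotientAddGroup.mk : G → G ⧸ H) '' {g | π g = 0} := by
        ext q
        constructor
        · intro hq
          obtain ⟨k, hk, rfl⟩ := hker q hq
          exact ⟨k, hk, rfl⟩
        · rintro ⟨k, hk, rfl⟩
          show p₂ (QuotientAddGroup.mk k) = 0
          have hk' : π k = 0 := hk
          rw [hp₂, hk']
          rfl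
      rw [h1]
      exact hK.image continuous_quot_mk
    · intro q hq hq0
      obtain ⟨k, hk, rfl⟩ := hker q hq
      have hkH : k ∉ H := fun h => hq0 ((QuotientAddGroup.eq_zero_iff k).2 h)
      -- a character that vanishes on the intersection
      let C : AddSubgroup G := H ⊓ π.toAddMonoidHom.ker
      have hCc : IsCompact (C : Set G) := hK.inter_left hH
      have : CompactSpace C := isCompact_iff_compactSpace.1 hCc
      let ι : C →ₜ+ G := ⟨C.subtype, continuous_subtype_val⟩
      obtain ⟨χ₀, hχ₀, hχ₀k⟩ : ∃ χ₀ : Dual G, (∀ c ∈ C, χ₀ c = 0) ∧ χ₀ k ≠ 0 := by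
        by_contra hcon
        push Not at hcon
        let β : Dual G →+ Dual C := (dualMap ι).toAddMonoidHom
        let Ψ : Dual G →+ UnitAddCircle :=
          { toFun := fun χ => χ k
            map_zero' := rfl
            map_add' := fun _ _ => rfl }
        obtain ⟨c, hc⟩ := exists_point β Ψ (by
          intro χ hχ
          apply hcon
          intro c hc
          exact DFunLike.congr_fun hχ (⟨c, hc⟩ : C))
        apply hkH
        have hkc : k = c := by
          by_contra hne
          obtain ⟨χ, hχ⟩ := hsep (k - c) (by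
            have hc0 : π (c : G) = 0 := c.2.2
            rw [map_sub, hk, hc0, sub_zero]) (sub_ne_zero.2 hne)
          apply hχ
          have h1 : χ k = χ (c : G) := hc χ
          rw [map_sub, h1, sub_self]
        rw [hkc]
        exact c.2.1
      -- correct it
      obtain ⟨ξ₀, hξ₀⟩ := exists_factor p₁ hp₁s hp₁o
        (χ₀.comp (⟨H.subtype, continuous_subtype_val⟩ : H →ₜ+ G)) (by
          intro h hh
          exact hχ₀ h ⟨h.2, congrArg Subtype.val hh⟩)
      obtain ⟨ξ, hξ⟩ := exists_extension_vec L hL ξ₀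
      have hχH : ∀ h ∈ H, (χ₀ - ξ.comp π) h = 0 := by
        intro h hh
        show χ₀ h - ξ (π h) = 0
        have h1 : ξ (π h) = ξ₀ (p₁ ⟨h, hh⟩) := hξ (p₁ ⟨h, hh⟩)
        rw [h1, hξ₀, sub_eq_zero]
        rfl
      refine ⟨⟨QuotientAddGroup.lift H (χ₀ - ξ.comp π).toAddMonoidHom hχH,
        continuous_quot_lift _ (χ₀ - ξ.comp π).continuous_toFun⟩, ?_⟩
      show χ₀ k - ξ (π k) ≠ 0
      rw [hk, map_zero, sub_zero]
      exact hχ₀k

theorem stronglyReflexive_of_compact_ker {G : Type u} {J : Type v} {P : Type w} [AddCommGroup G]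
    [TopologicalSpace G] [IsTopologicalAddGroup G] [T2Space G] [AddCommGroup P]
    [TopologicalSpace P] [NonarchimedeanAddGroup P] [T2Space P] [Countable J]
    (π : G →ₜ+ (J → ℝ) × P) (hπ : Function.Surjective π) (hπo : IsOpenMap π)
    (hK : IsCompact {g | π g = 0}) (hsep : ∀ g, π g = 0 → g ≠ 0 → ∃ χ : Dual G, χ g ≠ 0)
    (hP : LinComplete P) (hA : CondA P) : StronglyReflexive G :=
  stronglyReflexive_of_vec π hπ hπo hK hsep (stronglyReflexive_vec hP hA)

end Pool.Agent.Work.MP_c629c8_al
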