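import Pool.Agent.Work.MP_c629c8_al.Vec.FormsA
import Pool.Agent.Work.MP_c629c8_al.Vec.ThmS

/-!
# Groups with the form: strong reflexivity
-/

universe u v w

namespace Pool.Agent.Work.MP_c629c8_al

open Topology Cardinal

/-- A group with the form that satisfies the condition (A) is strongly reflexive if and only if
`ℝ^J` is a quotient of it only for countable `J`. -/
theorem HasForm.stronglyReflexive_iff {G : Type u} [AddCommGroup G] [TopologicalSpace G]
    [IsTopologicalAddGroup G] [T2Space G] (h : HasForm G) (hA : CondA G) :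
    StronglyReflexive G ↔ ∀ (J : Type) (f : G →ₜ+ (J → ℝ)), Function.Surjective f →
      IsOpenMap f → Countable J := by
  constructor
  · intro hs J f hf hfo
    exact countable_of_stronglyReflexive_vec hs f hf hfo
  · intro hJ
    obtain ⟨hch, J, P, i1, i2, i3, i4, π, hπ, hπo, hK, hP⟩ := h
    have hJc : Countable J :=
      countable_of_forall hJ ((ContinuousAddMonoidHom.fst (J → ℝ) P).comp π)
        (Prod.fst_surjective.comp hπ) (isOpenMap_fst.comp hπo)
    have hPA : CondA P := condA_of_surjective ((ContinuousAddMonoidHom.snd (J → ℝ) P).comp π)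
      (Prod.snd_surjective.comp hπ) (isOpenMap_snd.comp hπo) hA
    exact stronglyReflexive_of_compact_ker π hπ hπo hK (fun g _ hg => hch g hg) hP hPA

section pi

variable {I : Type u} {P : I → Type v} [∀ i, AddCommGroup (P i)] [∀ i, TopologicalSpace (P i)]

/-- products of complete linear groups are complete -/
theorem linComplete_pi' (h : ∀ i, LinComplete (P i)) : LinComplete (∀ i, P i) := by
  intro x hx
  let ρ : ∀ i, OpenAddSubgroup (P i) → OpenAddSubgroup (∀ i, P i) := fun i N =>
    N.comap (Pi.evalAddMonoidHom P i) (continuous_apply i)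
  have hρ : ∀ i (N M : OpenAddSubgroup (P i)), M ≤ N → ρ i M ≤ ρ i N := fun i N M hMN z hz =>
    hMN hz
  have h1 : ∀ i, ∃ y : P i, ∀ N : OpenAddSubgroup (P i), y - x (ρ i N) i ∈ N := fun i =>
    h i (fun N => x (ρ i N) i) fun N M hMN => hx (ρ i N) (ρ i M) (hρ i N M hMN)
  choose y hy using h1
  refine ⟨y, fun N => ?_⟩
  obtain ⟨F, N', hN1, hN2⟩ := exists_box' N.isOpen
  let M : OpenAddSubgroup (∀ i, P i) := ⟨box F N', isOpen_box hN1⟩
  have hMN : M ≤ N := hN2
  have h2 : y - x M ∈ M := by
    intro i hi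
    have h3 : x M - x (ρ i ⟨N' i, hN1 i⟩) ∈ ρ i ⟨N' i, hN1 i⟩ :=
      hx _ _ fun z hz => hz i hi
    have h4 : x M i - x (ρ i ⟨N' i, hN1 i⟩) i ∈ N' i := h3
    have h5 : y i - x (ρ i ⟨N' i, hN1 i⟩) i ∈ N' i := hy i ⟨N' i, hN1 i⟩
    have h6 := (N' i).sub_mem h5 h4
    rwa [sub_sub_sub_cancel_right] at h6
  have h3 := N.add_mem (hMN h2) (hx N M hMN)
  rwa [sub_add_sub_cancel] at h3

end pi

section prod

variable {I : Type u} {L : I → Type v} [∀ i, AddCommGroup (L i)]
  [∀ i, TopologicalSpace (L i)] [∀ i, IsTopologicalAddGroup (L i)]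

/-- regrouping of coordinates -/
def regroup {J P : I → Type v} [∀ i, TopologicalSpace (P i)] :
    (∀ i, (J i → ℝ) × P i) ≃ₜ ((Σ i, J i) → ℝ) × (∀ i, P i) where
  toFun y := (fun s => (y s.1).1 s.2, fun i => (y i).2)
  invFun z i := (fun j => z.1 ⟨i, j⟩, z.2 i)
  left_inv _ := rfl
  right_inv _ := rfl
  continuous_toFun := by fun_prop
  continuous_invFun := by fun_prop

theorem stronglyReflexive_pi_of_form [∀ i, T2Space (L i)] (hF : ∀ i, HasForm (L i))
    (hA : ∀ i, CondA (L i)) (hs : ∀ i, StronglyReflexive (L i))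
    (hR : {i | ∃ f : L i →ₜ+ ℝ, Function.Surjective f ∧ IsOpenMap f}.Countable)
    (hE : {i | ¬ ArtinianQuotients (L i)}.Countable) : StronglyReflexive (∀ i, L i) := by
  classical
  choose J P i1 i2 i3 i4 π hπ hπo hK hP using fun i => (hF i).2
  have hJ : ∀ i, Countable (J i) := fun i =>
    countable_of_stronglyReflexive_vec (hs i) ((ContinuousAddMonoidHom.fst (J i → ℝ) (P i)).comp
      (π i)) (Prod.fst_surjective.comp (hπ i)) (isOpenMap_fst.comp (hπo i))
  have hJ1 : {i | Nonempty (J i)}.Countable := by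
    refine hR.mono ?_
    rintro i ⟨j⟩
    let ι : Unit → J i := fun _ => j
    have hι : Function.Injective ι := Function.injective_of_subsingleton ι
    let ε : (Unit → ℝ) →ₜ+ ℝ := ⟨Pi.evalAddMonoidHom (fun _ : Unit => ℝ) (), continuous_apply _⟩
    have hs1 : Function.Surjective ((restr ι).comp
        ((ContinuousAddMonoidHom.fst (J i → ℝ) (P i)).comp (π i))) :=
      (restr_surjective hι).comp (Prod.fst_surjective.comp (hπ i))
    have ho1 : IsOpenMap ((restr ι).comp
        ((ContinuousAddMonoidHom.fst (J i → ℝ) (P i)).comp (π i))) :=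
      (restr_isOpenMap hι).comp (isOpenMap_fst.comp (hπo i))
    have hε : Function.Surjective ε := fun t => ⟨fun _ => t, rfl⟩
    have hεo : IsOpenMap ε := isOpenMap_eval _
    exact ⟨ε.comp ((restr ι).comp ((ContinuousAddMonoidHom.fst (J i → ℝ) (P i)).comp (π i))),
      hε.comp hs1, hεo.comp ho1⟩
  have hJ2 : Countable (Σ i, J i) := by
    have : Countable {i | Nonempty (J i)} := hJ1.to_subtype
    have h1 : Function.Surjective (fun s : Σ i : {i | Nonempty (J i)}, J i =>
        (⟨s.1, s.2⟩ : Σ i, J i)) := by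
      rintro ⟨i, j⟩
      exact ⟨⟨⟨i, ⟨j⟩⟩, j⟩, rfl⟩
    exact h1.countable
  let Φ : (∀ i, L i) →ₜ+ ((Σ i, J i) → ℝ) × (∀ i, P i) :=
    { toFun := fun x => regroup (Pi.map (fun i => π i) x)
      map_zero' := by
        ext
        · simp [regroup]
        · simp [regroup]
      map_add' := fun x y => by
        ext
        · simp [regroup]
        · simp [regroup]
      continuous_toFun := regroup.continuous.comp
        (Continuous.piMap fun i => (π i).continuous_toFun) }
  have hΦ : Function.Surjective Φ := regroup.surjective.comp (Function.Surjective.piMap hπ)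
  have hΦo : IsOpenMap Φ := regroup.isOpenMap.comp
    (IsOpenMap.piMap hπo (Filter.Eventually.of_forall hπ))
  have hΦ0 : ∀ x, Φ x = 0 ↔ ∀ i, π i (x i) = 0 := by
    intro x
    have h1 : Φ x = regroup (Pi.map (fun i => π i) x) := rfl
    have h2 : (0 : ((Σ i, J i) → ℝ) × (∀ i, P i)) = regroup (fun i => 0) := rfl
    rw [h1, h2, regroup.injective.eq_iff, funext_iff]
    rfl
  have hK' : IsCompact {x | Φ x = 0} := by
    have h1 : {x | Φ x = 0} = Set.univ.pi fun i => {x | π i x = 0} := by
      ext x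
      simp [hΦ0, Set.mem_pi]
    rw [h1]
    exact isCompact_univ_pi hK
  refine stronglyReflexive_of_compact_ker Φ hΦ hΦo hK' (fun g _ hg => ?_) (linComplete_pi' hP)
    (condA_of_surjective ((ContinuousAddMonoidHom.snd _ _).comp Φ)
      (Prod.snd_surjective.comp hΦ) (isOpenMap_snd.comp hΦo) (condA_pi' hA hE))
  obtain ⟨i, hi⟩ := Function.ne_iff.1 hg
  obtain ⟨χ, hχ⟩ := (hF i).1 (g i) hi
  exact ⟨χ.comp ⟨Pi.evalAddMonoidHom L i, continuous_apply i⟩, hχ⟩

end prod

end Pool.Agent.Work.MP_c629c8_al
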