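import Pool.Agent.Work.MP_c629c8_al.Vec.Defs

/-!
# The characters of an abelian pro-Lie group separate its points
-/

universe u

namespace Pool.Agent.Work.MP_c629c8_al

open Topology

/-- characters separate the points of `ℝ^n × (ℝ/ℤ)^m` -/
lemma exists_char_vec {n m : ℕ} {z : (Fin n → ℝ) × (Fin m → UnitAddCircle)} (hz : z ≠ 0) :
    ∃ χ : Dual ((Fin n → ℝ) × (Fin m → UnitAddCircle)), χ z ≠ 0 := by
  by_cases h1 : z.1 = 0
  · have h2 : z.2 ≠ 0 := fun h2 => hz (Prod.ext h1 h2)
    obtain ⟨j, hj⟩ := Function.ne_iff.1 h2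
    exact ⟨{ toFun := fun w => w.2 j
             map_zero' := rfl
             map_add' := fun _ _ => rfl
             continuous_toFun := (continuous_apply j).comp continuous_snd }, hj⟩
  · obtain ⟨i, hi⟩ := Function.ne_iff.1 h1
    have hi' : z.1 i ≠ 0 := hi
    refine ⟨{ toFun := fun w => (((2 * z.1 i)⁻¹ * w.1 i : ℝ) : UnitAddCircle)
              map_zero' := by
                show (((2 * z.1 i)⁻¹ * (0 : ℝ) : ℝ) : UnitAddCircle) = 0
                rw [mul_zero]
                rfl
              map_add' := fun a b => by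
                show (((2 * z.1 i)⁻¹ * (a.1 i + b.1 i) : ℝ) : UnitAddCircle) = _
                rw [mul_add]
                rfl
              continuous_toFun := (AddCircle.continuous_mk' 1).comp
                (continuous_const.mul ((continuous_apply i).comp continuous_fst)) }, ?_⟩
    show (((2 * z.1 i)⁻¹ * z.1 i : ℝ) : UnitAddCircle) ≠ 0
    have h3 : (2 * z.1 i)⁻¹ * z.1 i = 1 / 2 := by
      field_simp
    rw [h3, Ne, AddCircle.coe_eq_zero_iff]
    rintro ⟨k, hk⟩
    rw [zsmul_eq_mul, mul_one] at hk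
    have h4 : ((2 * k : ℤ) : ℝ) = ((1 : ℤ) : ℝ) := by
      push_cast
      linarith
    have h5 := Int.cast_injective h4
    omega

/-- the characters of a finite-dimensional abelian Lie group separate its points -/
lemma IsAbLie.exists_char {Q : Type u} [AddCommGroup Q] [TopologicalSpace Q]
    [IsTopologicalAddGroup Q] (h : IsAbLie Q) {q : Q} (hq : q ≠ 0) : ∃ χ : Dual Q, χ q ≠ 0 := by
  obtain ⟨n, m, U, hU, ⟨e⟩⟩ := h
  by_cases hqU : q ∈ U
  · have h1 : e ⟨q, hqU⟩ ≠ 0 := by
      rw [Ne, EmbeddingLike.map_eq_zero_iff]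
      exact fun h => hq (congrArg Subtype.val h)
    obtain ⟨χ, hχ⟩ := exists_char_vec h1
    let ψ : U →+ UnitAddCircle := χ.toAddMonoidHom.comp e.toAddEquiv.toAddMonoidHom
    have hψ : Continuous ψ := χ.continuous_toFun.comp e.continuous
    obtain ⟨f, hf⟩ := exists_extension U.subtype Subtype.val_injective ψ
    refine ⟨⟨f, ?_⟩, ?_⟩
    · apply continuous_of_continuousAt_zero f
      have h2 : ContinuousAt (f ∘ (Subtype.val : U → Q)) 0 := by
        have h3 : f ∘ (Subtype.val : U → Q) = ψ := funext hf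
        rw [h3]
        exact hψ.continuousAt
      have h4 := (hU.isOpenEmbedding_subtypeVal.continuousAt_iff (g := f) (x := (0 : U))).1 h2
      exact h4
    · show f q ≠ 0
      have h2 := hf ⟨q, hqU⟩
      have h3 : f q = χ (e ⟨q, hqU⟩) := h2
      rw [h3]
      exact hχ
  · obtain ⟨χ, -, hχ⟩ := exists_dual_ne_zero (G := Q) ⟨U, hU⟩ hqU
    exact ⟨χ, hχ⟩

/-- the characters of an abelian pro-Lie group separate its points -/
theorem ProLie.exists_char {G : Type u} [AddCommGroup G] [TopologicalSpace G]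
    [IsTopologicalAddGroup G] [T2Space G] (h : ProLie G) {g : G} (hg : g ≠ 0) :
    ∃ χ : Dual G, χ g ≠ 0 := by
  obtain ⟨N, -, hN, hQ⟩ := h {g}ᶜ (isOpen_compl_singleton.mem_nhds (Ne.symm hg))
  have hgN : (QuotientAddGroup.mk g : G ⧸ N) ≠ 0 := by
    rw [Ne, QuotientAddGroup.eq_zero_iff]
    exact fun h' => hN h' rfl
  obtain ⟨χ, hχ⟩ := hQ.exists_char hgN
  exact ⟨⟨χ.toAddMonoidHom.comp (QuotientAddGroup.mk' N),
    χ.continuous_toFun.comp continuous_quot_mk⟩, hχ⟩

end Pool.Agent.Work.MP_c629c8_al
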