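import Mathlib
import Pool.Agent.Work.MP_c629c8_al.Vec.Coord
import Pool.Agent.Work.MP_c629c8_al.Vec.PL0
import Pool.Agent.Work.MP_c629c8_al.Vec.PLChar
import Pool.Agent.Work.MP_c629c8_al.Vec.Integ

/-!
# The form of an abelian pro-Lie group
-/

universe u v w

namespace Pool.Agent.Work.MP_c629c8_al

open Topology

section pl

theorem ProLie.hasForm {G : Type u} [AddCommGroup G] [UniformSpace G] [IsUniformAddGroup G]
    [CompleteSpace G] [T2Space G] (h : ProLie G) : HasForm G := by
  refine ⟨fun g hg => h.exists_char hg, ?_⟩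
  obtain ⟨J, P, iP, iT, iN, iH, Φ, hc, hΦ⟩ := h.exists_proper
  -- the image
  let H : AddSubgroup ((J → ℝ) × P) := (Φ : G →+ (J → ℝ) × P).range
  have hH : IsClosed (H : Set ((J → ℝ) × P)) := by
    have : (H : Set ((J → ℝ) × P)) = Set.range Φ := rfl
    rw [this]
    exact hΦ.isClosedMap.isClosed_range
  obtain ⟨α, β, e, H', hI, hH', hiff, -⟩ := exists_coord H hH
  have hmem : ∀ g, (e (Φ g)).2 ∈ H' := fun g => (hiff _).1 ⟨g, rfl⟩
  have hN : NonarchimedeanAddGroup H' := hI.nonarchimedean
  let π : G →ₜ+ (β → ℝ) × H' :=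
    { toFun := fun g => ((e (Φ g)).1, ⟨(e (Φ g)).2, hmem g⟩)
      map_zero' := by
        refine Prod.ext ?_ (Subtype.ext ?_)
        · show (e (Φ 0)).1 = 0
          rw [map_zero, map_zero]
          rfl
        · show (e (Φ 0)).2 = 0
          rw [map_zero, map_zero]
          rfl
      map_add' := fun a b => by
        refine Prod.ext ?_ (Subtype.ext ?_)
        · show (e (Φ (a + b))).1 = (e (Φ a)).1 + (e (Φ b)).1
          rw [map_add, map_add]
          rfl
        · show (e (Φ (a + b))).2 = (e (Φ a)).2 + (e (Φ b)).2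
          rw [map_add, map_add]
          rfl
      continuous_toFun := by
        have hc1 : Continuous fun g => e (Φ g) := e.continuous.comp Φ.continuous_toFun
        exact (continuous_fst.comp hc1).prodMk
          ((continuous_snd.comp hc1).subtype_mk _) }
  have hsurj : Function.Surjective π := by
    rintro ⟨y, z⟩
    have h1 : e.symm (y, (z : (α → ℝ) × P)) ∈ H := by
      rw [hiff, ContinuousAddEquiv.apply_symm_apply]
      exact z.2
    obtain ⟨g, hg⟩ := h1
    have hg' : Φ g = e.symm (y, (z : (α → ℝ) × P)) := hg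
    refine ⟨g, Prod.ext ?_ (Subtype.ext ?_)⟩
    · show (e (Φ g)).1 = y
      rw [hg', ContinuousAddEquiv.apply_symm_apply]
    · show (e (Φ g)).2 = z
      rw [hg', ContinuousAddEquiv.apply_symm_apply]
  have hproper : IsProperMap π := by
    refine isProperMap_of_comp_of_inj (g := Prod.map id (Subtype.val : H' → (α → ℝ) × P))
      π.continuous_toFun (continuous_id.prodMap continuous_subtype_val) ?_ ?_
    · have h1 : IsProperMap fun g => e (Φ g) :=
        (e.toHomeomorph.isClosedEmbedding.isProperMap).comp hΦ
      exact h1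
    · exact Function.injective_id.prodMap Subtype.val_injective
  have hopen : IsOpenMap π := isOpenMap_of_isProperMap π hsurj hproper
  have hT : T2Space H' := inferInstance
  refine ⟨β, H', inferInstance, inferInstance, hN, hT, π, hsurj, hopen, ?_,
    hI.linComplete hH' hc⟩
  have : {g | π g = 0} = π ⁻¹' {0} := rfl
  rw [this]
  exact hproper.isCompact_preimage isCompact_singleton

end pl

end Pool.Agent.Work.MP_c629c8_al
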