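import Mathlib
import Pool.Agent.Work.MP_c629c8_al.Vec.Tr
import Pool.Agent.Work.MP_c629c8_al.Vec.OpenSub

/-!
# Products with discrete groups
-/

universe u v w

namespace Pool.Agent.Work.MP_c629c8_al

open Topology

section disc

variable {D : Type u} {P : Type v} [AddCommGroup D] [TopologicalSpace D] [AddCommGroup P]
  [TopologicalSpace P]

/-- the trace of a subgroup on the second factor -/
def traceSnd (H : AddSubgroup (D × P)) : AddSubgroup P := H.comap (AddMonoidHom.inr D P)

omit [TopologicalSpace D] [TopologicalSpace P] in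
lemma mem_traceSnd {H : AddSubgroup (D × P)} {p : P} : p ∈ traceSnd H ↔ ((0 : D), p) ∈ H :=
  Iff.rfl

/-- the trace of a subgroup on the second factor, as a subgroup of the subgroup -/
def zeroFst (H : AddSubgroup (D × P)) : AddSubgroup H :=
  (AddMonoidHom.fst D P).ker.comap H.subtype

omit [TopologicalSpace D] [TopologicalSpace P] in
lemma mem_zeroFst {H : AddSubgroup (D × P)} {z : H} : z ∈ zeroFst H ↔ (z : D × P).1 = 0 := Iff.rfl

/-- the inclusion of the trace -/
def traceIncl (H : AddSubgroup (D × P)) : traceSnd H →ₜ+ H where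
  toFun p := ⟨((0 : D), (p : P)), p.2⟩
  map_zero' := rfl
  map_add' x y := Subtype.ext (by
    show ((0 : D), ((x : P) + (y : P))) = ((0 : D), (x : P)) + ((0 : D), (y : P))
    rw [Prod.mk_add_mk, add_zero])
  continuous_toFun := (continuous_const.prodMk continuous_subtype_val).subtype_mk _

lemma isEmbedding_traceIncl (H : AddSubgroup (D × P)) : IsEmbedding (traceIncl H) := by
  have h1 : IsEmbedding (fun p : traceSnd H => ((0 : D), (p : P))) :=
    (isEmbedding_prodMkRight (0 : D)).comp IsEmbedding.subtypeVal
  exact IsEmbedding.of_comp (traceIncl H).continuous_toFun continuous_subtype_val h1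

/-- the image of the second factor in the quotient -/
def imageSnd (H : AddSubgroup (D × P)) : AddSubgroup ((D × P) ⧸ H) :=
  (AddMonoidHom.inr D P).range.map (QuotientAddGroup.mk' H)

/-- the map from the second factor to its image in the quotient -/
def toImageSnd (H : AddSubgroup (D × P)) : P →ₜ+ imageSnd H where
  toFun p := ⟨QuotientAddGroup.mk' H ((0 : D), p), ⟨((0 : D), p), ⟨p, rfl⟩, rfl⟩⟩
  map_zero' := rfl
  map_add' x y := Subtype.ext (by
    show QuotientAddGroup.mk' H ((0 : D), x + y) =
      QuotientAddGroup.mk' H ((0 : D), x) + QuotientAddGroup.mk' H ((0 : D), y)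
    rw [← map_add, Prod.mk_add_mk, add_zero])
  continuous_toFun := (continuous_quot_mk.comp (continuous_const.prodMk continuous_id)).subtype_mk _

lemma toImageSnd_surjective (H : AddSubgroup (D × P)) : Function.Surjective (toImageSnd H) := by
  rintro ⟨_, _, ⟨p, rfl⟩, rfl⟩
  exact ⟨p, rfl⟩

omit [AddCommGroup P] in
lemma isOpenMap_inr [DiscreteTopology D] : IsOpenMap (fun p : P => ((0 : D), p)) := by
  intro W hW
  have h1 : (fun p : P => ((0 : D), p)) '' W = ({0} : Set D) ×ˢ W := by
    ext ⟨d, p⟩
    constructor
    · rintro ⟨q, hq, hqe⟩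
      obtain ⟨rfl, rfl⟩ := Prod.mk.injEq _ _ _ _ ▸ hqe
      exact ⟨rfl, hq⟩
    · rintro ⟨hd, hp⟩
      obtain rfl : d = 0 := hd
      exact ⟨p, hp, rfl⟩
  rw [h1]
  exact (isOpen_discrete _).prod hW

theorem StronglyReflexive.discrete_prod {D : Type u} {P : Type v} [AddCommGroup D]
    [TopologicalSpace D] [DiscreteTopology D] [AddCommGroup P] [TopologicalSpace P]
    [IsTopologicalAddGroup P] (h : StronglyReflexive P) : StronglyReflexive (D × P) := by
  intro H hH
  have hK : IsClosed (traceSnd H : Set P) :=
    hH.preimage (continuous_const.prodMk continuous_id)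
  obtain ⟨h1, h2⟩ := h _ hK
  constructor
  · refine isReflexive_of_open_subgroup (zeroFst H) ?_ ?_
    · exact (isOpen_discrete ({0} : Set D)).preimage
        (continuous_fst.comp continuous_subtype_val)
    · refine isReflexive_subgroup_of (traceIncl H) (isEmbedding_traceIncl H) _ (fun g => ?_) h1
      rw [mem_zeroFst]
      constructor
      · intro hg
        refine ⟨⟨(g : D × P).2, ?_⟩, Subtype.ext (Prod.ext hg.symm rfl)⟩
        rw [mem_traceSnd, ← hg]
        exact g.2
      · rintro ⟨p, rfl⟩
        rfl
  · refine isReflexive_of_open_subgroup (imageSnd H) ?_ ?_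
    · refine QuotientAddGroup.isOpenMap_coe (N := H) _ ?_
      have h3 : ((AddMonoidHom.inr D P).range : Set (D × P)) = Set.range fun p : P => ((0 : D), p) :=
        rfl
      rw [h3]
      exact isOpenMap_inr.isOpen_range
    · refine isReflexive_of_quotient (toImageSnd H) (toImageSnd_surjective H) ?_ (traceSnd H)
        (fun p => ?_) h2
      · intro W hW
        have h3 : IsOpen ((QuotientAddGroup.mk : D × P → (D × P) ⧸ H) ''
            ((fun p : P => ((0 : D), p)) '' W)) :=
          QuotientAddGroup.isOpenMap_coe _ (isOpenMap_inr W hW)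
        have h4 : toImageSnd H '' W = (Subtype.val : imageSnd H → (D × P) ⧸ H) ⁻¹'
            ((QuotientAddGroup.mk : D × P → (D × P) ⧸ H) '' ((fun p : P => ((0 : D), p)) '' W)) := by
          ext q
          constructor
          · rintro ⟨p, hp, rfl⟩
            exact ⟨_, ⟨p, hp, rfl⟩, rfl⟩
          · rintro ⟨_, ⟨p, hp, rfl⟩, hq⟩
            exact ⟨p, hp, Subtype.ext hq⟩
        rw [h4]
        exact h3.preimage continuous_subtype_val
      · rw [mem_traceSnd, ← QuotientAddGroup.eq_zero_iff]
        constructor
        · intro hp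
          exact Subtype.ext hp
        · intro hp
          exact congrArg Subtype.val hp

end disc

end Pool.Agent.Work.MP_c629c8_al
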