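import Pool.Agent.Work.MP_c629c8_al.Vec.VecRefl
import Pool.Agent.Work.MP_c629c8_al.Vec.OpenSub
import Pool.Agent.Work.MP_c629c8_al.Vec.Disc

/-!
# Finite powers of the real line

If `P` is a strongly reflexive Hausdorff group with a basis at zero of open subgroups and `J` is
finite, then `(J → ℝ) × P` is strongly reflexive.
-/

universe u v w

namespace Pool.Agent.Work.MP_c629c8_al

open Topology

section openhom

variable {A : Type u} {G : Type v} [AddCommGroup A] [TopologicalSpace A] [IsTopologicalAddGroup A]
  [AddCommGroup G] [TopologicalSpace G] [IsTopologicalAddGroup G]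

/-- a group is reflexive if it is the target of an open homomorphism whose coimage is reflexive -/
theorem isReflexive_of_open_hom (f : A →ₜ+ G) (hf : IsOpenMap f) (K : AddSubgroup A)
    (hK : ∀ a, a ∈ K ↔ f a = 0) (h : IsReflexive (A ⧸ K)) : IsReflexive G := by
  let R : AddSubgroup G := f.toAddMonoidHom.range
  have hR : IsOpen (R : Set G) := by
    have h1 : (R : Set G) = Set.range f := rfl
    rw [h1]
    exact hf.isOpen_range
  let g : A →ₜ+ R :=
    { toFun := fun a => ⟨f a, a, rfl⟩
      map_zero' := Subtype.ext (map_zero f)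
      map_add' := fun a b => Subtype.ext (map_add f a b)
      continuous_toFun := f.continuous_toFun.subtype_mk _ }
  have hg : Function.Surjective g := by
    rintro ⟨_, a, rfl⟩
    exact ⟨a, rfl⟩
  have hgo : IsOpenMap g := by
    intro W hW
    have h1 : g '' W = (Subtype.val : R → G) ⁻¹' (f '' W) := by
      ext z
      constructor
      · rintro ⟨a, ha, rfl⟩
        exact ⟨a, ha, rfl⟩
      · rintro ⟨a, ha, haz⟩
        exact ⟨a, ha, Subtype.ext haz⟩
    rw [h1]
    exact (hf W hW).preimage continuous_subtype_val
  have hgK : ∀ a, a ∈ K ↔ g a = 0 := fun a => by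
    rw [hK]
    constructor
    · intro h1
      exact Subtype.ext h1
    · intro h1
      exact congrArg Subtype.val h1
  exact isReflexive_of_open_subgroup R hR (isReflexive_of_quotient g hg hgo K hgK h)

/-- the same for injective open homomorphisms -/
theorem isReflexive_of_open_injective (f : A →ₜ+ G) (hf : IsOpenMap f)
    (hi : Function.Injective f) (h : IsReflexive A) : IsReflexive G := by
  refine isReflexive_of_open_hom f hf ⊥ (fun a => ?_) ?_
  · rw [AddSubgroup.mem_bot]
    constructor
    · rintro rfl
      exact map_zero f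
    · intro h1
      exact hi (h1.trans (map_zero f).symm)
  · refine isReflexive_quotient_of (ContinuousAddMonoidHom.id A) Function.surjective_id
      IsOpenMap.id ⊥ (fun a => ?_) h
    rw [AddSubgroup.mem_bot]
    rfl

end openhom

section opensub

variable {G : Type u} [AddCommGroup G] [TopologicalSpace G] [IsTopologicalAddGroup G]

/-- open subgroups of strongly reflexive groups are strongly reflexive -/
theorem StronglyReflexive.open_subgroup (h : StronglyReflexive G) (U : AddSubgroup G)
    (hU : IsOpen (U : Set G)) : StronglyReflexive U := by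
  intro H hH
  have hUc : IsClosed (U : Set G) := AddSubgroup.isClosed_of_isOpen U hU
  let H₁ : AddSubgroup G := H.map U.subtype
  have hmem : ∀ x : U, (x : G) ∈ H₁ ↔ x ∈ H := by
    intro x
    constructor
    · rintro ⟨y, hy, hyx⟩
      have h1 : y = x := Subtype.ext hyx
      rwa [← h1]
    · intro hx
      exact ⟨x, hx, rfl⟩
  have hle : ∀ z ∈ H₁, z ∈ U := by
    rintro _ ⟨y, -, rfl⟩
    exact y.2
  have hH₁ : IsClosed (H₁ : Set G) := by
    have h1 : (H₁ : Set G) = (Subtype.val : U → G) '' (H : Set U) := rfl
    rw [h1]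
    exact (hUc.isClosedEmbedding_subtypeVal).isClosedMap _ hH
  obtain ⟨h1, h2⟩ := h H₁ hH₁
  constructor
  · -- the subgroup
    let f : H₁ →ₜ+ H :=
      { toFun := fun z => ⟨⟨z.1, hle z.1 z.2⟩, (hmem ⟨z.1, hle z.1 z.2⟩).1 z.2⟩
        map_zero' := rfl
        map_add' := fun a b => rfl
        continuous_toFun := (continuous_subtype_val.subtype_mk _).subtype_mk _ }
    let g : H →ₜ+ H₁ :=
      { toFun := fun z => ⟨(z.1 : G), (hmem z.1).2 z.2⟩
        map_zero' := rfl
        map_add' := fun a b => rfl
        continuous_toFun := (continuous_subtype_val.comp continuous_subtype_val).subtype_mk _ }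
    exact IsReflexive.of_iso f g (fun _ => rfl) (fun _ => rfl) h1
  · -- the quotient
    let π : G →+ G ⧸ H₁ := QuotientAddGroup.mk' H₁
    have hπc : Continuous π := continuous_quot_mk
    have hπo : IsOpenMap π := QuotientAddGroup.isOpenMap_coe
    let R : AddSubgroup (G ⧸ H₁) := U.map π
    have hR : IsOpen (R : Set (G ⧸ H₁)) := hπo _ hU
    have h3 : IsReflexive R := h2.open_subgroup R hR
    let f : U →ₜ+ R :=
      { toFun := fun x => ⟨π x, x, x.2, rfl⟩
        map_zero' := Subtype.ext (map_zero π)
        map_add' := fun a b => Subtype.ext (map_add π (a : G) b)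
        continuous_toFun := (hπc.comp continuous_subtype_val).subtype_mk _ }
    refine isReflexive_quotient_of f ?_ ?_ H (fun x => ?_) h3
    · rintro ⟨_, x, hx, rfl⟩
      exact ⟨⟨x, hx⟩, rfl⟩
    · intro W hW
      have h4 : f '' W = (Subtype.val : R → G ⧸ H₁) ⁻¹' (π '' ((Subtype.val : U → G) '' W)) := by
        ext z
        constructor
        · rintro ⟨a, ha, rfl⟩
          exact ⟨a, ⟨a, ha, rfl⟩, rfl⟩
        · rintro ⟨_, ⟨a, ha, rfl⟩, haz⟩
          exact ⟨a, ha, Subtype.ext haz⟩
      rw [h4]
      exact (hπo _ (hU.isOpenEmbedding_subtypeVal.isOpenMap _ hW)).preimage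
        continuous_subtype_val
    · rw [← hmem]
      constructor
      · intro hx
        exact Subtype.ext ((QuotientAddGroup.eq_zero_iff _).2 hx)
      · intro hx
        exact (QuotientAddGroup.eq_zero_iff _).1 (congrArg Subtype.val hx)

end opensub

section int

variable {γ : Type u} {P : Type v} [AddCommGroup P] [TopologicalSpace P]

/-- the inclusion of the integral points -/
def intIncl (γ : Type u) (P : Type v) [AddCommGroup P] : (γ → ℤ) × P →+ (γ → ℝ) × P where
  toFun z := (fun k => (z.1 k : ℝ), z.2)
  map_zero' := Prod.ext (funext fun _ => Int.cast_zero) rfl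
  map_add' _ _ := Prod.ext (funext fun _ => Int.cast_add _ _) rfl

lemma continuous_intIncl : Continuous (intIncl γ P) := by
  refine Continuous.prodMk (continuous_pi fun k => ?_) continuous_snd
  exact continuous_of_discreteTopology.comp ((continuous_apply k).comp continuous_fst)

/-- the integral points of a subgroup -/
def intPart (L : AddSubgroup ((γ → ℝ) × P)) : AddSubgroup ((γ → ℤ) × P) := L.comap (intIncl γ P)

lemma isClosed_intPart {L : AddSubgroup ((γ → ℝ) × P)} (hL : IsClosed (L : Set ((γ → ℝ) × P))) :
    IsClosed (intPart L : Set ((γ → ℤ) × P)) := hL.preimage continuous_intIncl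

/-- the inclusion of the integral points of a subgroup -/
def intMap (L : AddSubgroup ((γ → ℝ) × P)) : intPart L →ₜ+ L where
  toFun z := ⟨intIncl γ P z.1, z.2⟩
  map_zero' := Subtype.ext (map_zero (intIncl γ P))
  map_add' a b := Subtype.ext (map_add (intIncl γ P) a.1 b.1)
  continuous_toFun := (continuous_intIncl.comp continuous_subtype_val).subtype_mk _

lemma intMap_injective (L : AddSubgroup ((γ → ℝ) × P)) : Function.Injective (intMap L) := by
  intro a b hab
  have h1 : intIncl γ P a.1 = intIncl γ P b.1 := congrArg Subtype.val hab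
  have h3 : a.1.2 = b.1.2 := congrArg (fun z : (γ → ℝ) × P => z.2) h1
  refine Subtype.ext (Prod.ext (funext fun k => ?_) h3)
  have h2 : ((a.1.1 k : ℤ) : ℝ) = ((b.1.1 k : ℤ) : ℝ) := congrFun (congrArg Prod.fst h1) k
  exact Int.cast_injective h2

lemma eq_zero_of_coe {x : ℝ} (h : ((x : ℝ) : UnitAddCircle) = 0) (hx : |x| < 1 / 2) : x = 0 := by
  obtain ⟨n, hn⟩ := AddCircle.coe_eq_zero_iff (p := (1 : ℝ)) (x := x) |>.1 h
  rw [zsmul_eq_mul, mul_one] at hn
  rw [← hn] at hx ⊢
  have h1 : |(n : ℝ)| < 1 := by linarith
  rw [← Int.cast_abs] at h1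
  have h2 : |n| < 1 := by exact_mod_cast h1
  rw [Int.abs_lt_one_iff.1 h2, Int.cast_zero]

theorem isOpenMap_intMap [Finite γ] [IsTopologicalAddGroup P] {L : AddSubgroup ((γ → ℝ) × P)}
    (hI : Integral L) : IsOpenMap (intMap L) := by
  have h0 : IsOpenMap (intMap L).toAddMonoidHom := by
    rw [IsTopologicalAddGroup.isOpenMap_iff_nhds_zero]
    intro W hW
    rw [Filter.mem_map] at hW
    choose N hN using hI
    -- a neighbourhood of zero
    obtain ⟨O, hO, hOW⟩ := mem_nhds_subtype _ _ _ |>.1 hW
    have hW2 : {y : P | ((0 : γ → ℤ), y) ∈ O} ∈ 𝓝 (0 : P) := by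
      have hc : Continuous fun y : P => ((0 : γ → ℤ), y) := continuous_const.prodMk continuous_id
      exact hc.continuousAt.preimage_mem_nhds (by exact hO)
    have hT : {z : L | (∀ k, |z.1.1 k| < 1 / 2) ∧ (∀ k, z.1.2 ∈ N k) ∧
        ((0 : γ → ℤ), z.1.2) ∈ O} ∈ 𝓝 (0 : L) := by
      refine Filter.inter_mem ?_ (Filter.inter_mem ?_ ?_)
      · refine (Filter.eventually_all (l := 𝓝 (0 : L))
          (p := fun k z => |z.1.1 k| < 1 / 2)).2 fun k => ?_
        have hc : Continuous fun z : L => |z.1.1 k| :=
          ((continuous_apply k).comp (continuous_fst.comp continuous_subtype_val)).abs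
        refine hc.continuousAt.eventually_lt continuousAt_const ?_
        show |((0 : γ → ℝ) k)| < 1 / 2
        rw [Pi.zero_apply, abs_zero]
        norm_num
      · refine (Filter.eventually_all (l := 𝓝 (0 : L)) (p := fun k z => z.1.2 ∈ N k)).2
          fun k => ?_
        have hc : Continuous fun z : L => z.1.2 := continuous_snd.comp continuous_subtype_val
        exact hc.continuousAt.preimage_mem_nhds (by exact (N k).mem_nhds_zero)
      · have hc : Continuous fun z : L => z.1.2 := continuous_snd.comp continuous_subtype_val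
        have h9 : Filter.Tendsto (fun z : L => z.1.2) (𝓝 0) (𝓝 (0 : P)) := hc.tendsto 0
        exact h9 hW2
    refine Filter.mem_of_superset hT ?_
    rintro z ⟨hz1, hz2, hz3⟩
    have hz : z.1.1 = 0 := funext fun k =>
      eq_zero_of_coe (hN k z.1.1 z.1.2 z.2 (hz2 k)) (hz1 k)
    have hz' : z.1 = intIncl γ P ((0 : γ → ℤ), z.1.2) :=
      Prod.ext (hz.trans (funext fun _ => Int.cast_zero.symm)) rfl
    have hmem : ((0 : γ → ℤ), z.1.2) ∈ intPart L := by
      show intIncl γ P ((0 : γ → ℤ), z.1.2) ∈ L
      rw [← hz']
      exact z.2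
    have h5 : (⟨((0 : γ → ℤ), z.1.2), hmem⟩ : intPart L) ∈
        (intMap L).toAddMonoidHom ⁻¹' (W) := hOW hz3
    have h6 : (intMap L) ⟨((0 : γ → ℤ), z.1.2), hmem⟩ = z := Subtype.ext hz'.symm
    have h7 : (intMap L) ⟨((0 : γ → ℤ), z.1.2), hmem⟩ ∈ W := h5
    rwa [h6] at h7
  exact h0

/-- closed integral subgroups are reflexive -/
theorem isReflexive_integral_of_finite [Finite γ] [IsTopologicalAddGroup P]
    (h : StronglyReflexive P) {L : AddSubgroup ((γ → ℝ) × P)} (hI : Integral L)
    (hL : IsClosed (L : Set ((γ → ℝ) × P))) : IsReflexive L := by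
  have h1 : StronglyReflexive ((γ → ℤ) × P) := h.discrete_prod
  exact isReflexive_of_open_injective (intMap L) (isOpenMap_intMap hI) (intMap_injective L)
    (h1 _ (isClosed_intPart hL)).1

end int

section quot

variable {α : Type u} {P : Type v} [AddCommGroup P] [TopologicalSpace P]
  [NonarchimedeanAddGroup P] [T2Space P]

omit [T2Space P] in
lemma isOpen_intPart_graphB [Finite α] (ψ : α → Dual P) :
    IsOpen (intPart (graphB ψ) : Set ((α → ℤ) × P)) := by
  choose N hN using fun j => exists_open_ker (ψ j)
  refine (intPart (graphB ψ)).isOpen_of_mem_nhds (g := 0) ?_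
  have h1 : {z : (α → ℤ) × P | ∀ k, z.2 ∈ N k} ∈ 𝓝 (0 : (α → ℤ) × P) := by
    refine (Filter.eventually_all (l := 𝓝 (0 : (α → ℤ) × P)) (p := fun k z => z.2 ∈ N k)).2
      fun k => ?_
    exact continuous_snd.continuousAt.preimage_mem_nhds (by exact (N k).mem_nhds_zero)
  refine Filter.mem_of_superset h1 fun z hz k => ?_
  show ψ k z.2 = (((z.1 k : ℤ) : ℝ) : UnitAddCircle)
  rw [hN k z.2 (hz k)]
  refine ((AddCircle.coe_eq_zero_iff (p := (1 : ℝ))).2 ⟨z.1 k, ?_⟩).symm
  rw [zsmul_eq_mul, mul_one]

/-- quotients by closed integral subgroups are reflexive -/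
theorem isReflexive_quotient_of_finite [Finite α] (h : StronglyReflexive P)
    {H' : AddSubgroup ((α → ℝ) × P)} (hI : Integral H')
    (hH : IsClosed (H' : Set ((α → ℝ) × P))) : IsReflexive (((α → ℝ) × P) ⧸ H') := by
  obtain ⟨ψ, hψ⟩ := hI.exists_chars
  have hT : T2Space (((α → ℝ) × P) ⧸ H') := by
    have : IsClosed (H' : Set ((α → ℝ) × P)) := hH
    infer_instance
  have hIB := integral_graphB ψ
  have hna0 : NonarchimedeanAddGroup (graphB ψ) := hIB.nonarchimedean
  have hna : NonarchimedeanAddGroup ((graphB ψ).map (QuotientAddGroup.mk' H')) :=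
    nonarchimedean_of_open (toImage (graphB ψ) H') (continuous_toImage (graphB ψ) H')
      (isOpenMap_toImage hψ)
  let f : intPart (graphB ψ) →ₜ+ (graphB ψ).map (QuotientAddGroup.mk' H') :=
    { toFun := fun z => toImage (graphB ψ) H' (intMap (graphB ψ) z)
      map_zero' := by
        rw [map_zero, map_zero]
      map_add' := fun a b => by
        rw [map_add, map_add]
      continuous_toFun := (continuous_toImage (graphB ψ) H').comp
        (intMap (graphB ψ)).continuous_toFun }
  have hf : IsOpenMap f := (isOpenMap_toImage hψ).comp (isOpenMap_intMap hIB)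
  have h1 : StronglyReflexive ((α → ℤ) × P) := h.discrete_prod
  have h2 : StronglyReflexive (intPart (graphB ψ)) :=
    h1.open_subgroup _ (isOpen_intPart_graphB ψ)
  have hK : IsClosed (f.toAddMonoidHom.ker : Set (intPart (graphB ψ))) :=
    isClosed_singleton.preimage f.continuous_toFun
  have h3 : IsReflexive ((graphB ψ).map (QuotientAddGroup.mk' H')) :=
    isReflexive_of_open_hom f hf f.toAddMonoidHom.ker (fun a => Iff.rfl) (h2 _ hK).2
  exact (cover_quotient ψ hψ).isReflexive h3

/-- the product with a finite power of the real line -/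
theorem isReflexive_prod_of_finite {α β : Type u} [Finite α] [Finite β]
    (h : StronglyReflexive P) {H' : AddSubgroup ((α → ℝ) × P)} (hI : Integral H')
    (hH : IsClosed (H' : Set ((α → ℝ) × P))) : IsReflexive ((β → ℝ) × H') := by
  have hI2 : Integral (joinH β H') := integral_joinH hI
  have hna : NonarchimedeanAddGroup (joinH β H') := hI2.nonarchimedean
  have hr : IsReflexive (joinH β H') := isReflexive_integral_of_finite h hI2 (isClosed_joinH hH)
  have hna2 : NonarchimedeanAddGroup (intFst β H') := nonarchimedean_of_iso (joinIso H')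
  exact (cover_fst (β := β) (Z := H')).isReflexive (hr.congr (joinIso H'))

/-- a power of the real line that embeds continuously in `(J → ℝ) × P` is finite -/
theorem finite_of_embedding {J : Type w} [Finite J] {γ : Type u} (g : (γ → ℝ) →ₜ+ (J → ℝ) × P)
    (hg : Function.Injective g) : Finite γ := by
  have h0 : ∀ x, (g x).2 = 0 := by
    intro x
    by_contra hne
    have h1 : ({(g x).2}ᶜ : Set P) ∈ 𝓝 (0 : P) := isOpen_compl_singleton.mem_nhds
      (fun h2 => hne h2.symm)
    obtain ⟨N, hN⟩ := NonarchimedeanAddGroup.is_nonarchimedean _ h1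
    have h3 : IsClopen {y : γ → ℝ | (g y).2 ∈ N} :=
      N.isClopen.preimage (continuous_snd.comp g.continuous_toFun)
    have h4 : {y : γ → ℝ | (g y).2 ∈ N} = Set.univ := h3.eq_univ ⟨0, by
      show (g 0).2 ∈ N
      rw [map_zero]
      exact zero_mem N⟩
    have h5 : x ∈ {y : γ → ℝ | (g y).2 ∈ N} := by
      rw [h4]
      trivial
    exact hN h5 rfl
  let φ : (γ → ℝ) →+ (J → ℝ) := (AddMonoidHom.fst (J → ℝ) P).comp g.toAddMonoidHom
  have hφc : Continuous φ := continuous_fst.comp g.continuous_toFun
  let L : (γ → ℝ) →L[ℝ] (J → ℝ) := φ.toRealLinearMap hφc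
  have hL : Function.Injective L := by
    intro x y hxy
    refine hg (Prod.ext hxy ?_)
    rw [h0, h0]
  have hcomp : Function.Injective ((L : (γ → ℝ) →ₗ[ℝ] (J → ℝ)).comp
      (Finsupp.lcoeFun : (γ →₀ ℝ) →ₗ[ℝ] (γ → ℝ))) := hL.comp DFunLike.coe_injective
  have hfin : Module.Finite ℝ (γ →₀ ℝ) := Module.Finite.of_injective _ hcomp
  exact Module.Finite.finite_basis (Finsupp.basisSingleOne (R := ℝ) (ι := γ))

end quot

theorem stronglyReflexive_vec_of_finite {J : Type u} [Finite J] {P : Type v} [AddCommGroup P]
    [TopologicalSpace P] [NonarchimedeanAddGroup P] [T2Space P] (h : StronglyReflexive P) :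
    StronglyReflexive ((J → ℝ) × P) := by
  intro H hH
  obtain ⟨α, β, e, H', hI, hH', hmem, -⟩ := exists_coord H hH
  have hα : Finite α := by
    let g : (α → ℝ) →ₜ+ (J → ℝ) × P :=
      { toFun := fun x => e.symm (0, (x, 0))
        map_zero' := by
          show e.symm (0 : (β → ℝ) × ((α → ℝ) × P)) = 0
          rw [map_zero]
        map_add' := fun a b => by
          rw [← map_add, Prod.mk_add_mk, Prod.mk_add_mk, add_zero, add_zero]
        continuous_toFun := e.symm.continuous_toFun.comp
          (continuous_const.prodMk (continuous_id.prodMk continuous_const)) }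
    refine finite_of_embedding g fun x y hxy => ?_
    have h1 : ((0 : β → ℝ), (x, (0 : P))) = ((0 : β → ℝ), (y, (0 : P))) := e.symm.injective hxy
    exact congrArg (fun z : (β → ℝ) × ((α → ℝ) × P) => z.2.1) h1
  have hβ : Finite β := by
    let g : (β → ℝ) →ₜ+ (J → ℝ) × P :=
      { toFun := fun x => e.symm (x, 0)
        map_zero' := by
          show e.symm (0 : (β → ℝ) × ((α → ℝ) × P)) = 0
          rw [map_zero]
        map_add' := fun a b => by
          rw [← map_add, Prod.mk_add_mk, add_zero]
        continuous_toFun := e.symm.continuous_toFun.comp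
          (continuous_id.prodMk continuous_const) }
    refine finite_of_embedding g fun x y hxy => ?_
    have h1 : (x, (0 : (α → ℝ) × P)) = (y, (0 : (α → ℝ) × P)) := e.symm.injective hxy
    exact congrArg (fun z : (β → ℝ) × ((α → ℝ) × P) => z.1) h1
  constructor
  · let f : H →ₜ+ (β → ℝ) × H' :=
      { toFun := fun g => ((e g.1).1, ⟨(e g.1).2, (hmem g.1).1 g.2⟩)
        map_zero' := by
          refine Prod.ext ?_ (Subtype.ext ?_)
          · show (e 0).1 = 0
            rw [map_zero]
            rfl
          · show (e 0).2 = 0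
            rw [map_zero]
            rfl
        map_add' := fun a b => by
          refine Prod.ext ?_ (Subtype.ext ?_)
          · show (e (a.1 + b.1)).1 = (e a.1).1 + (e b.1).1
            rw [map_add]
            rfl
          · show (e (a.1 + b.1)).2 = (e a.1).2 + (e b.1).2
            rw [map_add]
            rfl
        continuous_toFun := by
          have h1 : Continuous fun g : H => e g.1 := e.continuous_toFun.comp continuous_subtype_val
          exact (continuous_fst.comp h1).prodMk ((continuous_snd.comp h1).subtype_mk _) }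
    have hsymm : ∀ z : (β → ℝ) × H', e.symm (z.1, z.2.1) ∈ H := fun z => by
      rw [hmem, ContinuousAddEquiv.apply_symm_apply]
      exact z.2.2
    let g : (β → ℝ) × H' →ₜ+ H :=
      { toFun := fun z => ⟨e.symm (z.1, z.2.1), hsymm z⟩
        map_zero' := by
          refine Subtype.ext ?_
          show e.symm (0 : (β → ℝ) × ((α → ℝ) × P)) = 0
          rw [map_zero]
        map_add' := fun a b => by
          refine Subtype.ext ?_
          show e.symm ((a.1, a.2.1) + (b.1, b.2.1)) = e.symm (a.1, a.2.1) + e.symm (b.1, b.2.1)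
          rw [map_add]
        continuous_toFun := by
          refine Continuous.subtype_mk (e.symm.continuous_toFun.comp
            (continuous_fst.prodMk (continuous_subtype_val.comp continuous_snd))) _ }
    refine IsReflexive.of_iso g f (fun a => ?_) (fun z => ?_)
      (isReflexive_prod_of_finite h hI hH')
    · refine Subtype.ext ?_
      show e.symm ((e a.1).1, (e a.1).2) = a.1
      exact e.symm_apply_apply a.1
    · refine Prod.ext ?_ (Subtype.ext ?_)
      · show (e (e.symm (z.1, z.2.1))).1 = z.1
        rw [ContinuousAddEquiv.apply_symm_apply]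
      · show (e (e.symm (z.1, z.2.1))).2 = z.2.1
        rw [ContinuousAddEquiv.apply_symm_apply]
  · let q : ((α → ℝ) × P) →+ ((α → ℝ) × P) ⧸ H' := QuotientAddGroup.mk' H'
    let f : ((J → ℝ) × P) →ₜ+ ((α → ℝ) × P) ⧸ H' :=
      { toFun := fun g => q (e g).2
        map_zero' := by
          show q (e 0).2 = 0
          rw [map_zero]
          exact map_zero q
        map_add' := fun a b => by
          show q (e (a + b)).2 = q (e a).2 + q (e b).2
          rw [map_add, Prod.snd_add, map_add]
        continuous_toFun :=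
          continuous_quot_mk.comp (continuous_snd.comp e.continuous_toFun) }
    refine isReflexive_quotient_of f ?_ ?_ H (fun g => ?_)
      (isReflexive_quotient_of_finite h hI hH')
    · intro y
      obtain ⟨x, rfl⟩ := QuotientAddGroup.mk_surjective y
      refine ⟨e.symm (0, x), ?_⟩
      show q (e (e.symm (0, x))).2 = q x
      rw [ContinuousAddEquiv.apply_symm_apply]
    · exact (QuotientAddGroup.isOpenMap_coe (N := H')).comp
        (isOpenMap_snd.comp e.toHomeomorph.isOpenMap)
    · rw [hmem]
      exact (QuotientAddGroup.eq_zero_iff _).symm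

end Pool.Agent.Work.MP_c629c8_al
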