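import Mathlib
import Pool.Agent.Work.MP_c629c8_al.Vec.ThmS
import Pool.Agent.Work.MP_c629c8_al.Vec.CompQ
import Pool.Agent.Work.MP_c629c8_al.Vec.Factor
import Pool.Agent.Work.MP_c629c8_al.Vec.VecFin
import Pool.Agent.Work.MP_c629c8_al.Vec.Forms
import Pool.Agent.Work.MP_c629c8_al.Vec.CondPi
import Pool.Agent.Work.MP_c629c8_al.Vec.PL

/-!
# Abelian pro-Lie groups: the main theorem
-/

universe u v w

namespace Pool.Agent.Work.MP_c629c8_al

open Topology Uniformity

section thmK

variable {G : Type u} {J : Type v} {P : Type w} [AddCommGroup G]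
    [TopologicalSpace G] [IsTopologicalAddGroup G] [T2Space G] [AddCommGroup P]
    [TopologicalSpace P] [NonarchimedeanAddGroup P]

omit [T2Space G] in
/-- quotients of strongly reflexive groups by compact subgroups -/
theorem StronglyReflexive.of_compact_ker {Z : Type v} [AddCommGroup Z] [TopologicalSpace Z]
    [IsTopologicalAddGroup Z] (h : StronglyReflexive G) (p : G →ₜ+ Z)
    (hp : Function.Surjective p) (hpo : IsOpenMap p) (hK : IsCompact {g | p g = 0}) :
    StronglyReflexive Z := by
  intro L hL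
  let M : AddSubgroup G := L.comap p.toAddMonoidHom
  have hM : IsClosed (M : Set G) := hL.preimage p.continuous_toFun
  have hmem : ∀ g, g ∈ M ↔ p g ∈ L := fun g => Iff.rfl
  obtain ⟨h1, h2⟩ := h M hM
  refine ⟨?_, ?_⟩
  · let q : M →ₜ+ L :=
      { toFun := fun m => ⟨p m, m.2⟩
        map_zero' := Subtype.ext (map_zero p)
        map_add' := fun a b => Subtype.ext (map_add p (a : G) (b : G))
        continuous_toFun := (p.continuous_toFun.comp continuous_subtype_val).subtype_mk _ }
    refine h1.of_compact_ker q ?_ ?_ ?_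
    · rintro ⟨z, hz⟩
      obtain ⟨g, rfl⟩ := hp z
      exact ⟨⟨g, hz⟩, rfl⟩
    · intro W hW
      obtain ⟨V, hV, rfl⟩ := isOpen_induced_iff.1 hW
      have h3 : q '' (Subtype.val ⁻¹' V) = Subtype.val ⁻¹' (p '' V) := by
        ext z
        constructor
        · rintro ⟨m, hm, rfl⟩
          exact ⟨m, hm, rfl⟩
        · rintro ⟨g, hg, hgz⟩
          exact ⟨⟨g, (hmem g).2 (by rw [hgz]; exact z.2)⟩, hg, Subtype.ext hgz⟩
      rw [h3]
      exact (hpo V hV).preimage continuous_subtype_val
    · have h3 : {m : M | q m = 0} = Subtype.val ⁻¹' {g | p g = 0} := by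
        ext m
        exact Subtype.ext_iff
      rw [h3]
      exact hM.isClosedEmbedding_subtypeVal.isCompact_preimage hK
  · let q : G →ₜ+ Z ⧸ L :=
      { toAddMonoidHom := (QuotientAddGroup.mk' L).comp p.toAddMonoidHom
        continuous_toFun := (continuous_quot_mk (r := QuotientAddGroup.leftRel L)).comp
          p.continuous_toFun }
    refine isReflexive_of_quotient q ?_ ?_ M ?_ h2
    · intro z
      obtain ⟨z, rfl⟩ := QuotientAddGroup.mk_surjective z
      obtain ⟨g, rfl⟩ := hp z
      exact ⟨g, rfl⟩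
    · exact (QuotientAddGroup.isOpenMap_coe (N := L)).comp hpo
    · intro g
      exact (QuotientAddGroup.eq_zero_iff (p g)).symm

theorem stronglyReflexive_iff_vec
    (π : G →ₜ+ (J → ℝ) × P) (hπ : Function.Surjective π) (hπo : IsOpenMap π)
    (hK : IsCompact {g | π g = 0}) (hsep : ∀ g, π g = 0 → g ≠ 0 → ∃ χ : Dual G, χ g ≠ 0) :
    StronglyReflexive G ↔ StronglyReflexive ((J → ℝ) × P) :=
  ⟨fun h => h.of_compact_ker π hπ hπo hK, stronglyReflexive_of_vec π hπ hπo hK hsep⟩

end thmK

section complete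

/-- groups with convergent coherent families are complete -/
theorem completeSpace_of_linComplete {X : Type u} [AddCommGroup X] [UniformSpace X]
    [IsUniformAddGroup X] [NonarchimedeanAddGroup X] (h : LinComplete X) : CompleteSpace X := by
  refine ⟨fun {F} hF => ?_⟩
  have hne : F.NeBot := hF.1
  have h1 : ∀ N : OpenAddSubgroup X, ∃ x : X, cst x (N : AddSubgroup X) ∈ F := by
    intro N
    have hU : {z : X × X | z.2 - z.1 ∈ (N : Set X)} ∈ 𝓤 X := by
      rw [uniformity_eq_comap_nhds_zero X]
      exact ⟨N, N.mem_nhds_zero, subset_rfl⟩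
    obtain ⟨t, ht, htU⟩ := (cauchy_iff.1 hF).2 _ hU
    obtain ⟨x, hx⟩ := Filter.nonempty_of_mem ht
    refine ⟨x, Filter.mem_of_superset ht fun y hy => ?_⟩
    exact htU (Set.mk_mem_prod hx hy)
  choose x hx using h1
  obtain ⟨y, hy⟩ := h x (by
    intro N M hMN
    obtain ⟨z, hz1, hz2⟩ := Filter.nonempty_of_mem (Filter.inter_mem (hx N) (hx M))
    have h2 : z - x N ∈ N := hz1
    have h3 : z - x M ∈ N := hMN hz2
    have h4 := N.sub_mem h2 h3
    rwa [sub_sub_sub_cancel_left] at h4)
  refine ⟨y, ?_⟩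
  intro W hW
  have hW0 : (fun t => y + t) ⁻¹' W ∈ 𝓝 (0 : X) := by
    apply (continuous_const.add continuous_id).continuousAt.preimage_mem_nhds
    simpa using hW
  obtain ⟨N, hN⟩ := NonarchimedeanAddGroup.is_nonarchimedean _ hW0
  refine Filter.mem_of_superset (hx N) fun z hz => ?_
  have h1 : z - x N ∈ N := hz
  have h2 : z - y ∈ N := by
    have := N.sub_mem h1 (hy N)
    rwa [sub_sub_sub_cancel_right] at this
  have h3 := hN h2
  simpa using h3

end complete

/-- the main theorem on abelian pro-Lie groups -/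
theorem ProLie.main {G : Type u} [AddCommGroup G] [UniformSpace G] [IsUniformAddGroup G]
    [CompleteSpace G] [T2Space G] (h : ProLie G) :
    ∃ (J P : Type u) (_ : AddCommGroup P) (_ : UniformSpace P) (_ : IsUniformAddGroup P)
      (_ : CompleteSpace P) (_ : T2Space P) (_ : NonarchimedeanAddGroup P)
      (π : G →ₜ+ (J → ℝ) × P), Function.Surjective π ∧ IsOpenMap π ∧
      IsCompact {g | π g = 0} ∧
      (StronglyReflexive G ↔ StronglyReflexive ((J → ℝ) × P)) ∧
      (StronglyReflexive G → Countable J ∧ StronglyReflexive P) ∧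
      (Finite J → StronglyReflexive P → StronglyReflexive G) ∧
      (CondA G → Countable J → StronglyReflexive G) := by
  obtain ⟨hsep, J, P, i1, i2, i3, i4, π, hπ, hπo, hK, hP⟩ := h.hasForm
  let u : UniformSpace P := IsTopologicalAddGroup.rightUniformSpace P
  have i5 : IsUniformAddGroup P := isUniformAddGroup_of_addCommGroup
  have i6 : CompleteSpace P := completeSpace_of_linComplete hP
  have hiff : StronglyReflexive G ↔ StronglyReflexive ((J → ℝ) × P) :=
    stronglyReflexive_iff_vec π hπ hπo hK fun g _ hg => hsep g hg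
  have hJ : StronglyReflexive G → Countable J := fun hs =>
    countable_of_stronglyReflexive_vec hs ((ContinuousAddMonoidHom.fst (J → ℝ) P).comp π)
      (Prod.fst_surjective.comp hπ) (isOpenMap_fst.comp hπo)
  refine ⟨J, P, i1, u, i5, i6, i4, i3, π, hπ, hπo, hK, hiff, fun hs => ⟨hJ hs, ?_⟩,
    fun hf hs => ?_, fun hA hc => ?_⟩
  · exact (hiff.1 hs).snd
  · exact hiff.2 (stronglyReflexive_vec_of_finite hs)
  · exact stronglyReflexive_of_compact_ker π hπ hπo hK (fun g _ hg => hsep g hg) hP
      (condA_of_surjective ((ContinuousAddMonoidHom.snd (J → ℝ) P).comp π)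
        (Prod.snd_surjective.comp hπ) (isOpenMap_snd.comp hπo) hA)

end Pool.Agent.Work.MP_c629c8_al
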