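import Mathlib
import Pool.Agent.Work.MP_c629c8_al.Vec.OpenSub
import Pool.Agent.Work.MP_c629c8_al.Vec.Tr

/-!
# Subquotients of strongly reflexive groups

If `G` is strongly reflexive and the characters of the closed subgroup `H` extend to `G` then
`H / L` is reflexive for all closed subgroups `L ≤ H`. Hence closed subgroups and quotients of
strongly reflexive groups are strongly reflexive if characters of closed subgroups extend.
-/

universe u v w

namespace Pool.Agent.Work.MP_c629c8_al

open Topology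

namespace SubQAux

variable {G : Type u} [AddCommGroup G] [TopologicalSpace G] [IsTopologicalAddGroup G]

/-- the quotient map -/
def mkHom (L : AddSubgroup G) : G →ₜ+ G ⧸ L :=
  ⟨QuotientAddGroup.mk' L, continuous_quot_mk⟩

omit [IsTopologicalAddGroup G] in
lemma mkHom_apply (L : AddSubgroup G) (g : G) : mkHom L g = QuotientAddGroup.mk g := rfl

omit [IsTopologicalAddGroup G] in
lemma mkHom_surjective (L : AddSubgroup G) : Function.Surjective (mkHom L) :=
  QuotientAddGroup.mk_surjective

lemma mkHom_isOpenMap (L : AddSubgroup G) : IsOpenMap (mkHom L) :=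
  QuotientAddGroup.isOpenMap_coe

omit [IsTopologicalAddGroup G] in
lemma mkHom_eq_zero (L : AddSubgroup G) (g : G) : mkHom L g = 0 ↔ g ∈ L :=
  QuotientAddGroup.eq_zero_iff g

/-- the natural map from `H / L` to `G / L` -/
def incl (L H : AddSubgroup G) : H ⧸ L.addSubgroupOf H →ₜ+ G ⧸ L :=
  ⟨QuotientAddGroup.map (L.addSubgroupOf H) L H.subtype (fun _ hx => hx),
    continuous_quot_lift _ ((mkHom L).continuous_toFun.comp continuous_subtype_val)⟩

omit [IsTopologicalAddGroup G] in
lemma incl_mk (L H : AddSubgroup G) (x : H) :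
    incl L H (mkHom (L.addSubgroupOf H) x) = mkHom L (x : G) := rfl

omit [IsTopologicalAddGroup G] in
lemma incl_injective (L H : AddSubgroup G) : Function.Injective (incl L H) := by
  rw [injective_iff_map_eq_zero]
  intro a ha
  obtain ⟨x, rfl⟩ := mkHom_surjective _ a
  rw [incl_mk, mkHom_eq_zero] at ha
  rw [mkHom_eq_zero]
  exact ha

/-- neighbourhoods of zero in `H / L` come from neighbourhoods of zero in `G / L` -/
lemma exists_nhds {L H : AddSubgroup G} (hLH : L ≤ H) {W : Set (H ⧸ L.addSubgroupOf H)}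
    (hW : W ∈ 𝓝 (0 : H ⧸ L.addSubgroupOf H)) :
    ∃ W' ∈ 𝓝 (0 : G ⧸ L), ∀ y, incl L H y ∈ W' → y ∈ W := by
  have h1 : (mkHom (L.addSubgroupOf H)) ⁻¹' W ∈ 𝓝 (0 : H) :=
    (mkHom (L.addSubgroupOf H)).continuous_toFun.continuousAt.preimage_mem_nhds (by
      show W ∈ 𝓝 (mkHom (L.addSubgroupOf H) 0)
      rwa [map_zero])
  obtain ⟨V, hV, hVW⟩ := mem_nhds_subtype (H : Set G) (0 : H) _ |>.1 h1
  refine ⟨mkHom L '' V, ?_, ?_⟩
  · have h2 := (mkHom_isOpenMap L).image_mem_nhds hV
    rwa [show mkHom L ((0 : H) : G) = 0 from map_zero _] at h2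
  · intro y hy
    obtain ⟨x, rfl⟩ := mkHom_surjective _ y
    obtain ⟨v, hv, hvx⟩ := hy
    rw [incl_mk] at hvx
    have h3 : v - x ∈ L := by
      rw [← mkHom_eq_zero, map_sub, hvx, sub_self]
    have h4 : v ∈ H := by
      have := H.add_mem (hLH h3) x.2
      rwa [sub_add_cancel] at this
    have h5 : mkHom (L.addSubgroupOf H) x = mkHom (L.addSubgroupOf H) ⟨v, h4⟩ := by
      symm
      rw [← sub_eq_zero, ← map_sub, mkHom_eq_zero]
      exact h3
    rw [h5]
    exact hVW (show (⟨v, h4⟩ : H) ∈ Subtype.val ⁻¹' V from hv)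

lemma incl_isEmbedding {L H : AddSubgroup G} (hLH : L ≤ H) : IsEmbedding (incl L H) := by
  refine ⟨?_, incl_injective L H⟩
  have h1 : IsInducing (incl L H).toAddMonoidHom := by
    rw [IsTopologicalAddGroup.isInducing_iff_nhds_zero]
    refine le_antisymm ?_ ?_
    · rw [← Filter.tendsto_iff_comap]
      have h2 : Filter.Tendsto (incl L H) (𝓝 0) (𝓝 (incl L H 0)) :=
        (incl L H).continuous_toFun.continuousAt
      rwa [map_zero] at h2
    · intro W hW
      obtain ⟨W', hW', h⟩ := exists_nhds hLH hW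
      exact Filter.mem_comap.2 ⟨W', hW', fun y hy => h y hy⟩
  exact h1

end SubQAux

open SubQAux OpenSubAux

/-- subquotients of strongly reflexive groups are reflexive -/
theorem StronglyReflexive.isReflexive_subquotient {G : Type u} [AddCommGroup G]
    [TopologicalSpace G] [IsTopologicalAddGroup G] (h : StronglyReflexive G)
    (L H : AddSubgroup G) (hL : IsClosed (L : Set G)) (hH : IsClosed (H : Set G)) (hLH : L ≤ H)
    (hext : ∀ ξ : Dual H, ∃ χ : Dual G, ∀ x : H, χ x = ξ x) :
    IsReflexive (H ⧸ L.addSubgroupOf H) := by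
  have hY : IsReflexive (G ⧸ L) := (h L hL).2
  have hinj : Function.Injective (eta (H ⧸ L.addSubgroupOf H)) := by
    have : Function.Injective (etaHom (H ⧸ L.addSubgroupOf H)) := by
      rw [injective_iff_map_eq_zero]
      intro y hy
      apply incl_injective L H
      rw [map_zero]
      apply hY.bijective.injective
      refine ContinuousAddMonoidHom.ext fun χ => ?_
      have h1 : χ (incl L H y) = 0 := DFunLike.congr_fun hy (dualMap (incl L H) χ)
      show χ (incl L H y) = χ 0
      rw [h1, map_zero]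
    exact this
  have hsurj : Function.Surjective (eta (H ⧸ L.addSubgroupOf H)) := by
    intro Ψ
    obtain ⟨y, hy⟩ := hY.bijective.surjective (Ψ.comp (dualMap (incl L H)))
    have hy' : ∀ χ : Dual (G ⧸ L), χ y = Ψ (dualMap (incl L H) χ) := fun χ =>
      DFunLike.congr_fun hy χ
    obtain ⟨g, rfl⟩ := mkHom_surjective L y
    -- `g` is in `H`
    have hg : g ∈ H := by
      rw [← mkHom_eq_zero]
      apply (h H hH).2.bijective.injective
      refine ContinuousAddMonoidHom.ext fun ξ => ?_
      let q : G ⧸ L →ₜ+ G ⧸ H := ⟨QuotientAddGroup.map L H (AddMonoidHom.id G) hLH,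
        continuous_quot_lift _ (mkHom H).continuous_toFun⟩
      have hq : ∀ g : G, q (mkHom L g) = mkHom H g := fun _ => rfl
      have h1 := hy' (ξ.comp q)
      have h2 : dualMap (incl L H) (ξ.comp q) = 0 := by
        refine ContinuousAddMonoidHom.ext fun z => ?_
        obtain ⟨x, rfl⟩ := mkHom_surjective _ z
        show ξ (q (incl L H (mkHom _ x))) = 0
        rw [incl_mk, hq, (mkHom_eq_zero H (x : G)).2 x.2, map_zero]
      rw [h2, map_zero] at h1
      show ξ (mkHom H g) = ξ 0
      rw [map_zero, ← hq]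
      exact h1
    refine ⟨mkHom (L.addSubgroupOf H) ⟨g, hg⟩, ContinuousAddMonoidHom.ext fun χ => ?_⟩
    -- characters of `H / L` extend
    obtain ⟨χ', hχ'⟩ := hext (χ.comp (mkHom (L.addSubgroupOf H)))
    obtain ⟨ξ, hξ⟩ : ∃ ξ : Dual (G ⧸ L), ∀ x, ξ (mkHom L x) = χ' x := by
      refine ⟨⟨QuotientAddGroup.lift L χ'.toAddMonoidHom (fun l hl => ?_),
        continuous_quot_lift _ χ'.continuous_toFun⟩, fun x => rfl⟩
      have h1 := hχ' ⟨l, hLH hl⟩
      show χ' l = 0
      rw [h1]
      show χ (mkHom (L.addSubgroupOf H) ⟨l, hLH hl⟩) = 0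
      rw [(mkHom_eq_zero (L.addSubgroupOf H) (⟨l, hLH hl⟩ : H)).2 hl, map_zero]
    have h3 : dualMap (incl L H) ξ = χ := by
      refine ContinuousAddMonoidHom.ext fun z => ?_
      obtain ⟨x, rfl⟩ := mkHom_surjective _ z
      rw [dualMap_apply, incl_mk, hξ, hχ']
      rfl
    have h4 := hy' ξ
    rw [h3] at h4
    rw [← h4, ← h3]
    rfl
  have hcont : Continuous (eta (H ⧸ L.addSubgroupOf H)) := by
    refine eta_continuous fun E hE U hU h0 => ?_
    have h1 := equi_of_eta_continuous (h H hH).1.continuous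
      (hE.image (dualMap (mkHom (L.addSubgroupOf H))).continuous_toFun) hU h0
    have h2 := (mkHom_isOpenMap (L.addSubgroupOf H)).image_mem_nhds h1
    rw [map_zero] at h2
    filter_upwards [h2] with y hy χ hχ
    obtain ⟨x, hx, rfl⟩ := hy
    exact hx (dualMap (mkHom (L.addSubgroupOf H)) χ) ⟨χ, hχ, rfl⟩
  refine ⟨hcont, isOpenMap_of_polar hsurj fun W hW => ?_, hinj, hsurj⟩
  obtain ⟨W', hW', hWW⟩ := exists_nhds hLH hW
  obtain ⟨E, hE, δ, hδ, hE'⟩ := exists_polar hY.bijective.injective hY.isOpenMap hW'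
  refine ⟨dualMap (incl L H) '' E, hE.image (dualMap (incl L H)).continuous_toFun, δ, hδ,
    fun y hy => hWW y (hE' _ fun χ hχ => ?_)⟩
  exact hy (dualMap (incl L H) χ) ⟨χ, hχ, rfl⟩

/-- closed subgroups of strongly reflexive groups whose characters extend -/
theorem StronglyReflexive.of_closed {G : Type u} [AddCommGroup G]
    [TopologicalSpace G] [IsTopologicalAddGroup G] (h : StronglyReflexive G)
    (hext : ∀ H : AddSubgroup G, IsClosed (H : Set G) →
      ∀ ξ : Dual H, ∃ χ : Dual G, ∀ x : H, χ x = ξ x)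
    (H : AddSubgroup G) (hH : IsClosed (H : Set G)) : StronglyReflexive H := by
  intro M hM
  let M' : AddSubgroup G := M.map H.subtype
  have hM' : IsClosed (M' : Set G) := by
    have : (M' : Set G) = Subtype.val '' (M : Set H) := by
      ext x
      exact Iff.rfl
    rw [this]
    exact hH.isClosedEmbedding_subtypeVal.isClosedMap _ hM
  have hle : M' ≤ H := by
    rintro _ ⟨x, -, rfl⟩
    exact x.2
  constructor
  · let f : M →ₜ+ G := (subHom H).comp (subHom M)
    have hf : IsEmbedding f := IsEmbedding.subtypeVal.comp IsEmbedding.subtypeVal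
    exact (h M' hM').1.congr (subIso f hf M' fun g => by
      constructor
      · rintro ⟨x, hx, rfl⟩
        exact ⟨⟨x, hx⟩, rfl⟩
      · rintro ⟨x, rfl⟩
        exact ⟨x, x.2, rfl⟩).symm
  · have h1 := h.isReflexive_subquotient M' H hM' hH hle (hext H hH)
    have h2 : M'.addSubgroupOf H = M := by
      ext x
      constructor
      · rintro ⟨y, hy, hyx⟩
        have : y = x := Subtype.ext hyx
        rwa [← this]
      · intro hx
        exact ⟨x, hx, rfl⟩
    rwa [h2] at h1

/-- quotients of strongly reflexive groups -/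
theorem StronglyReflexive.of_quotient {G : Type u} [AddCommGroup G]
    [TopologicalSpace G] [IsTopologicalAddGroup G] (h : StronglyReflexive G)
    (hext : ∀ H : AddSubgroup G, IsClosed (H : Set G) →
      ∀ ξ : Dual H, ∃ χ : Dual G, ∀ x : H, χ x = ξ x)
    (L : AddSubgroup G) (hL : IsClosed (L : Set G)) : StronglyReflexive (G ⧸ L) := by
  intro M hM
  let H : AddSubgroup G := M.comap (QuotientAddGroup.mk' L)
  have hH : IsClosed (H : Set G) := hM.preimage (mkHom L).continuous_toFun
  have hLH : L ≤ H := by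
    intro l hl
    show mkHom L l ∈ M
    rw [(mkHom_eq_zero L l).2 hl]
    exact M.zero_mem
  constructor
  · refine isReflexive_subgroup_of (incl L H) (incl_isEmbedding hLH) M (fun y => ?_)
      (h.isReflexive_subquotient L H hL hH hLH (hext H hH))
    constructor
    · intro hy
      obtain ⟨g, rfl⟩ := mkHom_surjective L y
      exact ⟨mkHom _ ⟨g, hy⟩, rfl⟩
    · rintro ⟨z, rfl⟩
      obtain ⟨x, rfl⟩ := mkHom_surjective _ z
      exact x.2
  · refine isReflexive_of_quotient ((mkHom M).comp (mkHom L))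
      ((mkHom_surjective M).comp (mkHom_surjective L))
      ((mkHom_isOpenMap M).comp (mkHom_isOpenMap L)) H (fun g => ?_) (h H hH).2
    show mkHom L g ∈ M ↔ mkHom M (mkHom L g) = 0
    rw [mkHom_eq_zero]

end Pool.Agent.Work.MP_c629c8_al
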