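import Mathlib
import Pool.Agent.Work.MP_c629c8_al.Vec.VecRefl
import Pool.Agent.Work.MP_c629c8_al.Vec.VecFin

/-!
# Reduction of strong reflexivity to the groups `graphB ψ`
-/

universe u v w

namespace Pool.Agent.Work.MP_c629c8_al

open Topology

section

variable {J : Type u} {P : Type v} [AddCommGroup P] [TopologicalSpace P]
  [NonarchimedeanAddGroup P] [T2Space P]

omit [T2Space P] in
/-- reduction to closed integral subgroups -/
theorem stronglyReflexive_vec_of_integral [Countable J]
    (h1 : ∀ (α β : Type u) [Countable α] [Countable β] (H' : AddSubgroup ((α → ℝ) × P)),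
      Integral H' → IsClosed (H' : Set ((α → ℝ) × P)) → IsReflexive ((β → ℝ) × H'))
    (h2 : ∀ (α : Type u) [Countable α] (H' : AddSubgroup ((α → ℝ) × P)),
      Integral H' → IsClosed (H' : Set ((α → ℝ) × P)) → IsReflexive (((α → ℝ) × P) ⧸ H')) :
    StronglyReflexive ((J → ℝ) × P) := by
  intro H hH
  obtain ⟨α, β, e, H', hI, hH', hmem, hc⟩ := exists_coord H hH
  obtain ⟨hα, hβ⟩ := hc inferInstance
  constructor
  · let f : H →ₜ+ (β → ℝ) × H' :=
      { toFun := fun g => ((e g.1).1, ⟨(e g.1).2, (hmem g.1).1 g.2⟩)
        map_zero' := by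
          refine Prod.ext ?_ (Subtype.ext ?_)
          · show (e 0).1 = 0
            rw [map_zero]
            rfl
          · show (e 0).2 = 0
            rw [map_zero]
            rfl
        map_add' := fun a b => by
          refine Prod.ext ?_ (Subtype.ext ?_)
          · show (e (a.1 + b.1)).1 = (e a.1).1 + (e b.1).1
            rw [map_add]
            rfl
          · show (e (a.1 + b.1)).2 = (e a.1).2 + (e b.1).2
            rw [map_add]
            rfl
        continuous_toFun := by
          have h1 : Continuous fun g : H => e g.1 := e.continuous_toFun.comp continuous_subtype_val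
          exact (continuous_fst.comp h1).prodMk ((continuous_snd.comp h1).subtype_mk _) }
    have hsymm : ∀ z : (β → ℝ) × H', e.symm (z.1, z.2.1) ∈ H := fun z => by
      rw [hmem, ContinuousAddEquiv.apply_symm_apply]
      exact z.2.2
    let g : (β → ℝ) × H' →ₜ+ H :=
      { toFun := fun z => ⟨e.symm (z.1, z.2.1), hsymm z⟩
        map_zero' := by
          refine Subtype.ext ?_
          show e.symm (0 : (β → ℝ) × ((α → ℝ) × P)) = 0
          rw [map_zero]
        map_add' := fun a b => by
          refine Subtype.ext ?_
          show e.symm ((a.1, a.2.1) + (b.1, b.2.1)) = e.symm (a.1, a.2.1) + e.symm (b.1, b.2.1)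
          rw [map_add]
        continuous_toFun := by
          refine Continuous.subtype_mk (e.symm.continuous_toFun.comp
            (continuous_fst.prodMk (continuous_subtype_val.comp continuous_snd))) _ }
    refine IsReflexive.of_iso g f (fun a => ?_) (fun z => ?_) (h1 α β H' hI hH')
    · refine Subtype.ext ?_
      show e.symm ((e a.1).1, (e a.1).2) = a.1
      exact e.symm_apply_apply a.1
    · refine Prod.ext ?_ (Subtype.ext ?_)
      · show (e (e.symm (z.1, z.2.1))).1 = z.1
        rw [ContinuousAddEquiv.apply_symm_apply]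
      · show (e (e.symm (z.1, z.2.1))).2 = z.2.1
        rw [ContinuousAddEquiv.apply_symm_apply]
  · let q : ((α → ℝ) × P) →+ ((α → ℝ) × P) ⧸ H' := QuotientAddGroup.mk' H'
    let f : ((J → ℝ) × P) →ₜ+ ((α → ℝ) × P) ⧸ H' :=
      { toFun := fun g => q (e g).2
        map_zero' := by
          show q (e 0).2 = 0
          rw [map_zero]
          exact map_zero q
        map_add' := fun a b => by
          show q (e (a + b)).2 = q (e a).2 + q (e b).2
          rw [map_add, Prod.snd_add, map_add]
        continuous_toFun :=
          continuous_quot_mk.comp (continuous_snd.comp e.continuous_toFun) }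
    refine isReflexive_quotient_of f ?_ ?_ H (fun g => ?_) (h2 α H' hI hH')
    · intro y
      obtain ⟨x, rfl⟩ := QuotientAddGroup.mk_surjective y
      refine ⟨e.symm (0, x), ?_⟩
      show q (e (e.symm (0, x))).2 = q x
      rw [ContinuousAddEquiv.apply_symm_apply]
    · exact (QuotientAddGroup.isOpenMap_coe (N := H')).comp
        (isOpenMap_snd.comp e.toHomeomorph.isOpenMap)
    · rw [hmem]
      exact (QuotientAddGroup.eq_zero_iff _).symm

/-- closed subgroups that are contained in a strongly reflexive closed subgroup -/
lemma isReflexive_of_le {E : Type u} [AddCommGroup E] [TopologicalSpace E]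
    {B H : AddSubgroup E} (hB : StronglyReflexive B) (hH : IsClosed (H : Set E)) (hHB : H ≤ B) :
    IsReflexive H := by
  have hc : IsClosed ((H.addSubgroupOf B : AddSubgroup B) : Set B) :=
    hH.preimage continuous_subtype_val
  refine isReflexive_subgroup_of
    (⟨B.subtype.comp (H.addSubgroupOf B).subtype,
      continuous_subtype_val.comp continuous_subtype_val⟩ : (H.addSubgroupOf B) →ₜ+ E)
    (IsEmbedding.subtypeVal.comp IsEmbedding.subtypeVal) H (fun g => ⟨fun hg => ?_, ?_⟩)
    (hB _ hc).1
  · exact ⟨⟨⟨g, hHB hg⟩, hg⟩, rfl⟩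
  · rintro ⟨a, rfl⟩
    exact a.2

/-- strong reflexivity of all groups `graphB ψ` implies strong reflexivity -/
theorem stronglyReflexive_vec_of_graphB [Countable J]
    (h : ∀ (κ : Type u) [Countable κ] (ψ : κ → Dual P), StronglyReflexive (graphB ψ)) :
    StronglyReflexive ((J → ℝ) × P) := by
  refine stronglyReflexive_vec_of_integral (fun α β _ _ H' hI hH => ?_)
    (fun α _ H' hI hH => ?_)
  · have hI2 : Integral (joinH β H') := integral_joinH hI
    have hna : NonarchimedeanAddGroup (joinH β H') := hI2.nonarchimedean
    obtain ⟨ψ, hψ⟩ := hI2.exists_chars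
    have hr : IsReflexive (joinH β H') := isReflexive_of_le (h _ ψ) (isClosed_joinH hH) hψ
    have hna2 : NonarchimedeanAddGroup (intFst β H') := nonarchimedean_of_iso (joinIso H')
    exact (cover_fst (β := β) (Z := H')).isReflexive (hr.congr (joinIso H'))
  · obtain ⟨ψ, hψ⟩ := hI.exists_chars
    have hT : T2Space (((α → ℝ) × P) ⧸ H') := by
      have : IsClosed (H' : Set ((α → ℝ) × P)) := hH
      infer_instance
    have hna0 : NonarchimedeanAddGroup (graphB ψ) := (integral_graphB ψ).nonarchimedean
    have hna : NonarchimedeanAddGroup ((graphB ψ).map (QuotientAddGroup.mk' H')) :=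
      nonarchimedean_of_open (toImage (graphB ψ) H') (continuous_toImage (graphB ψ) H')
        (isOpenMap_toImage hψ)
    let f : graphB ψ →ₜ+ (graphB ψ).map (QuotientAddGroup.mk' H') :=
      ⟨toImage (graphB ψ) H', continuous_toImage (graphB ψ) H'⟩
    have hf : IsOpenMap f := isOpenMap_toImage hψ
    have hK : IsClosed (f.toAddMonoidHom.ker : Set (graphB ψ)) :=
      isClosed_singleton.preimage f.continuous_toFun
    have h3 : IsReflexive ((graphB ψ).map (QuotientAddGroup.mk' H')) :=
      isReflexive_of_open_hom f hf f.toAddMonoidHom.ker (fun a => Iff.rfl) (h α ψ _ hK).2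
    exact (cover_quotient ψ hψ).isReflexive h3

end

end Pool.Agent.Work.MP_c629c8_al
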