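import Mathlib
import Pool.Agent.Work.MP_c629c8_al.Vec.VecRefl

/-!
# Strong reflexivity of `ℝ^J × P` from the reflexivity of its nonarchimedean subquotients
-/

universe u v w

namespace Pool.Agent.Work.MP_c629c8_al

open Topology

section exact

variable {E : Type w} {α β : Type u} {P : Type v} [AddCommGroup E] [TopologicalSpace E]
  [IsTopologicalAddGroup E] [AddCommGroup P] [TopologicalSpace P]
  (e : E ≃ₜ+ (β → ℝ) × ((α → ℝ) × P)) (H' : AddSubgroup ((α → ℝ) × P))

/-- the elements with integral first part and second part in `H'` -/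
def intSub : AddSubgroup E where
  carrier := {g | (∀ k, (((e g).1 k : ℝ) : UnitAddCircle) = 0) ∧ (e g).2 ∈ H'}
  zero_mem' := ⟨fun k => by rw [map_zero]; rfl, by rw [map_zero]; exact H'.zero_mem⟩
  add_mem' := fun {a b} ha hb => ⟨fun k => by
    rw [map_add]
    show ((((e a).1 k + (e b).1 k : ℝ)) : UnitAddCircle) = 0
    rw [AddCircle.coe_add, ha.1 k, hb.1 k, add_zero], by
    rw [map_add]
    exact H'.add_mem ha.2 hb.2⟩
  neg_mem' := fun {a} ha => ⟨fun k => by
    rw [map_neg]
    show (((-(e a).1 k : ℝ)) : UnitAddCircle) = 0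
    rw [AddCircle.coe_neg, ha.1 k, neg_zero], by
    rw [map_neg]
    exact H'.neg_mem ha.2⟩

/-- the elements with second part in `B` -/
def sndSub (B : AddSubgroup ((α → ℝ) × P)) : AddSubgroup E where
  carrier := {g | (e g).2 ∈ B}
  zero_mem' := by
    show (e 0).2 ∈ B
    rw [map_zero]
    exact B.zero_mem
  add_mem' := fun {a b} ha hb => by
    show (e (a + b)).2 ∈ B
    rw [map_add]
    exact B.add_mem ha hb
  neg_mem' := fun {a} ha => by
    show (e (-a)).2 ∈ B
    rw [map_neg]
    exact B.neg_mem ha

omit [IsTopologicalAddGroup E] in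
theorem isClosed_intSub (hH : IsClosed (H' : Set ((α → ℝ) × P))) :
    IsClosed (intSub e H' : Set E) := by
  have h : (intSub e H' : Set E) =
      (⋂ k : β, {g : E | (((e g).1 k : ℝ) : UnitAddCircle) = 0}) ∩
      (fun g : E => (e g).2) ⁻¹' H' := by
    ext g
    rw [Set.mem_inter_iff, Set.mem_iInter]
    rfl
  rw [h]
  refine IsClosed.inter (isClosed_iInter fun k => isClosed_eq ?_ continuous_const)
    (hH.preimage (continuous_snd.comp e.continuous_toFun))
  exact (AddCircle.continuous_mk' 1).comp
    ((continuous_apply k).comp (continuous_fst.comp e.continuous_toFun))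

omit [IsTopologicalAddGroup E] in
theorem isClosed_sndSub {B : AddSubgroup ((α → ℝ) × P)}
    (hB : IsClosed (B : Set ((α → ℝ) × P))) : IsClosed (sndSub e B : Set E) :=
  hB.preimage (continuous_snd.comp e.continuous_toFun)

/-- the isomorphism onto the product of an integral part and `H'` -/
def intSubIso : intSub e H' ≃ₜ+ intFst β H' where
  toFun g := ⟨((e g.1).1, ⟨(e g.1).2, g.2.2⟩), g.2.1⟩
  invFun w := ⟨e.symm (w.1.1, w.1.2.1), by
    constructor
    · intro k
      rw [e.apply_symm_apply]
      exact w.2 k
    · rw [e.apply_symm_apply]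
      exact w.1.2.2⟩
  left_inv g := Subtype.ext (e.symm_apply_apply g.1)
  right_inv w := by
    refine Subtype.ext (Prod.ext ?_ (Subtype.ext ?_))
    · show (e (e.symm (w.1.1, w.1.2.1))).1 = w.1.1
      rw [e.apply_symm_apply]
    · show (e (e.symm (w.1.1, w.1.2.1))).2 = w.1.2.1
      rw [e.apply_symm_apply]
  map_add' a b := by
    refine Subtype.ext (Prod.ext ?_ (Subtype.ext ?_))
    · show (e (a.1 + b.1)).1 = (e a.1).1 + (e b.1).1
      rw [map_add]
      rfl
    · show (e (a.1 + b.1)).2 = (e a.1).2 + (e b.1).2
      rw [map_add]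
      rfl
  continuous_toFun := by
    have h1 : Continuous fun g : intSub e H' => e g.1 :=
      e.continuous_toFun.comp continuous_subtype_val
    exact ((continuous_fst.comp h1).prodMk ((continuous_snd.comp h1).subtype_mk _)).subtype_mk _
  continuous_invFun := by
    refine Continuous.subtype_mk (e.symm.continuous_toFun.comp ?_) _
    exact (continuous_fst.comp continuous_subtype_val).prodMk
      (continuous_subtype_val.comp (continuous_snd.comp continuous_subtype_val))

/-- the homomorphism onto the image of `B` in the quotient by `H'` -/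
def exactSnd (B : AddSubgroup ((α → ℝ) × P)) :
    sndSub e B →ₜ+ B.map (QuotientAddGroup.mk' H') where
  toFun g := toImage B H' ⟨(e g.1).2, g.2⟩
  map_zero' := by
    have h : (⟨(e ((0 : sndSub e B) : E)).2, (0 : sndSub e B).2⟩ : B) = 0 := Subtype.ext (by
      show (e 0).2 = 0
      rw [map_zero]
      rfl)
    rw [h, map_zero]
  map_add' a b := by
    have h : (⟨(e ((a + b : sndSub e B) : E)).2, (a + b : sndSub e B).2⟩ : B) =
        ⟨(e a.1).2, a.2⟩ + ⟨(e b.1).2, b.2⟩ := Subtype.ext (by
      show (e (a.1 + b.1)).2 = (e a.1).2 + (e b.1).2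
      rw [map_add]
      rfl)
    rw [h, map_add]
  continuous_toFun := (continuous_toImage B H').comp
    ((continuous_snd.comp (e.continuous_toFun.comp continuous_subtype_val)).subtype_mk _)

omit [IsTopologicalAddGroup E] in
theorem sndHom_surjective (B : AddSubgroup ((α → ℝ) × P)) :
    Function.Surjective (exactSnd e H' B) := by
  intro y
  obtain ⟨b, rfl⟩ := toImage_surjective B H' y
  have h : (e (e.symm (0, b.1))).2 = b.1 := by rw [e.apply_symm_apply]
  refine ⟨⟨e.symm (0, b.1), ?_⟩, ?_⟩
  · show (e (e.symm (0, b.1))).2 ∈ B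
    rw [h]
    exact b.2
  · show toImage B H' ⟨(e (e.symm (0, b.1))).2, _⟩ = toImage B H' b
    congr 1
    exact Subtype.ext h

omit [IsTopologicalAddGroup E] in
theorem sndHom_isOpenMap [IsTopologicalAddGroup P] {B : AddSubgroup ((α → ℝ) × P)} (hB : H' ≤ B) :
    IsOpenMap (exactSnd e H' B) := by
  have h1 : IsOpenMap (fun g : E => (e g).2) := isOpenMap_snd.comp e.toHomeomorph.isOpenMap
  exact (isOpenMap_toImage hB).comp (h1.restrictPreimage (B : Set ((α → ℝ) × P)))

include e in
theorem isReflexive_intFst [T2Space E] (hI : NonarchimedeanAddGroup (intFst β H'))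
    (hH' : IsClosed (H' : Set ((α → ℝ) × P)))
    (h : ∀ L H : AddSubgroup E, IsClosed (L : Set E) → IsClosed (H : Set E) → L ≤ H →
      NonarchimedeanAddGroup (H ⧸ L.addSubgroupOf H) → IsReflexive (H ⧸ L.addSubgroupOf H)) :
    IsReflexive (intFst β H') := by
  let k : intSub e H' →ₜ+ intFst β H' :=
    ⟨(intSubIso e H').toAddEquiv.toAddMonoidHom, (intSubIso e H').continuous_toFun⟩
  have hk : Function.Surjective k := (intSubIso e H').surjective
  have hko : IsOpenMap k := (intSubIso e H').toHomeomorph.isOpenMap
  have hker : ∀ g, g ∈ (⊥ : AddSubgroup E).addSubgroupOf (intSub e H') ↔ k g = 0 := by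
    intro g
    rw [AddSubgroup.mem_addSubgroupOf, AddSubgroup.mem_bot]
    constructor
    · intro hg
      have : g = 0 := Subtype.ext hg
      rw [this, map_zero]
    · intro hg
      have h1 : k g = k 0 := by rw [hg, map_zero]
      rw [(intSubIso e H').injective h1]
      rfl
  have hbot : IsClosed ((⊥ : AddSubgroup E) : Set E) := by
    rw [AddSubgroup.coe_bot]
    exact isClosed_singleton
  refine isReflexive_of_quotient k hk hko _ hker
    (h ⊥ (intSub e H') hbot (isClosed_intSub e H' hH') bot_le ?_)
  exact nonarchimedean_of_iso (quotIso k hk hko _ hker).symm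

theorem isReflexive_image {B : AddSubgroup ((α → ℝ) × P)} (hB : H' ≤ B)
    [IsTopologicalAddGroup P]
    (hna : NonarchimedeanAddGroup B) (hBc : IsClosed (B : Set ((α → ℝ) × P)))
    {H₀ : AddSubgroup E} (hH₀ : IsClosed (H₀ : Set E)) (hmem : ∀ g, g ∈ H₀ ↔ (e g).2 ∈ H')
    (h : ∀ L H : AddSubgroup E, IsClosed (L : Set E) → IsClosed (H : Set E) → L ≤ H →
      NonarchimedeanAddGroup (H ⧸ L.addSubgroupOf H) → IsReflexive (H ⧸ L.addSubgroupOf H)) :
    IsReflexive (B.map (QuotientAddGroup.mk' H')) := by
  have hna2 : NonarchimedeanAddGroup (B.map (QuotientAddGroup.mk' H')) :=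
    nonarchimedean_of_open (toImage B H') (continuous_toImage B H') (isOpenMap_toImage hB)
  have hker : ∀ g, g ∈ H₀.addSubgroupOf (sndSub e B) ↔ exactSnd e H' B g = 0 := by
    intro g
    rw [AddSubgroup.mem_addSubgroupOf, hmem]
    constructor
    · intro hg
      refine Subtype.ext ?_
      show (QuotientAddGroup.mk' H') (e g.1).2 = 0
      exact (QuotientAddGroup.eq_zero_iff _).2 hg
    · intro hg
      have h1 : (QuotientAddGroup.mk' H') (e g.1).2 = 0 := congrArg Subtype.val hg
      exact (QuotientAddGroup.eq_zero_iff _).1 h1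
  refine isReflexive_of_quotient (exactSnd e H' B) (sndHom_surjective e H' B)
    (sndHom_isOpenMap e H' hB) _ hker
    (h H₀ (sndSub e B) hH₀ (isClosed_sndSub e hBc) (fun g hg => hB ((hmem g).1 hg)) ?_)
  exact nonarchimedean_of_iso (quotIso (exactSnd e H' B) (sndHom_surjective e H' B)
    (sndHom_isOpenMap e H' hB) _ hker).symm

end exact

/-- the product of a countable power of the real line and a nonarchimedean group is strongly
reflexive if its nonarchimedean subquotients are reflexive -/
theorem stronglyReflexive_vec_of_subquotients {J : Type u} {P : Type v} [Countable J]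
    [AddCommGroup P] [TopologicalSpace P] [NonarchimedeanAddGroup P] [T2Space P]
    (h : ∀ L H : AddSubgroup ((J → ℝ) × P), IsClosed (L : Set ((J → ℝ) × P)) →
      IsClosed (H : Set ((J → ℝ) × P)) → L ≤ H →
      NonarchimedeanAddGroup (H ⧸ L.addSubgroupOf H) → IsReflexive (H ⧸ L.addSubgroupOf H)) :
    StronglyReflexive ((J → ℝ) × P) := by
  intro H hH
  obtain ⟨α, β, e, H', hI, hH', hmem, hc⟩ := exists_coord H hH
  obtain ⟨hα, hβ⟩ := hc inferInstance
  constructor
  · let f : H →ₜ+ (β → ℝ) × H' :=
      { toFun := fun g => ((e g.1).1, ⟨(e g.1).2, (hmem g.1).1 g.2⟩)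
        map_zero' := by
          refine Prod.ext ?_ (Subtype.ext ?_)
          · show (e 0).1 = 0
            rw [map_zero]
            rfl
          · show (e 0).2 = 0
            rw [map_zero]
            rfl
        map_add' := fun a b => by
          refine Prod.ext ?_ (Subtype.ext ?_)
          · show (e (a.1 + b.1)).1 = (e a.1).1 + (e b.1).1
            rw [map_add]
            rfl
          · show (e (a.1 + b.1)).2 = (e a.1).2 + (e b.1).2
            rw [map_add]
            rfl
        continuous_toFun := by
          have h1 : Continuous fun g : H => e g.1 := e.continuous_toFun.comp continuous_subtype_val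
          exact (continuous_fst.comp h1).prodMk ((continuous_snd.comp h1).subtype_mk _) }
    have hsymm : ∀ z : (β → ℝ) × H', e.symm (z.1, z.2.1) ∈ H := fun z => by
      rw [hmem, ContinuousAddEquiv.apply_symm_apply]
      exact z.2.2
    let g : (β → ℝ) × H' →ₜ+ H :=
      { toFun := fun z => ⟨e.symm (z.1, z.2.1), hsymm z⟩
        map_zero' := by
          refine Subtype.ext ?_
          show e.symm (0 : (β → ℝ) × ((α → ℝ) × P)) = 0
          rw [map_zero]
        map_add' := fun a b => by
          refine Subtype.ext ?_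
          show e.symm ((a.1, a.2.1) + (b.1, b.2.1)) = e.symm (a.1, a.2.1) + e.symm (b.1, b.2.1)
          rw [map_add]
        continuous_toFun := by
          refine Continuous.subtype_mk (e.symm.continuous_toFun.comp
            (continuous_fst.prodMk (continuous_subtype_val.comp continuous_snd))) _ }
    have hna : NonarchimedeanAddGroup (joinH β H') := (integral_joinH hI).nonarchimedean
    have hna2 : NonarchimedeanAddGroup (intFst β H') := nonarchimedean_of_iso (joinIso H')
    have hr : IsReflexive ((β → ℝ) × H') :=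
      (cover_fst (β := β) (Z := H')).isReflexive (isReflexive_intFst e H' hna2 hH' h)
    refine IsReflexive.of_iso g f (fun a => ?_) (fun z => ?_) hr
    · refine Subtype.ext ?_
      show e.symm ((e a.1).1, (e a.1).2) = a.1
      exact e.symm_apply_apply a.1
    · refine Prod.ext ?_ (Subtype.ext ?_)
      · show (e (e.symm (z.1, z.2.1))).1 = z.1
        rw [ContinuousAddEquiv.apply_symm_apply]
      · show (e (e.symm (z.1, z.2.1))).2 = z.2.1
        rw [ContinuousAddEquiv.apply_symm_apply]
  · obtain ⟨ψ, hψ⟩ := hI.exists_chars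
    have hT : T2Space (((α → ℝ) × P) ⧸ H') := by
      have : IsClosed (H' : Set ((α → ℝ) × P)) := hH'
      infer_instance
    have hna0 : NonarchimedeanAddGroup (graphB ψ) := (integral_graphB ψ).nonarchimedean
    have hna : NonarchimedeanAddGroup ((graphB ψ).map (QuotientAddGroup.mk' H')) :=
      nonarchimedean_of_open (toImage (graphB ψ) H') (continuous_toImage (graphB ψ) H')
        (isOpenMap_toImage hψ)
    have hr : IsReflexive (((α → ℝ) × P) ⧸ H') :=
      (cover_quotient ψ hψ).isReflexive
        (isReflexive_image e H' hψ hna0 (isClosed_graphB ψ) hH hmem h)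
    let q : ((α → ℝ) × P) →+ ((α → ℝ) × P) ⧸ H' := QuotientAddGroup.mk' H'
    let f : ((J → ℝ) × P) →ₜ+ ((α → ℝ) × P) ⧸ H' :=
      { toFun := fun g => q (e g).2
        map_zero' := by
          show q (e 0).2 = 0
          rw [map_zero]
          exact map_zero q
        map_add' := fun a b => by
          show q (e (a + b)).2 = q (e a).2 + q (e b).2
          rw [map_add, Prod.snd_add, map_add]
        continuous_toFun :=
          continuous_quot_mk.comp (continuous_snd.comp e.continuous_toFun) }
    refine isReflexive_quotient_of f ?_ ?_ H (fun g => ?_) hr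
    · intro y
      obtain ⟨x, rfl⟩ := QuotientAddGroup.mk_surjective y
      refine ⟨e.symm (0, x), ?_⟩
      show q (e (e.symm (0, x))).2 = q x
      rw [ContinuousAddEquiv.apply_symm_apply]
    · exact (QuotientAddGroup.isOpenMap_coe (N := H')).comp
        (isOpenMap_snd.comp e.toHomeomorph.isOpenMap)
    · rw [hmem]
      exact (QuotientAddGroup.eq_zero_iff _).symm

end Pool.Agent.Work.MP_c629c8_al
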