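import Mathlib
import Pool.Agent.Work.MP_c629c8_al.Vec.ThmS

/-!
# Characters of closed subgroups extend
-/

universe u v w

namespace Pool.Agent.Work.MP_c629c8_al

open Topology

/-- characters of a compact subgroup extend if the characters of the group separate its points -/
lemma exists_extension_compact {G : Type u} [AddCommGroup G] [TopologicalSpace G]
    [IsTopologicalAddGroup G] (C : AddSubgroup G) [CompactSpace C]
    (hsep : ∀ c ∈ C, c ≠ 0 → ∃ χ : Dual G, χ c ≠ 0) (ξ : Dual C) :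
    ∃ χ : Dual G, ∀ c : C, χ c = ξ c := by
  by_contra hcon
  push Not at hcon
  let ι : C →ₜ+ G := ⟨C.subtype, continuous_subtype_val⟩
  let R : AddSubgroup (Dual C) := (dualMap ι).toAddMonoidHom.range
  have h1 : (QuotientAddGroup.mk ξ : Dual C ⧸ R) ≠ 0 := by
    rw [Ne, QuotientAddGroup.eq_zero_iff]
    rintro ⟨χ, hχ⟩
    obtain ⟨c, hc⟩ := hcon χ
    exact hc (DFunLike.congr_fun hχ c)
  obtain ⟨g, hg⟩ := exists_char_ne_zero h1
  obtain ⟨c, hc⟩ := exists_point (C := C) (AddMonoidHom.id (Dual C))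
    (g.comp (QuotientAddGroup.mk' R)) (fun d hd => by
      have hd' : d = 0 := hd
      rw [hd', map_zero])
  have h2 : (c : G) = 0 := by
    by_contra hne
    obtain ⟨χ, hχ⟩ := hsep c c.2 hne
    apply hχ
    have h3 : g (QuotientAddGroup.mk (dualMap ι χ)) = dualMap ι χ c := hc (dualMap ι χ)
    have h4 : (QuotientAddGroup.mk (dualMap ι χ) : Dual C ⧸ R) = 0 := by
      rw [QuotientAddGroup.eq_zero_iff]
      exact ⟨χ, rfl⟩
    rw [h4, map_zero] at h3
    exact h3.symm
  apply hg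
  have h3 : g (QuotientAddGroup.mk ξ) = ξ c := hc ξ
  have h4 : c = 0 := Subtype.ext h2
  rw [h3, h4, map_zero]

/-- characters of closed subgroups extend -/
theorem exists_extension_of_compact_ker {G : Type w} {J : Type u} {P : Type v} [AddCommGroup G]
    [TopologicalSpace G] [IsTopologicalAddGroup G] [T2Space G] [AddCommGroup P]
    [TopologicalSpace P] [NonarchimedeanAddGroup P] [T2Space P]
    (π : G →ₜ+ (J → ℝ) × P) (hπ : Function.Surjective π) (hπo : IsOpenMap π)
    (hK : IsCompact {g | π g = 0}) (hsep : ∀ g, π g = 0 → g ≠ 0 → ∃ χ : Dual G, χ g ≠ 0)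
    (H : AddSubgroup G) (hH : IsClosed (H : Set G)) (ξ : Dual H) :
    ∃ χ : Dual G, ∀ x : H, χ x = ξ x := by
  have hπc : IsClosedMap π := isClosedMap_of_compact_ker π hπ hπo hK
  let L : AddSubgroup ((J → ℝ) × P) := H.map π.toAddMonoidHom
  have hmemL : ∀ z, z ∈ L ↔ ∃ g ∈ H, π g = z := fun z => Iff.rfl
  have hL : IsClosed (L : Set ((J → ℝ) × P)) := hπc _ hH
  -- the map of the subgroup
  let p₁ : H →ₜ+ L :=
    { toFun := fun h => ⟨π h, h, h.2, rfl⟩
      map_zero' := Subtype.ext (map_zero π)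
      map_add' := fun a b => Subtype.ext (map_add π (a : G) (b : G))
      continuous_toFun := (π.continuous_toFun.comp continuous_subtype_val).subtype_mk _ }
  have hp₁ : ∀ h : H, ((p₁ h : L) : (J → ℝ) × P) = π h := fun h => rfl
  have hp₁s : Function.Surjective p₁ := by
    rintro ⟨z, hz⟩
    obtain ⟨g, hg, rfl⟩ := (hmemL z).1 hz
    exact ⟨⟨g, hg⟩, rfl⟩
  have hp₁c : IsClosedMap p₁ := by
    intro C hC
    have h1 : IsClosed (π '' (Subtype.val '' C)) :=
      hπc _ (hH.isClosedEmbedding_subtypeVal.isClosedMap _ hC)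
    have h2 : p₁ '' C = Subtype.val ⁻¹' (π '' (Subtype.val '' C)) := by
      ext z
      constructor
      · rintro ⟨h, hh, rfl⟩
        exact ⟨h, ⟨h, hh, rfl⟩, rfl⟩
      · rintro ⟨_, ⟨h, hh, rfl⟩, hz⟩
        exact ⟨h, hh, Subtype.ext hz⟩
    rw [h2]
    exact h1.preimage continuous_subtype_val
  have hp₁o : IsOpenMap p₁ := isOpenMap_of_closed p₁ hp₁s hp₁c
  -- the restriction to the compact part
  let C : AddSubgroup G := H ⊓ π.toAddMonoidHom.ker
  have hCc : IsCompact (C : Set G) := hK.inter_left hH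
  have : CompactSpace C := isCompact_iff_compactSpace.1 hCc
  let j : C →ₜ+ H :=
    { toFun := fun c => ⟨c, c.2.1⟩
      map_zero' := rfl
      map_add' := fun _ _ => rfl
      continuous_toFun := continuous_subtype_val.subtype_mk _ }
  obtain ⟨χ₀, hχ₀⟩ := exists_extension_compact C (fun c hc hc0 => hsep c hc.2 hc0) (ξ.comp j)
  obtain ⟨ξ₀, hξ₀⟩ := exists_factor p₁ hp₁s hp₁o
    (ξ - χ₀.comp (⟨H.subtype, continuous_subtype_val⟩ : H →ₜ+ G)) (by
      intro h hh
      show ξ h - χ₀ h = 0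
      have h1 : χ₀ (h : G) = ξ h := hχ₀ ⟨h, h.2, congrArg Subtype.val hh⟩
      rw [h1, sub_self])
  obtain ⟨ξ₁, hξ₁⟩ := exists_extension_vec L hL ξ₀
  refine ⟨χ₀ + ξ₁.comp π, fun x => ?_⟩
  show χ₀ x + ξ₁ (π x) = ξ x
  have h1 : ξ₁ (π x) = ξ₀ (p₁ x) := hξ₁ (p₁ x)
  have h2 : ξ₀ (p₁ x) = ξ x - χ₀ x := hξ₀ x
  rw [h1, h2, add_sub_cancel]

end Pool.Agent.Work.MP_c629c8_al
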