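import Mathlib
import Pool.Agent.Work.MP_c629c8_al.Vec.OpenSub

/-!
# The converse of Lemma Z

If a group covered by `κ → ℝ` and a nonarchimedean subgroup `Q` is reflexive then `Q` is
reflexive.
-/

universe u v w

namespace Pool.Agent.Work.MP_c629c8_al

open Topology

namespace CoverConv

section lift

variable {A : Type u} {B : Type v} [AddCommGroup A] [TopologicalSpace A] [IsTopologicalAddGroup A]
  [AddCommGroup B] [TopologicalSpace B] [IsTopologicalAddGroup B]

/-- compact sets lift along an open surjective homomorphism with discrete kernel -/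
theorem exists_compact_lift_of_discrete_ker (ρ : A →ₜ+ B) (hρ : Function.Surjective ρ)
    (hρo : IsOpenMap ρ) {V : Set A} (hV : V ∈ 𝓝 (0 : A)) (hker : ∀ a ∈ V, ρ a = 0 → a = 0)
    {E : Set B} (hE : IsCompact E) : ∃ E' : Set A, IsCompact E' ∧ E ⊆ ρ '' E' := by
  -- an open neighbourhood on which the homomorphism is injective
  obtain ⟨V₁, hV₁, hV₁V⟩ := exists_nhds_half_neg hV
  obtain ⟨V₂, hV₂V, hV₂o, h0⟩ := mem_nhds_iff.1 hV₁
  have hinj : ∀ x ∈ V₂, ∀ y ∈ V₂, ρ x = ρ y → x = y := by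
    intro x hx y hy hxy
    have h1 := hker (x - y) (hV₁V x (hV₂V hx) y (hV₂V hy)) (by rw [map_sub, hxy, sub_self])
    exact sub_eq_zero.1 h1
  -- the local sections
  have hemb : ∀ a : A, IsInducing fun v : V₂ => ρ (a + v) := by
    intro a
    have h1 : IsOpenEmbedding fun v : V₂ => ρ (a + v) := by
      refine IsOpenEmbedding.of_continuous_injective_isOpenMap ?_ ?_ ?_
      · exact ρ.continuous_toFun.comp (continuous_const.add continuous_subtype_val)
      · intro v w hvw
        have h2 : ρ (a + v) = ρ (a + w) := hvw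
        rw [map_add, map_add, add_left_cancel_iff] at h2
        exact Subtype.ext (hinj _ v.2 _ w.2 h2)
      · exact hρo.comp ((Homeomorph.addLeft a).isOpenMap.comp hV₂o.isOpenMap_subtype_val)
    exact h1.isInducing
  -- a closed neighbourhood in the image
  have himg : ρ '' V₂ ∈ 𝓝 (0 : B) := by
    have h1 := hρo.image_mem_nhds (hV₂o.mem_nhds h0)
    rwa [map_zero] at h1
  obtain ⟨N, hN, hNc, hNV⟩ := exists_mem_nhds_isClosed_subset himg
  have hpiece : ∀ a : A, ∃ E' : Set A, IsCompact E' ∧ E ∩ {b | b - ρ a ∈ N} ⊆ ρ '' E' := by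
    intro a
    have h1 : IsCompact (E ∩ {b | b - ρ a ∈ N}) :=
      hE.inter_right (hNc.preimage (continuous_id.sub continuous_const))
    have h2 : E ∩ {b | b - ρ a ∈ N} ⊆ Set.range fun v : V₂ => ρ (a + v) := by
      rintro b ⟨-, hb⟩
      obtain ⟨v, hv, hvb⟩ := hNV hb
      refine ⟨⟨v, hv⟩, ?_⟩
      show ρ (a + v) = b
      rw [map_add, hvb, add_sub_cancel]
    have h3 := ((hemb a).isCompact_preimage_iff h2).2 h1
    refine ⟨(fun v : V₂ => a + v) '' ((fun v : V₂ => ρ (a + v)) ⁻¹' (E ∩ {b | b - ρ a ∈ N})),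
      h3.image (continuous_const.add continuous_subtype_val), fun b hb => ?_⟩
    obtain ⟨v, hv⟩ := h2 hb
    have hv' : ρ (a + v) = b := hv
    refine ⟨a + v, Set.mem_image_of_mem _ ?_, hv'⟩
    rw [Set.mem_preimage, hv']
    exact hb
  choose E' hE' hEE' using hpiece
  obtain ⟨F, -, hF⟩ := hE.elim_nhds_subcover
    (fun b => (fun x => x - ρ (Function.surjInv hρ b)) ⁻¹' N)
    (fun b _ => (continuous_id.sub continuous_const).continuousAt.preimage_mem_nhds (by
      show N ∈ 𝓝 (b - ρ (Function.surjInv hρ b))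
      rw [Function.surjInv_eq hρ b, sub_self]
      exact hN))
  refine ⟨⋃ b ∈ F, E' (Function.surjInv hρ b), F.isCompact_biUnion fun b _ => hE' _,
    fun x hx => ?_⟩
  obtain ⟨b, hb, hxb⟩ := Set.mem_iUnion₂.1 (hF hx)
  obtain ⟨a, ha, hax⟩ := hEE' (Function.surjInv hρ b) ⟨hx, hxb⟩
  exact ⟨a, Set.mem_iUnion₂.2 ⟨b, hb, ha⟩, hax⟩

end lift

end CoverConv

section conv

open CoverConv OpenSubAux

variable {κ : Type u} {Y : Type v} [AddCommGroup Y] [TopologicalSpace Y] [IsTopologicalAddGroup Y]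
  {f : (κ → ℝ) →ₜ+ Y} {Q : AddSubgroup Y}

lemma Cover.restrict_surjective (h : Cover f Q) [NonarchimedeanAddGroup Q] :
    Function.Surjective (dualMap (subHom Q)) := by
  intro χ
  obtain ⟨ξ, hξ⟩ := h.exists_extension χ
  exact ⟨ξ, ContinuousAddMonoidHom.ext hξ⟩

lemma Cover.restrict_isOpenMap (h : Cover f Q) [NonarchimedeanAddGroup Q] :
    IsOpenMap (dualMap (subHom Q)) := by
  rw [IsTopologicalAddGroup.isOpenMap_iff_nhds_zero]
  intro W hW
  rw [Filter.mem_map] at hW
  obtain ⟨C, hC, δ, hδ, hCδ⟩ := SurjAux.exists_of_mem_nhds hW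
  filter_upwards [h.exists_small_extension hC hδ] with χ hχ
  obtain ⟨ξ, hξ1, hξ2⟩ := hχ
  have h1 : dualMap (subHom Q) ξ = χ := ContinuousAddMonoidHom.ext hξ1
  rw [← h1]
  exact hCδ ξ hξ2

omit [IsTopologicalAddGroup Y] in
/-- the kernel of the restriction is discrete -/
lemma Cover.restrict_ker (h : Cover f Q) (ξ : Dual Y)
    (hξ : ∀ y ∈ f '' Set.Icc 0 1, ‖ξ y‖ < 1 / 4) (hQ : dualMap (subHom Q) ξ = 0) : ξ = 0 := by
  have hQ' : ∀ q ∈ Q, ξ q = 0 := fun q hq => DFunLike.congr_fun hQ (⟨q, hq⟩ : Q)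
  obtain ⟨r, hr⟩ := exists_dot_of_dual (ξ.comp f)
  have hr' : ∀ x, ξ (f x) = ((dot r x : ℝ) : UnitAddCircle) := fun x => DFunLike.congr_fun hr x
  have hr0 : ∀ k, r k = 0 := by
    intro k
    have h1 : ((r k : ℝ) : UnitAddCircle) = 0 := by
      rw [← dot_ev r k, ← hr']
      exact hQ' _ (h.ev_mem k)
    obtain ⟨n, hn⟩ := (AddCircle.coe_eq_zero_iff (1 : ℝ)).1 h1
    have hn' : (n : ℝ) = r k := by simpa using hn
    by_contra hne
    have hn0 : n ≠ 0 := by
      rintro rfl
      exact hne (by rw [← hn', Int.cast_zero])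
    have habs : (1 : ℝ) ≤ |(n : ℝ)| := by
      rw [← Int.cast_abs]
      exact_mod_cast Int.one_le_abs hn0
    have hpos : (0 : ℝ) < |(n : ℝ)| := by linarith
    -- the point `ev k / (2 |n|)`
    have hmem : f ((1 / (2 * |(n : ℝ)|)) • ev k) ∈ f '' Set.Icc 0 1 := by
      refine Set.mem_image_of_mem _ ⟨fun j => ?_, fun j => ?_⟩
      · show (0 : ℝ) ≤ (1 / (2 * |(n : ℝ)|)) * ev k j
        have h2 : (0 : ℝ) ≤ ev k j := by
          by_cases hj : j = k
          · subst hj
            rw [ev_self]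
            exact zero_le_one
          · rw [ev_of_ne hj]
        positivity
      · show (1 / (2 * |(n : ℝ)|)) * ev k j ≤ 1
        have h2 : ev k j ≤ 1 := by
          by_cases hj : j = k
          · subst hj
            rw [ev_self]
          · rw [ev_of_ne hj]
            exact zero_le_one
        have h3 : 1 / (2 * |(n : ℝ)|) ≤ 1 := by
          rw [div_le_one (by positivity)]
          linarith
        have h4 : (0 : ℝ) ≤ 1 / (2 * |(n : ℝ)|) := by positivity
        calc (1 / (2 * |(n : ℝ)|)) * ev k j ≤ (1 / (2 * |(n : ℝ)|)) * 1 :=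
              mul_le_mul_of_nonneg_left h2 h4
          _ ≤ 1 := by linarith
    have h5 := hξ _ hmem
    rw [hr', dot_smul, dot_ev, ← hn'] at h5
    have h6 : |1 / (2 * |(n : ℝ)|) * n| = 1 / 2 := by
      rw [abs_mul, abs_of_pos (by positivity)]
      field_simp
    rw [(AddCircle.norm_coe_eq_abs_iff (p := (1 : ℝ)) one_ne_zero).2 (by
      rw [h6, abs_one]), h6] at h5
    norm_num at h5
  have hr1 : r = 0 := Finsupp.ext hr0
  refine ContinuousAddMonoidHom.ext fun y => ?_
  obtain ⟨x, q, hq, rfl⟩ := h.gen y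
  rw [map_add, hQ' q hq, hr', hr1, zero_dot, add_zero]
  rfl

/-- the converse of Lemma Z -/
theorem Cover.isReflexive_sub {κ : Type u} {Y : Type v} [AddCommGroup Y] [TopologicalSpace Y]
    [IsTopologicalAddGroup Y] [T2Space Y] {f : (κ → ℝ) →ₜ+ Y} {Q : AddSubgroup Y}
    (h : Cover f Q) [NonarchimedeanAddGroup Q] (hY : IsReflexive Y) : IsReflexive Q := by
  have hrs := h.restrict_surjective
  have hro := h.restrict_isOpenMap
  have hinj : Function.Injective (eta Q) := by
    intro p q hpq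
    have h1 : eta Y p = eta Y q := by
      refine ContinuousAddMonoidHom.ext fun ξ => ?_
      exact DFunLike.congr_fun hpq (dualMap (subHom Q) ξ)
    exact Subtype.ext (hY.bijective.injective h1)
  have hsurj : Function.Surjective (eta Q) := by
    intro Φ
    obtain ⟨y, hy⟩ := hY.bijective.surjective (Φ.comp (dualMap (subHom Q)))
    have hy' : ∀ ξ : Dual Y, ξ y = Φ (dualMap (subHom Q) ξ) := fun ξ => DFunLike.congr_fun hy ξ
    have hyQ : y ∈ Q := by
      obtain ⟨x, q, hq, rfl⟩ := h.gen y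
      refine Q.add_mem ((h.int x).2 fun k => ?_) hq
      obtain ⟨θ, hθ⟩ := h.exists_theta k
      have h1 : dualMap (subHom Q) θ = 0 := by
        refine ContinuousAddMonoidHom.ext fun p => ?_
        show θ p = 0
        have h2 := hθ 0 p p.2
        rw [map_zero, zero_add] at h2
        rw [h2]
        rfl
      rw [← hθ x q hq, hy', h1, map_zero]
    refine ⟨⟨y, hyQ⟩, ContinuousAddMonoidHom.ext fun χ => ?_⟩
    obtain ⟨ξ, rfl⟩ := hrs χ
    exact hy' ξ
  refine ⟨?_, ?_, hinj, hsurj⟩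
  · apply Pool.Agent.Work.MP_c629c8_al.eta_continuous
    intro E hE U hU h0
    have hV := SurjAux.mem_nhds (G := Y) (C := f '' Set.Icc 0 1)
      (isCompact_Icc.image f.continuous_toFun) (δ := 1 / 4) (by norm_num)
    obtain ⟨E', hE', hEE'⟩ := exists_compact_lift_of_discrete_ker (dualMap (subHom Q)) hrs hro hV
      (fun ξ hξ hξQ => h.restrict_ker ξ hξ hξQ) hE
    have h1 := equi_of_eta_continuous hY.continuous hE' hU h0
    have h2 : Filter.Tendsto (Subtype.val : Q → Y) (𝓝 0) (𝓝 0) :=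
      continuous_subtype_val.continuousAt
    filter_upwards [h2.eventually h1] with q hq χ hχ
    obtain ⟨ξ, hξ, hξχ⟩ := hEE' hχ
    rw [← hξχ]
    exact hq ξ hξ
  · apply isOpenMap_of_polar hsurj
    intro W hW
    rw [nhds_subtype_eq_comap, Filter.mem_comap] at hW
    obtain ⟨W', hW', hWW⟩ := hW
    obtain ⟨E, hE, δ, hδ, hEW⟩ := exists_polar hY.bijective.injective hY.isOpenMap hW'
    refine ⟨dualMap (subHom Q) '' E, hE.image (dualMap (subHom Q)).continuous_toFun, δ, hδ,
      fun q hq => hWW ?_⟩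
    have hq' : ∀ ξ ∈ E, ‖ξ (q : Y)‖ < δ := fun ξ hξ =>
      hq (dualMap (subHom Q) ξ) (Set.mem_image_of_mem _ hξ)
    exact hEW (q : Y) hq'

end conv

end Pool.Agent.Work.MP_c629c8_al
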