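import Mathlib
import Pool.Agent.Work.MP_c629c8_al.Vec.CoverConv
import Pool.Agent.Work.MP_c629c8_al.Vec.GraphB
import Pool.Agent.Work.MP_c629c8_al.Vec.GoodTr
import Pool.Agent.Work.MP_c629c8_al.Vec.Tr

/-!
# Integral vectors: `ℤ^J × P` is strongly reflexive if `ℝ^J × P` is
-/

universe u v

namespace Pool.Agent.Work.MP_c629c8_al

open Topology

section incl

variable (J : Type u) (P : Type v) [AddCommGroup P] [TopologicalSpace P]

/-- the inclusion of `ℤ^J × P` into `ℝ^J × P` -/
noncomputable def ivIncl : (J → ℤ) × P →ₜ+ (J → ℝ) × P where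
  toFun z := (fun j => ((z.1 j : ℤ) : ℝ), z.2)
  map_zero' := by
    refine Prod.ext ?_ rfl
    funext j
    exact Int.cast_zero
  map_add' a b := by
    refine Prod.ext ?_ rfl
    funext j
    exact Int.cast_add _ _
  continuous_toFun := by
    refine Continuous.prodMk (continuous_pi fun j => ?_) continuous_snd
    exact continuous_of_discreteTopology.comp ((continuous_apply j).comp continuous_fst)

variable {J P}

lemma ivIncl_apply (z : (J → ℤ) × P) :
    ivIncl J P z = (fun j => ((z.1 j : ℤ) : ℝ), z.2) := rfl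

lemma isClosedEmbedding_ivIncl : IsClosedEmbedding (ivIncl J P) := by
  have h1 : IsClosedEmbedding (fun (x : J → ℤ) (j : J) => ((x j : ℤ) : ℝ)) :=
    IsClosedEmbedding.piMap (f := fun _ : J => ((↑) : ℤ → ℝ)) fun _ =>
      Int.isClosedEmbedding_coe_real
  exact h1.prodMap IsClosedEmbedding.id

lemma isClosed_map_ivIncl {H : AddSubgroup ((J → ℤ) × P)}
    (hH : IsClosed (H : Set ((J → ℤ) × P))) :
    IsClosed ((H.map (ivIncl J P).toAddMonoidHom : AddSubgroup ((J → ℝ) × P)) :
      Set ((J → ℝ) × P)) :=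
  isClosedEmbedding_ivIncl.isClosedMap _ hH

lemma map_ivIncl_le (H : AddSubgroup ((J → ℤ) × P)) :
    H.map (ivIncl J P).toAddMonoidHom ≤ graphB (fun _ : J => (0 : Dual P)) := by
  rintro _ ⟨z, _, rfl⟩ j
  show (0 : UnitAddCircle) = (((z.1 j : ℤ) : ℝ) : UnitAddCircle)
  symm
  exact (AddCircle.coe_eq_zero_iff 1).mpr ⟨z.1 j, by rw [zsmul_eq_mul, mul_one]⟩

lemma mem_graphB_zero_iff {z : (J → ℝ) × P} :
    z ∈ graphB (fun _ : J => (0 : Dual P)) ↔ ∃ a, ivIncl J P a = z := by
  constructor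
  · intro h
    have h1 : ∀ j, ∃ n : ℤ, (n : ℝ) = z.1 j := fun j => by
      have h2 : (0 : UnitAddCircle) = ((z.1 j : ℝ) : UnitAddCircle) := h j
      obtain ⟨n, hn⟩ := (AddCircle.coe_eq_zero_iff 1).mp h2.symm
      exact ⟨n, by rw [← hn, zsmul_eq_mul, mul_one]⟩
    choose n hn using h1
    refine ⟨(n, z.2), Prod.ext ?_ rfl⟩
    funext j
    exact hn j
  · rintro ⟨a, rfl⟩
    exact map_ivIncl_le ⊤ ⟨a, trivial, rfl⟩

end incl

section sub

variable {J : Type u} {P : Type v} [AddCommGroup P] [TopologicalSpace P]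

/-- closed subgroups of `ℤ^J × P` -/
theorem isReflexive_subgroup_int_vec (h : StronglyReflexive ((J → ℝ) × P))
    {H : AddSubgroup ((J → ℤ) × P)} (hH : IsClosed (H : Set ((J → ℤ) × P))) : IsReflexive H := by
  let s : H →ₜ+ (J → ℤ) × P := ⟨H.subtype, continuous_subtype_val⟩
  let f : H →ₜ+ (J → ℝ) × P := (ivIncl J P).comp s
  have hf : IsEmbedding f := isClosedEmbedding_ivIncl.isEmbedding.comp IsEmbedding.subtypeVal
  have hH' : ∀ g, g ∈ H.map (ivIncl J P).toAddMonoidHom ↔ ∃ a, f a = g := by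
    intro g
    constructor
    · rintro ⟨z, hz, rfl⟩
      exact ⟨⟨z, hz⟩, rfl⟩
    · rintro ⟨z, rfl⟩
      exact ⟨z, z.2, rfl⟩
  exact (h _ (isClosed_map_ivIncl hH)).1.congr (subIso f hf _ hH').symm

end sub

section quot

variable {J : Type u} {P : Type v} [AddCommGroup P] [TopologicalSpace P]
  [NonarchimedeanAddGroup P]

/-- the isomorphism of `ℤ^J × P` with the graph of zero -/
noncomputable def intIso : (J → ℤ) × P ≃ₜ+ graphB (fun _ : J => (0 : Dual P)) :=
  subIso (ivIncl J P) isClosedEmbedding_ivIncl.isEmbedding _ (fun _ => mem_graphB_zero_iff)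

instance instNonarchIntVec : NonarchimedeanAddGroup (graphB (fun _ : J => (0 : Dual P))) :=
  nonarchimedean_of_open (X := (J → ℤ) × P) (intIso (J := J) (P := P)).toAddEquiv.toAddMonoidHom
    (intIso (J := J) (P := P)).continuous_toFun
    (intIso (J := J) (P := P)).toHomeomorph.isOpenMap

/-- the quotients of `ℤ^J × P` -/
theorem isReflexive_quotient_int_vec [T2Space P] (h : StronglyReflexive ((J → ℝ) × P))
    {H : AddSubgroup ((J → ℤ) × P)} (hH : IsClosed (H : Set ((J → ℤ) × P))) :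
    IsReflexive (((J → ℤ) × P) ⧸ H) := by
  set H' : AddSubgroup ((J → ℝ) × P) := H.map (ivIncl J P).toAddMonoidHom with hH'
  have hcl : IsClosed (H' : Set ((J → ℝ) × P)) := isClosed_map_ivIncl hH
  haveI : IsClosed (H' : Set ((J → ℝ) × P)) := hcl
  have hle : H' ≤ graphB (fun _ : J => (0 : Dual P)) := map_ivIncl_le H
  let B : AddSubgroup ((J → ℝ) × P) := graphB (fun _ : J => (0 : Dual P))
  have hY : IsReflexive (((J → ℝ) × P) ⧸ H') := (h _ hcl).2
  haveI : T2Space (((J → ℝ) × P) ⧸ H') := inferInstance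
  haveI : NonarchimedeanAddGroup (B.map (QuotientAddGroup.mk' H')) :=
    nonarchimedean_of_open (toImage B H') (continuous_toImage B H') (isOpenMap_toImage hle)
  have hQ : IsReflexive (B.map (QuotientAddGroup.mk' H')) :=
    (cover_quotient (fun _ : J => (0 : Dual P)) hle).isReflexive_sub hY
  let g : (J → ℤ) × P →ₜ+ B.map (QuotientAddGroup.mk' H') :=
    ⟨(toImage B H').comp (intIso (J := J) (P := P)).toAddEquiv.toAddMonoidHom,
      (continuous_toImage B H').comp (intIso (J := J) (P := P)).continuous_toFun⟩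
  have hgv : ∀ z, ((g z : B.map (QuotientAddGroup.mk' H')) : ((J → ℝ) × P) ⧸ H') =
      QuotientAddGroup.mk (ivIncl J P z) := fun z => rfl
  have hgs : Function.Surjective g :=
    (toImage_surjective B H').comp (intIso (J := J) (P := P)).toAddEquiv.surjective
  have hgo : IsOpenMap g :=
    (isOpenMap_toImage hle).comp (intIso (J := J) (P := P)).toHomeomorph.isOpenMap
  refine isReflexive_quotient_of g hgs hgo H (fun z => ?_) hQ
  rw [← Subtype.coe_inj, hgv]
  show z ∈ H ↔ (QuotientAddGroup.mk (ivIncl J P z) : ((J → ℝ) × P) ⧸ H') = 0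
  rw [QuotientAddGroup.eq_zero_iff]
  constructor
  · exact fun hz => ⟨z, hz, rfl⟩
  · rintro ⟨w, hw, hwz⟩
    rwa [← isClosedEmbedding_ivIncl.injective hwz]

theorem StronglyReflexive.int_vec [T2Space P] (h : StronglyReflexive ((J → ℝ) × P)) :
    StronglyReflexive ((J → ℤ) × P) := fun _ hH =>
  ⟨isReflexive_subgroup_int_vec h hH, isReflexive_quotient_int_vec h hH⟩

end quot

end Pool.Agent.Work.MP_c629c8_al
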