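import Mathlib
import Pool.Agent.Work.MP_c629c8_al.Vec.ThmK
import Pool.Agent.Work.MP_c629c8_al.Vec.ExtK
import Pool.Agent.Work.MP_c629c8_al.Vec.SubQ
import Pool.Agent.Work.MP_c629c8_al.Vec.Exact
import Pool.Agent.Work.MP_c629c8_al.Vec.IntVec
import Pool.Agent.Work.MP_c629c8_al.Bdd.Main

/-!
# Strongly reflexive abelian pro-Lie groups and their subquotients
-/

universe u v w

namespace Pool.Agent.Work.MP_c629c8_al

open Topology

section subquotient

variable {G : Type u} {E : Type v} [AddCommGroup G] [TopologicalSpace G]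
  [IsTopologicalAddGroup G] [AddCommGroup E] [TopologicalSpace E] [IsTopologicalAddGroup E]

/-- subquotients of a quotient are subquotients -/
noncomputable def subquotIso (p : G →ₜ+ E) (hp : Function.Surjective p) (hpo : IsOpenMap p)
    (L H : AddSubgroup E) :
    H.comap p.toAddMonoidHom ⧸
      (L.comap p.toAddMonoidHom).addSubgroupOf (H.comap p.toAddMonoidHom) ≃ₜ+
      H ⧸ L.addSubgroupOf H := by
  let M : AddSubgroup G := H.comap p.toAddMonoidHom
  let q : M →ₜ+ H :=
    { toFun := fun m => ⟨p m, m.2⟩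
      map_zero' := Subtype.ext (map_zero p)
      map_add' := fun a b => Subtype.ext (map_add p (a : G) (b : G))
      continuous_toFun := (p.continuous_toFun.comp continuous_subtype_val).subtype_mk _ }
  have hq : Function.Surjective q := by
    rintro ⟨z, hz⟩
    obtain ⟨g, rfl⟩ := hp z
    exact ⟨⟨g, hz⟩, rfl⟩
  have hqo : IsOpenMap q := by
    intro W hW
    obtain ⟨V, hV, rfl⟩ := isOpen_induced_iff.1 hW
    have h3 : q '' (Subtype.val ⁻¹' V) = Subtype.val ⁻¹' (p '' V) := by
      ext z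
      constructor
      · rintro ⟨m, hm, rfl⟩
        exact ⟨m, hm, rfl⟩
      · rintro ⟨g, hg, hgz⟩
        have hgM : g ∈ M := by
          show p g ∈ H
          rw [hgz]
          exact z.2
        exact ⟨⟨g, hgM⟩, hg, Subtype.ext hgz⟩
    rw [h3]
    exact (hpo V hV).preimage continuous_subtype_val
  let r : M →ₜ+ H ⧸ L.addSubgroupOf H :=
    { toAddMonoidHom := (QuotientAddGroup.mk' (L.addSubgroupOf H)).comp q.toAddMonoidHom
      continuous_toFun := (continuous_quot_mk
        (r := QuotientAddGroup.leftRel (L.addSubgroupOf H))).comp q.continuous_toFun }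
  refine quotIso r ?_ ?_ _ ?_
  · intro z
    obtain ⟨z, rfl⟩ := QuotientAddGroup.mk_surjective z
    obtain ⟨g, rfl⟩ := hq z
    exact ⟨g, rfl⟩
  · exact (QuotientAddGroup.isOpenMap_coe (N := L.addSubgroupOf H)).comp hqo
  · intro g
    exact (QuotientAddGroup.eq_zero_iff (N := L.addSubgroupOf H) (q g)).symm

end subquotient

/-- **The exact reduction to subquotients with a basis of open subgroups** -/
theorem ProLie.exact {G : Type u} [AddCommGroup G] [UniformSpace G] [IsUniformAddGroup G]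
    [CompleteSpace G] [T2Space G] (h : ProLie G) :
    (StronglyReflexive G ↔
      (∀ (J : Type u) (f : G →ₜ+ (J → ℝ)), Function.Surjective f → IsOpenMap f → Countable J) ∧
      ∀ L H : AddSubgroup G, IsClosed (L : Set G) → IsClosed (H : Set G) → L ≤ H →
        NonarchimedeanAddGroup (H ⧸ L.addSubgroupOf H) →
        IsReflexive (H ⧸ L.addSubgroupOf H)) ∧
    (StronglyReflexive G →
      (∀ H : AddSubgroup G, IsClosed (H : Set G) → StronglyReflexive H) ∧
      ∀ L : AddSubgroup G, IsClosed (L : Set G) → StronglyReflexive (G ⧸ L)) := by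
  obtain ⟨hsep, J, P, i1, i2, i3, i4, π, hπ, hπo, hK, hP⟩ := h.hasForm
  have hext : ∀ H : AddSubgroup G, IsClosed (H : Set G) →
      ∀ ξ : Dual H, ∃ χ : Dual G, ∀ x : H, χ x = ξ x :=
    fun H hH ξ => exists_extension_of_compact_ker π hπ hπo hK (fun g _ hg => hsep g hg) H hH ξ
  refine ⟨⟨fun hs => ⟨fun J' f hf hfo => countable_of_stronglyReflexive_vec hs f hf hfo,
    fun L H hL hH hLH _ => hs.isReflexive_subquotient L H hL hH hLH (hext H hH)⟩, ?_⟩,
    fun hs => ⟨fun H hH => hs.of_closed hext H hH, fun L hL => hs.of_quotient hext L hL⟩⟩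
  rintro ⟨h1, h2⟩
  have hJ : Countable J := h1 J ((ContinuousAddMonoidHom.fst (J → ℝ) P).comp π)
    (Prod.fst_surjective.comp hπ) (isOpenMap_fst.comp hπo)
  refine stronglyReflexive_of_vec π hπ hπo hK (fun g _ hg => hsep g hg)
    (stronglyReflexive_vec_of_subquotients fun L H hL hH hLH hna => ?_)
  have hr := h2 (L.comap π.toAddMonoidHom) (H.comap π.toAddMonoidHom)
    (hL.preimage π.continuous_toFun) (hH.preimage π.continuous_toFun)
    (AddSubgroup.comap_mono hLH)
    (nonarchimedean_of_iso (subquotIso π hπ hπo L H).symm)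
  exact hr.congr (subquotIso π hπ hπo L H)

/-- **The main theorem on abelian pro-Lie groups** -/
theorem ProLie.main' {G : Type u} [AddCommGroup G] [UniformSpace G] [IsUniformAddGroup G]
    [CompleteSpace G] [T2Space G] (h : ProLie G) :
    ∃ (J P : Type u) (_ : AddCommGroup P) (_ : UniformSpace P) (_ : IsUniformAddGroup P)
      (_ : CompleteSpace P) (_ : T2Space P) (_ : NonarchimedeanAddGroup P)
      (π : G →ₜ+ (J → ℝ) × P), Function.Surjective π ∧ IsOpenMap π ∧
      IsCompact {g | π g = 0} ∧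
      (StronglyReflexive G ↔ StronglyReflexive ((J → ℝ) × P)) ∧
      (StronglyReflexive G →
        Countable J ∧ StronglyReflexive P ∧ StronglyReflexive ((J → ℤ) × P)) ∧
      (Finite J ∨ (∃ (m : ℕ) (U C : AddSubgroup P), m ≠ 0 ∧ IsOpen (U : Set P) ∧
          IsCompact (C : Set P) ∧ ∀ y ∈ U, m • y ∈ C) →
        (StronglyReflexive G ↔ Countable J ∧ StronglyReflexive P)) ∧
      (CondA G → (StronglyReflexive G ↔ Countable J)) := by
  obtain ⟨J, P, i1, i2, i3, i4, i5, i6, π, hπ, hπo, hK, h1, h2, h3, h4⟩ := h.main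
  refine ⟨J, P, i1, i2, i3, i4, i5, i6, π, hπ, hπo, hK, h1,
    fun hs => ⟨(h2 hs).1, (h2 hs).2, (h1.1 hs).int_vec⟩, ?_,
    fun hA => ⟨fun hs => (h2 hs).1, h4 hA⟩⟩
  rintro (hf | ⟨m, U, C, hm, hU, hC, hUC⟩)
  · exact ⟨h2, fun hs => h3 hf hs.2⟩
  · refine ⟨h2, fun hs => ?_⟩
    obtain ⟨hJ, hP⟩ := hs
    exact h1.2 (stronglyReflexive_vec_of_relCompact hP hm U C hU hC hUC)

end Pool.Agent.Work.MP_c629c8_al
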