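import Mathlib
import Pool.Agent.Work.MP_c629c8_al.Main

/-!
# Necessary conditions for products of arbitrary topological groups
-/

namespace Pool.Agent.Work.MP_c629c8_al

open Topology

section

variable {I : Type*} {X : I → Type*} [∀ i, AddCommGroup (X i)] [∀ i, TopologicalSpace (X i)]
  [∀ i, IsTopologicalAddGroup (X i)]

theorem countable_of_finite_primes'
    (hπ : ∀ i, ∀ N : AddSubgroup (X i), IsOpen (N : Set (X i)) →
      {p : ℕ | p.Prime ∧ ∃ x : X i ⧸ N, x ≠ 0 ∧ p • x = 0}.Finite)
    (hs : StronglyReflexive (∀ i, X i)) : {i | ¬ ArtinianQuotients (X i)}.Countable := by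
  refine (countable_torsion hs).mono ?_
  intro i hi h1
  apply hi
  intro N hN
  exact isArtinian_of_finite_primes (h1 N hN).1 (hπ i N hN) (h1 N hN).2

theorem countable_of_types' (κ : I → ℕ) (hκ : ∀ i j, κ i = κ j → Nonempty (X i ≃ₜ+ X j))
    (hs : StronglyReflexive (∀ i, X i)) : {i | ¬ ArtinianQuotients (X i)}.Countable := by
  have h1 : {i | ¬ ArtinianQuotients (X i)} ⊆ ⋃ n : ℕ, {i | ¬ ArtinianQuotients (X i) ∧ κ i = n} := by
    intro i hi
    simp only [Set.mem_iUnion]
    exact ⟨κ i, hi, rfl⟩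
  refine (Set.countable_iUnion fun n => ?_).mono h1
  rcases Set.eq_empty_or_nonempty {i | ¬ ArtinianQuotients (X i) ∧ κ i = n} with he | ⟨j, hj, hjn⟩
  · rw [he]
    exact Set.countable_empty
  · unfold ArtinianQuotients at hj
    push Not at hj
    obtain ⟨N, hN, hNA⟩ := hj
    obtain ⟨S, hS1, hS2⟩ := exists_countable_not_artinian hNA
    refine (countable_embeds hS2 hs).mono ?_
    rintro i ⟨-, hi⟩
    obtain ⟨e⟩ := hκ j i (hjn.trans hi.symm)
    refine ⟨N.comap e.symm.toAddEquiv.toAddMonoidHom, hN.preimage e.symm.continuous, ?_⟩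
    let g : X j ⧸ N →+ X i ⧸ N.comap e.symm.toAddEquiv.toAddMonoidHom :=
      QuotientAddGroup.map _ _ e.toAddEquiv.toAddMonoidHom (by
        intro x hx
        show e.symm (e x) ∈ N
        rwa [e.symm_apply_apply])
    refine ⟨g.comp S.subtype, ?_⟩
    have hg : Function.Injective g := by
      rw [injective_iff_map_eq_zero]
      intro a ha
      obtain ⟨x, rfl⟩ := QuotientAddGroup.mk_surjective a
      have h2 : (QuotientAddGroup.mk (e x) :
        X i ⧸ N.comap e.symm.toAddEquiv.toAddMonoidHom) = 0 := ha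
      rw [QuotientAddGroup.eq_zero_iff] at h2 ⊢
      have h3 : e.symm (e x) ∈ N := h2
      rwa [e.symm_apply_apply] at h3
    exact hg.comp Subtype.val_injective

end

end Pool.Agent.Work.MP_c629c8_al
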