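import Mathlib
import Pool.Agent.Work.MP_c629c8_al.Vec.Forms
import Pool.Agent.Work.MP_c629c8_al.Vec.PL
import Pool.Agent.Work.MP_c629c8_al.Vec.ProdNec
import Pool.Agent.Work.MP_c629c8_al.UnifMain

/-!
# Products of abelian pro-Lie groups
-/

universe u v w

namespace Pool.Agent.Work.MP_c629c8_al

open Topology Cardinal

section

variable {I : Type u} {L : I → Type v} [∀ i, AddCommGroup (L i)]

/-- the projections -/
def projHom [∀ i, TopologicalSpace (L i)] (i : I) : (∀ i, L i) →ₜ+ L i where
  toFun x := x i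
  map_zero' := rfl
  map_add' _ _ := rfl
  continuous_toFun := continuous_apply i

lemma projHom_surjective [∀ i, TopologicalSpace (L i)] (i : I) :
    Function.Surjective (projHom (L := L) i) := fun y => by
  classical
  exact ⟨Pi.single i y, Pi.single_eq_same i y⟩

lemma projHom_isOpenMap [∀ i, TopologicalSpace (L i)] (i : I) :
    IsOpenMap (projHom (L := L) i) := isOpenMap_eval i

variable [∀ i, UniformSpace (L i)] [∀ i, IsUniformAddGroup (L i)] [∀ i, CompleteSpace (L i)]
  [∀ i, T2Space (L i)]

/-- the factors of a strongly reflexive product of abelian pro-Lie groups with (A) -/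
theorem stronglyReflexive_factor (hL : ∀ i, ProLie (L i)) (hA : ∀ i, CondA (L i))
    (hs : StronglyReflexive (∀ i, L i)) (i : I) : StronglyReflexive (L i) := by
  rw [(hL i).hasForm.stronglyReflexive_iff (hA i)]
  intro J f hf hfo
  exact countable_of_stronglyReflexive_vec hs (f.comp (projHom i))
    (hf.comp (projHom_surjective i)) (hfo.comp (projHom_isOpenMap i))

/-- sufficiency -/
theorem stronglyReflexive_pi_proLie (hL : ∀ i, ProLie (L i)) (hA : ∀ i, CondA (L i))
    (hs : ∀ i, StronglyReflexive (L i))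
    (hR : {i | ∃ f : L i →ₜ+ ℝ, Function.Surjective f ∧ IsOpenMap f}.Countable)
    (hE : {i | ¬ ArtinianQuotients (L i)}.Countable) : StronglyReflexive (∀ i, L i) :=
  stronglyReflexive_pi_of_form (fun i => (hL i).hasForm) hA hs hR hE

/-- the criterion, when the number of the non-Artinian factors of strongly reflexive products is
countable -/
theorem stronglyReflexive_pi_iff (hL : ∀ i, ProLie (L i)) (hA : ∀ i, CondA (L i))
    (hE : StronglyReflexive (∀ i, L i) → {i | ¬ ArtinianQuotients (L i)}.Countable) :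
    StronglyReflexive (∀ i, L i) ↔ (∀ i, StronglyReflexive (L i)) ∧
      {i | ∃ f : L i →ₜ+ ℝ, Function.Surjective f ∧ IsOpenMap f}.Countable ∧
      {i | ¬ ArtinianQuotients (L i)}.Countable :=
  ⟨fun h => ⟨stronglyReflexive_factor hL hA h, countable_real h, hE h⟩,
    fun ⟨h1, h2, h3⟩ => stronglyReflexive_pi_proLie hL hA h1 h2 h3⟩

/-- Under `2 ^ ℵ₀ < 2 ^ ℵ₁`: the strongly reflexive products of abelian pro-Lie groups with (A) -/
theorem stronglyReflexive_pi_iff_of_weakCH (hCH : (2 : Cardinal.{0}) ^ ℵ₀ < 2 ^ ℵ₁)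
    (hL : ∀ i, ProLie (L i)) (hA : ∀ i, CondA (L i)) :
    StronglyReflexive (∀ i, L i) ↔ (∀ i, StronglyReflexive (L i)) ∧
      {i | ∃ f : L i →ₜ+ ℝ, Function.Surjective f ∧ IsOpenMap f}.Countable ∧
      {i | ¬ ArtinianQuotients (L i)}.Countable :=
  stronglyReflexive_pi_iff hL hA fun h => countable_of_weakCH hCH h

/-- In ZFC, when the discrete quotients have torsion for finitely many primes, or when the factors
are of countably many isomorphism types -/
theorem stronglyReflexive_pi_iff_of_types (hL : ∀ i, ProLie (L i)) (hA : ∀ i, CondA (L i))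
    (h : (∀ i, ∀ N : AddSubgroup (L i), IsOpen (N : Set (L i)) →
        {p : ℕ | p.Prime ∧ ∃ x : L i ⧸ N, x ≠ 0 ∧ p • x = 0}.Finite) ∨
      ∃ κ : I → ℕ, ∀ i j, κ i = κ j → Nonempty (L i ≃ₜ+ L j)) :
    StronglyReflexive (∀ i, L i) ↔ (∀ i, StronglyReflexive (L i)) ∧
      {i | ∃ f : L i →ₜ+ ℝ, Function.Surjective f ∧ IsOpenMap f}.Countable ∧
      {i | ¬ ArtinianQuotients (L i)}.Countable := by
  refine stronglyReflexive_pi_iff hL hA fun hs => ?_
  rcases h with h | ⟨κ, hκ⟩
  · exact countable_of_finite_primes' h hs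
  · exact countable_of_types' κ hκ hs

end

end Pool.Agent.Work.MP_c629c8_al
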