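import Pool.Agent.Work.MP_c629c8_al.Vec.CondPi
import Pool.Agent.Work.MP_c629c8_al.Main

/-!
# Vector quotients of strongly reflexive groups
-/

universe u v w

namespace Pool.Agent.Work.MP_c629c8_al

open Topology Cardinal

/-- necessity, for all topological abelian groups -/
theorem countable_of_stronglyReflexive_vec {G : Type u} [AddCommGroup G] [TopologicalSpace G]
    [IsTopologicalAddGroup G] (hs : StronglyReflexive G) {J : Type v} (f : G →ₜ+ (J → ℝ))
    (hf : Function.Surjective f) (hfo : IsOpenMap f) : Countable J := by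
  by_contra h
  have : Uncountable J := not_countable_iff.1 h
  have h1 : Bad (J → ℝ) := realChain.exists_bad_quotient J
  exact (h1.of_quotient f hf hfo).not_stronglyReflexive hs

/-- the restriction of vectors along an injection -/
def restr {J : Type u} {J' : Type v} (ι : J' → J) : (J → ℝ) →ₜ+ (J' → ℝ) where
  toFun x j := x (ι j)
  map_zero' := rfl
  map_add' _ _ := rfl
  continuous_toFun := continuous_pi fun j => continuous_apply (ι j)

theorem restr_surjective {J : Type u} {J' : Type v} {ι : J' → J} (hι : Function.Injective ι) :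
    Function.Surjective (restr ι) := fun y =>
  ⟨Function.extend ι y 0, funext fun j => hι.extend_apply _ _ j⟩

theorem restr_isOpenMap {J : Type u} {J' : Type v} {ι : J' → J} (hι : Function.Injective ι) :
    IsOpenMap (restr ι) := by
  classical
  have : IsOpenMap (restr ι).toAddMonoidHom := by
    rw [IsTopologicalAddGroup.isOpenMap_iff_nhds_zero]
    intro W hW
    rw [Filter.mem_map, nhds_pi, Filter.mem_pi] at hW
    obtain ⟨F, hF, t, ht, hsub⟩ := hW
    have h1 : (ι ⁻¹' F).pi (fun j => t (ι j)) ∈ 𝓝 (0 : J' → ℝ) := by
      rw [nhds_pi]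
      exact Filter.pi_mem_pi (hF.preimage hι.injOn) fun j _ => ht (ι j)
    refine Filter.mem_of_superset h1 fun y hy => ?_
    have h2 : Function.extend ι y 0 ∈ (restr ι).toAddMonoidHom ⁻¹' W := by
      refine hsub fun j hj => ?_
      by_cases hj' : ∃ j', ι j' = j
      · obtain ⟨j', rfl⟩ := hj'
        rw [hι.extend_apply]
        exact hy j' hj
      · rw [Function.extend_apply' _ _ _ hj']
        exact mem_of_mem_nhds (ht j)
    have h3 : (restr ι).toAddMonoidHom (Function.extend ι y 0) = y :=
      funext fun j => hι.extend_apply _ _ j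
    rw [Set.mem_preimage, h3] at h2
    exact h2
  exact this

/-- If all vector quotients (with index sets in `Type`) of `G` have countably many coordinates,
then this holds for all index sets. -/
theorem countable_of_forall {G : Type u} [AddCommGroup G] [TopologicalSpace G]
    (h : ∀ (J : Type) (f : G →ₜ+ (J → ℝ)), Function.Surjective f → IsOpenMap f → Countable J)
    {J : Type v} (f : G →ₜ+ (J → ℝ)) (hf : Function.Surjective f) (hfo : IsOpenMap f) :
    Countable J := by
  by_contra hJ
  have hJ0 : Uncountable J := not_countable_iff.1 hJ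
  let J' : Type := (ℵ₁ : Cardinal.{0}).out
  have hJ' : #J' = ℵ₁ := Cardinal.mk_out _
  have h1 : lift.{v} #J' ≤ lift.{0} #J := by
    rw [hJ', lift_aleph, Ordinal.lift_one, aleph_one_le_iff, lift_id', aleph0_lt_mk_iff]
    exact hJ0
  obtain ⟨⟨ι, hι⟩⟩ := Cardinal.lift_mk_le'.1 h1
  have h2 := h J' ((restr ι).comp f) ((restr_surjective hι).comp hf)
    ((restr_isOpenMap hι).comp hfo)
  have h3 : #J' ≤ ℵ₀ := Cardinal.mk_le_aleph0
  rw [hJ'] at h3
  exact absurd h3 (not_le.2 aleph0_lt_aleph_one)

end Pool.Agent.Work.MP_c629c8_al
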